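import Pool.Agent.Lib.MP_154526_nt.Low.Defs

/-!
# The lower bound: API of the free associative algebra
-/

set_option autoImplicit false

namespace MP154526.Low

open Finset MP154526.Top MP154526.Top.Pass2
open scoped TensorProduct

section Coefficients

variable {R α : Type} [CommRing R]

@[simp] theorem cf_zero (w : List α) : cf (0 : FA R α) w = 0 := rfl

@[simp] theorem cf_add (f g : FA R α) (w : List α) : cf (f + g) w = cf f w + cf g w := rfl

@[simp] theorem cf_smul (r : R) (f : FA R α) (w : List α) : cf (r • f) w = r * cf f w := rfl

@[simp] theorem cf_neg (f : FA R α) (w : List α) : cf (-f) w = -cf f w := rfl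

@[simp] theorem cf_sub (f g : FA R α) (w : List α) : cf (f - g) w = cf f w - cf g w := rfl

/-- the coefficient as a linear map -/
def cfL (R : Type) [CommRing R] {α : Type} (w : List α) : FA R α →ₗ[R] R where
  toFun f := cf f w
  map_add' _ _ := rfl
  map_smul' _ _ := rfl

@[simp] theorem cfL_apply (w : List α) (f : FA R α) : cfL R w f = cf f w := rfl

theorem cf_sum {ι : Type} (s : Finset ι) (F : ι → FA R α) (w : List α) :
    cf (∑ i ∈ s, F i) w = ∑ i ∈ s, cf (F i) w := map_sum (cfL R w) F s

theorem cf_ow [DecidableEq α] (u w : List α) : cf (ow R u) w = if u = w then 1 else 0 := by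
  unfold cf ow
  rw [MonoidAlgebra.coeff_single]
  by_cases h : u = w
  · subst h
    rw [if_pos rfl]
    exact Finsupp.single_eq_same
  · rw [if_neg h]
    exact Finsupp.single_eq_of_ne fun h' => h (FreeMonoid.ofList.injective h').symm

@[simp] theorem cf_ow_self (w : List α) : cf (ow R w) w = 1 := by
  classical
  rw [cf_ow, if_pos rfl]

theorem cf_ow_ne {u w : List α} (h : u ≠ w) : cf (ow R u) w = 0 := by
  classical
  rw [cf_ow, if_neg h]

theorem FA_ext {f g : FA R α} (h : ∀ w, cf f w = cf g w) : f = g := by
  apply MonoidAlgebra.ext
  ext w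
  exact h w.toList

theorem ow_nil : ow R ([] : List α) = 1 := rfl

theorem ow_append (u v : List α) : ow R (u ++ v) = ow R u * ow R v := by
  unfold ow
  rw [MonoidAlgebra.single_mul_single, one_mul]
  rfl

theorem ow_cons (a : α) (w : List α) : ow R (a :: w) = ow R [a] * ow R w := ow_append [a] w

theorem smul_ow (r : R) (w : List α) :
    r • ow R w = MonoidAlgebra.single (FreeMonoid.ofList w) r := by
  unfold ow
  rw [MonoidAlgebra.smul_single, smul_eq_mul, mul_one]

/-- induction -/
theorem FA_ind {p : FA R α → Prop} (h0 : p 0) (hadd : ∀ f g, p f → p g → p (f + g))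
    (hs : ∀ (r : R) (w : List α), p (r • ow R w)) (f : FA R α) : p f := by
  induction f using MonoidAlgebra.induction_linear with
  | zero => exact h0
  | add f g hf hg => exact hadd f g hf hg
  | single w r =>
    have := hs r w.toList
    rw [smul_ow] at this
    exact this

variable {M : Type} [AddCommGroup M] [Module R M]

@[simp] theorem lext_ow (φ : List α → M) (w : List α) : lext φ (ow R w) = φ w := by
  unfold lext ow
  simp [MonoidAlgebra.coeffLinearEquiv]

theorem FA_lin_ext {F G : FA R α →ₗ[R] M} (h : ∀ w, F (ow R w) = G (ow R w)) : F = G := by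
  apply LinearMap.ext
  intro f
  induction f using FA_ind with
  | h0 => simp
  | hadd f g hf hg => rw [map_add, map_add, hf, hg]
  | hs r w => rw [map_smul, map_smul, h]

theorem FA_lin_ext' {F G : FA R α →ₗ[R] M} (h : ∀ w, F (ow R w) = G (ow R w)) (f : FA R α) :
    F f = G f := by rw [FA_lin_ext h]

theorem lext_comp {M' : Type} [AddCommGroup M'] [Module R M'] (g : M →ₗ[R] M') (φ : List α → M)
    (f : FA R α) : g (lext φ f) = lext (fun w => g (φ w)) f := by
  have : g ∘ₗ lext φ = lext (R := R) (fun w => g (φ w)) := FA_lin_ext (by simp)
  exact LinearMap.congr_fun this f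

theorem lext_add_fun (φ ψ : List α → M) (f : FA R α) :
    lext (fun w => φ w + ψ w) f = lext φ f + lext ψ f := by
  have : lext (R := R) (fun w => φ w + ψ w) = lext φ + lext ψ := FA_lin_ext (by simp)
  exact LinearMap.congr_fun this f

theorem lext_self (f : FA R α) : lext (fun w => ow R w) f = f := by
  have : lext (R := R) (fun w : List α => ow R w) = LinearMap.id := FA_lin_ext (by simp)
  exact LinearMap.congr_fun this f

theorem lext_delta [DecidableEq α] (u : List α) (f : FA R α) :
    lext (fun w => if w = u then (1 : R) else 0) f = cf f u := by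
  have : lext (R := R) (fun w => if w = u then (1 : R) else 0) = cfL R u :=
    FA_lin_ext fun w => by rw [lext_ow, cfL_apply, cf_ow]
  exact LinearMap.congr_fun this f

/-- `f` is a finite sum of words -/
theorem eq_sum_ow (f : FA R α) :
    f = ∑ w ∈ f.coeff.support, cf f w.toList • ow R w.toList := by
  have h := lext_self (R := R) f
  conv_lhs => rw [← h]
  unfold lext
  rw [LinearMap.comp_apply, Finsupp.linearCombination_apply, Finsupp.sum]
  rfl

theorem lext_eq_sum (φ : List α → M) (f : FA R α) :
    lext φ f = ∑ w ∈ f.coeff.support, cf f w.toList • φ w.toList := by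
  unfold lext
  rw [LinearMap.comp_apply, Finsupp.linearCombination_apply, Finsupp.sum]
  rfl

/-! ### coefficients of products -/

theorem cf_ow_mul_nil (a : α) (f : FA R α) : cf (ow R [a] * f) [] = 0 := by
  induction f using FA_ind with
  | h0 => simp
  | hadd f g hf hg => rw [mul_add, cf_add, hf, hg, add_zero]
  | hs r w =>
    rw [mul_smul_comm, cf_smul, ← ow_append, cf_ow_ne (by simp), mul_zero]

theorem cf_ow_mul_cons [DecidableEq α] (a b : α) (f : FA R α) (w : List α) :
    cf (ow R [a] * f) (b :: w) = if a = b then cf f w else 0 := by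
  induction f using FA_ind with
  | h0 => simp
  | hadd f g hf hg =>
    rw [mul_add, cf_add, hf, hg]
    split_ifs <;> simp
  | hs r v =>
    rw [mul_smul_comm, cf_smul, ← ow_append, cf_ow, cf_smul, cf_ow]
    by_cases h : a = b
    · subst h
      simp
    · simp [h]

theorem cf_mul_ow_nil (a : α) (f : FA R α) : cf (f * ow R [a]) [] = 0 := by
  induction f using FA_ind with
  | h0 => simp
  | hadd f g hf hg => rw [add_mul, cf_add, hf, hg, add_zero]
  | hs r w =>
    rw [smul_mul_assoc, cf_smul, ← ow_append, cf_ow_ne (by simp), mul_zero]

theorem cf_mul_ow_snoc [DecidableEq α] (a b : α) (f : FA R α) (w : List α) :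
    cf (f * ow R [a]) (w ++ [b]) = if a = b then cf f w else 0 := by
  induction f using FA_ind with
  | h0 => simp
  | hadd f g hf hg =>
    rw [add_mul, cf_add, hf, hg]
    split_ifs <;> simp
  | hs r v =>
    rw [smul_mul_assoc, cf_smul, ← ow_append, cf_ow, cf_smul, cf_ow]
    by_cases h : a = b
    · subst h
      simp
    · have : ¬ (v ++ [a] = w ++ [b]) := by
        intro h'
        rw [List.append_eq_append_iff_of_size_eq_right (by simp)] at h'
        exact h (by simpa using h'.2)
      simp [h, this]

/-- the coefficients of a product: sum over the deconcatenations -/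
theorem cf_mul (f g : FA R α) (w : List α) :
    cf (f * g) w = ∑ i ∈ range (w.length + 1), cf f (w.take i) * cf g (w.drop i) := by
  classical
  induction f using FA_ind with
  | h0 => simp
  | hadd f f' hf hf' =>
    rw [add_mul, cf_add, hf, hf', ← Finset.sum_add_distrib]
    exact Finset.sum_congr rfl fun i _ => by rw [cf_add, add_mul]
  | hs r u =>
    rw [smul_mul_assoc, cf_smul]
    have key : cf (ow R u * g) w =
        ∑ i ∈ range (w.length + 1), cf (ow R u) (w.take i) * cf g (w.drop i) := by
      induction u generalizing w with
      | nil =>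
        rw [ow_nil, one_mul, Finset.sum_eq_single 0]
        · rw [List.take_zero, List.drop_zero, ← ow_nil, cf_ow_self, one_mul]
        · intro i hi h0
          rw [← ow_nil, cf_ow_ne, zero_mul]
          intro h
          have := congrArg List.length h
          rw [List.length_nil, List.length_take] at this
          rw [Finset.mem_range] at hi
          omega
        · simp
      | cons a u ih =>
        rw [ow_cons, mul_assoc]
        cases w with
        | nil =>
          rw [cf_ow_mul_nil]
          simp [cf_ow_mul_nil]
        | cons b w =>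
          rw [cf_ow_mul_cons, List.length_cons, Finset.sum_range_succ']
          simp only [List.take_succ_cons, List.drop_succ_cons, List.take_zero, List.drop_zero,
            cf_ow_mul_cons, cf_ow_mul_nil, zero_mul, add_zero]
          by_cases h : a = b
          · simp only [if_pos h]
            exact ih w
          · simp [h]
    rw [key, Finset.mul_sum]
    exact Finset.sum_congr rfl fun i _ => by rw [cf_smul, mul_assoc]

theorem cf_one_nil : cf (1 : FA R α) [] = 1 := cf_ow_self []

theorem cf_one_ne {w : List α} (h : w ≠ []) : cf (1 : FA R α) w = 0 := cf_ow_ne (Ne.symm h)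

/-! ### derivations -/

@[simp] theorem der_ow (d : α → FA R α) (w : List α) : der d (ow R w) = derW d w := lext_ow _ _

theorem der_letter (d : α → FA R α) (a : α) : der d (ow R [a]) = d a := by
  rw [der_ow]
  simp only [derW, mul_zero, add_zero]
  rw [ow_nil, mul_one]

@[simp] theorem der_one (d : α → FA R α) : der d 1 = 0 := by
  rw [← ow_nil, der_ow]
  rfl

theorem derW_append (d : α → FA R α) (u v : List α) :
    derW d (u ++ v) = derW d u * ow R v + ow R u * derW d v := by
  induction u with
  | nil => simp [derW, ow_nil]
  | cons a u ih =>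
    rw [List.cons_append, derW, derW, ih, ow_append, ow_cons a u]
    simp only [mul_add, add_mul, mul_assoc, add_assoc]

theorem der_mul (d : α → FA R α) (f g : FA R α) :
    der d (f * g) = der d f * g + f * der d g := by
  induction f using FA_ind with
  | h0 => simp
  | hadd f f' hf hf' => rw [add_mul, map_add, hf, hf', map_add]; simp only [add_mul]; abel
  | hs r u =>
    induction g using FA_ind with
    | h0 => simp
    | hadd g g' hg hg' => rw [mul_add, map_add, hg, hg', map_add]; simp only [mul_add]; abel
    | hs s v =>
      simp only [smul_mul_assoc, mul_smul_comm, map_smul, der_ow]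
      rw [← ow_append, der_ow, derW_append]
      simp only [smul_add]

/-- uniqueness of derivations -/
theorem der_unique (d : α → FA R α) (F : FA R α →ₗ[R] FA R α)
    (hm : ∀ f g, F (f * g) = F f * g + f * F g) (ha : ∀ a, F (ow R [a]) = d a) : F = der d := by
  apply FA_lin_ext
  intro w
  induction w with
  | nil =>
    rw [ow_nil, der_one]
    have := hm 1 1
    simpa using this
  | cons a w ih => rw [ow_cons, hm, der_mul, ih, ha, der_letter]

theorem der_add_fun (d e : α → FA R α) (f : FA R α) :
    der (fun a => d a + e a) f = der d f + der e f := by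
  have h := der_unique (fun a => d a + e a) (der d + der e)
    (fun f g => by
      simp only [LinearMap.add_apply, der_mul, mul_add, add_mul]
      abel)
    (fun a => by simp only [LinearMap.add_apply, der_letter])
  rw [← h]
  rfl

end Coefficients

/-! ### change of rings -/

section Mp

variable {R S α : Type} [CommRing R] [CommRing S] (μ : R →+* S)

@[simp] theorem cf_mp (f : FA R α) (w : List α) : cf (mp μ f) w = μ (cf f w) := by
  unfold cf mp
  rw [MonoidAlgebra.coeff_mapRingHom]

@[simp] theorem mp_ow (w : List α) : mp μ (ow R w) = ow S w := by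
  classical
  apply FA_ext
  intro v
  rw [cf_mp, cf_ow, cf_ow]
  split_ifs <;> simp

theorem mp_smul (r : R) (f : FA R α) : mp μ (r • f) = μ r • mp μ f :=
  FA_ext fun w => by simp

theorem mp_der (d : α → FA R α) (f : FA R α) :
    mp μ (der d f) = der (fun a => mp μ (d a)) (mp μ f) := by
  induction f using FA_ind with
  | h0 => simp
  | hadd f g hf hg => simp only [map_add, hf, hg]
  | hs r w =>
    rw [map_smul, mp_smul, mp_smul, map_smul]
    congr 1
    induction w with
    | nil => rw [ow_nil, der_one, map_zero, map_one, der_one]
    | cons a w ih =>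
      rw [ow_cons, der_mul, map_add, map_mul, map_mul, ih, map_mul, der_mul, mp_ow, mp_ow,
        der_letter, der_letter]

theorem mp_sop (ψ f : FA R Bool) : mp μ (sop ψ f) = sop (mp μ ψ) (mp μ f) := by
  unfold sop
  rw [LinearMap.add_apply, LinearMap.add_apply, map_add, mp_der]
  congr 1
  · simp
  · congr 1
    congr 1
    funext a
    split_ifs <;> simp

theorem mp_comp {T : Type} [CommRing T] (ν : S →+* T) (f : FA R α) :
    mp ν (mp μ f) = mp (ν.comp μ) f := FA_ext fun w => by simp

end Mp

theorem sop_apply {R : Type} [CommRing R] (ψ f : FA R Bool) :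
    sop ψ f = ψ * f + der (fun a => if a then ow R [true] * ψ - ψ * ow R [true] else 0) f := rfl

theorem sop_one {R : Type} [CommRing R] (ψ : FA R Bool) : sop ψ 1 = ψ := by
  rw [sop_apply, der_one, mul_one, add_zero]

/-! ### decoding -/

section ToY

theorem toY_rep (k a : ℕ) (w : List Bool) :
    toY k (List.replicate a false ++ w) = toY (k + a) w := by
  induction a generalizing k with
  | zero => rfl
  | succ a ih =>
    rw [List.replicate_succ, List.cons_append]
    have : toY k (false :: (List.replicate a false ++ w)) =
        toY (k + 1) (List.replicate a false ++ w) := by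
      cases k <;> rfl
    rw [this, ih]
    congr 1
    omega

theorem toY_true (k : ℕ) (w : List Bool) : toY k (true :: w) = (toY 0 w).map (List.cons k) := by
  cases k <;> rfl

theorem toY_false (k : ℕ) (w : List Bool) : toY k (false :: w) = toY (k + 1) w := by
  cases k <;> rfl

@[simp] theorem toY_bw (l : List ℕ) : toY 0 (bw l) = some l := by
  induction l with
  | nil => rfl
  | cons a l ih =>
    show toY 0 (List.replicate a false ++ true :: bw l) = _
    rw [toY_rep, toY_true, ih]
    simp

theorem toY_some {k : ℕ} {w : List Bool} {l : List ℕ} (h : toY k w = some l) :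
    (k = 0 ∧ w = bw l) ∨ ∃ a l', l = (k + a) :: l' ∧ w = bw (a :: l') := by
  induction w generalizing k l with
  | nil =>
    cases k with
    | zero =>
      left
      simp only [toY, Option.some.injEq] at h
      exact ⟨rfl, by rw [← h]; rfl⟩
    | succ k => simp [toY] at h
  | cons s w ih =>
    cases s with
    | false =>
      rw [toY_false] at h
      rcases ih h with ⟨h1, _⟩ | ⟨a, l', h1, h2⟩
      · omega
      · right
        refine ⟨a + 1, l', ?_, ?_⟩
        · rw [h1]
          congr 1
          omega
        · rw [h2]
          rfl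
    | true =>
      rw [toY_true] at h
      rw [Option.map_eq_some_iff] at h
      obtain ⟨l', h1, h2⟩ := h
      right
      refine ⟨0, l', by simpa using h2.symm, ?_⟩
      rcases ih h1 with ⟨_, h3⟩ | ⟨a, l'', h3, h4⟩
      · rw [h3]
        rfl
      · rw [h4, h3]
        simp [bw]

theorem toY_eq_some {w : List Bool} {l : List ℕ} : toY 0 w = some l ↔ w = bw l := by
  constructor
  · intro h
    rcases toY_some h with ⟨_, h1⟩ | ⟨a, l', h1, h2⟩
    · exact h1
    · rw [h2, h1]
      simp
  · intro h
    rw [h, toY_bw]

theorem bw_injective : Function.Injective bw := by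
  intro l l' h
  have h1 := toY_bw l
  rw [h, toY_bw] at h1
  exact (Option.some.inj h1).symm

theorem toY_snoc_false (k : ℕ) (w : List Bool) : toY k (w ++ [false]) = none := by
  induction w generalizing k with
  | nil =>
    show toY k [false] = none
    rw [toY_false]
    rfl
  | cons s w ih =>
    rw [List.cons_append]
    cases s with
    | false => rw [toY_false, ih]
    | true => rw [toY_true, ih]; rfl

theorem bw_append (l l' : List ℕ) : bw (l ++ l') = bw l ++ bw l' := by
  induction l with
  | nil => rfl
  | cons a l ih =>
    show List.replicate a false ++ true :: bw (l ++ l') = _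
    rw [ih]
    simp [bw]

theorem exists_bw_of_true (w : List Bool) : ∃ l, w ++ [true] = bw l ∧ l ≠ [] := by
  induction w with
  | nil => exact ⟨[0], rfl, by simp⟩
  | cons s w ih =>
    obtain ⟨l, hl, hne⟩ := ih
    obtain ⟨a, l', rfl⟩ := List.exists_cons_of_ne_nil hne
    cases s with
    | false =>
      refine ⟨(a + 1) :: l', ?_, by simp⟩
      rw [List.cons_append, hl]
      rfl
    | true =>
      refine ⟨0 :: a :: l', ?_, by simp⟩
      rw [List.cons_append, hl]
      rfl

variable {R : Type} [CommRing R]

theorem piY_ow (w : List Bool) : piY (ow R w) = (toY 0 w).elim 0 (ow R) := lext_ow _ _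

@[simp] theorem piY_ow_bw (l : List ℕ) : piY (ow R (bw l)) = ow R l := by
  rw [piY_ow, toY_bw]
  rfl

theorem piY_one : piY (1 : FA R Bool) = 1 := piY_ow_bw []

@[simp] theorem piY_mul_x (f : FA R Bool) : piY (f * ow R [false]) = 0 := by
  induction f using FA_ind with
  | h0 => simp
  | hadd f g hf hg => rw [add_mul, map_add, hf, hg, add_zero]
  | hs r w =>
    rw [smul_mul_assoc, map_smul, ← ow_append, piY_ow, toY_snoc_false]
    simp

theorem cf_piY (f : FA R Bool) (l : List ℕ) : cf (piY f) l = cf f (bw l) := by
  induction f using FA_ind with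
  | h0 => simp
  | hadd f g hf hg => rw [map_add, cf_add, hf, hg, cf_add]
  | hs r w =>
    rw [map_smul, cf_smul, cf_smul, piY_ow]
    congr 1
    rcases h : toY 0 w with _ | l'
    · show cf (0 : FA R ℕ) l = _
      rw [cf_zero, cf_ow_ne]
      rintro rfl
      rw [toY_bw] at h
      simp at h
    · show cf (ow R l') l = _
      rw [toY_eq_some] at h
      subst h
      rw [cf_ow, cf_ow]
      by_cases h : l' = l
      · simp [h]
      · rw [if_neg h, if_neg fun h' => h (bw_injective h')]

/-- `π_Y` is multiplicative for factors in `ℌ¹` -/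
theorem piY_mul_bw (g : FA R Bool) (l : List ℕ) :
    piY (g * ow R [true] * ow R (bw l)) = piY (g * ow R [true]) * ow R l := by
  induction g using FA_ind with
  | h0 => simp
  | hadd f g hf hg => simp only [add_mul, map_add, hf, hg]
  | hs r w =>
    simp only [smul_mul_assoc, map_smul]
    congr 1
    obtain ⟨l', h1, _⟩ := exists_bw_of_true w
    rw [← ow_append, ← ow_append, h1, ← bw_append, piY_ow_bw, piY_ow_bw, ow_append]

/-- `π_Y` is multiplicative if the left factor is in `ℌ¹` -/
theorem piY_bw_mul (l : List ℕ) (g : FA R Bool) :
    piY (ow R (bw l) * g) = ow R l * piY g := by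
  induction g using FA_ind with
  | h0 => simp
  | hadd f g hf hg => simp only [mul_add, map_add, hf, hg]
  | hs r w =>
    simp only [mul_smul_comm, map_smul]
    congr 1
    rw [← ow_append]
    rcases List.eq_nil_or_concat w with rfl | ⟨w, s, rfl⟩
    · rw [List.append_nil, piY_ow_bw, ow_nil, piY_one, mul_one]
    · cases s with
      | false =>
        rw [List.concat_eq_append, ← List.append_assoc, ow_append, piY_mul_x, ow_append, piY_mul_x,
          mul_zero]
      | true =>
        rw [List.concat_eq_append]
        obtain ⟨l', h1, _⟩ := exists_bw_of_true w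
        rw [h1, ← bw_append, piY_ow_bw, piY_ow_bw, ow_append]

end ToY

/-! ### coproducts -/

section Tensor

variable {R α : Type} [CommRing R]

theorem Dsh_letter (a : α) : Dsh R α (ow R [a]) = ow R [a] ⊗ₜ[R] 1 + 1 ⊗ₜ[R] ow R [a] := by
  unfold Dsh
  rw [show ow R [a] = MonoidAlgebra.single (FreeMonoid.of a) (1 : R) from rfl,
    MonoidAlgebra.lift_single, one_smul, FreeMonoid.lift_eval_of]
  rfl

theorem Dst_letter (n : ℕ) :
    Dst R (ow R [n]) = ∑ i ∈ range (n + 2), yy R i ⊗ₜ[R] yy R (n + 1 - i) := by
  unfold Dst
  rw [show ow R [n] = MonoidAlgebra.single (FreeMonoid.of n) (1 : R) from rfl,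
    MonoidAlgebra.lift_single, one_smul, FreeMonoid.lift_eval_of]

theorem Dst_yy (n : ℕ) :
    Dst R (yy R n) = ∑ i ∈ range (n + 1), yy R i ⊗ₜ[R] yy R (n - i) := by
  cases n with
  | zero =>
    show Dst R 1 = _
    rw [map_one]
    simp [yy, Algebra.TensorProduct.one_def]
  | succ n => exact Dst_letter n

@[simp] theorem cod_tmul (s : FA R α →ₗ[R] FA R α) (f g : FA R α) :
    cod s (f ⊗ₜ[R] g) = s f ⊗ₜ[R] g + f ⊗ₜ[R] s g := by
  unfold cod
  rw [LinearMap.add_apply, TensorProduct.map_tmul, TensorProduct.map_tmul]
  rfl

theorem cod_add (s t : FA R α →ₗ[R] FA R α) : cod (s + t) = cod s + cod t := by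
  unfold cod
  rw [TensorProduct.map_add_left, TensorProduct.map_add_right]
  abel

/-- `cod (der d)` is a derivation of the tensor product -/
theorem cod_der_mul (d : α → FA R α) (x y : FA R α ⊗[R] FA R α) :
    cod (der d) (x * y) = cod (der d) x * y + x * cod (der d) y := by
  induction x using TensorProduct.induction_on with
  | zero => simp
  | add x x' hx hx' => rw [add_mul, map_add, hx, hx', map_add]; simp only [add_mul]; abel
  | tmul a b =>
    induction y using TensorProduct.induction_on with
    | zero => simp
    | add y y' hy hy' => rw [mul_add, map_add, hy, hy', map_add]; simp only [mul_add]; abel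
    | tmul a' b' =>
      simp only [Algebra.TensorProduct.tmul_mul_tmul, cod_tmul, der_mul, TensorProduct.add_tmul,
        TensorProduct.tmul_add, add_mul, mul_add]
      abel

/-- the coderivation criterion -/
theorem cod_crit (Δ : FA R α →ₐ[R] FA R α ⊗[R] FA R α) (d : α → FA R α)
    (h : ∀ a, Δ (d a) = cod (der d) (Δ (ow R [a]))) (f : FA R α) :
    Δ (der d f) = cod (der d) (Δ f) := by
  induction f using FA_ind with
  | h0 => simp
  | hadd f g hf hg => simp only [map_add, hf, hg]
  | hs r w =>
    simp only [map_smul]
    congr 1
    induction w with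
    | nil =>
      rw [ow_nil, der_one, map_zero, map_one, Algebra.TensorProduct.one_def, cod_tmul, der_one]
      simp
    | cons a w ih =>
      rw [ow_cons, der_mul, map_add, map_mul, map_mul, ih, der_letter, h, map_mul, cod_der_mul]

end Tensor

end MP154526.Low
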