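import Pool.Agent.Lib.MP_154526_nt.Low.DualDefs

/-!
# The lower bound: exact statements of all modules

(The modules LEVEL, DESCENT, IND are stated in `DualDefs.lean`.)
-/

set_option autoImplicit false

namespace MP154526.Low

open Finset MP154526.Bound MP154526.Top MP154526.Top.Pass2 MP154526.Lin
open scoped TensorProduct

/-! ### free algebras, tensors -/

/-- TENS: coefficients of tensors and of the two coproducts -/
structure SpecTens : Prop where
  ext : ∀ (R α : Type) [CommRing R] (T : FA R α ⊗[R] FA R α), (∀ u v, cf2 T u v = 0) → T = 0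
  tmul : ∀ (R α : Type) [CommRing R] (f g : FA R α) (u v : List α),
    cf2 (f ⊗ₜ[R] g) u v = cf f u * cf g v
  sh : ∀ (R α : Type) [CommRing R] (f : FA R α) (u v : List α),
    cf2 (Dsh R α f) u v = shs (cf f) u v
  st : ∀ (R : Type) [CommRing R] (f : FA R ℕ) (u v : List ℕ),
    cf2 (Dst R f) u v = stf (cf f) u v

/-- CODC: `s ⊗ 1 + 1 ⊗ s` in coefficients, for an operator given by its transpose -/
def SpecCodc : Prop :=
  ∀ (R α : Type) [CommRing R] (s : FA R α →ₗ[R] FA R α) (t : List α → (List α → R) → R),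
    (∀ f w, cf (s f) w = t w (cf f)) → ∀ (T : FA R α ⊗[R] FA R α) (u v : List α),
      cf2 (cod s T) u v = t u (fun u' => cf2 T u' v) + t v (fun v' => cf2 T u v')

/-! ### Racinet's theorem -/

/-- PIS: the operator on the words ending in `y` -/
def SpecPis : Prop :=
  ∀ (R : Type) [CommRing R] (ψ f : FA R Bool),
    piY (sop ψ f) = dY ψ (piY f) + piY f * piY ψ

/-- SHC: `s_ψ` is a coderivation of the shuffle coproduct -/
def SpecShc : Prop :=
  ∀ (R : Type) [CommRing R] (ψ : FA R Bool), Dsh R Bool ψ = ψ ⊗ₜ[R] 1 + 1 ⊗ₜ[R] ψ →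
    ∀ f, Dsh R Bool (sop ψ f) = cod (sop ψ) (Dsh R Bool f)

/-- the derivation `y_n ↦ (n-1) y_{n-1}` -/
noncomputable def dd (R : Type) [CommRing R] : FA R ℕ →ₗ[R] FA R ℕ :=
  der fun m => (m : R) • yy R m

/-- reversal of the words -/
noncomputable def rv (R : Type) [CommRing R] : FA R ℕ →ₗ[R] FA R ℕ := lext fun w => ow R w.reverse

/-- BR: `[ψ, x^k] y` in terms of `π_Y(ψ)` (`ψ` primitive of weight `n`) -/
def SpecBr : Prop :=
  ∀ (R : Type) [CommRing R] [Algebra ℚ R] (n : ℕ) (ψ : FA R Bool), 2 ≤ n →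
    (∀ w, cf ψ w ≠ 0 → w.length = n) → Dsh R Bool ψ = ψ ⊗ₜ[R] 1 + 1 ⊗ₜ[R] ψ →
    ∀ k : ℕ, piY ((ψ * ow R (List.replicate k false) - ow R (List.replicate k false) * ψ) *
        ow R [true]) =
      ∑ i ∈ range (n + 1), algebraMap ℚ R (1 / (i.factorial : ℚ)) •
        ((-1 : R) ^ i • (((dd R) ^ i) (piY ψ) * yy R (k + 1 + i)) +
          (-1 : R) ^ (n - i) • (yy R (k + 1 + i) * rv R (((dd R) ^ i) (piY ψ))))

/-- RAC (from BR): `s_ψ` is a coderivation of the stuffle coproduct -/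
def SpecRac : Prop :=
  ∀ (R : Type) [CommRing R] [Algebra ℚ R] (n : ℕ) (ψ : FA R Bool), DM n ψ →
    ∀ v, Dst R (sst n ψ v) = cod (sst n ψ) (Dst R v)

/-! ### from polynomials to functionals -/

/-- TR: `T` is the operator `s_ψ` in coefficients -/
def SpecTr : Prop :=
  ∀ (K : Type) [CommRing K] (n : ℕ) (ψ : List Bool → K) (Ψ : FA K Bool), 1 ≤ n →
    (∀ w, cf Ψ w = if w.length = n then ψ w else 0) →
    ∀ (f : FA K Bool) (w : List Bool), cf (sop Ψ f) w = T n ψ (cf f) w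

/-- STP (from TENS): `ψ_*` is primitive -/
def SpecStp : Prop :=
  ∀ (K : Type) [CommRing K] [Algebra ℚ K] (n : ℕ) (ψ : List Bool → K) (Ψ : FA K Bool), DW n ψ →
    (∀ w, cf Ψ w = if w.length = n then ψ w else 0) → DM n Ψ

/-- STW (from TENS, CODC, PIS, RAC, TR, STP): `T ψ` is a derivation for the stuffle product on
`ℌ¹ × ℌ⁰` -/
def SpecStW : Prop :=
  ∀ (K : Type) [CommRing K] [Algebra ℚ K] (n : ℕ) (ψ : List Bool → K), DW n ψ →
    ∀ (φ : List Bool → K) (u v : List ℕ), Ad v →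
      stf (fun l => T n ψ φ (bw l)) u v =
        T n ψ (fun s => (toY 0 s).elim 0 fun l => stf (fun l => φ (bw l)) l v) (bw u) +
          T n ψ (fun s => (toY 0 s).elim 0 fun l => stf (fun l => φ (bw l)) u l) (bw v)

/-! ### points -/

/-- a solution of the regularised double shuffle equations -/
structure Pt {K : Type} [CommRing K] (Φ : List Bool → K) : Prop where
  one : Φ [] = 1
  zx : Φ [false] = 0
  zy : Φ [true] = 0
  sh : ∀ u v : List Bool, shs Φ u v = Φ u * Φ v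
  st : ∀ u v : List ℕ, Ad v → stf (fun l => Φ (bw l)) u v = Φ (bw u) * Φ (bw v)

/-- FLOW (from SHW, STW): the exponential of `T ψ` -/
def SpecFlow : Prop :=
  ∀ (K : Type) [CommRing K] [Algebra ℚ K] (n : ℕ) (Φ ψ : List Bool → K), Pt Φ → DW n ψ →
    ∃ Φ' : List Bool → K, Pt Φ' ∧ (∀ w : List Bool, w.length < n → Φ' w = Φ w) ∧
      (∀ w : List Bool, w.length = n → Φ' w = Φ w + ψ w) ∧
      ∀ k, n ≤ k → Φ' (bw [k]) = Φ (bw [k])

/-- DIFF: the lowest part of the difference of two solutions -/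
def SpecDiff : Prop :=
  ∀ (K : Type) [CommRing K] (n : ℕ) (Φ Ψ : List Bool → K), Pt Φ → Pt Ψ → 3 ≤ n →
    (∀ w : List Bool, w.length < n → Φ w = Ψ w) → (Even n → Φ (bw [n - 1]) = Ψ (bw [n - 1])) →
    DW n fun w => Φ w - Ψ w

/-- PTR (from ZSHUF, ZRDS): the real solution -/
def SpecPtR : Prop := ∃ Φ : List Bool → ℝ, Pt Φ ∧ ∀ w, Adm w → Φ w = Zw w

/-! ### real multiple zeta values -/

/-- ZSHUF (from LSH, ABEL, BND): the shuffle product of convergent multiple zeta values -/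
def SpecZshuf : Prop := ∀ a ∈ H0all, ∀ b ∈ H0all, Z (shuffle a b) = Z a * Z b

/-- ZRDS (from LSH, ABEL, BND): the regularised double shuffle relations -/
def SpecZrds : Prop :=
  ∀ w₁ w₀ : List ℕ, Idx1 w₁ → Idx0 w₀ → ∀ r : H,
    IsReg (shuffle (wd (word w₁)) (wd (word w₀)) - stuffle w₁ w₀) r → Z r = 0

/-- BND: bounds for the truncated sums (`win l 0 N`, exponents `a = k - 1`) -/
def SpecBnd : Prop :=
  (∀ (ε : ℝ), 0 < ε → ∀ l : List ℕ, ∃ C : ℝ, ∀ N : ℕ, (win l 0 N : ℝ) ≤ C * ((N : ℝ) + 1) ^ ε) ∧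
  ∀ (a : ℕ) (l : List ℕ), 1 ≤ a → ∃ C : ℝ, ∀ N : ℕ,
    0 ≤ zeta ((a :: l).map (· + 1)) - win (a :: l) 0 N ∧
    zeta ((a :: l).map (· + 1)) - win (a :: l) 0 N ≤ C * ((N : ℝ) + 1) ^ (-(1 / 2) : ℝ)

/-- the multiple polylogarithm: `∑_n t^{n+1} win l 0 n / (n+1)^{a+1}` -/
noncomputable def Lf : List ℕ → ℝ → ℝ
  | [], _ => 1
  | a :: l, t => ∑' n : ℕ, (win l 0 n : ℝ) / ((n : ℝ) + 1) ^ (a + 1) * t ^ (n + 1)

/-- LSH: the shuffle product of multiple polylogarithms -/
def SpecLsh : Prop :=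
  ∀ (t : ℝ), 0 ≤ t → t < 1 → ∀ u v : List ℕ,
    shs (fun w => (toY 0 w).elim 0 fun l => Lf l t) (bw u) (bw v) = Lf u t * Lf v t

/-- ABEL: Abel summation -/
def SpecAbel : Prop :=
  ∀ (t : ℝ), 0 ≤ t → t < 1 → ∀ l : List ℕ,
    Lf l t = (1 - t) * ∑' N : ℕ, (win l 0 N : ℝ) * t ^ N

/-! ### combinatorics of Lyndon words -/

/-- LYNF: a Lyndon word with at least two letters `true` is a product of two Lyndon words
containing the letter `true` -/
def SpecLynF : Prop :=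
  ∀ w : List Bool, IsLyn w → 2 ≤ w.count true →
    ∃ u v : List Bool, w = u ++ v ∧ IsLyn u ∧ IsLyn v ∧ 1 ≤ u.count true ∧ 1 ≤ v.count true

/-! ### the results -/

/-- LOWER (from INDW) -/
def SpecLower : Prop :=
  ∀ p, D p ≤ Module.finrank ℚ (H0 p ⧸ (Submodule.span ℚ (RDS p)).comap (H0 p).subtype)

/-- the final statement -/
structure SpecExact : Prop where
  /-- `Z` kills the regularised double shuffle elements -/
  kill : ∀ p, ∀ r ∈ RDS p, Z r = 0
  /-- the exact codimension -/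
  codim : ∀ p, Module.finrank ℚ (H0 p ⧸ (Submodule.span ℚ (RDS p)).comap (H0 p).subtype) = D p
  /-- the question in weight `p` is equivalent to the dimension conjecture in weight `p` -/
  iff : ∀ p, (∀ h ∈ H0 p, Z h = 0 → h ∈ Submodule.span ℚ (RDS p)) ↔
    Module.finrank ℚ (Submodule.map Z (H0 p)) = D p
  /-- the question in weights at most 4 -/
  small : ∀ p ≤ 4, ∀ h ∈ H0 p, Z h = 0 → h ∈ Submodule.span ℚ (RDS p)

end MP154526.Low
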