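import Pool.Agent.Lib.MP_154526_nt.Low.Basic
import Pool.Agent.Lib.MP_154526_nt.Low.Spec

/-!
# BR: `[ψ, x^k] y` in terms of `π_Y(ψ)`
-/

set_option autoImplicit false

namespace MP154526.Low

open Finset MP154526.Top MP154526.Top.Pass2
open scoped TensorProduct

namespace BRM

section Alg

variable {R α : Type} [CommRing R]

/-- algebra homomorphisms agreeing on the letters are equal -/
theorem algHom_ext {A : Type} [Semiring A] [Algebra R A] {F G : FA R α →ₐ[R] A}
    (h : ∀ a, F (ow R [a]) = G (ow R [a])) (f : FA R α) : F f = G f := by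
  induction f using FA_ind with
  | h0 => simp
  | hadd f g hf hg => rw [map_add, map_add, hf, hg]
  | hs r w =>
    rw [map_smul, map_smul]
    congr 1
    induction w with
    | nil => rw [ow_nil, map_one, map_one]
    | cons a w ih => rw [ow_cons, map_mul, map_mul, h, ih]

theorem ow_rep (a : α) (n : ℕ) : ow R (List.replicate n a) = ow R [a] ^ n := by
  induction n with
  | zero => rw [pow_zero]; rfl
  | succ n ih => rw [List.replicate_succ, ow_cons, ih, pow_succ']

/-! ### the antipode -/

/-- the antipode -/
noncomputable def S (R α : Type) [CommRing R] : FA R α →ₗ[R] FA R α :=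
  lext fun w => (-1 : R) ^ w.length • ow R w.reverse

theorem S_ow (w : List α) : S R α (ow R w) = (-1 : R) ^ w.length • ow R w.reverse := lext_ow _ _

theorem S_mul_letter (a : α) (f : FA R α) : S R α (f * ow R [a]) = -(ow R [a] * S R α f) := by
  induction f using FA_ind with
  | h0 => simp
  | hadd f g hf hg => rw [add_mul, map_add, hf, hg, map_add, mul_add]; abel
  | hs r w =>
    rw [smul_mul_assoc, map_smul, ← ow_append, S_ow, map_smul, S_ow, List.reverse_append,
      List.length_append, List.length_singleton, pow_succ]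
    simp only [List.reverse_cons, List.reverse_nil, List.nil_append, List.singleton_append,
      mul_smul_comm]
    rw [ow_cons a w.reverse, ← smul_neg]
    congr 1
    simp

/-- `f ⊗ g ↦ S(f) g` -/
noncomputable def mS (R α : Type) [CommRing R] : FA R α ⊗[R] FA R α →ₗ[R] FA R α :=
  TensorProduct.lift ((LinearMap.mul R (FA R α)).comp (S R α))

@[simp] theorem mS_tmul (f g : FA R α) : mS R α (f ⊗ₜ[R] g) = S R α f * g := by
  simp [mS]

theorem mS_mul_letter (a : α) (T : FA R α ⊗[R] FA R α) :
    mS R α (T * (ow R [a] ⊗ₜ[R] 1 + 1 ⊗ₜ[R] ow R [a])) =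
      -(ow R [a] * mS R α T) + mS R α T * ow R [a] := by
  induction T using TensorProduct.induction_on with
  | zero => simp
  | add x y hx hy => rw [add_mul, map_add, hx, hy, map_add, mul_add, add_mul]; abel
  | tmul f g =>
    rw [mul_add, Algebra.TensorProduct.tmul_mul_tmul, Algebra.TensorProduct.tmul_mul_tmul,
      map_add, mS_tmul, mS_tmul, mS_tmul, mul_one, mul_one, S_mul_letter]
    simp only [neg_mul, mul_assoc]

theorem mS_Dsh (f : FA R α) : mS R α (Dsh R α f) = cf f [] • (1 : FA R α) := by
  induction f using FA_ind with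
  | h0 => simp
  | hadd f g hf hg => rw [map_add, map_add, hf, hg, cf_add, add_smul]
  | hs r w =>
    rw [map_smul, map_smul, cf_smul, mul_smul]
    congr 1
    induction w using List.reverseRecOn with
    | nil =>
      rw [ow_nil, map_one, Algebra.TensorProduct.one_def, mS_tmul, ← ow_nil, S_ow, cf_ow_self]
      simp [ow_nil]
    | append_singleton w a ih =>
      rw [ow_append, map_mul, Dsh_letter, mS_mul_letter, ih, cf_mul_ow_nil, zero_smul]
      simp

theorem S_prim (f : FA R α) (h : Dsh R α f = f ⊗ₜ[R] 1 + 1 ⊗ₜ[R] f) (h0 : cf f [] = 0) :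
    S R α f = -f := by
  have h1 := mS_Dsh f
  rw [h, map_add, mS_tmul, mS_tmul, h0, zero_smul, mul_one, ← ow_nil (R := R) (α := α), S_ow] at h1
  simp only [List.length_nil, pow_zero, one_smul, List.reverse_nil] at h1
  rw [ow_nil, one_mul] at h1
  exact eq_neg_of_add_eq_zero_left h1

theorem S_mul_pow (a : α) (f : FA R α) (i : ℕ) :
    S R α (f * ow R [a] ^ i) = (-1 : R) ^ i • (ow R [a] ^ i * S R α f) := by
  induction i with
  | zero => simp
  | succ i ih =>
    conv_lhs => rw [pow_succ, ← mul_assoc, S_mul_letter, ih, mul_smul_comm, ← mul_assoc, ← pow_succ']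
    rw [pow_succ (-1 : R) i, mul_neg_one, neg_smul]

/-! ### the counit -/

/-- the counit -/
noncomputable def ep (R α : Type) [CommRing R] : FA R α →ₐ[R] R :=
  MonoidAlgebra.lift R R (FreeMonoid α) (FreeMonoid.lift fun _ => 0)

theorem ep_letter (a : α) : ep R α (ow R [a]) = 0 := by
  unfold ep
  rw [show ow R [a] = MonoidAlgebra.single (FreeMonoid.of a) (1 : R) from rfl,
    MonoidAlgebra.lift_single, one_smul, FreeMonoid.lift_eval_of]

theorem ep_eq (f : FA R α) : ep R α f = cf f [] := by
  induction f using FA_ind with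
  | h0 => simp
  | hadd f g hf hg => rw [map_add, hf, hg, cf_add]
  | hs r w =>
    rw [map_smul, cf_smul, smul_eq_mul]
    congr 1
    cases w with
    | nil => rw [cf_ow_self, ow_nil, map_one]
    | cons a w => rw [ow_cons, map_mul, ep_letter, zero_mul, cf_ow_mul_nil]

/-- `(ε ⊗ 1)` -/
noncomputable def eL (R α : Type) [CommRing R] : FA R α ⊗[R] FA R α →ₐ[R] FA R α :=
  (Algebra.TensorProduct.lid R (FA R α)).toAlgHom.comp
    (Algebra.TensorProduct.map (ep R α) (AlgHom.id R (FA R α)))

@[simp] theorem eL_tmul (f g : FA R α) : eL R α (f ⊗ₜ[R] g) = ep R α f • g := by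
  simp [eL]

theorem eL_Dsh (f : FA R α) : eL R α (Dsh R α f) = f := by
  have := algHom_ext (F := (eL R α).comp (Dsh R α)) (G := AlgHom.id R (FA R α)) (fun a => by
    rw [AlgHom.comp_apply, Dsh_letter, map_add, eL_tmul, eL_tmul, ep_letter, map_one]
    simp) f
  simpa using this

end Alg

section XY

variable {R : Type} [CommRing R]

/-- `x ↦ 1`, `y ↦ 0` -/
noncomputable def dX (R : Type) [CommRing R] : FA R Bool →ₗ[R] FA R Bool :=
  der fun a => if a then 0 else 1

theorem dX_mul (f g : FA R Bool) : dX R (f * g) = dX R f * g + f * dX R g := der_mul _ f g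

theorem dX_x : dX R (ow R [false]) = 1 := by
  unfold dX
  rw [der_letter]
  simp

theorem dX_y : dX R (ow R [true]) = 0 := by
  unfold dX
  rw [der_letter]
  simp

/-- `dX ⊗ 1` -/
noncomputable def dXL (R : Type) [CommRing R] :
    FA R Bool ⊗[R] FA R Bool →ₗ[R] FA R Bool ⊗[R] FA R Bool :=
  TensorProduct.map (dX R) LinearMap.id

@[simp] theorem dXL_tmul (f g : FA R Bool) : dXL R (f ⊗ₜ[R] g) = dX R f ⊗ₜ[R] g := by
  simp [dXL]

theorem dXL_mul (x y : FA R Bool ⊗[R] FA R Bool) : dXL R (x * y) = dXL R x * y + x * dXL R y := by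
  induction x using TensorProduct.induction_on with
  | zero => simp
  | add x x' hx hx' => rw [add_mul, map_add, hx, hx', map_add]; simp only [add_mul]; abel
  | tmul a b =>
    induction y using TensorProduct.induction_on with
    | zero => simp
    | add y y' hy hy' => rw [mul_add, map_add, hy, hy', map_add]; simp only [mul_add]; abel
    | tmul a' b' =>
      simp only [Algebra.TensorProduct.tmul_mul_tmul, dXL_tmul, dX_mul, TensorProduct.add_tmul]

theorem Dsh_dX (f : FA R Bool) : Dsh R Bool (dX R f) = dXL R (Dsh R Bool f) := by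
  induction f using FA_ind with
  | h0 => simp
  | hadd f g hf hg => simp only [map_add, hf, hg]
  | hs r w =>
    simp only [map_smul]
    congr 1
    induction w with
    | nil =>
      have h1 : dX R (1 : FA R Bool) = 0 := der_one _
      rw [ow_nil, h1, map_zero, map_one, Algebra.TensorProduct.one_def, dXL_tmul, h1,
        TensorProduct.zero_tmul]
    | cons a w ih =>
      rw [ow_cons, dX_mul, map_add, map_mul, map_mul, ih, map_mul, dXL_mul, Dsh_letter]
      congr 2
      rw [map_add, dXL_tmul, dXL_tmul]
      cases a with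
      | false =>
        rw [dX_x, map_one, Algebra.TensorProduct.one_def]
        simp [dX]
      | true =>
        rw [dX_y, map_zero]
        simp [dX]

/-- homogeneous of length `n` -/
def Hm {α : Type} (n : ℕ) (f : FA R α) : Prop := ∀ w, cf f w ≠ 0 → w.length = n

theorem dX_prim {n : ℕ} (hn : 2 ≤ n) (f : FA R Bool) (hf : Hm n f)
    (h : Dsh R Bool f = f ⊗ₜ[R] 1 + 1 ⊗ₜ[R] f) : dX R f = 0 := by
  have h1 : Dsh R Bool (dX R f) = dX R f ⊗ₜ[R] 1 := by
    rw [Dsh_dX, h, map_add, dXL_tmul, dXL_tmul]
    simp [dX]
  have h2 := eL_Dsh (dX R f)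
  rw [h1, eL_tmul, ep_eq] at h2
  rw [← h2]
  have h3 : cf (dX R f) [] = cf f [false] := by
    have key : ∀ g : FA R Bool, cf (dX R g) [] = cf g [false] := by
      intro g
      induction g using FA_ind with
      | h0 => simp
      | hadd f g hf hg => rw [map_add, cf_add, hf, hg, cf_add]
      | hs r w =>
        rw [map_smul, cf_smul, cf_smul]
        congr 1
        cases w with
        | nil =>
          rw [ow_nil, cf_one_ne (by simp)]
          simp [dX]
        | cons a w =>
          rw [ow_cons, dX_mul, cf_add, cf_ow_mul_nil, add_zero]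
          cases a with
          | false =>
            rw [dX_x, one_mul, cf_ow_mul_cons, if_pos rfl]
          | true =>
            rw [dX_y, zero_mul, cf_ow_mul_cons, if_neg (by simp)]
            rfl
    exact key f
  rw [h3]
  have h4 : cf f [false] = 0 := by
    by_contra h0
    have := hf _ h0
    simp at this
    omega
  rw [h4, zero_smul]

theorem dX_Hm {n : ℕ} (f : FA R Bool) (hf : Hm (n + 1) f) : Hm n (dX R f) := by
  have key : ∀ w : List Bool, Hm (w.length - 1) (dX R (ow R w)) := by
    intro w
    induction w with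
    | nil =>
      intro v hv
      rw [ow_nil] at hv
      simp [dX] at hv
    | cons a w ih =>
      intro v hv
      rw [ow_cons, dX_mul, cf_add] at hv
      by_cases h1 : cf (ow R [a] * dX R (ow R w)) v = 0
      · rw [h1, add_zero] at hv
        cases a with
        | true => rw [dX_y, zero_mul] at hv; exact absurd rfl hv
        | false =>
          rw [dX_x, one_mul] at hv
          classical
          rw [cf_ow] at hv
          by_cases h2 : w = v
          · subst h2
            simp
          · rw [if_neg h2] at hv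
            exact absurd rfl hv
      · cases v with
        | nil => exact absurd (cf_ow_mul_nil _ _) h1
        | cons b v =>
          rw [cf_ow_mul_cons] at h1
          by_cases h2 : a = b
          · rw [if_pos h2] at h1
            have h3 := ih v h1
            cases w with
            | nil =>
              exfalso
              apply h1
              rw [ow_nil]
              simp [dX]
            | cons c w =>
              simp at h3 ⊢
              omega
          · rw [if_neg h2] at h1
            exact absurd rfl h1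
  intro v hv
  have h1 : dX R f = lext (fun w => dX R (ow R w)) f := by
    have := lext_comp (dX R) (fun w => ow R w) f
    rw [lext_self] at this
    exact this
  rw [h1, lext_eq_sum, cf_sum] at hv
  obtain ⟨w, _, hw⟩ := Finset.exists_ne_zero_of_sum_ne_zero hv
  rw [cf_smul] at hw
  have h2 := hf w.toList (left_ne_zero_of_mul hw)
  have h3 := key w.toList v (right_ne_zero_of_mul hw)
  omega

theorem dX_Hm0 (f : FA R Bool) (hf : Hm 0 f) : dX R f = 0 := by
  have : f = cf f [] • (1 : FA R Bool) := by
    apply FA_ext
    intro w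
    rw [cf_smul]
    cases w with
    | nil => rw [cf_one_nil, mul_one]
    | cons a w =>
      rw [cf_one_ne (by simp), mul_zero]
      by_contra h
      have := hf _ h
      simp at this
  rw [this, map_smul]
  simp [dX]

theorem dX_pow_zero (n j : ℕ) (f : FA R Bool) (hf : Hm n f) (hj : n < j) :
    ((dX R) ^ j) f = 0 := by
  induction n generalizing j f with
  | zero =>
    obtain ⟨j, rfl⟩ : ∃ i, j = i + 1 := ⟨j - 1, by omega⟩
    rw [pow_succ, Module.End.mul_apply, dX_Hm0 f hf, map_zero]
  | succ n ih =>
    obtain ⟨j, rfl⟩ : ∃ i, j = i + 1 := ⟨j - 1, by omega⟩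
    rw [pow_succ, Module.End.mul_apply]
    exact ih j _ (dX_Hm f hf) (by omega)

/-- `y_n ↦ x^{n-1} y` -/
noncomputable def sY (R : Type) [CommRing R] : FA R ℕ →ₐ[R] FA R Bool :=
  MonoidAlgebra.lift R (FA R Bool) (FreeMonoid ℕ) (FreeMonoid.lift fun n => ow R (xny n))

theorem sY_letter (n : ℕ) : sY R (ow R [n]) = ow R (xny n) := by
  unfold sY
  rw [show ow R [n] = MonoidAlgebra.single (FreeMonoid.of n) (1 : R) from rfl,
    MonoidAlgebra.lift_single, one_smul, FreeMonoid.lift_eval_of]

theorem sY_ow (l : List ℕ) : sY R (ow R l) = ow R (bw l) := by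
  induction l with
  | nil => rw [ow_nil, map_one]; rfl
  | cons a l ih =>
    rw [ow_cons, map_mul, ih, sY_letter, ← ow_append]
    congr 1
    simp [xny, bw]

theorem piY_sY (q : FA R ℕ) : piY (sY R q) = q := by
  induction q using FA_ind with
  | h0 => simp
  | hadd f g hf hg => simp only [map_add, hf, hg]
  | hs r l => rw [map_smul, map_smul, sY_ow, piY_ow_bw]

theorem xny_eq (n : ℕ) : ow R (xny n) = ow R [false] ^ n * ow R [true] := by
  unfold xny
  rw [ow_append, ow_rep]

theorem dX_xny (n : ℕ) : dX R (ow R (xny n)) = (n : R) • (sY R (yy R n)) := by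
  rw [xny_eq, dX_mul, dX_y, mul_zero, add_zero]
  have h : ∀ n : ℕ, dX R (ow R [false] ^ n) = (n : R) • ow R [false] ^ (n - 1) := by
    intro n
    induction n with
    | zero => simp [dX]
    | succ n ih =>
      rw [pow_succ, dX_mul, dX_x, mul_one, ih]
      cases n with
      | zero => simp
      | succ n =>
        rw [Nat.succ_sub_one, smul_mul_assoc, ← pow_succ, Nat.succ_sub_one,
          Nat.cast_succ (n + 1), add_smul, one_smul]
  rw [h]
  cases n with
  | zero => simp
  | succ n =>
    show _ = _ • sY R (ow R [n])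
    rw [sY_letter, xny_eq, smul_mul_assoc]
    rfl

theorem dX_sY (q : FA R ℕ) : dX R (sY R q) = sY R (dd R q) := by
  induction q using FA_ind with
  | h0 => simp
  | hadd f g hf hg => simp only [map_add, hf, hg]
  | hs r l =>
    simp only [map_smul]
    congr 1
    induction l with
    | nil => rw [ow_nil, map_one]; simp [dX, dd]
    | cons a l ih =>
      rw [ow_cons, map_mul, dX_mul, ih]
      have h : dd R (ow R [a] * ow R l) = dd R (ow R [a]) * ow R l + ow R [a] * dd R (ow R l) :=
        der_mul _ _ _
      rw [h, map_add, map_mul, map_mul, sY_letter, dX_xny]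
      have h2 : dd R (ow R [a]) = (a : R) • yy R a := der_letter _ _
      rw [h2, map_smul]

theorem dX_pow_sY (i : ℕ) (q : FA R ℕ) : ((dX R) ^ i) (sY R q) = sY R (((dd R) ^ i) q) := by
  induction i generalizing q with
  | zero => rfl
  | succ i ih => rw [pow_succ, pow_succ, Module.End.mul_apply, Module.End.mul_apply, dX_sY, ih]

/-- remove a final `x` -/
noncomputable def qx (R : Type) [CommRing R] : FA R Bool →ₗ[R] FA R Bool :=
  lext fun w => if w.getLast? = some false then ow R w.dropLast else 0

theorem decomp (f : FA R Bool) : f = sY R (piY f) + qx R f * ow R [false] := by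
  induction f using FA_ind with
  | h0 => simp
  | hadd f g hf hg =>
    conv_lhs => rw [hf, hg]
    simp only [map_add, add_mul]
    abel
  | hs r w =>
    simp only [map_smul, smul_mul_assoc]
    rw [← smul_add]
    congr 1
    unfold qx
    rw [lext_ow]
    rcases List.eq_nil_or_concat w with rfl | ⟨w, s, rfl⟩
    · rw [ow_nil, piY_one, map_one]
      simp
    · rw [List.concat_eq_append]
      cases s with
      | false =>
        rw [ow_append, piY_mul_x, map_zero, zero_add, List.getLast?_concat, if_pos rfl,
          List.dropLast_concat]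
      | true =>
        obtain ⟨l', h1, _⟩ := exists_bw_of_true w
        rw [List.getLast?_concat, if_neg (by simp), zero_mul, add_zero, h1, piY_ow_bw, sY_ow]

theorem cf_qx (f : FA R Bool) (w : List Bool) : cf (qx R f) w = cf f (w ++ [false]) := by
  induction f using FA_ind with
  | h0 => simp
  | hadd f g hf hg => rw [map_add, cf_add, hf, hg, cf_add]
  | hs r v =>
    rw [map_smul, cf_smul, cf_smul]
    congr 1
    unfold qx
    rw [lext_ow]
    rcases List.eq_nil_or_concat v with rfl | ⟨v, s, rfl⟩
    · rw [cf_ow_ne (by simp)]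
      simp
    · rw [List.concat_eq_append]
      cases s with
      | false =>
        rw [List.getLast?_concat, if_pos rfl, List.dropLast_concat, cf_ow, cf_ow]
        by_cases h : v = w
        · simp [h]
        · rw [if_neg h, if_neg fun h' => h (List.append_cancel_right h')]
      | true =>
        rw [List.getLast?_concat, if_neg (by simp), cf_zero, cf_ow_ne]
        intro h
        have := congrArg List.getLast? h
        rw [List.getLast?_concat, List.getLast?_concat] at this
        simp at this

/-! ### the section formula -/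

variable [Algebra ℚ R]

/-- `((-1)^i / i!)` -/
noncomputable def cR (R : Type) [CommRing R] [Algebra ℚ R] (i : ℕ) : R :=
  algebraMap ℚ R ((-1) ^ i / (i.factorial : ℚ))

theorem cR_succ (i : ℕ) : ((i : R) + 1) * cR R (i + 1) = -cR R i := by
  unfold cR
  rw [← map_natCast (algebraMap ℚ R) i, ← map_one (algebraMap ℚ R), ← map_add, ← map_mul, ← map_neg]
  congr 1
  have h : ((i.factorial : ℚ)) ≠ 0 := by exact_mod_cast i.factorial_ne_zero
  have h2 : ((i : ℚ) + 1) ≠ 0 := by positivity
  rw [Nat.factorial_succ]
  push_cast
  field_simp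
  ring

omit [Algebra ℚ R] in
theorem dX_pow_mul_x (i : ℕ) (f : FA R Bool) :
    ((dX R) ^ (i + 1)) (f * ow R [false]) =
      ((dX R) ^ (i + 1)) f * ow R [false] + ((i : R) + 1) • ((dX R) ^ i) f := by
  induction i generalizing f with
  | zero => simp [dX_mul, dX_x]
  | succ i ih =>
    rw [pow_succ, Module.End.mul_apply, dX_mul, dX_x, mul_one, map_add, ih, ← Module.End.mul_apply,
      ← pow_succ, ← Module.End.mul_apply, ← pow_succ, add_assoc]
    congr 1
    rw [Nat.cast_succ i, add_smul ((i : R) + 1), one_smul]

theorem E_mul_x (N : ℕ) (f : FA R Bool) :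
    ∑ i ∈ range (N + 1), cR R i • (((dX R) ^ i) (f * ow R [false]) * ow R [false] ^ i) =
      cR R N • (((dX R) ^ N) f * ow R [false] ^ (N + 1)) := by
  induction N with
  | zero => simp
  | succ N ih =>
    rw [Finset.sum_range_succ, ih, dX_pow_mul_x, add_mul, smul_add, smul_mul_assoc, smul_smul,
      mul_comm (cR R (N + 1)), cR_succ, mul_assoc, ← pow_succ']
    simp

theorem section_formula {n : ℕ} (hn : 2 ≤ n) (ψ : FA R Bool) (hψ : Hm n ψ)
    (h : Dsh R Bool ψ = ψ ⊗ₜ[R] 1 + 1 ⊗ₜ[R] ψ) :
    ψ = ∑ i ∈ range (n + 1), cR R i • (sY R (((dd R) ^ i) (piY ψ)) * ow R [false] ^ i) := by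
  have h0 := dX_prim hn ψ hψ h
  have h1 : ψ = ∑ i ∈ range (n + 1), cR R i • (((dX R) ^ i) ψ * ow R [false] ^ i) := by
    rw [Finset.sum_range_succ', Finset.sum_eq_zero]
    · simp [cR]
    · intro i _
      rw [pow_succ, Module.End.mul_apply, h0, map_zero, zero_mul, smul_zero]
  have h2 : Hm (n - 1) (qx R ψ) := by
    intro w hw
    rw [cf_qx] at hw
    have := hψ _ hw
    simp at this
    omega
  conv_lhs => rw [h1]
  conv_lhs =>
    enter [2, i]
    rw [decomp ψ]
  simp only [map_add, add_mul, smul_add, Finset.sum_add_distrib]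
  rw [E_mul_x, dX_pow_zero (n - 1) n _ h2 (by omega), zero_mul, smul_zero, add_zero]
  refine Finset.sum_congr rfl fun i _ => ?_
  rw [dX_pow_sY]

/-! ### the sign -/

/-- `y_n ↦ (-1)^n y_n` -/
noncomputable def sg (R : Type) [CommRing R] : FA R ℕ →ₐ[R] FA R ℕ :=
  MonoidAlgebra.lift R (FA R ℕ) (FreeMonoid ℕ)
    (FreeMonoid.lift fun n => (-1 : R) ^ (n + 1) • ow R [n])

omit [Algebra ℚ R] in
theorem sg_letter (n : ℕ) : sg R (ow R [n]) = (-1 : R) ^ (n + 1) • ow R [n] := by
  unfold sg
  rw [show ow R [n] = MonoidAlgebra.single (FreeMonoid.of n) (1 : R) from rfl,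
    MonoidAlgebra.lift_single, one_smul, FreeMonoid.lift_eval_of]
  rfl

omit [Algebra ℚ R] in
theorem sg_ow (l : List ℕ) : sg R (ow R l) = (-1 : R) ^ (bw l).length • ow R l := by
  induction l with
  | nil => rw [ow_nil, map_one]; simp [bw]
  | cons a l ih =>
    rw [ow_cons, map_mul, ih, sg_letter, smul_mul_smul_comm]
    congr 1
    rw [← pow_add]
    congr 1
    simp [bw]
    omega

omit [Algebra ℚ R] in
theorem sg_yy (n : ℕ) : sg R (yy R n) = (-1 : R) ^ n • yy R n := by
  cases n with
  | zero => show sg R 1 = _; rw [map_one]; simp [yy]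
  | succ n => exact sg_letter n

omit [Algebra ℚ R] in
theorem sg_dd (q : FA R ℕ) : sg R (dd R q) = -dd R (sg R q) := by
  induction q using FA_ind with
  | h0 => simp
  | hadd f g hf hg => simp only [map_add, hf, hg]; abel
  | hs r l =>
    simp only [map_smul]
    rw [← smul_neg]
    congr 1
    induction l with
    | nil =>
      have h1 : dd R (1 : FA R ℕ) = 0 := der_one _
      rw [ow_nil, h1, map_zero, map_one, h1, neg_zero]
    | cons a l ih =>
      have h : ∀ f g : FA R ℕ, dd R (f * g) = dd R f * g + f * dd R g := der_mul _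
      have h2 : dd R (ow R [a]) = (a : R) • yy R a := der_letter _ _
      rw [ow_cons, h, map_add, map_mul, map_mul, ih, map_mul, h, h2, sg_letter, map_smul, map_smul,
        sg_yy, h2]
      simp only [pow_succ, smul_smul, smul_mul_assoc, mul_neg, neg_mul, mul_one, neg_smul, neg_add,
        neg_neg]
      congr 1
      rw [mul_comm]

omit [Algebra ℚ R] in
theorem sg_dd_pow (i : ℕ) (q : FA R ℕ) :
    sg R (((dd R) ^ i) q) = (-1 : R) ^ i • ((dd R) ^ i) (sg R q) := by
  induction i generalizing q with
  | zero => simp
  | succ i ih =>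
    rw [pow_succ, Module.End.mul_apply, ih, sg_dd, map_neg, Module.End.mul_apply, pow_succ]
    simp

omit [Algebra ℚ R] in
theorem bw_rev (m : ℕ) (l : List ℕ) :
    List.replicate m false ++ (bw l).reverse ++ [true] = bw (m :: l.reverse) := by
  induction l generalizing m with
  | nil => simp [bw]
  | cons a l ih =>
    have h1 : bw (a :: l) = List.replicate a false ++ [true] ++ bw l := by simp [bw]
    have h2 : bw (m :: (a :: l).reverse) = bw (m :: l.reverse) ++ bw [a] := by
      rw [← bw_append]
      simp
    rw [h1, h2, ← ih]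
    simp [bw]

omit [Algebra ℚ R] in
theorem X_S_Y (m : ℕ) (q : FA R ℕ) :
    ow R [false] ^ m * S R Bool (sY R q) * ow R [true] =
      sY R (yy R (m + 1) * rv R (sg R q)) := by
  induction q using FA_ind with
  | h0 => simp
  | hadd f g hf hg => simp only [map_add, mul_add, add_mul, hf, hg]
  | hs r l =>
    simp only [map_smul, mul_smul_comm, smul_mul_assoc]
    congr 1
    rw [sY_ow, S_ow, sg_ow, map_smul]
    simp only [mul_smul_comm, smul_mul_assoc, map_smul]
    congr 1
    have h : rv R (ow R l) = ow R l.reverse := lext_ow _ _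
    rw [h, ← ow_rep, ← ow_append, ← ow_append, bw_rev, ← sY_ow, ow_cons]
    rfl

end XY

end BRM

open BRM in
theorem specBr : SpecBr := by
  intro R _ _ n ψ hn hψ h k
  have h0 : cf ψ [] = 0 := by
    by_contra h1
    have := hψ _ h1
    simp at this
    omega
  have hsec := section_formula hn ψ hψ h
  have hS := S_prim ψ h h0
  set p := piY ψ with hp
  have hsg : sg R p = (-1 : R) ^ n • p := by
    have h1 : ∀ q : FA R ℕ, ∀ l, cf (sg R q) l = (-1 : R) ^ (bw l).length * cf q l := by
      intro q l
      induction q using FA_ind with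
      | h0 => simp
      | hadd f g hf hg => rw [map_add, cf_add, hf, hg, cf_add]; ring
      | hs r v =>
        rw [map_smul, cf_smul, cf_smul, sg_ow, cf_smul, cf_ow]
        by_cases hv : v = l
        · subst hv
          ring
        · rw [if_neg hv]
          ring
    apply FA_ext
    intro l
    rw [h1, cf_smul]
    by_cases h2 : cf p l = 0
    · rw [h2, mul_zero, mul_zero]
    · rw [hp, cf_piY] at h2
      rw [hψ _ h2]
  -- the first term
  have t1 : piY (ψ * ow R (List.replicate k false) * ow R [true]) =
      ∑ i ∈ range (n + 1), cR R i • (((dd R) ^ i) p * yy R (k + 1 + i)) := by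
    have : ψ * ow R (List.replicate k false) * ow R [true] =
        sY R (∑ i ∈ range (n + 1), cR R i • (((dd R) ^ i) p * yy R (k + 1 + i))) := by
      conv_lhs => rw [hsec]
      rw [Finset.sum_mul, Finset.sum_mul, map_sum]
      refine Finset.sum_congr rfl fun i _ => ?_
      rw [smul_mul_assoc, smul_mul_assoc, map_smul, map_mul]
      congr 1
      rw [ow_rep, mul_assoc, mul_assoc]
      congr 1
      have : yy R (k + 1 + i) = ow R [k + i] := by
        rw [show k + 1 + i = (k + i) + 1 by omega]
        rfl
      rw [this, sY_letter, xny_eq, ← mul_assoc, ← pow_add, add_comm i k]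
    rw [this, piY_sY]
  -- the second term
  have t2 : piY (ow R (List.replicate k false) * ψ * ow R [true]) =
      -∑ i ∈ range (n + 1), algebraMap ℚ R (1 / (i.factorial : ℚ)) •
        ((-1 : R) ^ (n - i) • (yy R (k + 1 + i) * rv R (((dd R) ^ i) p))) := by
    have : ow R (List.replicate k false) * ψ * ow R [true] =
        sY R (-∑ i ∈ range (n + 1), algebraMap ℚ R (1 / (i.factorial : ℚ)) •
        ((-1 : R) ^ (n - i) • (yy R (k + 1 + i) * rv R (((dd R) ^ i) p)))) := by
      have e1 : ψ = -S R Bool ψ := by rw [hS, neg_neg]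
      conv_lhs => rw [e1]
      conv_lhs => rw [hsec]
      rw [map_sum, mul_neg, neg_mul, Finset.mul_sum, Finset.sum_mul, map_neg, map_sum]
      congr 1
      refine Finset.sum_congr rfl fun i hi => ?_
      rw [map_smul, S_mul_pow, mul_smul_comm, mul_smul_comm, smul_mul_assoc, smul_mul_assoc,
        ow_rep, ← mul_assoc, ← pow_add, X_S_Y, sg_dd_pow, hsg, map_smul, map_smul, map_smul,
        map_smul, map_smul]
      have e2 : k + i + 1 = k + 1 + i := by omega
      rw [e2]
      simp only [map_smul, mul_smul_comm, smul_smul]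
      congr 1
      have hi' : i ≤ n := by
        rw [Finset.mem_range] at hi
        omega
      have e3 : cR R i = algebraMap ℚ R (1 / (i.factorial : ℚ)) * (-1) ^ i := by
        unfold cR
        have : (-1 : R) = algebraMap ℚ R (-1) := by simp
        rw [this, ← map_pow, ← map_mul]
        congr 1
        ring
      rw [e3]
      have e4 : (-1 : R) ^ n = (-1) ^ (n - i) * (-1) ^ i := by
        rw [← pow_add]
        congr 1
        omega
      rw [e4]
      have e5 : ((-1 : R) ^ i) * (-1) ^ i = 1 := by
        rw [← mul_pow]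
        simp
      calc algebraMap ℚ R (1 / (i.factorial : ℚ)) * (-1) ^ i *
            ((-1) ^ i * ((-1) ^ i * ((-1) ^ (n - i) * (-1) ^ i)))
          = algebraMap ℚ R (1 / (i.factorial : ℚ)) * (((-1) ^ i * (-1) ^ i) *
            ((-1) ^ i * (-1) ^ i) * (-1) ^ (n - i)) := by ring
        _ = _ := by rw [e5]; ring
    rw [this, piY_sY]
  rw [sub_mul, map_sub, t1, t2, sub_neg_eq_add, ← Finset.sum_add_distrib]
  refine Finset.sum_congr rfl fun i _ => ?_
  rw [smul_add]
  congr 1
  rw [smul_smul]
  congr 1
  unfold cR
  have : (-1 : R) = algebraMap ℚ R (-1) := by simp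
  rw [this, ← map_pow, ← map_mul]
  congr 1
  ring

end MP154526.Low
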