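import Pool.Agent.Lib.MP_154526_nt.Low.Spec
import Pool.Agent.Lib.MP_154526_nt.Low.Basic
import Pool.Agent.Lib.MP_154526_nt.Lin.Basic

/-!
# Module EXW: integral elements with non-zero depth one coefficient

From the real solution `Φ` and `Φ(-x, -y)`: their lowest difference after correcting by flows.
-/

set_option autoImplicit false

namespace MP154526.Low.ExW

open Finset MP154526.Bound MP154526.Top MP154526.Top.Front MP154526.Top.Pass2 MP154526.Lin

theorem len_bw (l : List ℕ) : (bw l).length = wt l := by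
  induction l with
  | nil => rfl
  | cons a l ih =>
    rw [wt_cons, bw, List.length_append, List.length_replicate, List.length_cons, ih]
    omega

/-! ### changing the signs -/

theorem sign {K : Type} [CommRing K] {Φ : List Bool → K} (h : Pt Φ) :
    Pt (fun w => (-1) ^ w.length * Φ w) where
  one := by simp [h.one]
  zx := by simp [h.zx]
  zy := by simp [h.zy]
  sh u v := by
    have h1 : shs (fun w : List Bool => (-1) ^ w.length * Φ w) u v =
        shs (fun w => AddMonoidHom.mulLeft ((-1 : K) ^ (u.length + v.length)) (Φ w)) u v :=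
      shs_congr_len u v fun l hl => by simp [hl]
    rw [h1, ← shs_map, h.sh]
    simp only [AddMonoidHom.coe_mulLeft, pow_add]
    ring
  st u v hv := by
    have h1 : stf (fun l => (-1) ^ (bw l).length * Φ (bw l)) u v =
        stf (fun l => AddMonoidHom.mulLeft ((-1 : K) ^ (wt u + wt v)) (Φ (bw l))) u v :=
      stf_congr u v fun l hl => by simp [len_bw, hl]
    rw [h1, ← stf_map (AddMonoidHom.mulLeft ((-1 : K) ^ (wt u + wt v))) (fun l => Φ (bw l)),
      h.st u v hv]
    simp only [AddMonoidHom.coe_mulLeft, pow_add, len_bw]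
    ring

/-- the iteration -/
theorem iter {K : Type} [CommRing K] [Algebra ℚ K] (hF : SpecFlow) (hD : SpecDiff)
    {Φ : List Bool → K} (h : Pt Φ) (n : ℕ) :
    ∃ Ψ : List Bool → K, Pt Ψ ∧ (∀ w : List Bool, w.length < n + 3 → Ψ w = Φ w) ∧
      ∀ m, n + 2 ≤ m → Ψ (bw [m]) = (-1) ^ (m + 1) * Φ (bw [m]) := by
  induction n with
  | zero =>
    refine ⟨_, sign h, ?_, ?_⟩
    · intro w hw
      rcases w with _ | ⟨a, _ | ⟨b, _ | ⟨c, w⟩⟩⟩
      · simp
      · cases a <;> simp [h.zx, h.zy]
      · simp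
      · simp only [List.length_cons] at hw; omega
    · intro m _
      rw [len_bw]
      simp [wt]
  | succ n ih =>
    obtain ⟨Ψ, hΨ, h1, h2⟩ := ih
    have hd : DW (n + 3) fun w => Φ w - Ψ w := by
      refine hD K (n + 3) Φ Ψ h hΨ (by omega) (fun w hw => (h1 w hw).symm) fun he => ?_
      have h3 := h2 (n + 3 - 1) (by omega)
      have h4 : n + 3 - 1 + 1 = n + 3 := by omega
      rw [h4, he.neg_one_pow, one_mul] at h3
      exact h3.symm
    obtain ⟨Ψ', hΨ', h5, h6, h7⟩ := hF K (n + 3) Ψ _ hΨ hd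
    refine ⟨Ψ', hΨ', ?_, ?_⟩
    · intro w hw
      rcases lt_or_eq_of_le (Nat.le_of_lt_succ (by omega : w.length < n + 3 + 1)) with h8 | h8
      · rw [h5 w h8, h1 w h8]
      · rw [h6 w h8]; ring
    · intro m hm
      rw [h7 m (by omega), h2 m (by omega)]

/-! ### changing the coefficients -/

theorem DW.map' {K K' : Type} [CommRing K] [CommRing K'] (f : K →+ K') {n : ℕ}
    {ψ : List Bool → K} (h : DW n ψ) : DW n (fun w => f (ψ w)) where
  three := h.three
  even he := by rw [h.even he, map_zero]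
  sh u v hu hv hn := by rw [← shs_map, h.sh u v hu hv hn, map_zero]
  st u v hu hv ha hn := by
    rw [← stf_map f (fun l => ψ (bw l)), h.st u v hu hv ha hn, map_zero]

theorem DW.of_cast {n : ℕ} {ψ : List Bool → ℤ} {φ : List Bool → ℚ} (h : DW n φ)
    (hc : ∀ w : List Bool, w.length = n → (ψ w : ℚ) = φ w) : DW n ψ where
  three := h.three
  even he := by
    have h3 := h.three
    have h1 := h.even he
    rw [← hc _ (by rw [len_bw]; simp [wt]; omega)] at h1
    exact Int.cast_injective (α := ℚ) (by simpa using h1)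
  sh u v hu hv hn := by
    have h1 := h.sh u v hu hv hn
    rw [← shs_congr_len (F := fun w => (Int.castAddHom ℚ) (ψ w)) u v
      (fun l hl => by simpa using hc l (by omega)), ← shs_map, Int.coe_castAddHom] at h1
    exact Int.cast_injective (α := ℚ) (by simpa using h1)
  st u v hu hv ha hn := by
    have h1 := h.st u v hu hv ha hn
    rw [← stf_congr (f := fun l => (Int.castAddHom ℚ) (ψ (bw l))) u v
      (fun l hl => by simpa using hc (bw l) (by rw [len_bw]; omega)),
      ← stf_map (Int.castAddHom ℚ) (fun l => ψ (bw l)), Int.coe_castAddHom] at h1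
    exact Int.cast_injective (α := ℚ) (by simpa using h1)

/-- clearing the denominators -/
theorem clear (n : ℕ) (φ : List Bool → ℚ) : ∃ (N : ℕ) (ψ : List Bool → ℤ), N ≠ 0 ∧
    ∀ w : List Bool, w.length = n → (ψ w : ℚ) = N * φ w := by
  classical
  set N : ℕ := ∏ v : Fin n → Bool, (φ (List.ofFn v)).den with hN
  refine ⟨N, fun w => ((N : ℚ) * φ w).num, ?_, ?_⟩
  · exact Finset.prod_ne_zero_iff.2 fun v _ => (φ (List.ofFn v)).den_ne_zero
  · intro w hw
    subst hw
    have h1 : (φ w).den ∣ N := by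
      have := Finset.dvd_prod_of_mem (fun v : Fin w.length → Bool => (φ (List.ofFn v)).den)
        (Finset.mem_univ w.get)
      simpa using this
    obtain ⟨c, hc⟩ := h1
    have h2 : (N : ℚ) * φ w = ((c * (φ w).num : ℤ) : ℚ) := by
      rw [hc]
      push_cast
      have h3 : ((φ w).den : ℚ) * φ w = (φ w).num := Rat.den_mul_eq_num _
      calc ((φ w).den : ℚ) * c * φ w = c * (((φ w).den : ℚ) * φ w) := by ring
        _ = c * (φ w).num := by rw [h3]
    show ((((N : ℚ) * φ w).num : ℤ) : ℚ) = _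
    rw [h2, Rat.num_intCast]

theorem zeta_pos (k : ℕ) (hk : 2 ≤ k) : 0 < zeta [k] := by
  have hs : Summable fun n : ℕ => zs [] n / ((n : ℝ) + 1) ^ k := by
    have h1 := (summable_nat_add_iff 1).2 (Real.summable_one_div_nat_pow.2 (by omega : 1 < k))
    refine h1.congr fun n => ?_
    simp [zs]
  have h0 : ∀ n : ℕ, 0 ≤ zs [] n / ((n : ℝ) + 1) ^ k := fun n => by
    simp only [zs]; positivity
  exact hs.tsum_pos h0 0 (by simp [zs])

end MP154526.Low.ExW

namespace MP154526.Low

open MP154526.Bound MP154526.Top MP154526.Top.Front MP154526.Top.Pass2 MP154526.Lin ExW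

/-- module EXW -/
theorem specExW (hP : SpecPtR) (hF : SpecFlow) (hD : SpecDiff) : SpecExW := by
  intro k
  obtain ⟨Φ, hΦ, hZ⟩ := hP
  obtain ⟨Ψ, hΨ, h1, h2⟩ := iter hF hD hΦ (2 * k)
  have hd : DW (2 * k + 3) fun w => Φ w - Ψ w := by
    refine hD ℝ (2 * k + 3) Φ Ψ hΦ hΨ (by omega) (fun w hw => (h1 w hw).symm) fun he => ?_
    exact absurd he (by rw [Nat.not_even_iff_odd]; exact ⟨k + 1, by ring⟩)
  have h3 : Φ (bw [2 * k + 2]) - Ψ (bw [2 * k + 2]) = 2 * zeta [2 * k + 3] := by
    rw [h2 (2 * k + 2) le_rfl]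
    have h4 : (-1 : ℝ) ^ (2 * k + 2 + 1) = -1 := Odd.neg_one_pow ⟨k + 1, by ring⟩
    rw [h4, hZ (bw [2 * k + 2])]
    · unfold Zw
      rw [toY_bw]
      show zeta [2 * k + 2 + 1] - -1 * zeta [2 * k + 2 + 1] = _
      ring
    · right
      refine ⟨List.replicate (2 * k + 1) false, ?_⟩
      simp [bw, List.replicate_succ]
  have h5 : Φ (bw [2 * k + 2]) - Ψ (bw [2 * k + 2]) ≠ 0 := by
    rw [h3]
    exact mul_ne_zero two_ne_zero (zeta_pos _ (by omega)).ne'
  obtain ⟨μ, hμ⟩ : ∃ μ : Module.Dual ℚ ℝ, μ (Φ (bw [2 * k + 2]) - Ψ (bw [2 * k + 2])) ≠ 0 := by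
    by_contra hc
    push Not at hc
    exact h5 ((Module.forall_dual_apply_eq_zero_iff ℚ _).1 hc)
  have h6 := DW.map' μ.toAddMonoidHom hd
  obtain ⟨N, ψ, hN, h7⟩ := clear (2 * k + 3) fun w => μ.toAddMonoidHom (Φ w - Ψ w)
  have h8 := DW.map' (AddMonoidHom.mulLeft (N : ℚ)) h6
  refine ⟨ψ, DW.of_cast h8 h7, ?_⟩
  have h9 := h7 (bw [2 * k + 2]) (by rw [len_bw]; simp [wt])
  intro h10
  rw [h10, Int.cast_zero] at h9
  rcases mul_eq_zero.1 h9.symm with h11 | h11
  · exact hN (by exact_mod_cast h11)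
  · exact hμ h11

end MP154526.Low
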