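import Pool.Agent.Lib.MP_154526_nt.Low.Spec
import Pool.Agent.Lib.MP_154526_nt.Top.F2

/-!
# Module FLOW of the lower bound: the exponential of `T ψ`
-/

set_option autoImplicit false

namespace MP154526.Low.Flow

open Finset MP154526.Top MP154526.Top.Front MP154526.Top.Pass2 MP154526.Lin MP154526.Low

section lin

variable {K : Type} [CommRing K] (n : ℕ) (ψ : List Bool → K)

theorem hd_add (c : Bool) (φ φ' : List Bool → K) (w : List Bool) :
    hd n ψ c (fun v => φ v + φ' v) w = hd n ψ c φ w + hd n ψ c φ' w := by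
  unfold hd
  by_cases h : n ≤ w.length
  · rw [if_pos h, if_pos h, if_pos h, smul_add]
  · rw [if_neg h, if_neg h, if_neg h, add_zero]

theorem hd_smul (c : Bool) (k : K) (φ : List Bool → K) (w : List Bool) :
    hd n ψ c (fun v => k * φ v) w = k * hd n ψ c φ w := by
  unfold hd
  by_cases h : n ≤ w.length
  · rw [if_pos h, if_pos h, smul_eq_mul, smul_eq_mul]; ring
  · rw [if_neg h, if_neg h, mul_zero]

theorem TT_add (c : Bool) (φ φ' : List Bool → K) (w : List Bool) :
    TT n ψ c (fun v => φ v + φ' v) w = TT n ψ c φ w + TT n ψ c φ' w := by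
  induction w generalizing c φ φ' with
  | nil => exact hd_add n ψ c φ φ' []
  | cons a w ih =>
    rw [TT, TT, TT, hd_add, ih]
    ring

theorem TT_smul (c : Bool) (k : K) (φ : List Bool → K) (w : List Bool) :
    TT n ψ c (fun v => k * φ v) w = k * TT n ψ c φ w := by
  induction w generalizing c φ with
  | nil => exact hd_smul n ψ c k φ []
  | cons a w ih =>
    rw [TT, TT, hd_smul, ih]
    ring

/-- `T` as a linear map -/
def TL : (List Bool → K) →ₗ[K] (List Bool → K) where
  toFun φ := T n ψ φ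
  map_add' φ φ' := by
    funext w
    exact TT_add n ψ true φ φ' w
  map_smul' k φ := by
    funext w
    exact TT_smul n ψ true k φ w

theorem TL_apply (φ : List Bool → K) (w : List Bool) : TL n ψ φ w = T n ψ φ w := rfl

theorem T_sum {ι : Type} (s : Finset ι) (c : ι → K) (φ : ι → List Bool → K) (w : List Bool) :
    T n ψ (fun v => ∑ i ∈ s, c i * φ i v) w = ∑ i ∈ s, c i * T n ψ (φ i) w := by
  have h1 : (fun v => ∑ i ∈ s, c i * φ i v) = ∑ i ∈ s, c i • φ i := by
    funext v
    rw [Finset.sum_apply]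
    rfl
  rw [h1, ← TL_apply, map_sum, Finset.sum_apply]
  refine Finset.sum_congr rfl fun i _ => ?_
  rw [map_smul]
  rfl

theorem TT_congr_len (c : Bool) (φ φ' : List Bool → K) (w : List Bool)
    (h : ∀ v : List Bool, v.length + n = w.length → φ v = φ' v) :
    TT n ψ c φ w = TT n ψ c φ' w := by
  have hh : ∀ (c : Bool) (φ φ' : List Bool → K) (w : List Bool),
      (∀ v : List Bool, v.length + n = w.length → φ v = φ' v) → hd n ψ c φ w = hd n ψ c φ' w := by
    intro c φ φ' w h
    unfold hd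
    split_ifs with h1
    · rw [h]
      rw [List.length_drop]
      omega
    all_goals first | rfl | (rw [h]; rw [List.length_drop]; omega)
  induction w generalizing c φ φ' with
  | nil => exact hh c φ φ' [] h
  | cons a w ih =>
    rw [TT, TT, hh c φ φ' _ h]
    congr 1
    apply ih
    intro v hv
    apply h
    rw [List.length_cons, List.length_cons]
    omega

theorem TT_zero (c : Bool) (w : List Bool) : TT n ψ c (fun _ => (0 : K)) w = 0 := by
  have := TT_smul n ψ c (0 : K) (fun _ => (0 : K)) w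
  simpa using this

theorem T_zero_len (φ : List Bool → K) (w : List Bool)
    (h : ∀ v : List Bool, v.length + n = w.length → φ v = 0) : T n ψ φ w = 0 := by
  rw [T, TT_congr_len n ψ true φ (fun _ => 0) w h, TT_zero]

/-- words ending in `y`, or empty if `c` -/
def YG (c : Bool) (w : List Bool) : Prop := (w = [] ∧ c = true) ∨ ∃ u, w = u ++ [true]

theorem YG_drop {c : Bool} {w : List Bool} (h : YG c w) (m : ℕ) (hm : w.drop m ≠ []) (c' : Bool) :
    YG c' (w.drop m) := by
  rcases h with ⟨h, _⟩ | ⟨u, h⟩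
  · subst h
    simp at hm
  · right
    subst h
    have hlt : m ≤ u.length := by
      by_contra hlt
      apply hm
      apply List.drop_eq_nil_of_le
      simp
      omega
    exact ⟨u.drop m, by rw [List.drop_append_of_le_length hlt]⟩

theorem hd_congr_Y {c : Bool} {φ φ' : List Bool → K} {w : List Bool} (hw : YG c w)
    (h : ∀ v, YG c v → φ v = φ' v) : hd n ψ c φ w = hd n ψ c φ' w := by
  unfold hd
  by_cases hn : n ≤ w.length
  · rw [if_pos hn, if_pos hn]
    by_cases h0 : w.drop n = []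
    · cases c
      · simp [h0]
      · rw [h0, h [] (Or.inl ⟨rfl, rfl⟩)]
    · rw [h _ (YG_drop hw n h0 c)]
  · rw [if_neg hn, if_neg hn]

theorem YG_cons {c a : Bool} {w : List Bool} (hw : YG c (a :: w)) : YG a w := by
  rcases hw with ⟨h, _⟩ | ⟨u, h⟩
  · simp at h
  · rcases u with _ | ⟨b, u⟩
    · simp at h
      exact Or.inl ⟨h.2, h.1⟩
    · simp at h
      exact Or.inr ⟨u, h.2⟩

theorem YG_cons' {c a : Bool} {w : List Bool} (hw : YG a w) : YG c (a :: w) := by
  rcases hw with ⟨h, h'⟩ | ⟨u, h⟩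
  · subst h
    subst h'
    exact Or.inr ⟨[], rfl⟩
  · exact Or.inr ⟨a :: u, by rw [h]; rfl⟩

theorem TT_congr_Y {c : Bool} {φ φ' : List Bool → K} {w : List Bool} (hw : YG c w)
    (h : ∀ v, YG c v → φ v = φ' v) : TT n ψ c φ w = TT n ψ c φ' w := by
  induction w generalizing c φ φ' with
  | nil => exact hd_congr_Y n ψ hw h
  | cons a w ih =>
    rw [TT, TT, hd_congr_Y n ψ hw h]
    congr 1
    exact ih (YG_cons hw) fun v hv => h _ (YG_cons' hv)

theorem endY_bw' (l : List ℕ) : EndY (bw l) := by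
  induction l with
  | nil => exact Or.inl rfl
  | cons a l ih =>
    right
    rcases ih with h | ⟨u, h⟩
    · exact ⟨List.replicate a false, by rw [bw, h]⟩
    · exact ⟨List.replicate a false ++ true :: u, by rw [bw, h]; simp⟩

/-- at words `bw l` only the values at the words `bw l'` matter -/
theorem T_congr_bw {φ φ' : List Bool → K} (l : List ℕ) (h : ∀ l', φ (bw l') = φ' (bw l')) :
    T n ψ φ (bw l) = T n ψ φ' (bw l) := by
  apply TT_congr_Y
  · rcases endY_bw' l with h | h
    · exact Or.inl ⟨h, rfl⟩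
    · exact Or.inr h
  · rintro v (⟨h1, _⟩ | ⟨u, h1⟩)
    · rw [h1]
      exact h []
    · obtain ⟨l', hl'⟩ := F2.exists_bw v (Or.inr ⟨u, h1⟩)
      rw [hl']
      exact h l'

theorem T_congr_ad {φ φ' : List Bool → K} (l : List ℕ) (hl : Ad l)
    (h : ∀ l', Ad l' → φ (bw l') = φ' (bw l')) :
    T n ψ φ (bw l) = T n ψ φ' (bw l) := by
  rcases l with _ | ⟨a, l⟩
  · change hd n ψ true φ [] = hd n ψ true φ' []
    unfold hd
    simp only [List.drop_nil, List.take_nil]
    rw [show φ [] = φ' [] from h [] (by intro a ha; simp at ha)]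
  rcases a with _ | a
  · exact absurd (hl 0 rfl) (by omega)
  have hbw : bw ((a + 1) :: l) = false :: (List.replicate a false ++ true :: bw l) := by
    rw [bw, List.replicate_succ]
    rfl
  have hadm : ∀ v, YG false v → ∃ l', Ad l' ∧ false :: v = bw l' := by
    rintro v (⟨_, h1⟩ | ⟨u, h1⟩)
    · simp at h1
    · obtain ⟨l', hl'⟩ := F2.exists_bw (false :: v) (Or.inr ⟨false :: u, by rw [h1]; rfl⟩)
      refine ⟨l', ?_, hl'⟩
      rcases l' with _ | ⟨b, l'⟩
      · intro a ha; simp at ha
      · rcases b with _ | b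
        · simp [bw] at hl'
        · intro a ha
          simp at ha
          omega
  have hY0 : YG false (List.replicate a false ++ true :: bw l) := by
    rcases endY_bw' l with h1 | ⟨u, h1⟩
    · exact Or.inr ⟨List.replicate a false, by rw [h1]⟩
    · exact Or.inr ⟨List.replicate a false ++ true :: u, by rw [h1]; simp⟩
  rw [hbw, T, T, TT, TT]
  congr 1
  · unfold hd
    by_cases hn : n ≤ (false :: (List.replicate a false ++ true :: bw l)).length
    · rw [if_pos hn, if_pos hn]
      have hYd : YG false (false :: (List.replicate a false ++ true :: bw l)) := YG_cons' hY0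
      rcases hd0 : List.drop n (false :: (List.replicate a false ++ true :: bw l)) with _ | ⟨b, v⟩
      · rw [show φ [] = φ' [] from h [] (by intro a ha; simp at ha)]
      · rcases b with _ | _
        · have h2 := YG_drop hYd n (by rw [hd0]; simp) false
          rw [hd0] at h2
          obtain ⟨l', h3, h4⟩ := hadm v (YG_cons h2)
          rw [h4, h l' h3]
        · simp
    · rw [if_neg hn, if_neg hn]
  · apply TT_congr_Y n ψ hY0
    intro v hv
    obtain ⟨l', h3, h4⟩ := hadm v hv
    rw [h4]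
    exact h l' h3

end lin

theorem toY_rep (k a : ℕ) (w : List Bool) :
    toY k (List.replicate a false ++ true :: w) = (toY 0 w).map (List.cons (k + a)) := by
  induction a generalizing k with
  | zero =>
    rcases k with _ | k <;> rfl
  | succ a ih =>
    rw [List.replicate_succ, List.cons_append]
    have : toY k (false :: (List.replicate a false ++ true :: w)) =
        toY (k + 1) (List.replicate a false ++ true :: w) := by
      rcases k with _ | k <;> rfl
    rw [this, ih, show k + 1 + a = k + (a + 1) by omega]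

theorem toY_bw (l : List ℕ) : toY 0 (bw l) = some l := by
  induction l with
  | nil => rfl
  | cons a l ih => rw [bw, toY_rep, ih, zero_add]; rfl

section exp

variable {K : Type} [CommRing K] [Algebra ℚ K] (n : ℕ) (Φ ψ : List Bool → K)

/-- the divided powers `T^k Φ / k!` -/
noncomputable def e : ℕ → List Bool → K
  | 0 => Φ
  | k + 1 => fun w => algebraMap ℚ K (1 / ((k : ℚ) + 1)) * T n ψ (e k) w

theorem e_succ (k : ℕ) (w : List Bool) : e n Φ ψ (k + 1) w =
    algebraMap ℚ K (1 / ((k : ℚ) + 1)) * T n ψ (e n Φ ψ k) w := rfl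

theorem inv_mul (k : ℕ) (x : K) :
    algebraMap ℚ K (1 / ((k : ℚ) + 1)) * (((k : K) + 1) * x) = x := by
  have h : algebraMap ℚ K (1 / ((k : ℚ) + 1)) * ((k : K) + 1) = 1 := by
    have h1 : ((k : K) + 1) = algebraMap ℚ K ((k : ℚ) + 1) := by
      rw [map_add, map_natCast, map_one]
    have h2 : ((k : ℚ) + 1) ≠ 0 := by positivity
    rw [h1, ← map_mul, one_div, inv_mul_cancel₀ h2, map_one]
  rw [← mul_assoc, h, one_mul]

theorem T_e (k : ℕ) (w : List Bool) : T n ψ (e n Φ ψ k) w = ((k : K) + 1) * e n Φ ψ (k + 1) w := by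
  have := inv_mul k (T n ψ (e n Φ ψ k) w)
  have h2 : ((k : K) + 1) * (algebraMap ℚ K (1 / ((k : ℚ) + 1)) * T n ψ (e n Φ ψ k) w) =
      algebraMap ℚ K (1 / ((k : ℚ) + 1)) * (((k : K) + 1) * T n ψ (e n Φ ψ k) w) := by ring
  rw [e_succ, h2, this]

theorem e_len (hn : 1 ≤ n) (k : ℕ) (w : List Bool) (h : w.length < k * n) : e n Φ ψ k w = 0 := by
  induction k generalizing w with
  | zero => omega
  | succ k ih =>
    rw [e_succ, T_zero_len, mul_zero]
    intro v hv
    apply ih
    rw [Nat.succ_mul] at h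
    omega

theorem e_len' (hn : 1 ≤ n) (k : ℕ) (w : List Bool) (h : w.length < k) : e n Φ ψ k w = 0 := by
  apply e_len n Φ ψ hn
  calc w.length < k := h
    _ ≤ k * n := Nat.le_mul_of_pos_right k hn

/-- the generating polynomial of the divided powers -/
noncomputable def P (w : List Bool) : Polynomial K :=
  ∑ k ∈ range (w.length + 1), Polynomial.monomial k (e n Φ ψ k w)

theorem P_coeff (hn : 1 ≤ n) (k : ℕ) (w : List Bool) : (P n Φ ψ w).coeff k = e n Φ ψ k w := by
  rw [P, Polynomial.finsetSum_coeff]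
  simp only [Polynomial.coeff_monomial]
  rw [Finset.sum_ite_eq']
  split_ifs with h
  · rfl
  · rw [e_len' n Φ ψ hn]
    simpa using h

/-- the exponential -/
noncomputable def ex (w : List Bool) : K := (P n Φ ψ w).eval 1

omit [Algebra ℚ K] in
theorem antidiag (f g : ℕ → K) (k : ℕ) :
    ∑ p ∈ antidiagonal k, (((p.1 : K) + 1) * f (p.1 + 1)) * g p.2 +
      ∑ p ∈ antidiagonal k, f p.1 * (((p.2 : K) + 1) * g (p.2 + 1)) =
    ((k : K) + 1) * ∑ p ∈ antidiagonal (k + 1), f p.1 * g p.2 := by
  have h1 : ∑ p ∈ antidiagonal (k + 1), (p.1 : K) * f p.1 * g p.2 =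
      ∑ p ∈ antidiagonal k, (((p.1 : K) + 1) * f (p.1 + 1)) * g p.2 := by
    rw [Finset.Nat.sum_antidiagonal_succ]
    simp
  have h2 : ∑ p ∈ antidiagonal (k + 1), f p.1 * ((p.2 : K) * g p.2) =
      ∑ p ∈ antidiagonal k, f p.1 * (((p.2 : K) + 1) * g (p.2 + 1)) := by
    rw [Finset.Nat.sum_antidiagonal_succ']
    simp
  rw [← h1, ← h2, ← Finset.sum_add_distrib, Finset.mul_sum]
  refine Finset.sum_congr rfl fun p hp => ?_
  have h3 : (p.1 : K) + p.2 = (k : K) + 1 := by
    have := HasAntidiagonal.mem_antidiagonal.1 hp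
    rw [← Nat.cast_add, this]
    push_cast
    ring
  rw [← h3]
  ring

omit [Algebra ℚ K] in
theorem shs_mul (c : K) (φ : List Bool → K) (u v : List Bool) :
    shs (fun l => c * φ l) u v = c * shs φ u v := by
  have := shs_map (AddMonoidHom.mulLeft c) φ u v
  simpa using this.symm

omit [Algebra ℚ K] in
theorem stf_mul (c : K) (φ : List ℕ → K) (u v : List ℕ) :
    stf (fun l => c * φ l) u v = c * stf φ u v := by
  have := stf_map (AddMonoidHom.mulLeft c) φ u v
  simpa using this.symm

/-- Leibniz for shuffles -/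
theorem shs_e (hS : SpecShW) (hn : 1 ≤ n)
    (hψ : ∀ u v : List Bool, u ≠ [] → v ≠ [] → u.length + v.length = n → shs ψ u v = 0)
    (hΦ : ∀ u v : List Bool, shs Φ u v = Φ u * Φ v) (k : ℕ) (u v : List Bool) :
    shs (e n Φ ψ k) u v = ∑ p ∈ antidiagonal k, e n Φ ψ p.1 u * e n Φ ψ p.2 v := by
  induction k generalizing u v with
  | zero => simp [e, hΦ]
  | succ k ih =>
    have h1 : shs (e n Φ ψ (k + 1)) u v =
        algebraMap ℚ K (1 / ((k : ℚ) + 1)) * shs (T n ψ (e n Φ ψ k)) u v :=
      shs_mul _ (T n ψ (e n Φ ψ k)) u v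
    have h2 := hS K K n ψ hn hψ (e n Φ ψ k) u v
    have h3 : T n ψ (fun s => shs (e n Φ ψ k) s v) u =
        ∑ p ∈ antidiagonal k, (((p.1 : K) + 1) * e n Φ ψ (p.1 + 1) u) * e n Φ ψ p.2 v := by
      have : (fun s => shs (e n Φ ψ k) s v) =
          fun s => ∑ p ∈ antidiagonal k, e n Φ ψ p.2 v * e n Φ ψ p.1 s := by
        funext s
        rw [ih]
        exact Finset.sum_congr rfl fun p _ => mul_comm _ _
      rw [this, T_sum]
      refine Finset.sum_congr rfl fun p _ => ?_
      rw [T_e]
      ring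
    have h4 : T n ψ (fun s => shs (e n Φ ψ k) u s) v =
        ∑ p ∈ antidiagonal k, e n Φ ψ p.1 u * (((p.2 : K) + 1) * e n Φ ψ (p.2 + 1) v) := by
      have : (fun s => shs (e n Φ ψ k) u s) =
          fun s => ∑ p ∈ antidiagonal k, e n Φ ψ p.1 u * e n Φ ψ p.2 s := by
        funext s
        rw [ih]
      rw [this, T_sum]
      refine Finset.sum_congr rfl fun p _ => ?_
      rw [T_e]
    rw [h1, h2, h3, h4]
    exact (congrArg _ (antidiag (fun i => e n Φ ψ i u) (fun j => e n Φ ψ j v) k)).trans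
      (inv_mul _ _)

/-- Leibniz for stuffles -/
theorem stf_e (hS : SpecStW) (hψ : DW n ψ)
    (hΦ : ∀ u v : List ℕ, Ad v → stf (fun l => Φ (bw l)) u v = Φ (bw u) * Φ (bw v))
    (k : ℕ) (u v : List ℕ) (hv : Ad v) :
    stf (fun l => e n Φ ψ k (bw l)) u v =
      ∑ p ∈ antidiagonal k, e n Φ ψ p.1 (bw u) * e n Φ ψ p.2 (bw v) := by
  induction k generalizing u v with
  | zero => simp [e, hΦ u v hv]
  | succ k ih =>
    have h1 : stf (fun l => e n Φ ψ (k + 1) (bw l)) u v =
        algebraMap ℚ K (1 / ((k : ℚ) + 1)) * stf (fun l => T n ψ (e n Φ ψ k) (bw l)) u v :=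
      stf_mul _ (fun l => T n ψ (e n Φ ψ k) (bw l)) u v
    have h2 := hS K n ψ hψ (e n Φ ψ k) u v hv
    have h3 : T n ψ (fun s => (toY 0 s).elim 0 fun l =>
          stf (fun l => e n Φ ψ k (bw l)) l v) (bw u) =
        ∑ p ∈ antidiagonal k, (((p.1 : K) + 1) * e n Φ ψ (p.1 + 1) (bw u)) *
          e n Φ ψ p.2 (bw v) := by
      rw [T_congr_bw n ψ (φ' := fun s => ∑ p ∈ antidiagonal k,
        e n Φ ψ p.2 (bw v) * e n Φ ψ p.1 s) u, T_sum]
      · refine Finset.sum_congr rfl fun p _ => ?_
        rw [T_e]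
        ring
      · intro l'
        simp only [toY_bw, Option.elim_some]
        rw [ih l' v hv]
        exact Finset.sum_congr rfl fun p _ => mul_comm _ _
    have h4 : T n ψ (fun s => (toY 0 s).elim 0 fun l =>
          stf (fun l => e n Φ ψ k (bw l)) u l) (bw v) =
        ∑ p ∈ antidiagonal k, e n Φ ψ p.1 (bw u) *
          (((p.2 : K) + 1) * e n Φ ψ (p.2 + 1) (bw v)) := by
      rw [T_congr_ad n ψ (φ' := fun s => ∑ p ∈ antidiagonal k,
        e n Φ ψ p.1 (bw u) * e n Φ ψ p.2 s) v hv, T_sum]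
      · refine Finset.sum_congr rfl fun p _ => ?_
        rw [T_e]
      · intro l' hl'
        simp only [toY_bw, Option.elim_some]
        rw [ih u l' hl']
    rw [h1, h2, h3, h4]
    exact (congrArg _ (antidiag (fun i => e n Φ ψ i (bw u)) (fun j => e n Φ ψ j (bw v)) k)).trans
      (inv_mul _ _)

theorem P_shs (hn : 1 ≤ n) (u v : List Bool)
    (h : ∀ k, shs (e n Φ ψ k) u v = ∑ p ∈ antidiagonal k, e n Φ ψ p.1 u * e n Φ ψ p.2 v) :
    shs (ex n Φ ψ) u v = ex n Φ ψ u * ex n Φ ψ v := by
  have h1 : shs (P n Φ ψ) u v = P n Φ ψ u * P n Φ ψ v := by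
    ext k
    have := shs_map (Polynomial.lcoeff K k).toAddMonoidHom (P n Φ ψ) u v
    simp only [LinearMap.toAddMonoidHom_coe, Polynomial.lcoeff_apply, P_coeff n Φ ψ hn] at this
    rw [this, Polynomial.coeff_mul]
    simp only [P_coeff n Φ ψ hn]
    exact h k
  have h2 := shs_map (Polynomial.evalRingHom (1 : K)).toAddMonoidHom (P n Φ ψ) u v
  simp only [RingHom.toAddMonoidHom_eq_coe, AddMonoidHom.coe_coe, Polynomial.coe_evalRingHom] at h2
  change shs (fun l => (P n Φ ψ l).eval 1) u v = (P n Φ ψ u).eval 1 * (P n Φ ψ v).eval 1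
  rw [← h2, h1, Polynomial.eval_mul]

theorem P_stf (hn : 1 ≤ n) (u v : List ℕ)
    (h : ∀ k, stf (fun l => e n Φ ψ k (bw l)) u v =
      ∑ p ∈ antidiagonal k, e n Φ ψ p.1 (bw u) * e n Φ ψ p.2 (bw v)) :
    stf (fun l => ex n Φ ψ (bw l)) u v = ex n Φ ψ (bw u) * ex n Φ ψ (bw v) := by
  have h1 : stf (fun l => P n Φ ψ (bw l)) u v = P n Φ ψ (bw u) * P n Φ ψ (bw v) := by
    ext k
    have := stf_map (Polynomial.lcoeff K k).toAddMonoidHom (fun l => P n Φ ψ (bw l)) u v
    simp only [LinearMap.toAddMonoidHom_coe, Polynomial.lcoeff_apply, P_coeff n Φ ψ hn] at this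
    rw [this, Polynomial.coeff_mul]
    simp only [P_coeff n Φ ψ hn]
    exact h k
  have h2 := stf_map (Polynomial.evalRingHom (1 : K)).toAddMonoidHom (fun l => P n Φ ψ (bw l)) u v
  simp only [RingHom.toAddMonoidHom_eq_coe, AddMonoidHom.coe_coe, Polynomial.coe_evalRingHom] at h2
  change stf (fun l => (P n Φ ψ (bw l)).eval 1) u v =
    (P n Φ ψ (bw u)).eval 1 * (P n Φ ψ (bw v)).eval 1
  rw [← h2, h1, Polynomial.eval_mul]

theorem ex_eq (hn : 1 ≤ n) (w : List Bool) (m : ℕ) (h : w.length < m * n) :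
    ex n Φ ψ w = ∑ k ∈ range m, e n Φ ψ k w := by
  have h1 : ex n Φ ψ w = ∑ k ∈ range (w.length + 1), e n Φ ψ k w := by
    rw [ex, P, Polynomial.eval_finsetSum]
    simp
  have h2 : ∑ k ∈ range (w.length + 1), e n Φ ψ k w =
      ∑ k ∈ range (w.length + 1 + m), e n Φ ψ k w := by
    apply Finset.sum_subset
    · intro k hk
      simp only [Finset.mem_range] at hk ⊢
      omega
    · intro k _ hk
      simp only [Finset.mem_range, not_lt] at hk
      exact e_len' n Φ ψ hn k w (by omega)
  rw [h1, h2]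
  symm
  apply Finset.sum_subset
  · intro k hk
    simp only [Finset.mem_range] at hk ⊢
    omega
  · intro k _ hk
    simp only [Finset.mem_range, not_lt] at hk
    apply e_len n Φ ψ hn k w
    calc w.length < m * n := h
      _ ≤ k * n := Nat.mul_le_mul_right n hk

omit [Algebra ℚ K] in
theorem T_exact (hn : 1 ≤ n) (φ : List Bool → K) (w : List Bool) (hw : w.length = n) :
    T n ψ φ w = ψ w * φ [] := by
  rcases w with _ | ⟨a, w⟩
  · simp at hw
    omega
  rw [T, TT]
  have h1 : TT n ψ a (fun v => φ (a :: v)) w = 0 := by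
    rw [TT_congr_len n ψ a (fun v => φ (a :: v)) (fun _ => 0) w, TT_zero]
    intro v hv
    rw [List.length_cons] at hw
    omega
  rw [h1, add_zero, hd, if_pos (by omega), ← hw]
  simp

theorem psi_rep (hψ : DW n ψ) : ψ (List.replicate n false) = 0 := by
  have h3 := hψ.three
  have h1 := hψ.sh [false] (List.replicate (n - 1) false) (by simp) (by
    intro h
    have := congrArg List.length h
    simp at this
    omega) (by simp; omega)
  have h2 := F2.shs_replicate false 1 (n - 1) ψ
  rw [List.replicate_one, h1, show 1 + (n - 1) = n by omega, Nat.choose_one_right] at h2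
  obtain ⟨m, rfl⟩ : ∃ m, n = m + 1 := ⟨n - 1, by omega⟩
  have h4 := inv_mul (K := K) m (ψ (List.replicate (m + 1) false))
  rw [← h4]
  have h5 : ((m : K) + 1) * ψ (List.replicate (m + 1) false) = 0 := by
    rw [h2, nsmul_eq_mul]
    push_cast
    ring
  rw [h5, mul_zero]

omit [Algebra ℚ K] in
theorem TT_xy (hn : 1 ≤ n) (h0 : ψ (List.replicate n false) = 0) (k : ℕ) (φ : List Bool → K) :
    TT n ψ false φ (List.replicate k false ++ [true]) = 0 := by
  have key : ∀ k (φ : List Bool → K), hd n ψ false φ (List.replicate k false ++ [true]) = 0 := by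
    intro k φ
    unfold hd
    split_ifs with h1
    rotate_left
    all_goals try rfl
    all_goals
      rcases Nat.lt_or_ge k n with h2 | h2
      · have h3 : n = k + 1 := by
          rw [List.length_append, List.length_replicate, List.length_singleton] at h1
          omega
        subst h3
        have : List.drop (k + 1) (List.replicate k false ++ [true]) = [] := by
          apply List.drop_eq_nil_of_le
          simp
        simp_all
      · have : List.take n (List.replicate k false ++ [true]) = List.replicate n false := by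
          rw [List.take_append_of_le_length (by simpa using h2), List.take_replicate,
            Nat.min_eq_left h2]
        rw [this, h0]
        simp
  induction k generalizing φ with
  | zero =>
    have h1 := key 0 φ
    rw [List.replicate_zero, List.nil_append] at h1 ⊢
    rw [TT, h1, zero_add, TT, hd, if_neg]
    simp
    omega
  | succ k ih =>
    have h1 := key (k + 1) φ
    rw [List.replicate_succ, List.cons_append] at h1 ⊢
    rw [TT, h1, zero_add, ih]

omit [Algebra ℚ K] in
theorem T_xy (hn : 1 ≤ n) (h0 : ψ (List.replicate n false) = 0) (k : ℕ) (hk : n ≤ k)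
    (φ : List Bool → K) : T n ψ φ (bw [k]) = 0 := by
  obtain ⟨k, rfl⟩ : ∃ m, k = m + 1 := ⟨k - 1, by omega⟩
  have h2 : bw [k + 1] = false :: (List.replicate k false ++ [true]) := by
    rw [bw, List.replicate_succ]
    rfl
  have h3 : List.take n (bw [k + 1]) = List.replicate n false := by
    rw [bw, List.take_append_of_le_length (by simpa using hk), List.take_replicate,
      Nat.min_eq_left hk]
  have h4 : hd n ψ true φ (bw [k + 1]) = 0 := by
    unfold hd
    rw [h3, h0]
    simp
  rw [T, h2, TT, ← h2, h4, zero_add, TT_xy n ψ hn h0]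

theorem e_xy (hn : 1 ≤ n) (h0 : ψ (List.replicate n false) = 0) (k : ℕ) (hk : n ≤ k) (j : ℕ) :
    e n Φ ψ (j + 1) (bw [k]) = 0 := by
  rw [e_succ, T_xy n ψ hn h0 k hk, mul_zero]

theorem ex_xy (hn : 1 ≤ n) (h0 : ψ (List.replicate n false) = 0) (k : ℕ) (hk : n ≤ k) :
    ex n Φ ψ (bw [k]) = Φ (bw [k]) := by
  rw [ex_eq n Φ ψ hn (bw [k]) ((bw [k]).length + 1) (by
    calc (bw [k]).length < ((bw [k]).length + 1) := by omega
      _ ≤ ((bw [k]).length + 1) * n := Nat.le_mul_of_pos_right _ hn), Finset.sum_range_succ']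
  rw [Finset.sum_eq_zero (fun j _ => e_xy n Φ ψ hn h0 k hk j), zero_add]
  rfl

end exp

/-- FLOW -/
theorem specFlow (hSh : SpecShW) (hSt : SpecStW) : SpecFlow := by
  intro K _ _ n Φ ψ hΦ hψ
  have h3 := hψ.three
  have hn : 1 ≤ n := by omega
  have hlt : ∀ w : List Bool, w.length < n → ex n Φ ψ w = Φ w := by
    intro w hw
    rw [ex_eq n Φ ψ hn w 1 (by omega), Finset.sum_range_one]
    rfl
  refine ⟨ex n Φ ψ, ⟨?_, ?_, ?_, ?_, ?_⟩, hlt, ?_, ?_⟩
  · rw [hlt [] (by simp; omega), hΦ.one]
  · rw [hlt _ (by simp; omega), hΦ.zx]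
  · rw [hlt _ (by simp; omega), hΦ.zy]
  · intro u v
    exact P_shs n Φ ψ hn u v fun k => shs_e n Φ ψ hSh hn hψ.sh hΦ.sh k u v
  · intro u v hv
    exact P_stf n Φ ψ hn u v fun k => stf_e n Φ ψ hSt hψ hΦ.st k u v hv
  · intro w hw
    rw [ex_eq n Φ ψ hn w 2 (by omega), Finset.sum_range_succ, Finset.sum_range_one]
    have h1 : e n Φ ψ 1 w = ψ w := by
      rw [e_succ n Φ ψ 0 w, T_exact n ψ hn _ w hw]
      change algebraMap ℚ K (1 / (((0 : ℕ) : ℚ) + 1)) * (ψ w * Φ []) = ψ w
      rw [hΦ.one]
      simp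
    rw [h1]
    rfl
  · intro k hk
    exact ex_xy n Φ ψ hn (psi_rep n ψ hψ) k hk

end MP154526.Low.Flow
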