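import Pool.Agent.Lib.MP_154526_nt.Low.Basic
import Pool.Agent.Lib.MP_154526_nt.Low.Spec

/-!
# RAC: `s_ψ` is a coderivation of the stuffle coproduct
-/

set_option autoImplicit false

namespace MP154526.Low

open Finset MP154526.Bound MP154526.Top MP154526.Top.Pass2 MP154526.Lin
open scoped TensorProduct

namespace Rac

section Basics

variable {R : Type} [CommRing R]

theorem dd_yy (k : ℕ) : dd R (yy R (k + 1)) = (k : R) • yy R k := der_letter _ _

theorem dd_yy0 : dd R (yy R 0) = 0 := der_one _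

theorem dd_mul (f g : FA R ℕ) : dd R (f * g) = dd R f * g + f * dd R g := der_mul _ _ _

/-- `dd` is a coderivation -/
theorem dd_cod (f : FA R ℕ) : Dst R (dd R f) = cod (dd R) (Dst R f) := by
  refine cod_crit (Dst R) (fun m : ℕ => (m : R) • yy R m) (fun m => ?_) f
  rw [map_smul, Dst_yy, Dst_letter, map_sum]
  simp only [cod_tmul]
  have h3 : (der fun m : ℕ => (m : R) • yy R m) (yy R 0) = 0 := dd_yy0
  have e1 : ∑ i ∈ range (m + 2), (der fun m : ℕ => (m : R) • yy R m) (yy R i) ⊗ₜ[R]
      yy R (m + 1 - i) = ∑ i ∈ range (m + 1), (i : R) • (yy R i ⊗ₜ[R] yy R (m - i)) := by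
    rw [Finset.sum_range_succ', h3, TensorProduct.zero_tmul, add_zero]
    refine Finset.sum_congr rfl fun i _ => ?_
    have : (der fun m : ℕ => (m : R) • yy R m) (yy R (i + 1)) = (i : R) • yy R i := dd_yy i
    rw [this, TensorProduct.smul_tmul', Nat.add_sub_add_right]
  have e2 : ∑ i ∈ range (m + 2), yy R i ⊗ₜ[R] (der fun m : ℕ => (m : R) • yy R m)
      (yy R (m + 1 - i)) = ∑ i ∈ range (m + 1), ((m - i : ℕ) : R) •
        (yy R i ⊗ₜ[R] yy R (m - i)) := by
    rw [Finset.sum_range_succ, Nat.sub_self, h3, TensorProduct.tmul_zero, add_zero]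
    refine Finset.sum_congr rfl fun i hi => ?_
    rw [Finset.mem_range] at hi
    have : m + 1 - i = (m - i) + 1 := by omega
    rw [this]
    have : (der fun m : ℕ => (m : R) • yy R m) (yy R (m - i + 1)) =
        ((m - i : ℕ) : R) • yy R (m - i) := dd_yy (m - i)
    rw [this, TensorProduct.tmul_smul]
  rw [Finset.sum_add_distrib, e1, e2, ← Finset.sum_add_distrib, Finset.smul_sum]
  refine Finset.sum_congr rfl fun i hi => ?_
  rw [← add_smul]
  congr 1
  rw [Finset.mem_range] at hi
  rw [← Nat.cast_add]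
  congr 1
  omega

theorem rv_ow (w : List ℕ) : rv R (ow R w) = ow R w.reverse := lext_ow _ _

theorem rv_mul (f g : FA R ℕ) : rv R (f * g) = rv R g * rv R f := by
  induction f using FA_ind with
  | h0 => simp
  | hadd f f' hf hf' => rw [add_mul, map_add, hf, hf', map_add, mul_add]
  | hs r u =>
    induction g using FA_ind with
    | h0 => simp
    | hadd g g' hg hg' => rw [mul_add, map_add, hg, hg', map_add, add_mul]
    | hs s v =>
      simp only [smul_mul_assoc, mul_smul_comm, map_smul, rv_ow]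
      rw [← ow_append, rv_ow, List.reverse_append, ow_append, smul_comm]

theorem rv_one : rv R (1 : FA R ℕ) = 1 := by
  rw [← ow_nil, rv_ow]
  rfl

theorem rv_yy (k : ℕ) : rv R (yy R k) = yy R k := by
  cases k with
  | zero => exact rv_one
  | succ k => exact rv_ow [k]

/-- the flip of both factors -/
theorem map_rv_mul (x y : FA R ℕ ⊗[R] FA R ℕ) :
    TensorProduct.map (rv R) (rv R) (x * y) =
      TensorProduct.map (rv R) (rv R) y * TensorProduct.map (rv R) (rv R) x := by
  induction x using TensorProduct.induction_on with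
  | zero => simp
  | add x x' hx hx' => rw [add_mul, map_add, hx, hx', map_add, mul_add]
  | tmul a b =>
    induction y using TensorProduct.induction_on with
    | zero => simp
    | add y y' hy hy' => rw [mul_add, map_add, hy, hy', map_add, add_mul]
    | tmul a' b' =>
      simp only [Algebra.TensorProduct.tmul_mul_tmul, TensorProduct.map_tmul, rv_mul]

theorem Dst_rv (f : FA R ℕ) : Dst R (rv R f) = TensorProduct.map (rv R) (rv R) (Dst R f) := by
  induction f using FA_ind with
  | h0 => simp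
  | hadd f g hf hg => simp only [map_add, hf, hg]
  | hs r w =>
    simp only [map_smul]
    congr 1
    induction w with
    | nil =>
      rw [ow_nil, rv_one, map_one, Algebra.TensorProduct.one_def, TensorProduct.map_tmul, rv_one]
    | cons a w ih =>
      have h1 : Dst R (rv R (ow R [a])) =
          TensorProduct.map (rv R) (rv R) (Dst R (ow R [a])) := by
        rw [rv_ow, List.reverse_singleton, Dst_letter, map_sum]
        refine Finset.sum_congr rfl fun i _ => ?_
        rw [TensorProduct.map_tmul, rv_yy, rv_yy]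
      rw [ow_cons, rv_mul, map_mul, map_mul, map_rv_mul, ih, h1]

/-- primitive elements -/
def Prim (f : FA R ℕ) : Prop := Dst R f = f ⊗ₜ[R] 1 + 1 ⊗ₜ[R] f

theorem prim_zero : Prim (0 : FA R ℕ) := by
  unfold Prim
  simp

theorem prim_smul (r : R) {f : FA R ℕ} (h : Prim f) : Prim (r • f) := by
  unfold Prim at *
  rw [map_smul, h, smul_add, TensorProduct.smul_tmul', TensorProduct.tmul_smul]

theorem prim_dd {f : FA R ℕ} (h : Prim f) : Prim (dd R f) := by
  unfold Prim at *
  have h1 : dd R (1 : FA R ℕ) = 0 := dd_yy0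
  rw [dd_cod, h, map_add, cod_tmul, cod_tmul, h1]
  simp

theorem prim_dd_pow {f : FA R ℕ} (h : Prim f) (i : ℕ) : Prim (((dd R) ^ i) f) := by
  induction i with
  | zero => exact h
  | succ i ih =>
    rw [pow_succ', Module.End.mul_apply]
    exact prim_dd ih

theorem prim_rv {f : FA R ℕ} (h : Prim f) : Prim (rv R f) := by
  unfold Prim at *
  rw [Dst_rv, h, map_add, TensorProduct.map_tmul, TensorProduct.map_tmul, rv_one]

/-! ### coefficients -/

theorem cf_yy_nil (k : ℕ) : cf (yy R k) [] = if k = 0 then 1 else 0 := by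
  cases k with
  | zero => exact cf_one_nil
  | succ k =>
    show cf (ow R [k]) [] = _
    rw [cf_ow]
    simp

theorem cf_yy_single (k m : ℕ) : cf (yy R k) [m] = if k = m + 1 then 1 else 0 := by
  cases k with
  | zero =>
    show cf (1 : FA R ℕ) [m] = _
    rw [cf_one_ne (by simp)]
    simp
  | succ k =>
    show cf (ow R [k]) [m] = _
    rw [cf_ow]
    simp

theorem cf_mul_single (f g : FA R ℕ) (m : ℕ) :
    cf (f * g) [m] = cf f [] * cf g [m] + cf f [m] * cf g [] := by
  rw [cf_mul]
  simp [Finset.sum_range_succ]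

theorem cf_mul_nil (f g : FA R ℕ) : cf (f * g) [] = cf f [] * cf g [] := by
  rw [cf_mul]
  simp

theorem cf_dd_nil (f : FA R ℕ) : cf (dd R f) [] = 0 := by
  induction f using FA_ind with
  | h0 => simp
  | hadd f g hf hg => rw [map_add, cf_add, hf, hg, add_zero]
  | hs r w =>
    rw [map_smul, cf_smul]
    have : cf (dd R (ow R w)) [] = 0 := by
      induction w with
      | nil => rw [ow_nil]; exact congrArg (fun f => cf f []) dd_yy0
      | cons a w ih =>
        rw [ow_cons, dd_mul, cf_add, cf_mul_nil, cf_mul_nil, ih, mul_zero, add_zero]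
        have h1 : dd R (ow R [a]) = (a : R) • yy R a := dd_yy a
        rw [h1, cf_smul, cf_yy_nil]
        split_ifs with h
        · subst h
          simp
        · simp
    rw [this, mul_zero]

theorem cf_dd_single (f : FA R ℕ) (m : ℕ) :
    cf (dd R f) [m] = ((m : R) + 1) * cf f [m + 1] := by
  induction f using FA_ind with
  | h0 => simp
  | hadd f g hf hg => rw [map_add, cf_add, hf, hg, cf_add, mul_add]
  | hs r w =>
    rw [map_smul, cf_smul, cf_smul]
    have : cf (dd R (ow R w)) [m] = ((m : R) + 1) * cf (ow R w) [m + 1] := by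
      cases w with
      | nil =>
        rw [ow_nil, cf_one_ne (by simp), mul_zero]
        exact congrArg (fun f => cf f [m]) dd_yy0
      | cons a w =>
        rw [ow_cons, dd_mul, cf_add, cf_mul_single, cf_mul_single, cf_mul_single, cf_dd_nil,
          cf_dd_nil]
        have h1 : dd R (ow R [a]) = (a : R) • yy R a := dd_yy a
        have h2 : cf (ow R [a]) [] = 0 := cf_ow_ne (by simp)
        rw [h1, h2, cf_smul, cf_yy_single]
        by_cases h : a = m + 1
        · subst h
          simp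
        · have h3 : cf (ow R [a]) [m + 1] = 0 := cf_ow_ne (by simpa using h)
          rw [h3]
          simp [h]
    rw [this]
    ring

theorem cf_rv (f : FA R ℕ) (w : List ℕ) : cf (rv R f) w = cf f w.reverse := by
  induction f using FA_ind with
  | h0 => simp
  | hadd f g hf hg => rw [map_add, cf_add, hf, hg, cf_add]
  | hs r u =>
    rw [map_smul, cf_smul, cf_smul, rv_ow, cf_ow, cf_ow]
    congr 1
    by_cases h : u.reverse = w
    · subst h
      simp
    · rw [if_neg h, if_neg fun h' => h (by rw [h', List.reverse_reverse])]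

/-- the coefficients at single letters of `dd^i f` -/
theorem cf_dd_pow_single (f : FA R ℕ) (hf : ∀ r, cf f [r] = 0) (i m : ℕ) :
    cf (((dd R) ^ i) f) [m] = 0 := by
  induction i generalizing m with
  | zero => exact hf m
  | succ i ih => rw [pow_succ', Module.End.mul_apply, cf_dd_single, ih, mul_zero]

theorem cf_dd_pow_nil (f : FA R ℕ) (hf : cf f [] = 0) (i : ℕ) :
    cf (((dd R) ^ i) f) [] = 0 := by
  cases i with
  | zero => exact hf
  | succ i => rw [pow_succ', Module.End.mul_apply, cf_dd_nil]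

end Basics

/-! ### the generating series -/

section Series

variable {R : Type} [CommRing R]

/-- `f ↦ f ⊗ 1` -/
noncomputable def i1 : FA R ℕ →+* FA R ℕ ⊗[R] FA R ℕ :=
  (Algebra.TensorProduct.includeLeft : FA R ℕ →ₐ[R] FA R ℕ ⊗[R] FA R ℕ).toRingHom

/-- `f ↦ 1 ⊗ f` -/
noncomputable def i2 : FA R ℕ →+* FA R ℕ ⊗[R] FA R ℕ :=
  (Algebra.TensorProduct.includeRight : FA R ℕ →ₐ[R] FA R ℕ ⊗[R] FA R ℕ).toRingHom

theorem i1_apply (f : FA R ℕ) : i1 f = f ⊗ₜ[R] 1 := rfl

theorem i2_apply (f : FA R ℕ) : i2 f = 1 ⊗ₜ[R] f := rfl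

theorem i1_mul_i2 (f g : FA R ℕ) : i1 f * i2 g = f ⊗ₜ[R] g := by
  rw [i1_apply, i2_apply, Algebra.TensorProduct.tmul_mul_tmul, one_mul, mul_one]

theorem i2_mul_i1 (f g : FA R ℕ) : i2 g * i1 f = f ⊗ₜ[R] g := by
  rw [i1_apply, i2_apply, Algebra.TensorProduct.tmul_mul_tmul, one_mul, mul_one]

/-- the two factors commute -/
theorem ps_comm (F G : PowerSeries (FA R ℕ)) :
    PowerSeries.map i1 F * PowerSeries.map i2 G = PowerSeries.map i2 G * PowerSeries.map i1 F := by
  ext1 n
  rw [PowerSeries.coeff_mul, PowerSeries.coeff_mul, ← Finset.Nat.sum_antidiagonal_swap]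
  refine Finset.sum_congr rfl fun p _ => ?_
  simp only [PowerSeries.coeff_map, Prod.fst_swap, Prod.snd_swap]
  rw [i1_mul_i2, i2_mul_i1]

/-- `∑ y_k t^k` -/
noncomputable def YS : PowerSeries (FA R ℕ) := PowerSeries.mk (yy R)

theorem map_YS : PowerSeries.map (Dst R).toRingHom (YS : PowerSeries (FA R ℕ)) =
    PowerSeries.map i1 YS * PowerSeries.map i2 YS := by
  ext1 n
  rw [PowerSeries.coeff_mul]
  simp only [PowerSeries.coeff_map, YS, PowerSeries.coeff_mk, i1_mul_i2]
  rw [Finset.Nat.sum_antidiagonal_eq_sum_range_succ (fun i j => yy R i ⊗ₜ[R] yy R j)]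
  exact Dst_yy n

theorem map_prim (a : ℕ → FA R ℕ) (ha : ∀ j, Prim (a j)) :
    PowerSeries.map (Dst R).toRingHom (PowerSeries.mk a) =
      PowerSeries.map i1 (PowerSeries.mk a) + PowerSeries.map i2 (PowerSeries.mk a) := by
  ext1 n
  rw [map_add]
  simp only [PowerSeries.coeff_map, PowerSeries.coeff_mk]
  exact ha n

/-- `G = A Y + Y B` -/
noncomputable def GS (a b : ℕ → FA R ℕ) : PowerSeries (FA R ℕ) :=
  PowerSeries.mk a * YS + YS * PowerSeries.mk b

/-- the coefficients of `G` -/
noncomputable def Gc (a b : ℕ → FA R ℕ) (N : ℕ) : FA R ℕ := PowerSeries.coeff N (GS a b)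

theorem Gc_eq (a b : ℕ → FA R ℕ) (N : ℕ) : Gc a b N =
    ∑ j ∈ range (N + 1), a j * yy R (N - j) + ∑ j ∈ range (N + 1), yy R (N - j) * b j := by
  rw [Gc, GS, map_add, PowerSeries.coeff_mul, PowerSeries.coeff_mul]
  simp only [YS, PowerSeries.coeff_mk]
  congr 1
  · exact Finset.Nat.sum_antidiagonal_eq_sum_range_succ (fun i j => a i * yy R j) N
  · rw [← Finset.Nat.sum_antidiagonal_swap]
    exact Finset.Nat.sum_antidiagonal_eq_sum_range_succ (fun i j => yy R j * b i) N

theorem map_GS (a b : ℕ → FA R ℕ) (ha : ∀ j, Prim (a j)) (hb : ∀ j, Prim (b j)) :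
    PowerSeries.map (Dst R).toRingHom (GS a b) =
      PowerSeries.map i1 (GS a b) * PowerSeries.map i2 YS +
        PowerSeries.map i1 YS * PowerSeries.map i2 (GS a b) := by
  have h1 := ps_comm (R := R) YS YS
  have h2 := ps_comm (R := R) YS (PowerSeries.mk a)
  have h3 := ps_comm (R := R) (PowerSeries.mk b) YS
  unfold GS
  simp only [map_add, map_mul, map_YS, map_prim a ha, map_prim b hb]
  generalize PowerSeries.map i1 (PowerSeries.mk a) = A1 at *
  generalize PowerSeries.map i2 (PowerSeries.mk a) = A2 at *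
  generalize PowerSeries.map i1 (PowerSeries.mk b) = B1 at *
  generalize PowerSeries.map i2 (PowerSeries.mk b) = B2 at *
  generalize PowerSeries.map i1 (YS (R := R)) = Y1 at *
  generalize PowerSeries.map i2 (YS (R := R)) = Y2 at *
  calc (A1 + A2) * (Y1 * Y2) + Y1 * Y2 * (B1 + B2)
      = A1 * Y1 * Y2 + A2 * Y1 * Y2 + (Y1 * (Y2 * B1) + Y1 * (Y2 * B2)) := by
        simp only [add_mul, mul_add, mul_assoc]
    _ = A1 * Y1 * Y2 + Y1 * A2 * Y2 + (Y1 * (B1 * Y2) + Y1 * (Y2 * B2)) := by
        rw [h2, h3]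
    _ = (A1 * Y1 + Y1 * B1) * Y2 + Y1 * (A2 * Y2 + Y2 * B2) := by
        simp only [add_mul, mul_add, mul_assoc]
        abel

/-- the key formula: `Δ G_N = ∑_{M + m = N} (G_M ⊗ y_m + y_m ⊗ G_M)` -/
theorem Dst_Gc (a b : ℕ → FA R ℕ) (ha : ∀ j, Prim (a j)) (hb : ∀ j, Prim (b j)) (N : ℕ) :
    Dst R (Gc a b N) = ∑ M ∈ range (N + 1), (Gc a b M ⊗ₜ[R] yy R (N - M) +
      yy R (N - M) ⊗ₜ[R] Gc a b M) := by
  have h := congrArg (PowerSeries.coeff N) (map_GS a b ha hb)
  rw [map_add, PowerSeries.coeff_mul, PowerSeries.coeff_mul] at h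
  simp only [PowerSeries.coeff_map, YS, PowerSeries.coeff_mk, i1_mul_i2] at h
  have e1 : ∑ p ∈ antidiagonal N, PowerSeries.coeff p.1 (GS a b) ⊗ₜ[R] yy R p.2 =
      ∑ M ∈ range (N + 1), Gc a b M ⊗ₜ[R] yy R (N - M) :=
    Finset.Nat.sum_antidiagonal_eq_sum_range_succ (fun i j =>
      PowerSeries.coeff i (GS a b) ⊗ₜ[R] yy R j) N
  have e2 : ∑ p ∈ antidiagonal N, yy R p.1 ⊗ₜ[R] PowerSeries.coeff p.2 (GS a b) =
      ∑ M ∈ range (N + 1), yy R (N - M) ⊗ₜ[R] Gc a b M := by
    rw [← Finset.Nat.sum_antidiagonal_swap]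
    exact Finset.Nat.sum_antidiagonal_eq_sum_range_succ
      (fun i j => yy R j ⊗ₜ[R] PowerSeries.coeff i (GS a b)) N
  rw [e1, e2, ← Finset.sum_add_distrib] at h
  exact h

end Series

section Main

variable {R : Type} [CommRing R] [Algebra ℚ R]

/-- the sequence `a` -/
noncomputable def aa (n : ℕ) (P : FA R ℕ) (j : ℕ) : FA R ℕ :=
  if j ≤ n then (algebraMap ℚ R (1 / ((n - j).factorial : ℚ)) * (-1) ^ (n - j)) •
    ((dd R) ^ (n - j)) P else 0

/-- the sequence `b` -/
noncomputable def bb (n : ℕ) (P : FA R ℕ) (j : ℕ) : FA R ℕ :=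
  if j ≤ n then (algebraMap ℚ R (1 / ((n - j).factorial : ℚ)) * (-1) ^ j) •
    rv R (((dd R) ^ (n - j)) P) else 0

theorem aa_prim (n : ℕ) {P : FA R ℕ} (hP : Prim P) (j : ℕ) : Prim (aa n P j) := by
  unfold aa
  split_ifs
  · exact prim_smul _ (prim_dd_pow hP _)
  · exact prim_zero

theorem bb_prim (n : ℕ) {P : FA R ℕ} (hP : Prim P) (j : ℕ) : Prim (bb n P j) := by
  unfold bb
  split_ifs
  · exact prim_smul _ (prim_rv (prim_dd_pow hP _))
  · exact prim_zero

theorem cf_aa_nil (n : ℕ) {P : FA R ℕ} (hP : cf P [] = 0) (j : ℕ) : cf (aa n P j) [] = 0 := by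
  unfold aa
  split_ifs
  · rw [cf_smul, cf_dd_pow_nil _ hP, mul_zero]
  · exact cf_zero _

theorem cf_bb_nil (n : ℕ) {P : FA R ℕ} (hP : cf P [] = 0) (j : ℕ) : cf (bb n P j) [] = 0 := by
  unfold bb
  split_ifs
  · rw [cf_smul, cf_rv, List.reverse_nil, cf_dd_pow_nil _ hP, mul_zero]
  · exact cf_zero _

omit [Algebra ℚ R] in
/-- single letter coefficients of `G` -/
theorem cf_Gc (a b : ℕ → FA R ℕ) (ha : ∀ j, cf (a j) [] = 0) (hb : ∀ j, cf (b j) [] = 0)
    (N m : ℕ) : cf (Gc a b N) [m] = cf (a N) [m] + cf (b N) [m] := by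
  rw [Gc_eq, cf_add, cf_sum, cf_sum]
  congr 1
  · rw [Finset.sum_eq_single_of_mem N (Finset.self_mem_range_succ N)]
    · rw [cf_mul_single, Nat.sub_self, ha, zero_mul, zero_add, cf_yy_nil, if_pos rfl, mul_one]
    · intro j hj hjN
      rw [Finset.mem_range] at hj
      rw [cf_mul_single, ha, zero_mul, zero_add, cf_yy_nil, if_neg (by omega), mul_zero]
  · rw [Finset.sum_eq_single_of_mem N (Finset.self_mem_range_succ N)]
    · rw [cf_mul_single, Nat.sub_self, hb, mul_zero, add_zero, cf_yy_nil, if_pos rfl, one_mul]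
    · intro j hj hjN
      rw [Finset.mem_range] at hj
      rw [cf_mul_single, hb, mul_zero, add_zero, cf_yy_nil, if_neg (by omega), zero_mul]

/-- `f ⊗ g ↦ cf f [m] • g` -/
noncomputable def ctr (m : ℕ) : FA R ℕ ⊗[R] FA R ℕ →ₗ[R] FA R ℕ :=
  (TensorProduct.lid R (FA R ℕ)).toLinearMap ∘ₗ TensorProduct.map (cfL R [m]) LinearMap.id

omit [Algebra ℚ R] in
theorem ctr_tmul (m : ℕ) (f g : FA R ℕ) : ctr m (f ⊗ₜ[R] g) = cf f [m] • g := by
  unfold ctr
  rw [LinearMap.comp_apply, TensorProduct.map_tmul]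
  exact TensorProduct.lid_tmul _ _

omit [Algebra ℚ R] in
/-- (2): the lower coefficients vanish -/
theorem Gc_low (n : ℕ) (a b : ℕ → FA R ℕ) (ha : ∀ j, Prim (a j)) (hb : ∀ j, Prim (b j))
    (h0 : Gc a b (n + 1) = 0) (hc : ∀ M ≤ n, ∀ r, cf (Gc a b M) [r] = 0) :
    ∀ M ≤ n, Gc a b M = 0 := by
  have key : ∀ r ≤ n, Gc a b (n - r) = 0 := by
    intro r hr
    have h := Dst_Gc a b ha hb (n + 1)
    rw [h0, map_zero] at h
    have h' := congrArg (ctr r) h
    rw [map_zero, map_sum] at h'
    have e : ∀ M ∈ range (n + 1 + 1), ctr r (Gc a b M ⊗ₜ[R] yy R (n + 1 - M) +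
        yy R (n + 1 - M) ⊗ₜ[R] Gc a b M) = if M = n - r then Gc a b M else 0 := by
      intro M hM
      rw [Finset.mem_range] at hM
      rw [map_add, ctr_tmul, ctr_tmul, cf_yy_single]
      have h1 : cf (Gc a b M) [r] = 0 := by
        by_cases hMn : M ≤ n
        · exact hc M hMn r
        · have : M = n + 1 := by omega
          rw [this, h0, cf_zero]
      rw [h1, zero_smul, zero_add]
      by_cases hM2 : M = n - r
      · rw [if_pos hM2, if_pos (by omega), one_smul]
      · rw [if_neg hM2, if_neg (by omega), zero_smul]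
    rw [Finset.sum_congr rfl e, Finset.sum_ite_eq', if_pos (by rw [Finset.mem_range]; omega)] at h'
    exact h'.symm
  intro M hM
  have := key (n - M) (by omega)
  rwa [show n - (n - M) = M by omega] at this

/-- expansion of `G_{n+K}` -/
theorem Gc_high (n : ℕ) (P : FA R ℕ) (K : ℕ) : Gc (aa n P) (bb n P) (n + K) =
    ∑ i ∈ range (n + 1), algebraMap ℚ R (1 / (i.factorial : ℚ)) •
        ((-1 : R) ^ i • (((dd R) ^ i) P * yy R (K + i)) +
          (-1 : R) ^ (n - i) • (yy R (K + i) * rv R (((dd R) ^ i) P))) := by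
  have e1 : ∑ j ∈ range (n + K + 1), aa n P j * yy R (n + K - j) =
      ∑ j ∈ range (n + 1), aa n P j * yy R (n + K - j) := by
    symm
    apply Finset.sum_subset
    · intro j hj
      rw [Finset.mem_range] at *
      omega
    · intro j _ hj
      rw [Finset.mem_range] at hj
      rw [aa, if_neg (by omega), zero_mul]
  have e2 : ∑ j ∈ range (n + K + 1), yy R (n + K - j) * bb n P j =
      ∑ j ∈ range (n + 1), yy R (n + K - j) * bb n P j := by
    symm
    apply Finset.sum_subset
    · intro j hj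
      rw [Finset.mem_range] at *
      omega
    · intro j _ hj
      rw [Finset.mem_range] at hj
      rw [bb, if_neg (by omega), mul_zero]
  rw [Gc_eq, e1, e2, ← Finset.sum_add_distrib, ← Finset.sum_range_reflect]
  refine Finset.sum_congr rfl fun i hi => ?_
  rw [Finset.mem_range] at hi
  have h1 : n + 1 - 1 - i ≤ n := by omega
  have h2 : n - (n + 1 - 1 - i) = i := by omega
  have h3 : n + K - (n + 1 - 1 - i) = K + i := by omega
  have h4 : n + 1 - 1 - i = n - i := by omega
  rw [aa, bb, if_pos h1, if_pos h1, h2, h3, h4, smul_add, smul_smul, smul_smul, smul_mul_assoc,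
    mul_smul_comm]

variable (n : ℕ) (ψ : FA R Bool)

theorem dd_corr : dd R (corr n ψ) = 0 := by
  unfold corr
  rw [map_smul]
  have : dd R (ow R (List.replicate n 0)) = 0 := by
    induction n with
    | zero => exact dd_yy0
    | succ n ih =>
      rw [List.replicate_succ, ow_cons, dd_mul, ih, mul_zero, add_zero]
      have h1 : dd R (ow R [0]) = ((0 : ℕ) : R) • yy R 0 := dd_yy 0
      rw [h1, Nat.cast_zero, zero_smul, zero_mul]
  rw [this, smul_zero]

theorem rv_corr : rv R (corr n ψ) = corr n ψ := by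
  unfold corr
  rw [map_smul, rv_ow, List.reverse_replicate]

theorem dd_pow_corr (i : ℕ) : ((dd R) ^ i) (corr n ψ) = if i = 0 then corr n ψ else 0 := by
  cases i with
  | zero => rfl
  | succ i =>
    rw [pow_succ, Module.End.mul_apply, dd_corr, map_zero]
    rfl

theorem corr_comm : corr n ψ * ow R [0] = ow R [0] * corr n ψ := by
  unfold corr
  rw [smul_mul_assoc, mul_smul_comm, ← ow_append, ← ow_append]
  congr 2
  rw [← List.replicate_succ']
  rfl

/-- the derivation -/
noncomputable def d0 (k : ℕ) : FA R ℕ :=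
  piY ((ψ * ow R (List.replicate k false) - ow R (List.replicate k false) * ψ) *
    ow R [true]) + (corr n ψ * ow R [k] - ow R [k] * corr n ψ)

theorem corr_even (h : DM n ψ) (hn : Even n) : corr n ψ = 0 := by
  unfold corr
  rw [h.even hn, mul_zero, zero_smul]

/-- (1) -/
theorem Gc_d0 (hBR : SpecBr) (h : DM n ψ) (k : ℕ) :
    Gc (aa n (star n ψ)) (bb n (star n ψ)) (n + (k + 1)) = d0 n ψ k := by
  have hn := h.three
  rw [Gc_high, d0, hBR R n ψ (by omega) h.hom h.sh k]
  have e : ∀ i ∈ range (n + 1), algebraMap ℚ R (1 / (i.factorial : ℚ)) •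
        ((-1 : R) ^ i • (((dd R) ^ i) (star n ψ) * yy R (k + 1 + i)) +
          (-1 : R) ^ (n - i) • (yy R (k + 1 + i) * rv R (((dd R) ^ i) (star n ψ)))) =
      algebraMap ℚ R (1 / (i.factorial : ℚ)) •
        ((-1 : R) ^ i • (((dd R) ^ i) (piY ψ) * yy R (k + 1 + i)) +
          (-1 : R) ^ (n - i) • (yy R (k + 1 + i) * rv R (((dd R) ^ i) (piY ψ)))) +
      if i = 0 then (corr n ψ * ow R [k] - ow R [k] * corr n ψ) else 0 := by
    intro i _
    have hs : ((dd R) ^ i) (star n ψ) = ((dd R) ^ i) (piY ψ) +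
        if i = 0 then corr n ψ else 0 := by
      rw [star, map_add, dd_pow_corr]
    rw [hs]
    by_cases hi : i = 0
    · subst hi
      rw [if_pos rfl, if_pos rfl, map_add, rv_corr]
      have h1 : yy R (k + 1 + 0) = ow R [k] := rfl
      rw [h1]
      simp only [add_mul, mul_add, smul_add, Nat.factorial_zero, Nat.cast_one, div_one, map_one,
        one_smul, pow_zero, Nat.sub_zero]
      rcases Nat.even_or_odd n with he | ho
      · rw [corr_even n ψ h he]
        simp
      · rw [ho.neg_one_pow]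
        simp only [neg_smul, one_smul]
        abel
    · rw [if_neg hi, if_neg hi, add_zero, add_zero]
  rw [Finset.sum_congr rfl e, Finset.sum_add_distrib, Finset.sum_ite_eq', if_pos (by
    rw [Finset.mem_range]; omega)]

theorem d0_zero : d0 n ψ 0 = 0 := by
  rw [d0, corr_comm]
  have h1 : ow R (List.replicate 0 false) = 1 := rfl
  rw [h1, mul_one, one_mul, sub_self, sub_self, zero_mul, map_zero, add_zero]

theorem cf_star_nil (h : DM n ψ) : cf (star n ψ) [] = 0 := by
  have hn := h.three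
  rw [star, cf_add, cf_piY]
  have h1 : cf ψ (bw []) = 0 := by
    by_contra h0
    have := h.hom _ h0
    simp [bw] at this
    omega
  have h2 : cf (corr n ψ) [] = 0 := by
    unfold corr
    rw [cf_smul, cf_ow_ne, mul_zero]
    intro h'
    have := congrArg List.length h'
    simp at this
    omega
  rw [h1, h2, add_zero]

theorem cf_star_single (h : DM n ψ) (hn : Even n) (r : ℕ) : cf (star n ψ) [r] = 0 := by
  rw [star, corr_even n ψ h hn, add_zero, cf_piY]
  by_contra h0
  have h1 := h.hom _ h0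
  have h2 : bw [r] = xny r := rfl
  have h3 := h.even hn
  rw [h2] at h1 h0
  have h4 : r = n - 1 := by
    simp [xny] at h1
    omega
  rw [h4] at h0
  exact h0 h3

/-- the single letter coefficients vanish -/
theorem cf_low (h : DM n ψ) (M : ℕ) (hM : M ≤ n) (r : ℕ) :
    cf (Gc (aa n (star n ψ)) (bb n (star n ψ)) M) [r] = 0 := by
  have hn := h.three
  rw [cf_Gc _ _ (cf_aa_nil n (cf_star_nil n ψ h)) (cf_bb_nil n (cf_star_nil n ψ h)), aa, bb,
    if_pos hM, if_pos hM, cf_smul, cf_smul, cf_rv, List.reverse_singleton]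
  rcases Nat.even_or_odd n with he | ho
  · rw [cf_dd_pow_single _ (cf_star_single n ψ h he), mul_zero, mul_zero, add_zero]
  · have h1 : (-1 : R) ^ (n - M) = -(-1) ^ M := by
      have h2 : (-1 : R) ^ (n - M) * (-1) ^ M = -1 := by
        rw [← pow_add, Nat.sub_add_cancel hM, ho.neg_one_pow]
      have h3 : (-1 : R) ^ M * (-1) ^ M = 1 := by
        rw [← mul_pow]
        simp
      calc (-1 : R) ^ (n - M) = (-1 : R) ^ (n - M) * ((-1 : R) ^ M * (-1) ^ M) := by
            rw [h3, mul_one]
        _ = (-1 : R) ^ (n - M) * (-1) ^ M * (-1) ^ M := by rw [mul_assoc]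
        _ = -(-1) ^ M := by rw [h2, neg_one_mul]
    rw [h1]
    ring

/-- (2) for the series of `ψ` -/
theorem Gc_zero (hBR : SpecBr) (h : DM n ψ) (M : ℕ) (hM : M ≤ n) :
    Gc (aa n (star n ψ)) (bb n (star n ψ)) M = 0 :=
  Gc_low n _ _ (aa_prim n h.st) (bb_prim n h.st) (by
    have := Gc_d0 n ψ hBR h 0
    rw [d0_zero] at this
    exact this) (cf_low n ψ h) M hM

/-- (1) with `y_0 = 1` -/
theorem Gc_D (hBR : SpecBr) (h : DM n ψ) (i : ℕ) :
    Gc (aa n (star n ψ)) (bb n (star n ψ)) (n + i) = der (d0 n ψ) (yy R i) := by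
  cases i with
  | zero =>
    have h1 : der (d0 n ψ) (yy R 0) = 0 := der_one _
    rw [h1, add_zero, Gc_zero n ψ hBR h n le_rfl]
  | succ k =>
    have h1 : der (d0 n ψ) (yy R (k + 1)) = d0 n ψ k := der_letter _ _
    rw [h1, Gc_d0 n ψ hBR h k]

/-- (3): the derivation is a coderivation -/
theorem D_cod (hBR : SpecBr) (h : DM n ψ) (v : FA R ℕ) :
    Dst R (der (d0 n ψ) v) = cod (der (d0 n ψ)) (Dst R v) := by
  refine cod_crit (Dst R) _ (fun k => ?_) v
  rw [← Gc_d0 n ψ hBR h k, Dst_Gc _ _ (aa_prim n h.st) (bb_prim n h.st), Dst_letter, map_sum]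
  have e1 : ∑ M ∈ range (n + (k + 1) + 1), (Gc (aa n (star n ψ)) (bb n (star n ψ)) M ⊗ₜ[R]
      yy R (n + (k + 1) - M) + yy R (n + (k + 1) - M) ⊗ₜ[R]
        Gc (aa n (star n ψ)) (bb n (star n ψ)) M) =
      ∑ i ∈ range (k + 2), (der (d0 n ψ) (yy R i) ⊗ₜ[R] yy R (k + 1 - i) +
        yy R (k + 1 - i) ⊗ₜ[R] der (d0 n ψ) (yy R i)) := by
    rw [show n + (k + 1) + 1 = n + (k + 2) by omega, Finset.sum_range_add]
    have e0 : ∑ M ∈ range n, (Gc (aa n (star n ψ)) (bb n (star n ψ)) M ⊗ₜ[R]
        yy R (n + (k + 1) - M) + yy R (n + (k + 1) - M) ⊗ₜ[R]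
          Gc (aa n (star n ψ)) (bb n (star n ψ)) M) = 0 := by
      refine Finset.sum_eq_zero fun M hM => ?_
      rw [Finset.mem_range] at hM
      rw [Gc_zero n ψ hBR h M hM.le, TensorProduct.zero_tmul, TensorProduct.tmul_zero, add_zero]
    rw [e0, zero_add]
    refine Finset.sum_congr rfl fun i _ => ?_
    rw [Gc_D n ψ hBR h i, Nat.add_sub_add_left]
  rw [e1]
  simp only [cod_tmul]
  rw [Finset.sum_add_distrib, Finset.sum_add_distrib]
  congr 1
  rw [← Finset.sum_range_reflect]
  refine Finset.sum_congr rfl fun i hi => ?_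
  rw [Finset.mem_range] at hi
  have h1 : k + 1 - (k + 2 - 1 - i) = i := by omega
  have h2 : k + 2 - 1 - i = k + 1 - i := by omega
  rw [h1, h2]

/-- the derivation `d0` -/
theorem der_d0 (v : FA R ℕ) : der (d0 n ψ) v = dY ψ v + (corr n ψ * v - v * corr n ψ) := by
  have h1 := der_add_fun (fun k => piY ((ψ * ow R (List.replicate k false) -
    ow R (List.replicate k false) * ψ) * ow R [true]))
    (fun k => corr n ψ * ow R [k] - ow R [k] * corr n ψ) v
  have h2 := der_unique (fun k => corr n ψ * ow R [k] - ow R [k] * corr n ψ)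
    (LinearMap.mulLeft R (corr n ψ) - LinearMap.mulRight R (corr n ψ)) (fun f g => by
      simp only [LinearMap.sub_apply, LinearMap.mulLeft_apply, LinearMap.mulRight_apply,
        sub_mul, mul_sub, mul_assoc]
      abel) (fun a => rfl)
  have h3 : der (fun k => corr n ψ * ow R [k] - ow R [k] * corr n ψ) v =
      corr n ψ * v - v * corr n ψ := by
    rw [← h2]
    rfl
  rw [← h3]
  exact h1

theorem sst_eq (v : FA R ℕ) : sst n ψ v = der (d0 n ψ) v + v * star n ψ := by
  rw [der_d0, star, mul_add]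
  unfold sst
  simp only [LinearMap.add_apply, LinearMap.mulLeft_apply, LinearMap.mulRight_apply]
  abel

omit [Algebra ℚ R] in
/-- right multiplication with a primitive element is a coderivation -/
theorem mulRight_cod (P : FA R ℕ) (T : FA R ℕ ⊗[R] FA R ℕ) :
    T * (P ⊗ₜ[R] 1 + 1 ⊗ₜ[R] P) = cod (LinearMap.mulRight R P) T := by
  induction T using TensorProduct.induction_on with
  | zero => simp
  | add x y hx hy => rw [add_mul, hx, hy, map_add]
  | tmul a b =>
    rw [mul_add, Algebra.TensorProduct.tmul_mul_tmul, Algebra.TensorProduct.tmul_mul_tmul,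
      mul_one, mul_one, cod_tmul, LinearMap.mulRight_apply, LinearMap.mulRight_apply]

end Main

end Rac

/-- RAC: `s_ψ` is a coderivation of the stuffle coproduct -/
theorem specRac (hBR : SpecBr) : SpecRac := by
  intro R _ _ n ψ h v
  have e : sst n ψ = der (Rac.d0 n ψ) + LinearMap.mulRight R (star n ψ) := by
    refine LinearMap.ext fun v => ?_
    exact Rac.sst_eq n ψ v
  rw [e, cod_add, LinearMap.add_apply, LinearMap.add_apply, map_add, Rac.D_cod n ψ hBR h,
    LinearMap.mulRight_apply, map_mul, h.st, Rac.mulRight_cod]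

end MP154526.Low
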