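import Pool.Agent.Lib.MP_154526_nt.Low.Spec
import Pool.Agent.Lib.MP_154526_nt.Lin.Basic

section
/-!
# DIFF: the lowest part of the difference of two solutions
-/
set_option autoImplicit false

namespace MP154526.Low

open Finset MP154526.Bound MP154526.Top MP154526.Top.Pass2 MP154526.Lin

namespace Diff

variable {K : Type} [CommRing K]

theorem shs_sub (F G : List Bool → K) (u v : List Bool) :
    shs (fun w => F w - G w) u v = shs F u v - shs G u v := by
  have h1 := shs_add F (fun w => - G w) u v
  have h2 := shs_map (negAddMonoidHom : K →+ K) G u v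
  simp only [negAddMonoidHom_apply] at h2
  simp only [sub_eq_add_neg]
  rw [h1, ← h2]

theorem stf_sub (F G : List ℕ → K) (u v : List ℕ) :
    stf (fun w => F w - G w) u v = stf F u v - stf G u v := by
  have h1 := stf_add F (fun w => - G w) u v
  have h2 := stf_map (negAddMonoidHom : K →+ K) G u v
  simp only [negAddMonoidHom_apply] at h2
  simp only [sub_eq_add_neg]
  rw [h1, ← h2]

theorem wt_pos (v : List ℕ) (hv : v ≠ []) : 1 ≤ wt v := by
  cases v with
  | nil => exact absurd rfl hv
  | cons a l =>
    have : wt (a :: l) = a + 1 + wt l := by simp [wt]; omega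
    omega

end Diff

/-- DIFF -/
theorem specDiff : SpecDiff := by
  intro K _ n Φ Ψ hΦ hΨ hn hlt heven
  refine ⟨hn, fun he => ?_, fun u v hu hv huv => ?_, fun u v hu hv had huv => ?_⟩
  · show Φ (bw [n - 1]) - Ψ (bw [n - 1]) = 0
    rw [heven he, sub_self]
  · have h1 : 1 ≤ u.length := List.length_pos_iff.2 hu
    have h2 : 1 ≤ v.length := List.length_pos_iff.2 hv
    rw [Diff.shs_sub, hΦ.sh, hΨ.sh, hlt u (by omega), hlt v (by omega), sub_self]
  · have h1 := Diff.wt_pos u hu
    have h2 := Diff.wt_pos v hv
    rw [Diff.stf_sub (fun l => Φ (bw l)) (fun l => Ψ (bw l)) u v, hΦ.st u v had, hΨ.st u v had,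
      hlt (bw u) (by rw [bw_length]; omega), hlt (bw v) (by rw [bw_length]; omega), sub_self]

end MP154526.Low
end

section
/-!
# Module RACW: `T ψ` preserves the functionals killing the regularised double shuffle relations
-/
set_option autoImplicit false

namespace MP154526.Low

open Finset MP154526.Bound MP154526.Top MP154526.Top.Pass2 MP154526.Lin

namespace RacWM

theorem toY_rep (k a : ℕ) (w : List Bool) :
    toY k (List.replicate a false ++ true :: w) = (toY 0 w).map (List.cons (k + a)) := by
  induction a generalizing k with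
  | zero => simp [toY]
  | succ a ih =>
    rw [List.replicate_succ, List.cons_append, toY, ih, add_assoc, add_comm 1 a]

theorem toY_bw (l : List ℕ) : toY 0 (bw l) = some l := by
  induction l with
  | nil => simp [bw, toY]
  | cons a l ih => rw [bw, toY_rep, ih]; simp

theorem endY_drop (k : ℕ) (w : List Bool) (h : EndY w) : EndY (w.drop k) := by
  induction k generalizing w with
  | zero => exact h
  | succ k ih =>
    rcases w with _ | ⟨a, w⟩
    · exact h
    · exact ih w (Pass2.endY_tail _ _ h)

section

variable {K M : Type} [CommRing K] [AddCommGroup M] [Module K M]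

theorem hd_congr (n : ℕ) (ψ : List Bool → K) (c : Bool) (φ φ' : List Bool → M) (w : List Bool)
    (hw : EndY w)
    (h : ∀ s : List Bool, EndY s → (s = [] → c = true) → s.length + n = w.length → φ s = φ' s) :
    hd n ψ c φ w = hd n ψ c φ' w := by
  unfold hd
  by_cases h1 : n ≤ w.length
  · rw [if_pos h1, if_pos h1]
    by_cases h2 : w.drop n = [] ∧ c = false
    · rw [h2.1, h2.2]
      simp
    · rw [h _ (endY_drop n w hw) (fun h3 => by
        by_contra h4
        exact h2 ⟨h3, by simpa using h4⟩) (by rw [List.length_drop]; omega)]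
  · rw [if_neg h1, if_neg h1]

theorem TT_congr (n : ℕ) (ψ : List Bool → K) (c : Bool) (φ φ' : List Bool → M) (w : List Bool)
    (hw : EndY w)
    (h : ∀ s : List Bool, EndY s → (s = [] → c = true) → s.length + n = w.length → φ s = φ' s) :
    TT n ψ c φ w = TT n ψ c φ' w := by
  induction w generalizing c φ φ' with
  | nil => exact hd_congr _ _ _ _ _ _ hw h
  | cons a w ih =>
    rw [TT, TT, hd_congr _ _ _ _ _ _ hw h]
    congr 1
    refine ih a _ _ (Pass2.endY_tail _ _ hw) fun s hs hs' hs'' => ?_
    refine h _ ?_ (by simp) (by simp only [List.length_cons]; omega)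
    rcases s with _ | ⟨b, s⟩
    · exact Or.inr ⟨[], by rw [hs' rfl]; rfl⟩
    · exact Pass2.endY_cons _ _ hs (by simp)

/-- only the words of `ℌ¹` matter -/
theorem T_congr (n : ℕ) (ψ : List Bool → K) (φ φ' : List Bool → M) (w : List Bool)
    (hw : EndY w) (h : ∀ s : List Bool, EndY s → s.length + n = w.length → φ s = φ' s) :
    T n ψ φ w = T n ψ φ' w :=
  TT_congr n ψ true φ φ' w hw fun s hs _ hs' => h s hs hs'

/-- only the words of `ℌ⁰` matter -/
theorem T_congr_ad (n : ℕ) (ψ : List Bool → K) (φ φ' : List Bool → M) (w : List Bool)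
    (hw : EndY w) (hw' : w.head? ≠ some true)
    (h : ∀ s : List Bool, EndY s → s.head? ≠ some true → s.length + n = w.length → φ s = φ' s) :
    T n ψ φ w = T n ψ φ' w := by
  have hhd : hd n ψ true φ w = hd n ψ true φ' w := by
    unfold hd
    by_cases h1 : n ≤ w.length
    · rw [if_pos h1, if_pos h1]
      by_cases h2 : (w.drop n).head? = some true
      · rw [if_pos h2]
        simp
      · rw [h _ (endY_drop n w hw) h2 (by rw [List.length_drop]; omega)]
    · rw [if_neg h1, if_neg h1]
  rcases w with _ | ⟨a, w⟩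
  · exact hhd
  · have ha : a = false := by
      by_contra h3
      exact hw' (by simpa using h3)
    subst ha
    unfold T
    rw [TT, TT, hhd]
    congr 1
    refine TT_congr n ψ false _ _ w (Pass2.endY_tail _ _ hw) fun s hs hs' hs'' => ?_
    refine h _ ?_ (by simp) (by simp only [List.length_cons]; omega)
    rcases s with _ | ⟨b, s⟩
    · exact absurd (hs' rfl) (by simp)
    · exact Pass2.endY_cons _ _ hs (by simp)

theorem T_zero (n : ℕ) (ψ : List Bool → K) (w : List Bool) :
    T n ψ (fun _ => (0 : M)) w = 0 := by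
  have key : ∀ (c : Bool), TT n ψ c (fun _ => (0 : M)) w = 0 := by
    induction w with
    | nil =>
      intro c
      rw [TT, hd]
      simp
    | cons a w ih =>
      intro c
      rw [TT, ih, hd]
      simp
  exact key true

/-- powers of `y` -/
theorem T_pow (n : ℕ) (ψ : List Bool → K) (hψ : ψ (List.replicate n true) = 0)
    (φ : List Bool → M) (j : ℕ) : T n ψ φ (List.replicate j true) = 0 := by
  have hhd : ∀ (c : Bool) (φ : List Bool → M) (j : ℕ), hd n ψ c φ (List.replicate j true) = 0 := by
    intro c φ j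
    unfold hd
    split_ifs with h1 <;> try rfl
    all_goals
      rw [List.take_replicate, Nat.min_eq_left (by simpa using h1), hψ, mul_zero, zero_smul]
  have key : ∀ (c : Bool) (φ : List Bool → M), TT n ψ c φ (List.replicate j true) = 0 := by
    induction j with
    | zero =>
      intro c φ
      exact hhd c φ 0
    | succ j ih =>
      intro c φ
      rw [List.replicate_succ, TT, ih, ← List.replicate_succ, hhd, add_zero]
  exact key true φ

end

theorem T_rat (n : ℕ) (ψ φ : List Bool → ℤ) (w : List Bool) :
    T n (fun s => (ψ s : ℚ)) (fun s => (φ s : ℚ)) w = (T n ψ φ w : ℤ) := by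
  have hhd : ∀ (c : Bool) (φ : List Bool → ℤ) (w : List Bool),
      hd n (fun s => (ψ s : ℚ)) c (fun s => (φ s : ℚ)) w = (hd n ψ c φ w : ℤ) := by
    intro c φ w
    unfold hd
    split_ifs <;> simp
  have key : ∀ (c : Bool) (φ : List Bool → ℤ),
      TT n (fun s => (ψ s : ℚ)) c (fun s => (φ s : ℚ)) w = (TT n ψ c φ w : ℤ) := by
    induction w with
    | nil =>
      intro c φ
      rw [TT, TT, hhd]
    | cons a w ih =>
      intro c φ
      rw [TT, TT, hhd, ih a (fun v => φ (a :: v))]
      push_cast
      rfl
  exact key true φ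

theorem stf_rat (f : List ℕ → ℤ) (u v : List ℕ) :
    stf (fun l => (f l : ℚ)) u v = (stf f u v : ℤ) :=
  (stf_map (Int.castAddHom ℚ) f u v).symm

theorem shs_rat (f : List Bool → ℤ) (u v : List Bool) :
    shs (fun l => (f l : ℚ)) u v = (shs f u v : ℤ) :=
  (shs_map (Int.castAddHom ℚ) f u v).symm

theorem DW_rat {n : ℕ} {ψ : List Bool → ℤ} (h : DW n ψ) : DW n fun w => (ψ w : ℚ) where
  three := h.three
  even hn := by rw [h.even hn]; simp
  sh u v hu hv hn := by rw [shs_rat, h.sh u v hu hv hn]; simp
  st u v hu hv ha hn := by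
    have := stf_rat (fun l => ψ (bw l)) u v
    rw [this, h.st u v hu hv ha hn]
    simp

/-- powers of `y` are killed -/
theorem DW_pow {n : ℕ} {ψ : List Bool → ℤ} (h : DW n ψ) : ψ (List.replicate n true) = 0 := by
  have h3 := h.three
  have h1 := h.sh (List.replicate 1 true) (List.replicate (n - 1) true) (by simp)
    (by
      intro h
      have := congrArg List.length h
      simp at this
      omega) (by simp; omega)
  rw [shs_rep_rep, show 1 + (n - 1) = n by omega, Nat.choose_one_right] at h1
  have h2 : (n : ℤ) * ψ (List.replicate n true) = 0 := by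
    rw [← nsmul_eq_mul]
    exact h1
  rcases mul_eq_zero.1 h2 with h4 | h4
  · omega
  · exact h4

theorem head_bw {l : List ℕ} (h : Ad l) : (bw l).head? ≠ some true := by
  rcases ad_cases h with rfl | ⟨a, l, rfl⟩
  · simp [bw]
  · simp [bw, List.replicate_succ]

theorem ad_of_head {l : List ℕ} (h : (bw l).head? ≠ some true) : Ad l := by
  rcases l with _ | ⟨a, l⟩
  · exact ad_nil
  · rcases a with _ | a
    · exact absurd (by simp [bw]) h
    · exact ad_cons a l

end RacWM

open RacWM in
theorem specRacW (hStW : SpecStW) (hShW : SpecShW) : SpecRacW := by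
  intro n m ψ φ hψ hφ
  have hn : 1 ≤ n := le_trans (by norm_num) hψ.three
  have hsh := hShW ℤ ℤ n ψ hn hψ.sh φ
  refine ⟨?_, ?_⟩
  · intro j w hj hw hjw
    rw [hsh, T_pow n ψ (DW_pow hψ), zero_add]
    rw [← T_zero (M := ℤ) n ψ w]
    refine T_congr n ψ _ _ w hw fun s hs hs' => ?_
    exact hφ.reg j s hj hs (by omega)
  · intro u v hv huv
    have h1 := hStW ℚ n (fun s => (ψ s : ℚ)) (DW_rat hψ) (fun s => (φ s : ℚ)) u v hv
    have e1 : stf (fun l => T n (fun s => (ψ s : ℚ)) (fun s => (φ s : ℚ)) (bw l)) u v =
        (stf (fun l => T n ψ φ (bw l)) u v : ℤ) := by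
      rw [← stf_rat]
      congr 1
      funext l
      exact T_rat n ψ φ (bw l)
    have e2 : (fun s => (toY 0 s).elim 0 fun l => stf (fun l => (φ (bw l) : ℚ)) l v) =
        fun s => (((toY 0 s).elim 0 fun l => stf (fun l => φ (bw l)) l v : ℤ) : ℚ) := by
      funext s
      rcases toY 0 s with _ | m
      · simp
      · exact stf_rat _ _ _
    have e3 : (fun s => (toY 0 s).elim 0 fun l => stf (fun l => (φ (bw l) : ℚ)) u l) =
        fun s => (((toY 0 s).elim 0 fun l => stf (fun l => φ (bw l)) u l : ℤ) : ℚ) := by
      funext s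
      rcases toY 0 s with _ | m
      · simp
      · exact stf_rat _ _ _
    rw [e1, e2, e3, T_rat, T_rat, ← Int.cast_add, Int.cast_inj] at h1
    rw [h1, hsh]
    congr 1
    · refine T_congr n ψ _ _ _ (Pass2.endY_bw u) fun s hs hs' => ?_
      obtain ⟨l, rfl⟩ := exists_bw hs
      rw [toY_bw]
      rw [Pass2.bw_length, Pass2.bw_length] at hs'
      exact hφ.rds l v hv (by omega)
    · refine T_congr_ad n ψ _ _ _ (Pass2.endY_bw v) (head_bw hv) fun s hs hs0 hs' => ?_
      obtain ⟨l, rfl⟩ := exists_bw hs
      rw [toY_bw]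
      rw [Pass2.bw_length, Pass2.bw_length] at hs'
      exact hφ.rds u l (ad_of_head hs0) (by omega)

end MP154526.Low
end
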