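import Pool.Agent.Lib.MP_154526_nt.Low.DualDefs
import Pool.Agent.Lib.MP_154526_nt.Top.Span

/-!
# SHW: `T ψ` is a derivation for the shuffle product

Direct proof by induction on the two words.
-/

set_option autoImplicit false

namespace MP154526.Low.SHW

open Finset MP154526.Top MP154526.Top.Front MP154526.Top.Pass2 MP154526.Lin MP154526.Low

variable {K M : Type} [CommRing K] [AddCommGroup M] [Module K M]

/-- split off the first `n` letters -/
def h1 {α : Type} (n : ℕ) (ψ : List α → K) (φ : List α → M) (w : List α) : M :=
  if n ≤ w.length then ψ (w.take n) • φ (w.drop n) else 0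

theorem h1_zero {α : Type} (ψ : List α → K) (φ : List α → M) (w : List α) :
    h1 0 ψ φ w = ψ [] • φ w := by
  simp [h1]

theorem h1_succ_nil {α : Type} (n : ℕ) (ψ : List α → K) (φ : List α → M) :
    h1 (n + 1) ψ φ [] = 0 := by
  simp [h1]

theorem h1_succ_cons {α : Type} (n : ℕ) (ψ : List α → K) (φ : List α → M) (a : α)
    (w : List α) : h1 (n + 1) ψ φ (a :: w) = h1 n (fun l => ψ (a :: l)) φ w := by
  simp [h1]

/-- the term `(i, j)` -/
def tm {α : Type} (ψ : List α → K) (φ : List α → M) (u v : List α) (p : ℕ × ℕ) : M :=
  if p.1 ≤ u.length ∧ p.2 ≤ v.length then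
    shs ψ (u.take p.1) (v.take p.2) • shs φ (u.drop p.1) (v.drop p.2)
  else 0

theorem shs_smul {α : Type} (c : K) (φ : List α → M) (u v : List α) :
    shs (fun w => c • φ w) u v = c • shs φ u v := by
  have := shs_map (AddMonoidHom.mk' (fun m : M => c • m) (smul_add c)) φ u v
  simpa using this.symm

theorem shs_h1 {α : Type} (φ : List α → M) : ∀ (n : ℕ) (ψ : List α → K) (u v : List α),
    shs (h1 n ψ φ) u v = ∑ p ∈ antidiagonal n, tm ψ φ u v p := by
  intro n
  induction n with
  | zero =>
    intro ψ u v
    have h : h1 0 ψ φ = fun w => ψ [] • φ w := funext fun w => h1_zero ψ φ w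
    rw [h, shs_smul]
    simp [tm]
  | succ n ih =>
    intro ψ u v
    cases u with
    | nil =>
      rw [shs_nil_left, Finset.Nat.sum_antidiagonal_succ, Finset.sum_eq_zero, add_zero]
      · simp [tm, h1]
      · intro p _
        simp [tm]
    | cons a u =>
      cases v with
      | nil =>
        rw [shs_nil_right, Finset.Nat.sum_antidiagonal_succ', Finset.sum_eq_zero, add_zero]
        · simp [tm, h1]
        · intro p _
          simp [tm]
      | cons b v =>
        rw [shs_cons_cons]
        have e1 : (fun l => h1 (n + 1) ψ φ (a :: l)) = h1 n (fun l => ψ (a :: l)) φ :=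
          funext fun l => h1_succ_cons n ψ φ a l
        have e2 : (fun l => h1 (n + 1) ψ φ (b :: l)) = h1 n (fun l => ψ (b :: l)) φ :=
          funext fun l => h1_succ_cons n ψ φ b l
        rw [e1, e2, ih, ih]
        set A : ℕ × ℕ → M := fun p => if p.1 = 0 then 0 else
          tm (fun l => ψ (a :: l)) φ u (b :: v) (p.1 - 1, p.2) with hA
        set B : ℕ × ℕ → M := fun p => if p.2 = 0 then 0 else
          tm (fun l => ψ (b :: l)) φ (a :: u) v (p.1, p.2 - 1) with hB
        have hs : ∀ p ∈ antidiagonal (n + 1), tm ψ φ (a :: u) (b :: v) p = A p + B p := by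
          rintro ⟨i, j⟩ hp
          rw [Finset.HasAntidiagonal.mem_antidiagonal] at hp
          simp only at hp
          rcases i with - | i
          · rcases j with - | j
            · omega
            · simp [hA, hB, tm]
          · rcases j with - | j
            · simp [hA, hB, tm]
            · simp only [hA, hB, tm, List.length_cons, List.take_succ_cons, List.drop_succ_cons,
                Nat.add_sub_cancel, Nat.succ_ne_zero, if_false, shs_cons_cons, add_smul,
                Nat.add_le_add_iff_right]
              split_ifs <;> simp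
        rw [Finset.sum_congr rfl hs, Finset.sum_add_distrib,
          Finset.Nat.sum_antidiagonal_succ (f := A), Finset.Nat.sum_antidiagonal_succ' (f := B)]
        simp [hA, hB]

/-- `ψ` kills proper shuffles: only the terms `(0, n)` and `(n, 0)` survive -/
theorem shs_h1_of {α : Type} (n : ℕ) (hn : 1 ≤ n) (ψ : List α → K)
    (hψ : ∀ u v : List α, u ≠ [] → v ≠ [] → u.length + v.length = n → shs ψ u v = 0)
    (φ : List α → M) (u v : List α) :
    shs (h1 n ψ φ) u v = h1 n ψ (fun s => shs φ s v) u + h1 n ψ (fun s => shs φ u s) v := by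
  obtain ⟨m, rfl⟩ : ∃ m, n = m + 1 := ⟨n - 1, by omega⟩
  rw [shs_h1, Finset.Nat.sum_antidiagonal_succ]
  have h0 : tm ψ φ u v (0, m + 1) = h1 (m + 1) ψ (fun s => shs φ u s) v := by
    simp [tm, h1]
  rw [h0, add_comm]
  congr 1
  rw [Finset.sum_eq_single (m, 0)]
  · simp [tm, h1]
  · rintro ⟨i, j⟩ hp hne
    rw [Finset.HasAntidiagonal.mem_antidiagonal] at hp
    simp only at hp
    have hj : j ≠ 0 := by
      rintro rfl
      exact hne (by simpa using hp)
    simp only [tm]
    split_ifs with h
    · rw [hψ, zero_smul]
      · intro h'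
        have := congrArg List.length h'
        rw [List.length_take, List.length_nil] at this
        omega
      · intro h'
        have := congrArg List.length h'
        rw [List.length_take, List.length_nil] at this
        omega
      · rw [List.length_take, List.length_take]
        omega
    · rfl
  · intro h
    exact absurd (by simp) h

/-- restriction to the words starting with `y` -/
def ys (φ : List Bool → M) (w : List Bool) : M := if w.head? = some true then φ w else 0

theorem hd_eq (n : ℕ) (ψ : List Bool → K) (c : Bool) (φ : List Bool → M) (w : List Bool) :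
    hd n ψ c φ w = (if c then h1 n ψ φ w else 0) - h1 n ψ (ys φ) w := by
  by_cases h : n ≤ w.length
  · have e1 : ∀ χ : List Bool → M, h1 n ψ χ w = ψ (w.take n) • χ (w.drop n) := fun χ => if_pos h
    have e2 : hd n ψ c φ w = (((if c then 1 else 0) -
        (if (w.drop n).head? = some true then 1 else 0) : K) * ψ (w.take n)) • φ (w.drop n) :=
      if_pos h
    rw [e1, e1, e2]
    unfold ys
    by_cases h2 : (w.drop n).head? = some true
    · rw [if_pos h2, if_pos h2]
      cases c <;> simp
    · rw [if_neg h2, if_neg h2]
      cases c <;> simp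
  · have e1 : ∀ χ : List Bool → M, h1 n ψ χ w = 0 := fun χ => if_neg h
    have e2 : hd n ψ c φ w = 0 := if_neg h
    rw [e1, e1, e2]
    simp

theorem h1_congr {α : Type} {n : ℕ} {ψ : List α → K} {φ φ' : List α → M} {w : List α}
    (h : φ (w.drop n) = φ' (w.drop n)) : h1 n ψ φ w = h1 n ψ φ' w := by
  unfold h1
  rw [h]

theorem shs_ys_nil (φ : List Bool → M) (b : Bool) (v : List Bool) :
    ys φ (b :: v) = if b then φ (b :: v) else 0 := by
  cases b <;> simp [ys]

theorem shs_ite {α : Type} (p : Prop) [Decidable p] (φ : List α → M) (u v : List α) :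
    shs (fun w => if p then φ w else 0) u v = if p then shs φ u v else 0 := by
  split_ifs
  · rfl
  · exact shs_zero u v

/-- the telescoping identity for one suffix `s` of `u` -/
theorem tele (φ : List Bool → M) (b : Bool) (s v : List Bool) :
    shs (ys φ) s (b :: v) + ys (fun s => shs (fun w => φ (b :: w)) s v) s =
      (if b then shs (fun w => φ (b :: w)) s v else 0) + ys (fun s => shs φ s (b :: v)) s := by
  cases s with
  | nil =>
    rw [shs_nil_left, shs_ys_nil, shs_nil_left]
    simp [ys]
  | cons d s =>
    rw [shs_cons_cons]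
    have e1 : (fun l => ys φ (d :: l)) = fun l => if d = true then φ (d :: l) else 0 :=
      funext fun l => shs_ys_nil φ d l
    have e2 : (fun l => ys φ (b :: l)) = fun l => if b = true then φ (b :: l) else 0 :=
      funext fun l => shs_ys_nil φ b l
    rw [e1, e2, shs_ite, shs_ite, shs_ys_nil, shs_ys_nil, shs_cons_cons]
    cases d <;> cases b <;> simp [add_comm, add_left_comm]

theorem TT_cons (n : ℕ) (ψ : List Bool → K) (c : Bool) (φ : List Bool → M) (a : Bool)
    (w : List Bool) :
    TT n ψ c φ (a :: w) = hd n ψ c φ (a :: w) + TT n ψ a (fun v => φ (a :: v)) w := rfl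

theorem TT_nil (n : ℕ) (hn : 1 ≤ n) (ψ : List Bool → K) (c : Bool) (φ : List Bool → M) :
    TT n ψ c φ [] = 0 := by
  show hd n ψ c φ [] = 0
  unfold hd
  rw [if_neg]
  simp
  omega

theorem hd_add (n : ℕ) (ψ : List Bool → K) (c : Bool) (φ φ' : List Bool → M) (w : List Bool) :
    hd n ψ c (fun w => φ w + φ' w) w = hd n ψ c φ w + hd n ψ c φ' w := by
  unfold hd
  split_ifs <;> simp

theorem TT_add (n : ℕ) (ψ : List Bool → K) (w : List Bool) : ∀ (c : Bool) (φ φ' : List Bool → M),
    TT n ψ c (fun w => φ w + φ' w) w = TT n ψ c φ w + TT n ψ c φ' w := by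
  induction w with
  | nil =>
    intro c φ φ'
    exact hd_add n ψ c φ φ' []
  | cons a w ih =>
    intro c φ φ'
    rw [TT_cons, TT_cons, TT_cons, hd_add, ih]
    abel

/-- the identity at the first position -/
theorem hd_id (n : ℕ) (hn : 1 ≤ n) (ψ : List Bool → K)
    (hψ : ∀ u v : List Bool, u ≠ [] → v ≠ [] → u.length + v.length = n → shs ψ u v = 0)
    (φ : List Bool → M) (c a b : Bool) (u v : List Bool) :
    shs (hd n ψ c φ) (a :: u) (b :: v) + hd n ψ a (fun s => shs (fun w => φ (a :: w)) u s) (b :: v) +
        hd n ψ b (fun s => shs (fun w => φ (b :: w)) s v) (a :: u) =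
      hd n ψ c (fun s => shs φ s (b :: v)) (a :: u) + hd n ψ c (fun s => shs φ (a :: u) s) (b :: v) := by
  have e : hd n ψ c φ = fun w => (if c then h1 n ψ φ w else 0) + (-1 : K) • h1 n ψ (ys φ) w := by
    funext w
    rw [hd_eq, sub_eq_add_neg, neg_one_smul]
  rw [e, shs_add, shs_ite, shs_smul, neg_one_smul, shs_h1_of n hn ψ hψ, shs_h1_of n hn ψ hψ]
  simp only [hd_eq]
  -- the two telescoping sums
  have t1 : h1 n ψ (fun s => shs (ys φ) s (b :: v)) (a :: u) +
      h1 n ψ (ys fun s => shs (fun w => φ (b :: w)) s v) (a :: u) =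
      (if b then h1 n ψ (fun s => shs (fun w => φ (b :: w)) s v) (a :: u) else 0) +
        h1 n ψ (ys fun s => shs φ s (b :: v)) (a :: u) := by
    unfold h1
    split_ifs with h hb hb
    · rw [← smul_add, tele, ← smul_add]
      simp [hb]
    · rw [← smul_add, tele]
      simp [hb]
    · simp
    · simp
  have t2 : h1 n ψ (fun s => shs (ys φ) (a :: u) s) (b :: v) +
      h1 n ψ (ys fun s => shs (fun w => φ (a :: w)) u s) (b :: v) =
      (if a then h1 n ψ (fun s => shs (fun w => φ (a :: w)) u s) (b :: v) else 0) +
        h1 n ψ (ys fun s => shs φ (a :: u) s) (b :: v) := by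
    have c1 : (fun s => shs (ys φ) (a :: u) s) = fun s => shs (ys φ) s (a :: u) :=
      funext fun s => shs_comm _ _ _
    have c2 : (fun s => shs (fun w => φ (a :: w)) u s) = fun s => shs (fun w => φ (a :: w)) s u :=
      funext fun s => shs_comm _ _ _
    have c3 : (fun s => shs φ (a :: u) s) = fun s => shs φ s (a :: u) :=
      funext fun s => shs_comm _ _ _
    rw [c1, c2, c3]
    unfold h1
    split_ifs with h hb hb
    · rw [← smul_add, tele, ← smul_add]
      simp [hb]
    · rw [← smul_add, tele]
      simp [hb]
    · simp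
    · simp
  rw [← sub_eq_zero] at t1 t2 ⊢
  have : ∀ x y : M, x = 0 → y = 0 → -(x + y) = 0 := by
    intro x y hx hy
    rw [hx, hy]
    simp
  refine Eq.trans ?_ (this _ _ t1 t2)
  cases c <;> cases a <;> cases b <;> simp only [if_true, Bool.false_eq_true, if_false] <;> abel

theorem main (n : ℕ) (hn : 1 ≤ n) (ψ : List Bool → K)
    (hψ : ∀ u v : List Bool, u ≠ [] → v ≠ [] → u.length + v.length = n → shs ψ u v = 0) :
    ∀ (N : ℕ) (u v : List Bool), u.length + v.length = N → ∀ (c : Bool) (φ : List Bool → M),
      shs (TT n ψ c φ) u v =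
        TT n ψ c (fun s => shs φ s v) u + TT n ψ c (fun s => shs φ u s) v := by
  intro N
  induction N using Nat.strong_induction_on with
  | _ N ih =>
    intro u v hN c φ
    cases u with
    | nil =>
      rw [shs_nil_left, TT_nil n hn, zero_add]
      congr 1
      funext s
      rw [shs_nil_left]
    | cons a u =>
      cases v with
      | nil =>
        rw [shs_nil_right, TT_nil n hn, add_zero]
        congr 1
        funext s
        rw [shs_nil_right]
      | cons b v =>
        simp only [List.length_cons] at hN
        rw [shs_cons_cons]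
        simp only [TT_cons]
        rw [shs_add, shs_add, ih (u.length + (v.length + 1)) (by omega) u (b :: v) rfl,
          ih (u.length + 1 + v.length) (by omega) (a :: u) v rfl]
        have e1 : (fun s => shs φ (a :: s) (b :: v)) = fun s =>
            shs (fun w => φ (a :: w)) s (b :: v) + shs (fun w => φ (b :: w)) (a :: s) v :=
          funext fun s => shs_cons_cons φ a s b v
        have e2 : (fun s => shs φ (a :: u) (b :: s)) = fun s =>
            shs (fun w => φ (a :: w)) u (b :: s) + shs (fun w => φ (b :: w)) (a :: u) s :=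
          funext fun s => shs_cons_cons φ a u b s
        rw [e1, e2, TT_add, TT_add]
        rw [TT_cons n ψ a (fun s => shs (fun w => φ (a :: w)) u s) b v,
          TT_cons n ψ b (fun s => shs (fun w => φ (b :: w)) s v) a u]
        have key := hd_id n hn ψ hψ φ c a b u v
        rw [shs_cons_cons] at key
        rw [← sub_eq_zero] at key ⊢
        refine Eq.trans ?_ key
        abel

end MP154526.Low.SHW

namespace MP154526.Low

theorem specShW : SpecShW := by
  intro K M _ _ _ n ψ hn hψ φ u v
  exact SHW.main n hn ψ hψ _ u v rfl true φ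

end MP154526.Low
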