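import Pool.Agent.Lib.MP_154526_nt.Low.Spec
import Pool.Agent.Lib.MP_154526_nt.Low.Basic
import Pool.Agent.Lib.MP_154526_nt.Lin.EQ0

section
/-!
# SHC: `s_ψ` is a coderivation of the shuffle coproduct; derivations of free algebras
-/
set_option autoImplicit false

namespace MP154526.Low.SHC

open MP154526.Low
open scoped TensorProduct

section General

variable {R α : Type} [CommRing R]

lemma single_eq (w : FreeMonoid α) (r : R) :
    (MonoidAlgebra.single w r : FA R α) = r • ow R w.toList := by
  unfold ow
  rw [FreeMonoid.ofList_toList, MonoidAlgebra.smul_single, smul_eq_mul, mul_one]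

/-- induction over linear combinations of words -/
lemma ind {P : FA R α → Prop} (f : FA R α) (h0 : P 0) (hadd : ∀ f g, P f → P g → P (f + g))
    (hsm : ∀ (r : R) (w : List α), P (r • ow R w)) : P f := by
  induction f using MonoidAlgebra.induction_linear with
  | zero => exact h0
  | add x y hx hy => exact hadd x y hx hy
  | single w r => rw [single_eq]; exact hsm r _

/-- linear maps agreeing on words are equal -/
lemma lin_ext {M : Type} [AddCommGroup M] [Module R M] {s t : FA R α →ₗ[R] M}
    (h : ∀ w, s (ow R w) = t (ow R w)) (f : FA R α) : s f = t f := by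
  refine ind (P := fun f => s f = t f) f (by rw [map_zero, map_zero]) (fun f g hf hg => ?_)
    (fun r w => ?_)
  · rw [map_add, map_add, hf, hg]
  · rw [map_smul, map_smul, h]

lemma ow_mul (u v : List α) : ow R u * ow R v = ow R (u ++ v) := by
  unfold ow
  rw [MonoidAlgebra.single_mul_single, mul_one]
  rfl

lemma ow_nil : ow R ([] : List α) = 1 := rfl

lemma ow_cons (a : α) (w : List α) : ow R (a :: w) = ow R [a] * ow R w := by
  rw [ow_mul]
  rfl

lemma lext_ow {M : Type} [AddCommGroup M] [Module R M] (φ : List α → M) (w : List α) :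
    lext (R := R) φ (ow R w) = φ w := by
  unfold lext ow
  rw [LinearMap.comp_apply]
  have h1 : (MonoidAlgebra.coeffLinearEquiv R).toLinearMap
      (MonoidAlgebra.single (FreeMonoid.ofList w) (1 : R)) =
      Finsupp.single (FreeMonoid.ofList w) (1 : R) := rfl
  rw [h1, Finsupp.linearCombination_single, one_smul]
  rfl

lemma der_ow (d : α → FA R α) (w : List α) : der d (ow R w) = derW d w := lext_ow _ _

lemma der_one (d : α → FA R α) : der d 1 = 0 := by
  rw [← ow_nil, der_ow]
  rfl

lemma derW_append (d : α → FA R α) (u v : List α) :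
    derW d (u ++ v) = derW d u * ow R v + ow R u * derW d v := by
  induction u with
  | nil =>
    rw [List.nil_append, ow_nil, one_mul]
    change _ = 0 * _ + _
    rw [zero_mul, zero_add]
  | cons a u ih =>
    rw [List.cons_append]
    change d a * ow R (u ++ v) + ow R [a] * derW d (u ++ v) =
      (d a * ow R u + ow R [a] * derW d u) * ow R v + ow R (a :: u) * derW d v
    rw [ih, ow_cons a u, ← ow_mul]
    noncomm_ring

/-- Leibniz rule -/
lemma der_mul (d : α → FA R α) (f g : FA R α) : der d (f * g) = der d f * g + f * der d g := by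
  refine ind (P := fun f => der d (f * g) = der d f * g + f * der d g) f
    (by rw [zero_mul, map_zero, zero_mul, zero_mul, add_zero])
    (fun f f' hf hf' => ?_) (fun r u => ?_)
  · rw [add_mul, map_add, hf, hf', map_add]
    noncomm_ring
  · refine ind (P := fun g => der d (r • ow R u * g) = der d (r • ow R u) * g +
      r • ow R u * der d g) g (by rw [mul_zero, map_zero, mul_zero, mul_zero, add_zero])
      (fun g g' hg hg' => ?_) (fun r' v => ?_)
    · rw [mul_add, map_add, hg, hg', map_add]
      noncomm_ring
    · rw [smul_mul_smul_comm, ow_mul, map_smul, map_smul, map_smul, der_ow, der_ow, der_ow,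
        derW_append, smul_add, smul_mul_smul_comm, smul_mul_smul_comm]

lemma der_letter (d : α → FA R α) (a : α) : der d (ow R [a]) = d a := by
  rw [der_ow]
  change d a * ow R [] + ow R [a] * 0 = d a
  rw [ow_nil, mul_one, mul_zero, add_zero]

lemma cod_tmul (s : FA R α →ₗ[R] FA R α) (f g : FA R α) :
    cod s (f ⊗ₜ[R] g) = s f ⊗ₜ[R] g + f ⊗ₜ[R] s g := by
  unfold cod
  rw [LinearMap.add_apply, TensorProduct.map_tmul, TensorProduct.map_tmul]
  rfl

lemma cod_add (s t : FA R α →ₗ[R] FA R α) : cod (s + t) = cod s + cod t := by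
  unfold cod
  rw [TensorProduct.map_add_left, TensorProduct.map_add_right]
  abel

/-- `cod` of a derivation is a derivation -/
lemma cod_mul (D : FA R α →ₗ[R] FA R α) (hD : ∀ f g, D (f * g) = D f * g + f * D g)
    (S T : FA R α ⊗[R] FA R α) : cod D (S * T) = cod D S * T + S * cod D T := by
  induction S using TensorProduct.induction_on with
  | zero => simp
  | add S S' hS hS' => rw [add_mul, map_add, hS, hS', map_add]; noncomm_ring
  | tmul a b =>
    induction T using TensorProduct.induction_on with
    | zero => simp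
    | add T T' hT hT' => rw [mul_add, map_add, hT, hT', map_add]; noncomm_ring
    | tmul c e =>
      rw [Algebra.TensorProduct.tmul_mul_tmul, cod_tmul, cod_tmul, cod_tmul, hD, hD, add_mul,
        mul_add, Algebra.TensorProduct.tmul_mul_tmul, Algebra.TensorProduct.tmul_mul_tmul,
        Algebra.TensorProduct.tmul_mul_tmul, Algebra.TensorProduct.tmul_mul_tmul,
        TensorProduct.add_tmul, TensorProduct.tmul_add]
      abel

/-- left multiplication by a primitive element is a coderivation -/
lemma cod_mulLeft (ψ : FA R α) (T : FA R α ⊗[R] FA R α) :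
    cod (LinearMap.mulLeft R ψ) T = (ψ ⊗ₜ[R] 1 + 1 ⊗ₜ[R] ψ) * T := by
  induction T using TensorProduct.induction_on with
  | zero => simp
  | add S T hS hT => rw [map_add, hS, hT, mul_add]
  | tmul a b =>
    rw [cod_tmul, add_mul, Algebra.TensorProduct.tmul_mul_tmul,
      Algebra.TensorProduct.tmul_mul_tmul, one_mul, one_mul]
    rfl

/-- right multiplication by a primitive element is a coderivation -/
lemma cod_mulRight (ψ : FA R α) (T : FA R α ⊗[R] FA R α) :
    cod (LinearMap.mulRight R ψ) T = T * (ψ ⊗ₜ[R] 1 + 1 ⊗ₜ[R] ψ) := by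
  induction T using TensorProduct.induction_on with
  | zero => simp
  | add S T hS hT => rw [map_add, hS, hT, add_mul]
  | tmul a b =>
    rw [cod_tmul, mul_add, Algebra.TensorProduct.tmul_mul_tmul,
      Algebra.TensorProduct.tmul_mul_tmul, mul_one, mul_one]
    rfl

/-- a derivation compatible with an algebra morphism `Δ` on letters is a coderivation -/
lemma cod_der (Δ : FA R α →ₐ[R] FA R α ⊗[R] FA R α) (d : α → FA R α)
    (h : ∀ a, Δ (d a) = cod (der d) (Δ (ow R [a]))) (f : FA R α) :
    Δ (der d f) = cod (der d) (Δ f) := by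
  have key : ∀ w : List α, Δ (der d (ow R w)) = cod (der d) (Δ (ow R w)) := by
    intro w
    induction w with
    | nil =>
      rw [ow_nil, der_one, map_zero, map_one, Algebra.TensorProduct.one_def, cod_tmul, der_one,
        TensorProduct.zero_tmul, TensorProduct.tmul_zero, add_zero]
    | cons a w ih =>
      rw [ow_cons, der_mul, map_add, map_mul, map_mul, ih, map_mul, cod_mul _ (der_mul d),
        der_letter, h a]
  exact lin_ext (s := Δ.toLinearMap ∘ₗ der d) (t := cod (der d) ∘ₗ Δ.toLinearMap) key f

lemma Dsh_letter (a : α) : Dsh R α (ow R [a]) = ow R [a] ⊗ₜ[R] 1 + 1 ⊗ₜ[R] ow R [a] := by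
  unfold Dsh
  have h1 : (ow R [a] : FA R α) = MonoidAlgebra.of R (FreeMonoid α) (FreeMonoid.of a) := rfl
  rw [h1, MonoidAlgebra.lift_of, FreeMonoid.lift_eval_of]
  rfl

end General

end MP154526.Low.SHC

namespace MP154526.Low

open SHC
open scoped TensorProduct

theorem specShc : SpecShc := by
  intro R _ ψ hψ f
  unfold sop
  rw [LinearMap.add_apply, map_add, cod_add, LinearMap.add_apply]
  congr 1
  · rw [LinearMap.mulLeft_apply, map_mul, hψ, cod_mulLeft]
  · apply cod_der
    intro a
    rw [Dsh_letter, map_add, cod_tmul, cod_tmul, der_one, der_letter, TensorProduct.tmul_zero,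
      TensorProduct.zero_tmul, add_zero, zero_add]
    cases a with
    | false =>
      simp
    | true =>
      simp only [if_true]
      rw [map_sub, map_mul, map_mul, hψ, Dsh_letter]
      simp only [mul_add, add_mul, Algebra.TensorProduct.tmul_mul_tmul, one_mul, mul_one,
        TensorProduct.sub_tmul, TensorProduct.tmul_sub]
      abel

end MP154526.Low
end

section
/-!
# PIS: the operator `s_ψ` on the words ending in `y`
-/
set_option autoImplicit false

namespace MP154526.Low.PIS

open MP154526.Low MP154526.Low.SHC MP154526.Top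

section

variable {R : Type} [CommRing R]

lemma piY_ow (w : List Bool) : piY (ow R w) = (toY 0 w).elim 0 (ow R) := lext_ow _ _

/-- words ending in `x` -/
lemma toY_x (u : List Bool) : ∀ k, toY k (u ++ [false]) = none := by
  induction u with
  | nil => intro k; cases k <;> rfl
  | cons a u ih =>
    intro k
    cases a with
    | false =>
      have h1 : toY k (false :: (u ++ [false])) = toY (k + 1) (u ++ [false]) := by
        cases k <;> rfl
      rw [List.cons_append, h1, ih]
    | true =>
      have h1 : toY k (true :: (u ++ [false])) = (toY 0 (u ++ [false])).map (List.cons k) := by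
        cases k <;> rfl
      rw [List.cons_append, h1, ih]
      rfl

lemma toY_false (k : ℕ) (u : List Bool) : toY k (false :: u) = toY (k + 1) u := by
  cases k <;> rfl

lemma toY_true (k : ℕ) (u : List Bool) : toY k (true :: u) = (toY 0 u).map (List.cons k) := by
  cases k <;> rfl

lemma toY_xny (n : ℕ) (u : List Bool) : ∀ k,
    toY k (List.replicate n false ++ true :: u) = (toY 0 u).map (List.cons (k + n)) := by
  induction n with
  | zero => intro k; rw [List.replicate_zero, List.nil_append, toY_true]; rfl
  | succ n ih =>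
    intro k
    rw [List.replicate_succ, List.cons_append, toY_false, ih]
    congr 2
    omega

lemma toY_bw (l : List ℕ) : toY 0 (bw l) = some l := by
  induction l with
  | nil => rfl
  | cons n l ih =>
    change toY 0 (List.replicate n false ++ true :: bw l) = _
    rw [toY_xny, ih, Option.map_some, Nat.zero_add]

lemma toY_append (u : List Bool) (l : List ℕ) : ∀ k,
    toY k (u ++ [true] ++ bw l) = (toY k (u ++ [true])).map (· ++ l) := by
  induction u with
  | nil =>
    intro k
    rw [List.nil_append, List.singleton_append, toY_true, toY_true, toY_bw]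
    rfl
  | cons a u ih =>
    intro k
    cases a with
    | false =>
      rw [List.cons_append, List.cons_append, toY_false, toY_false, ih]
    | true =>
      rw [List.cons_append, List.cons_append, toY_true, toY_true, ih, Option.map_map,
        Option.map_map]
      rfl

lemma piY_x (g : FA R Bool) : piY (g * ow R [false]) = 0 := by
  refine lin_ext (s := piY ∘ₗ LinearMap.mulRight R (ow R [false])) (t := 0) (fun w => ?_) g
  change piY (ow R w * ow R [false]) = 0
  rw [ow_mul, piY_ow, toY_x]
  rfl

lemma piY_bw (g : FA R Bool) (l : List ℕ) :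
    piY (g * ow R [true] * ow R (bw l)) = piY (g * ow R [true]) * ow R l := by
  refine lin_ext (s := piY ∘ₗ LinearMap.mulRight R (ow R (bw l)) ∘ₗ
    LinearMap.mulRight R (ow R [true])) (t := LinearMap.mulRight R (ow R l) ∘ₗ piY ∘ₗ
    LinearMap.mulRight R (ow R [true])) (fun w => ?_) g
  change piY (ow R w * ow R [true] * ow R (bw l)) = piY (ow R w * ow R [true]) * ow R l
  rw [ow_mul, ow_mul, piY_ow, piY_ow, toY_append]
  cases toY 0 (w ++ [true]) with
  | none => simp
  | some m =>
    change ow R (m ++ l) = ow R m * ow R l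
    rw [ow_mul]

lemma piY_xny (n : ℕ) (g : FA R Bool) :
    piY (ow R (List.replicate n false) * ow R [true] * g) = ow R [n] * piY g := by
  refine lin_ext (s := piY ∘ₗ LinearMap.mulLeft R (ow R (List.replicate n false) * ow R [true]))
    (t := LinearMap.mulLeft R (ow R [n]) ∘ₗ piY) (fun w => ?_) g
  change piY (ow R (List.replicate n false) * ow R [true] * ow R w) = ow R [n] * piY (ow R w)
  rw [ow_mul, ow_mul, piY_ow, piY_ow, List.append_assoc, List.singleton_append, toY_xny]
  cases toY 0 w with
  | none => simp
  | some m =>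
    change ow R ((0 + n) :: m) = ow R [n] * ow R m
    rw [ow_mul, Nat.zero_add]
    rfl

/-- a word is a word ending in `x` or some `bw l` -/
lemma word_cases (w : List Bool) : (∃ u, w = u ++ [false]) ∨ ∃ l, w = bw l := by
  induction w with
  | nil => right; exact ⟨[], rfl⟩
  | cons a w ih =>
    rcases ih with ⟨u, rfl⟩ | ⟨l, rfl⟩
    · left; exact ⟨a :: u, rfl⟩
    · cases a with
      | true => right; exact ⟨0 :: l, rfl⟩
      | false =>
        cases l with
        | nil => left; exact ⟨[], rfl⟩
        | cons n l =>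
          right
          refine ⟨(n + 1) :: l, ?_⟩
          change false :: (List.replicate n false ++ true :: bw l) =
            List.replicate (n + 1) false ++ true :: bw l
          rw [List.replicate_succ, List.cons_append]

lemma dx_rep (ψ : FA R Bool) (n : ℕ) :
    der (fun a : Bool => if a then ow R [true] * ψ - ψ * ow R [true] else 0)
      (ow R (List.replicate n false)) = 0 := by
  induction n with
  | zero => exact der_one _
  | succ n ih =>
    rw [List.replicate_succ, ow_cons false (List.replicate n false), der_mul, ih, mul_zero,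
      add_zero, der_letter]
    simp

lemma sop_apply (ψ f : FA R Bool) : sop ψ f = ψ * f +
    der (fun a : Bool => if a then ow R [true] * ψ - ψ * ow R [true] else 0) f := rfl

lemma sop_step (ψ f : FA R Bool) (n : ℕ) :
    sop ψ (ow R (List.replicate n false) * ow R [true] * f) =
      (ψ * ow R (List.replicate n false) - ow R (List.replicate n false) * ψ) * ow R [true] * f +
        ow R (List.replicate n false) * ow R [true] * sop ψ f := by
  rw [sop_apply, sop_apply, der_mul, der_mul, dx_rep, der_letter]
  simp only [if_true]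
  noncomm_ring

end

end MP154526.Low.PIS

namespace MP154526.Low

open SHC PIS MP154526.Top

theorem specPis : SpecPis := by
  intro R _ ψ f
  have key : ∀ w : List Bool, piY (sop ψ (ow R w)) = dY ψ (piY (ow R w)) +
      piY (ow R w) * piY ψ := by
    intro w
    rcases word_cases w with ⟨u, rfl⟩ | ⟨l, rfl⟩
    · rw [piY_ow, toY_x]
      change _ = dY ψ 0 + 0 * piY ψ
      rw [map_zero, zero_mul, add_zero, ← ow_mul, sop_apply, der_mul, der_letter]
      simp only [Bool.false_eq_true, if_false, mul_zero, add_zero]
      rw [← mul_assoc, map_add, piY_x, piY_x, add_zero]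
    · have h1 : ∀ m : List ℕ, piY (ow R (bw m)) = ow R m := by
        intro m
        rw [piY_ow, toY_bw]
        rfl
      rw [h1]
      induction l with
      | nil =>
        change piY (sop ψ 1) = dY ψ 1 + 1 * piY ψ
        rw [sop_apply, der_one, mul_one, add_zero, one_mul]
        unfold dY
        rw [der_one, zero_add]
      | cons n l ih =>
        have h2 : ow R (bw (n :: l)) = ow R (List.replicate n false) * ow R [true] *
            ow R (bw l) := by
          rw [ow_mul, ow_mul, List.append_assoc]
          rfl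
        rw [h2, sop_step, map_add, piY_bw, piY_xny, ih]
        unfold dY
        rw [ow_cons n l, der_mul, der_letter]
        noncomm_ring
  have h3 := lin_ext (s := piY ∘ₗ sop ψ)
    (t := dY ψ ∘ₗ piY + LinearMap.mulRight R (piY ψ) ∘ₗ piY) key f
  exact h3

end MP154526.Low
end

section
/-!
# Module STW: the operator `T ψ` is a derivation for the stuffle product on `ℌ¹ × ℌ⁰`
-/
set_option autoImplicit false

namespace MP154526.Low

open Finset MP154526.Bound MP154526.Top MP154526.Top.Pass2 MP154526.Lin
open scoped TensorProduct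

namespace STW

/-! ### free algebras -/

section FA

variable {R α β : Type} [CommRing R]

theorem cf_add (f g : FA R α) (w : List α) : cf (f + g) w = cf f w + cf g w := rfl

theorem cf_smul (c : R) (f : FA R α) (w : List α) : cf (c • f) w = c * cf f w := rfl

theorem cf_zero (w : List α) : cf (0 : FA R α) w = 0 := rfl

/-- `cf · w` as a linear map -/
def cfL (R : Type) {α : Type} [CommRing R] (w : List α) : FA R α →ₗ[R] R where
  toFun f := cf f w
  map_add' _ _ := rfl
  map_smul' _ _ := rfl

theorem cfL_apply (w : List α) (f : FA R α) : cfL R w f = cf f w := rfl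

theorem cf_ow [DecidableEq α] (u w : List α) :
    cf (ow R u) w = if u = w then 1 else 0 := by
  unfold cf ow
  rw [MonoidAlgebra.coeff_single]
  by_cases h : u = w
  · subst h
    rw [if_pos rfl, Finsupp.single_eq_same]
  · rw [if_neg h, Finsupp.single_eq_of_ne]
    exact fun h' => h (FreeMonoid.ofList.injective h'.symm)

theorem lext_ow {M : Type} [AddCommGroup M] [Module R M] (φ : List α → M) (w : List α) :
    lext φ (ow R w) = φ w := by
  unfold lext ow
  simp

theorem ow_append (u v : List α) : ow R (u ++ v) = ow R u * ow R v := by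
  unfold ow
  rw [MonoidAlgebra.single_mul_single, one_mul]
  rfl

/-- two linear maps agreeing on words are equal -/
theorem hom_ext {M : Type} [AddCommGroup M] [Module R M] {F G : FA R α →ₗ[R] M}
    (h : ∀ w : List α, F (ow R w) = G (ow R w)) : F = G := by
  refine LinearMap.ext fun f => ?_
  induction f using MonoidAlgebra.induction_linear with
  | zero => simp
  | add f g hf hg => rw [map_add, map_add, hf, hg]
  | single w r =>
    have : (MonoidAlgebra.single w r : FA R α) = r • ow R w.toList := by
      unfold ow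
      rw [MonoidAlgebra.smul_single, smul_eq_mul, mul_one]
      rfl
    rw [this, map_smul, map_smul, h]

/-- the element with prescribed coefficients at the words of length at most `L` -/
theorem exists_trunc [Finite α] (L : ℕ) (φ : List α → R) :
    ∃ f : FA R α, ∀ w, cf f w = if w.length ≤ L then φ w else 0 := by
  classical
  have hfin : {w : List α | w.length ≤ L}.Finite := List.finite_length_le α L
  refine ⟨∑ w ∈ hfin.toFinset, φ w • ow R w, fun w => ?_⟩
  have h1 : cf (∑ w ∈ hfin.toFinset, φ w • ow R w) w =
      ∑ u ∈ hfin.toFinset, cf (φ u • ow R u) w := map_sum (cfL R w) _ _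
  rw [h1]
  have h2 : ∀ u ∈ hfin.toFinset, cf (φ u • ow R u) w = if u = w then φ w else 0 := by
    intro u _
    rw [cf_smul, cf_ow]
    split_ifs with h
    · rw [h, mul_one]
    · rw [mul_zero]
  rw [Finset.sum_congr rfl h2, Finset.sum_ite_eq']
  simp

end FA

/-! ### words -/

theorem toY_rep (k a : ℕ) (w : List Bool) :
    toY k (List.replicate a false ++ true :: w) = (toY 0 w).map (List.cons (k + a)) := by
  induction a generalizing k with
  | zero => simp [toY]
  | succ a ih =>
    rw [List.replicate_succ, List.cons_append, toY, ih, add_assoc, add_comm 1 a]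

theorem toY_bw (l : List ℕ) : toY 0 (bw l) = some l := by
  induction l with
  | nil => simp [bw, toY]
  | cons a l ih => rw [bw, toY_rep, ih]; simp

theorem bw_toY_aux (w : List Bool) : ∀ (k : ℕ) (l : List ℕ), toY k w = some l →
    List.replicate k false ++ w = bw l := by
  induction w with
  | nil =>
    intro k l h
    cases k with
    | zero =>
      rw [toY, Option.some.injEq] at h
      rw [← h]
      rfl
    | succ k => simp [toY] at h
  | cons b w ih =>
    intro k l h
    cases b with
    | false =>
      have h' : toY (k + 1) w = some l := by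
        rw [← h]
        cases k <;> rw [toY]
      rw [← ih (k + 1) l h', List.replicate_succ']
      simp
    | true =>
      have h' : (toY 0 w).map (List.cons k) = some l := by
        rw [← h]
        cases k <;> rw [toY]
      rw [Option.map_eq_some_iff] at h'
      obtain ⟨l', h1, h2⟩ := h'
      rw [← h2, bw, ← ih 0 l' h1]
      rfl

theorem bw_toY {w : List Bool} {l : List ℕ} (h : toY 0 w = some l) : w = bw l := by
  simpa using bw_toY_aux w 0 l h

theorem length_bw (l : List ℕ) : (bw l).length = wt l := by
  induction l with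
  | nil => rfl
  | cons a l ih =>
    rw [bw, wt_cons, ← ih]
    simp
    omega

section piY

variable {R : Type} [CommRing R]

/-- the section of `π_Y` -/
noncomputable def sY (R : Type) [CommRing R] : FA R ℕ →ₗ[R] FA R Bool := lext fun l => ow R (bw l)

theorem piY_sY (g : FA R ℕ) : piY (sY R g) = g := by
  have h : (piY ∘ₗ sY R : FA R ℕ →ₗ[R] FA R ℕ) = LinearMap.id := hom_ext fun w => by
    rw [LinearMap.comp_apply, sY, lext_ow, piY, lext_ow, toY_bw]
    rfl
  exact LinearMap.congr_fun h g

theorem cf_piY (f : FA R Bool) (l : List ℕ) : cf (piY f) l = cf f (bw l) := by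
  have h : (cfL R l ∘ₗ piY : FA R Bool →ₗ[R] R) = cfL R (bw l) := hom_ext fun w => by
    rw [LinearMap.comp_apply, piY, lext_ow, cfL_apply, cfL_apply, cf_ow]
    rcases h : toY 0 w with _ | m
    · rw [if_neg]
      · rfl
      · rintro rfl
        rw [toY_bw] at h
        cases h
    · rw [Option.elim, cf_ow]
      have e : m = l ↔ w = bw l := by
        constructor
        · rintro rfl
          exact bw_toY h
        · rintro rfl
          rw [toY_bw] at h
          exact (Option.some.inj h).symm
      simp only [e]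
  exact LinearMap.congr_fun h f

theorem cf_sY (g : FA R ℕ) (s : List Bool) : cf (sY R g) s = (toY 0 s).elim 0 (cf g) := by
  rcases h : toY 0 s with _ | m
  · have h' : (cfL R s ∘ₗ sY R : FA R ℕ →ₗ[R] R) = 0 := hom_ext fun w => by
      rw [LinearMap.comp_apply, sY, lext_ow, cfL_apply, cf_ow, if_neg, LinearMap.zero_apply]
      rintro rfl
      rw [toY_bw] at h
      cases h
    exact LinearMap.congr_fun h' g
  · rw [Option.elim, bw_toY h, ← cf_piY, piY_sY]

end piY

/-! ### removal of leading letters `y_1` -/

section Pr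

variable {K : Type} [CommRing K]

/-- removal of one leading `y_1` -/
def P1 (φ : List ℕ → K) : List ℕ → K
  | 0 :: w => φ w
  | _ => 0

/-- removal of `n` leading `y_1` -/
def Pr : ℕ → (List ℕ → K) → List ℕ → K
  | 0, φ => φ
  | n + 1, φ => P1 (Pr n φ)

theorem cf_y1 (g : FA K ℕ) (w : List ℕ) : cf (ow K [0] * g) w = P1 (cf g) w := by
  have h : ∀ g : FA K ℕ, (cfL K w ∘ₗ LinearMap.mulLeft K (ow K [0])) g = P1 (cf g) w := by
    intro g
    rcases w with _ | ⟨_ | a, w⟩
    · have : (cfL K [] ∘ₗ LinearMap.mulLeft K (ow K [0]) : FA K ℕ →ₗ[K] K) = 0 :=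
        hom_ext fun v => by
          rw [LinearMap.comp_apply, LinearMap.mulLeft_apply, ← ow_append, cfL_apply, cf_ow,
            if_neg (by simp), LinearMap.zero_apply]
      exact LinearMap.congr_fun this g
    · have : (cfL K (0 :: w) ∘ₗ LinearMap.mulLeft K (ow K [0]) : FA K ℕ →ₗ[K] K) = cfL K w :=
        hom_ext fun v => by
          rw [LinearMap.comp_apply, LinearMap.mulLeft_apply, ← ow_append, cfL_apply, cfL_apply,
            cf_ow, cf_ow]
          simp
      exact LinearMap.congr_fun this g
    · have : (cfL K ((a + 1) :: w) ∘ₗ LinearMap.mulLeft K (ow K [0]) : FA K ℕ →ₗ[K] K) = 0 :=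
        hom_ext fun v => by
          rw [LinearMap.comp_apply, LinearMap.mulLeft_apply, ← ow_append, cfL_apply, cf_ow,
            if_neg (by simp), LinearMap.zero_apply]
      exact LinearMap.congr_fun this g
  exact h g

theorem cf_rep (n : ℕ) (g : FA K ℕ) (w : List ℕ) :
    cf (ow K (List.replicate n 0) * g) w = Pr n (cf g) w := by
  induction n generalizing w with
  | zero =>
    have : ow K (List.replicate 0 (0 : ℕ)) = 1 := rfl
    rw [this, one_mul]
    rfl
  | succ n ih =>
    have : ow K (List.replicate (n + 1) (0 : ℕ)) = ow K [0] * ow K (List.replicate n 0) := by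
      rw [← ow_append]
      rfl
    rw [this, mul_assoc, cf_y1, Pr]
    have h2 : cf (ow K (List.replicate n 0) * g) = Pr n (cf g) := funext ih
    rw [h2]

theorem stf_P1 (φ : List ℕ → K) (u v : List ℕ) (hv : Ad v) :
    stf (P1 φ) u v = P1 (fun u' => stf φ u' v) u := by
  rcases v with _ | ⟨b, v⟩
  · rw [stf_nil_right]
    simp only [stf_nil_right]
  · have hb : 1 ≤ b := hv b (by simp)
    obtain ⟨b, rfl⟩ : ∃ b', b = b' + 1 := ⟨b - 1, by omega⟩
    rcases u with _ | ⟨_ | a, u⟩
    · rw [stf_nil_left]
      rfl
    · rw [stf_cons_cons]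
      have h1 : stf (fun l => P1 φ ((b + 1) :: l)) (0 :: u) v = 0 := stf_zero _ _ _ fun l _ => rfl
      have h2 : stf (fun l => P1 φ ((0 + (b + 1) + 1) :: l)) u v = 0 :=
        stf_zero _ _ _ fun l _ => rfl
      rw [h1, h2, add_zero, add_zero]
      rfl
    · rw [stf_cons_cons]
      have h0 : stf (fun l => P1 φ ((a + 1) :: l)) u ((b + 1) :: v) = 0 :=
        stf_zero _ _ _ fun l _ => rfl
      have h1 : stf (fun l => P1 φ ((b + 1) :: l)) ((a + 1) :: u) v = 0 :=
        stf_zero _ _ _ fun l _ => rfl
      have h2 : stf (fun l => P1 φ ((a + 1 + (b + 1) + 1) :: l)) u v = 0 :=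
        stf_zero _ _ _ fun l _ => rfl
      rw [h0, h1, h2, add_zero, add_zero]
      rfl

theorem stf_Pr (n : ℕ) (φ : List ℕ → K) (u v : List ℕ) (hv : Ad v) :
    stf (Pr n φ) u v = Pr n (fun u' => stf φ u' v) u := by
  induction n generalizing u with
  | zero => rfl
  | succ n ih =>
    rw [Pr, stf_P1 _ _ _ hv, Pr]
    congr 1
    exact funext fun u' => ih u'

theorem Pr_ad (n : ℕ) (hn : 1 ≤ n) (φ : List ℕ → K) (v : List ℕ) (hv : Ad v) : Pr n φ v = 0 := by
  obtain ⟨n, rfl⟩ : ∃ n', n = n' + 1 := ⟨n - 1, by omega⟩
  rcases v with _ | ⟨b, v⟩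
  · rfl
  · have hb : 1 ≤ b := hv b (by simp)
    obtain ⟨b, rfl⟩ : ∃ b', b = b' + 1 := ⟨b - 1, by omega⟩
    rfl

end Pr

/-! ### congruence -/

theorem stf_congr {M : Type} [AddCommMonoid M] (f g : List ℕ → M) (u v : List ℕ)
    (h : ∀ l, wt l = wt u + wt v → f l = g l) : stf f u v = stf g u v := by
  induction u, v using stf_induct generalizing f g with
  | h0 W => simpa using h W (by simp)
  | h1 a σ => simpa using h (a :: σ) (by simp)
  | h2 a σ c W ha hb hc =>
    rw [stf_cons_cons, stf_cons_cons]
    congr 1
    · congr 1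
      · exact ha _ _ fun l hl => h _ (by simp only [wt_cons] at hl ⊢; omega)
      · exact hb _ _ fun l hl => h _ (by simp only [wt_cons] at hl ⊢; omega)
    · exact hc _ _ fun l hl => h _ (by simp only [wt_cons] at hl ⊢; omega)

theorem TT_congr {K M : Type} [CommRing K] [AddCommGroup M] [Module K M] (n : ℕ)
    (ψ : List Bool → K) (c : Bool) (φ φ' : List Bool → M) (w : List Bool)
    (h : ∀ s : List Bool, s.length + n = w.length → φ s = φ' s) :
    TT n ψ c φ w = TT n ψ c φ' w := by
  have hhd : ∀ (c : Bool) (φ φ' : List Bool → M) (w : List Bool),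
      (∀ s : List Bool, s.length + n = w.length → φ s = φ' s) →
      hd n ψ c φ w = hd n ψ c φ' w := by
    intro c φ φ' w h
    unfold hd
    split_ifs with h1
    all_goals first | rfl | rw [h _ (by rw [List.length_drop]; omega)]
  induction w generalizing c φ φ' with
  | nil => exact hhd _ _ _ _ h
  | cons a w ih =>
    rw [TT, TT, hhd _ _ _ _ h, ih a (fun v => φ (a :: v)) (fun v => φ' (a :: v)) fun s hs =>
      h _ (by simp only [List.length_cons]; omega)]

theorem T_congr {K M : Type} [CommRing K] [AddCommGroup M] [Module K M] (n : ℕ)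
    (ψ : List Bool → K) (φ φ' : List Bool → M) (w : List Bool)
    (h : ∀ s : List Bool, s.length + n = w.length → φ s = φ' s) :
    T n ψ φ w = T n ψ φ' w := TT_congr n ψ true φ φ' w h

theorem stf_sub {K : Type} [CommRing K] (f g : List ℕ → K) (u v : List ℕ) :
    stf (fun l => f l - g l) u v = stf f u v - stf g u v := by
  rw [eq_sub_iff_add_eq, ← stf_add]
  simp only [sub_add_cancel]

theorem stf_mul {K : Type} [CommRing K] (c : K) (f : List ℕ → K) (u v : List ℕ) :
    stf (fun l => c * f l) u v = c * stf f u v :=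
  (stf_map (AddMonoidHom.mulLeft c) f u v).symm

end STW

open STW in
theorem specStW (hTens : SpecTens) (hCodc : SpecCodc) (hPis : SpecPis) (hRac : SpecRac)
    (hTr : SpecTr) (hStp : SpecStp) : SpecStW := by
  intro K _ _ n ψ hψ φ u v hv
  have hn : 1 ≤ n := le_trans (by norm_num) hψ.three
  -- the polynomial with the coefficients of `ψ`
  obtain ⟨Ψ₀, hΨ₀⟩ := exists_trunc (R := K) (α := Bool) n fun w => if w.length = n then ψ w else 0
  have hΨ : ∀ w, cf Ψ₀ w = if w.length = n then ψ w else 0 := by
    intro w
    rw [hΨ₀]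
    split_ifs with h1 h2 h3 <;> first | rfl | omega
  have hDM := hStp K n ψ Ψ₀ hψ hΨ
  -- the truncation of `φ`
  obtain ⟨f, hf⟩ := exists_trunc (R := K) (α := Bool) (wt u + wt v) φ
  set g : FA K ℕ := piY f with hg
  have hcg : ∀ l, wt l ≤ wt u + wt v → cf g l = φ (bw l) := by
    intro l hl
    rw [hg, cf_piY, hf, length_bw, if_pos hl]
  set c : K := algebraMap ℚ K ((-1) ^ (n - 1) / n) * cf Ψ₀ (xny (n - 1)) with hc
  have hcorr : ∀ (h : FA K ℕ) (w : List ℕ), cf (corr n Ψ₀ * h) w = c * Pr n (cf h) w := by
    intro h w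
    rw [corr, smul_mul_assoc, cf_smul, cf_rep]
  -- the operator `sst` in coefficients
  let t : List ℕ → (List ℕ → K) → K := fun w χ =>
    T n ψ (fun s => (toY 0 s).elim 0 χ) (bw w) + c * Pr n χ w
  have hsst : ∀ (h : FA K ℕ) (w : List ℕ), cf (sst n Ψ₀ h) w = t w (cf h) := by
    intro h w
    have h1 : sst n Ψ₀ h = corr n Ψ₀ * h + piY (sop Ψ₀ (sY K h)) := by
      rw [hPis, piY_sY, ← add_assoc]
      rfl
    rw [h1, cf_add, hcorr, cf_piY, hTr K n ψ Ψ₀ hn hΨ]
    have h2 : cf (sY K h) = fun s => (toY 0 s).elim 0 (cf h) := funext (cf_sY h)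
    rw [h2, add_comm]
  have key : stf (cf (sst n Ψ₀ g)) u v = t u (fun u' => stf (cf g) u' v) +
      t v (fun v' => stf (cf g) u v') := by
    rw [← hTens.st, hRac K n Ψ₀ hDM, hCodc K ℕ (sst n Ψ₀) t hsst]
    simp only [hTens.st]
  have hL : ∀ l, wt l = wt u + wt v →
      T n ψ φ (bw l) = cf (sst n Ψ₀ g) l - c * Pr n (cf g) l := by
    intro l hl
    have h1 : T n ψ φ (bw l) = T n ψ (cf f) (bw l) := T_congr _ _ _ _ _ fun s hs => by
      rw [length_bw] at hs
      rw [hf, if_pos (by omega)]
    have h2 : piY (sop Ψ₀ f) = sst n Ψ₀ g - corr n Ψ₀ * g := by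
      rw [hPis, eq_sub_iff_add_eq, sst]
      simp only [LinearMap.add_apply, LinearMap.mulLeft_apply, LinearMap.mulRight_apply, ← hg]
      abel
    rw [h1, ← hTr K n ψ Ψ₀ hn hΨ, ← cf_piY, h2, ← hcorr]
    rfl
  rw [stf_congr _ _ u v hL, stf_sub, stf_mul, key, stf_Pr n (cf g) u v hv]
  have h3 : c * Pr n (fun v' => stf (cf g) u v') v = 0 := by
    rw [Pr_ad n hn _ v hv, mul_zero]
  have h4 : T n ψ (fun s => (toY 0 s).elim 0 fun l => stf (cf g) l v) (bw u) =
      T n ψ (fun s => (toY 0 s).elim 0 fun l => stf (fun l => φ (bw l)) l v) (bw u) :=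
    T_congr _ _ _ _ _ fun s hs => by
      rcases h : toY 0 s with _ | m
      · rfl
      · rw [Option.elim, Option.elim]
        have h5 := bw_toY h
        rw [h5, length_bw, length_bw] at hs
        exact stf_congr _ _ _ _ fun l hl => hcg l (by omega)
  have h5 : T n ψ (fun s => (toY 0 s).elim 0 fun l => stf (cf g) u l) (bw v) =
      T n ψ (fun s => (toY 0 s).elim 0 fun l => stf (fun l => φ (bw l)) u l) (bw v) :=
    T_congr _ _ _ _ _ fun s hs => by
      rcases h : toY 0 s with _ | m
      · rfl
      · rw [Option.elim, Option.elim]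
        have h5 := bw_toY h
        rw [h5, length_bw, length_bw] at hs
        exact stf_congr _ _ _ _ fun l hl => hcg l (by omega)
  change T n ψ (fun s => (toY 0 s).elim 0 fun l => stf (cf g) l v) (bw u) +
    c * Pr n (fun u' => stf (cf g) u' v) u +
    (T n ψ (fun s => (toY 0 s).elim 0 fun l => stf (cf g) u l) (bw v) +
    c * Pr n (fun v' => stf (cf g) u v') v) - c * Pr n (fun u' => stf (cf g) u' v) u = _
  rw [h3, h4, h5]
  ring

end MP154526.Low
end

section
/-!
# Module STP: `ψ_*` is primitive
-/
set_option autoImplicit false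

namespace MP154526.Low

open Finset MP154526.Bound MP154526.Top MP154526.Top.Pass2 MP154526.Lin
open scoped TensorProduct

namespace STP

section Newton

variable {V : Type} [AddCommGroup V] [Module ℚ V]

/-- the sum of the words with one letter `m` and `i` letters `0` -/
def An (f : List ℕ → V) (m : ℕ) : ℕ → V
  | 0 => f [m]
  | i + 1 => f (m :: List.replicate (i + 1) 0) + An (fun l => f (0 :: l)) m i

theorem An_zero' (f : List ℕ → V) (i : ℕ) :
    An f 0 i = ((i : ℚ) + 1) • f (List.replicate (i + 1) 0) := by
  induction i generalizing f with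
  | zero => simp [An]
  | succ i ih =>
    rw [An, ih, List.replicate_succ (n := i + 1)]
    push_cast
    module

omit [Module ℚ V] in
theorem stf_An (f : List ℕ → V) (m i : ℕ) :
    stf f [m] (List.replicate (i + 1) 0) = An f m (i + 1) + An f (m + 1) i := by
  induction i generalizing f with
  | zero =>
    rw [zero_add, List.replicate_one, stf_cons_cons]
    simp [An]
  | succ i ih =>
    have e1 : An f m (i + 1 + 1) = f (m :: List.replicate (i + 1 + 1) 0) +
        An (fun l => f (0 :: l)) m (i + 1) := rfl
    have e2 : An f (m + 1) (i + 1) = f ((m + 1) :: List.replicate (i + 1) 0) +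
        An (fun l => f (0 :: l)) (m + 1) i := rfl
    rw [e1, e2, List.replicate_succ (n := i + 1), stf_cons_cons, ih, stf_nil_left, stf_nil_left]
    simp only [add_zero]
    abel

/-- if `G` kills the products `y_a * y_1^i`, `a ≥ 2`, `i ≥ 1` of weight `k` -/
theorem An_alt (G : List ℕ → V) (k : ℕ)
    (hG : ∀ a i, 1 ≤ a → 1 ≤ i → a + 1 + i = k → stf G [a] (List.replicate i 0) = 0) (i : ℕ) :
    ∀ a, 1 ≤ a → a + 1 + i = k → An G a i = (-1 : ℚ) ^ i • G [k - 1] := by
  induction i with
  | zero =>
    intro a ha hk
    rw [show k - 1 = a by omega]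
    simp [An]
  | succ i ih =>
    intro a ha hk
    have h1 := hG a (i + 1) ha (by omega) hk
    rw [stf_An, ih (a + 1) (by omega) (by omega)] at h1
    rw [eq_neg_of_add_eq_zero_left h1, pow_succ]
    module

/-- Newton's identity -/
theorem newton (G : List ℕ → V) (k : ℕ) (hk : 1 ≤ k)
    (hG : ∀ a i, 1 ≤ a → 1 ≤ i → a + 1 + i = k → stf G [a] (List.replicate i 0) = 0) :
    stf G [0] (List.replicate (k - 1) 0) =
      (k : ℚ) • G (List.replicate k 0) + if k = 1 then 0 else (-1 : ℚ) ^ k • G [k - 1] := by
  rcases k with _ | _ | k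
  · omega
  · simp
  · rw [show k + 1 + 1 - 1 = k + 1 by omega, stf_An, An_zero',
      An_alt G (k + 1 + 1) hG k 1 le_rfl (by omega), if_neg (by omega)]
    push_cast
    rw [pow_succ, pow_succ]
    module

theorem smul_cancel {q : ℚ} (hq : q ≠ 0) {x : V} (h : q • x = 0) : x = 0 := by
  have : q⁻¹ • q • x = x := by rw [smul_smul, inv_mul_cancel₀ hq, one_smul]
  rw [← this, h, smul_zero]

end Newton

section Pr

variable {K : Type} [CommRing K]

theorem Pr_eq (n : ℕ) (c : K) :
    STW.Pr n (fun l => if l = [] then c else 0) =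
      fun l => if l = List.replicate n 0 then c else 0 := by
  induction n with
  | zero => rfl
  | succ n ih =>
    rw [STW.Pr, ih]
    funext l
    rcases l with _ | ⟨_ | a, l⟩
    · simp [STW.P1]
    · simp [STW.P1, List.replicate_succ]
    · simp [STW.P1, List.replicate_succ]

theorem Pr_zero (n : ℕ) (F : List ℕ → K) (hF : ∀ l, F l = 0) (u : List ℕ) : STW.Pr n F u = 0 := by
  induction n generalizing u with
  | zero => exact hF u
  | succ n ih =>
    rw [STW.Pr]
    rcases u with _ | ⟨_ | a, u⟩
    · rfl
    · exact ih u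
    · rfl

end Pr

section Key

variable {K : Type} [CommRing K] [Algebra ℚ K] {n : ℕ} {ψ : List Bool → K}

/-- the coefficients of `ψ_*` -/
noncomputable def chi (n : ℕ) (ψ : List Bool → K) (l : List ℕ) : K :=
  ψ (bw l) + if l = List.replicate n 0 then
    algebraMap ℚ K ((-1) ^ (n - 1) / n) * ψ (bw [n - 1]) else 0

theorem wt_pos {l : List ℕ} (h : l ≠ []) : 1 ≤ wt l := by
  rcases l with _ | ⟨a, l⟩
  · exact absurd rfl h
  · rw [wt_cons]
    omega

theorem ne_nil_of_wt {l : List ℕ} (h : 1 ≤ wt l) : l ≠ [] := by
  rintro rfl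
  simp at h

/-- products with a nonempty word of `ℌ⁰` -/
theorem chi_ad (hψ : DW n ψ) (u v : List ℕ) (hu : u ≠ []) (hv : v ≠ []) (ha : Ad v)
    (hw : wt u + wt v = n) : stf (chi n ψ) u v = 0 := by
  unfold chi
  rw [stf_add, hψ.st u v hu hv ha hw, zero_add, ← Pr_eq n, STW.stf_Pr _ _ _ _ ha]
  refine Pr_zero _ _ (fun u' => ?_) _
  refine stf_zero _ _ _ fun l hl => ?_
  rw [if_neg]
  apply ne_nil_of_wt
  have := wt_pos hv
  omega

theorem chi_ad' (hψ : DW n ψ) (u v : List ℕ) (hu : u ≠ []) (hv : v ≠ []) (ha : Ad v)
    (hw : wt u + wt v = n) : stf (chi n ψ) v u = 0 := by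
  rw [stf_comm]
  exact chi_ad hψ u v hu hv ha hw

theorem psi_pow (hψ : DW n ψ) : ψ (List.replicate n true) = 0 := by
  have h3 := hψ.three
  have h1 := hψ.sh (List.replicate 1 true) (List.replicate (n - 1) true) (by simp)
    (by
      intro h
      have := congrArg List.length h
      simp at this
      omega) (by simp; omega)
  rw [shs_rep_rep, show 1 + (n - 1) = n by omega, Nat.choose_one_right] at h1
  refine smul_cancel (q := n) (by positivity) ?_
  rw [← h1]
  exact Nat.cast_smul_eq_nsmul ℚ n _

/-- `ψ_*` kills `y_1 * y_1^{n-1}` -/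
theorem chi_one (hψ : DW n ψ) : stf (chi n ψ) [0] (List.replicate (n - 1) 0) = 0 := by
  have h3 := hψ.three
  rw [newton (chi n ψ) n (by omega) fun a i ha hi hn => ?_, if_neg (by omega)]
  · unfold chi
    rw [if_pos rfl, if_neg, bw_rep, psi_pow hψ, zero_add, add_zero]
    · rw [← Algebra.smul_def, smul_smul]
      obtain ⟨m, rfl⟩ : ∃ m, n = m + 1 := ⟨n - 1, by omega⟩
      have hm : ((m + 1 : ℕ) : ℚ) ≠ 0 := by positivity
      rw [mul_div_cancel₀ _ hm, Nat.add_sub_cancel, pow_succ]
      module
    · intro h
      have := congrArg List.length h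
      simp at this
      omega
  · refine chi_ad' hψ _ _ ?_ (by simp) ?_ ?_
    · apply ne_nil_of_wt
      rw [wt_rep]
      exact hi
    · obtain ⟨b, rfl⟩ : ∃ b, a = b + 1 := ⟨a - 1, by omega⟩
      exact ad_cons b []
    · rw [wt_rep, wt_cons, wt_nil]
      omega

/-- the triple products -/
theorem triple (hψ : DW n ψ) (k j : ℕ) (hj : 1 ≤ j) (hk : 1 ≤ k) (hn : k + j = n) :
    stf (fun l => stf (chi n ψ) l (List.replicate j 0)) [0] (List.replicate (k - 1) 0) =
      (k : ℚ) • stf (chi n ψ) (List.replicate k 0) (List.replicate j 0) := by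
  have hvan : ∀ a i, 1 ≤ a → a + 1 + i = k →
      stf (fun l => stf (chi n ψ) l (List.replicate j 0)) [a] (List.replicate i 0) = 0 := by
    intro a i ha hi
    rw [stf_assoc']
    refine stf_zero _ _ _ fun l hl => ?_
    rw [wt_rep, wt_rep] at hl
    refine chi_ad' hψ _ _ ?_ (by simp) ?_ ?_
    · apply ne_nil_of_wt
      omega
    · obtain ⟨b, rfl⟩ : ∃ b, a = b + 1 := ⟨a - 1, by omega⟩
      exact ad_cons b []
    · rw [wt_cons, wt_nil]
      omega
  rw [newton _ k hk fun a i ha _ hi => hvan a i ha hi]
  split_ifs with h1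
  · rw [add_zero]
  · have h2 := hvan (k - 1) 0 (by omega) (by omega)
    rw [List.replicate_zero, stf_nil_right] at h2
    rw [h2, smul_zero, add_zero]

theorem chi_pow (hψ : DW n ψ) (k : ℕ) : ∀ j, 1 ≤ j → k + 1 + j = n →
    stf (chi n ψ) (List.replicate (k + 1) 0) (List.replicate j 0) = 0 := by
  induction k with
  | zero =>
    intro j hj hn
    have := chi_one hψ
    rw [show n - 1 = j by omega] at this
    exact this
  | succ k ih =>
    intro j hj hn
    have h1 := triple hψ (k + 1 + 1) j hj (by omega) (by omega)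
    have h2 := triple hψ (j + 1) (k + 1) (by omega) (by omega) (by omega)
    rw [stf_comm (chi n ψ) (List.replicate (j + 1) 0), ih (j + 1) (by omega) (by omega),
      smul_zero] at h2
    rw [Nat.add_sub_cancel] at h1 h2
    have h3 : stf (fun l => stf (chi n ψ) l (List.replicate j 0)) [0]
        (List.replicate (k + 1) 0) = 0 := by
      rw [stf_assoc', stf_comm, ← stf_assoc', h2]
    rw [h3] at h1
    exact smul_cancel (q := ((k + 1 + 1 : ℕ) : ℚ)) (by positivity) h1.symm

/-- `ψ_*` kills all products -/
theorem chi_mul (hψ : DW n ψ) (u v : List ℕ) (hu : u ≠ []) (hv : v ≠ [])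
    (hw : wt u + wt v = n) : stf (chi n ψ) u v = 0 := by
  have huw := wt_pos hu
  have hvw := wt_pos hv
  -- first `y_1^i * v`
  have key : ∀ i, 1 ≤ i → ∀ v : List ℕ, v ≠ [] → i + wt v = n →
      stf (chi n ψ) (List.replicate i 0) v = 0 := by
    intro i hi v hv hw
    refine specTri K (wt v) (fun l => stf (chi n ψ) (List.replicate i 0) l) ?_ v rfl
    intro j b hb hjb
    rw [← stf_assoc']
    by_cases hb0 : b = []
    · subst hb0
      simp only [stf_nil_right]
      rw [wt_nil, add_zero] at hjb
      obtain ⟨i, rfl⟩ : ∃ i', i = i' + 1 := ⟨i - 1, by omega⟩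
      exact chi_pow hψ i j (by have := wt_pos hv; omega) (by omega)
    · refine stf_zero _ _ _ fun l hl => ?_
      rw [wt_rep, wt_rep] at hl
      exact chi_ad hψ l b (ne_nil_of_wt (by omega)) hb0 hb (by omega)
  refine specTri K (wt u) (fun l => stf (chi n ψ) l v) ?_ u rfl
  intro i b hb hib
  by_cases hb0 : b = []
  · subst hb0
    rw [stf_nil_right]
    rw [wt_nil, add_zero] at hib
    exact key i (by omega) v hv (by omega)
  · rw [stf_comm, stf_assoc']
    refine stf_zero _ _ _ fun l hl => ?_
    rw [wt_rep] at hl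
    exact chi_ad' hψ l b (ne_nil_of_wt (by omega)) hb0 hb (by omega)

end Key

section Prim

variable {R α : Type} [CommRing R]

theorem cf2_sub (S T : FA R α ⊗[R] FA R α) (u v : List α) :
    cf2 (S - T) u v = cf2 S u v - cf2 T u v := by
  unfold cf2
  rw [map_sub, map_sub]

theorem cf2_add (S T : FA R α ⊗[R] FA R α) (u v : List α) :
    cf2 (S + T) u v = cf2 S u v + cf2 T u v := by
  unfold cf2
  rw [map_add, map_add]

/-- an element is primitive if its coefficients kill the products -/
theorem prim (hTens : SpecTens) (Δ : FA R α →ₐ[R] FA R α ⊗[R] FA R α) (f : FA R α)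
    (hf : cf f [] = 0) (h1 : ∀ v, cf2 (Δ f) [] v = cf f v) (h2 : ∀ u, cf2 (Δ f) u [] = cf f u)
    (h3 : ∀ u v, u ≠ [] → v ≠ [] → cf2 (Δ f) u v = 0) :
    Δ f = f ⊗ₜ[R] 1 + 1 ⊗ₜ[R] f := by
  rw [← sub_eq_zero]
  refine hTens.ext R α _ fun u v => ?_
  rw [cf2_sub, cf2_add, hTens.tmul, hTens.tmul]
  by_cases hu : u = []
  · subst hu
    rw [h1, hf, cf_one_nil]
    ring
  · by_cases hv : v = []
    · subst hv
      rw [h2, hf, cf_one_nil]
      ring
    · rw [h3 u v hu hv, cf_one_ne hu, cf_one_ne hv]
      ring

end Prim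

end STP

open STP in
theorem specStp (hTens : SpecTens) : SpecStp := by
  intro K _ _ n ψ Ψ hψ hΨ
  have h3 := hψ.three
  have hxny : xny (n - 1) = bw [n - 1] := rfl
  have hlen : (xny (n - 1)).length = n := by
    rw [hxny, Pass2.bw_length, wt_cons, wt_nil]
    omega
  have hz : cf Ψ [] = 0 := by
    rw [hΨ, if_neg]
    simp
    omega
  have hcc : cf Ψ (xny (n - 1)) = ψ (bw [n - 1]) := by
    rw [hΨ, if_pos hlen, hxny]
  -- the coefficients of `ψ_*`
  have hstar : ∀ l, cf (star n Ψ) l = if wt l = n then chi n ψ l else 0 := by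
    intro l
    rw [star, cf_add, cf_piY, hΨ, Pass2.bw_length, corr, cf_smul, cf_ow, hcc]
    by_cases hl : wt l = n
    · rw [if_pos hl, if_pos hl, chi]
      by_cases hl2 : l = List.replicate n 0
      · rw [if_pos hl2.symm, if_pos hl2, mul_one]
      · rw [if_neg (fun h => hl2 h.symm), if_neg hl2, mul_zero]
    · rw [if_neg hl, if_neg hl, if_neg, mul_zero, add_zero]
      intro h
      apply hl
      rw [← h, wt_rep]
  refine ⟨h3, ?_, ?_, ?_, ?_⟩
  · intro w hw
    by_contra h
    exact hw (by rw [hΨ, if_neg h])
  · intro hn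
    rw [hcc, hψ.even hn]
  · refine prim hTens (Dsh K Bool) Ψ hz ?_ ?_ ?_
    · intro v
      rw [hTens.sh, shs_nil_left]
    · intro u
      rw [hTens.sh, shs_nil_right]
    · intro u v hu hv
      rw [hTens.sh]
      by_cases h : u.length + v.length = n
      · rw [← hψ.sh u v hu hv h]
        refine shs_congr_len _ _ fun l hl => ?_
        rw [hΨ, if_pos (by omega)]
      · rw [← shs_zero (M := K) u v]
        refine shs_congr_len _ _ fun l hl => ?_
        rw [hΨ, if_neg (by omega)]
  · refine prim hTens (Dst K) (star n Ψ) ?_ ?_ ?_ ?_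
    · rw [hstar, if_neg]
      simp
      omega
    · intro v
      rw [hTens.st, stf_nil_left]
    · intro u
      rw [hTens.st, stf_nil_right]
    · intro u v hu hv
      rw [hTens.st]
      by_cases h : wt u + wt v = n
      · rw [← chi_mul hψ u v hu hv h]
        refine stf_congr _ _ fun l hl => ?_
        rw [hstar, if_pos (by omega)]
      · refine stf_zero _ _ _ fun l hl => ?_
        rw [hstar, if_neg (by omega)]

end MP154526.Low
end
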