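import Pool.Agent.Lib.MP_154526_nt.Low.Basic
import Pool.Agent.Lib.MP_154526_nt.Low.Spec

/-!
# TENS, CODC: coefficients of tensors
-/

set_option autoImplicit false

namespace MP154526.Low

open Finset MP154526.Bound MP154526.Top MP154526.Top.Pass2 MP154526.Lin
open scoped TensorProduct

namespace Tens

section

variable {R α : Type} [CommRing R]

/-- contraction of the right factor -/
noncomputable def conR (v : List α) : FA R α ⊗[R] FA R α →ₗ[R] FA R α :=
  (TensorProduct.rid R (FA R α)).toLinearMap ∘ₗ TensorProduct.map LinearMap.id (cfL R v)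

/-- contraction of the left factor -/
noncomputable def conL (u : List α) : FA R α ⊗[R] FA R α →ₗ[R] FA R α :=
  (TensorProduct.lid R (FA R α)).toLinearMap ∘ₗ TensorProduct.map (cfL R u) LinearMap.id

@[simp] theorem conR_tmul (v : List α) (f g : FA R α) : conR v (f ⊗ₜ[R] g) = cf g v • f := by
  unfold conR
  rw [LinearMap.comp_apply, TensorProduct.map_tmul]
  simp

@[simp] theorem conL_tmul (u : List α) (f g : FA R α) : conL u (f ⊗ₜ[R] g) = cf f u • g := by
  unfold conL
  rw [LinearMap.comp_apply, TensorProduct.map_tmul]
  simp

theorem cf2_eq (u v : List α) (T : FA R α ⊗[R] FA R α) :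
    cf2 T u v = TensorProduct.lid R R (TensorProduct.map (cfL R u) (cfL R v) T) := by
  classical
  unfold cf2
  have h : ∀ u : List α, (lext (R := R) fun w => (by classical exact if w = u then (1 : R) else 0)) =
      cfL R u := by
    intro u
    apply FA_lin_ext
    intro w
    rw [lext_ow, cfL_apply, cf_ow]
  rw [h, h]

theorem cf2_tmul (f g : FA R α) (u v : List α) : cf2 (f ⊗ₜ[R] g) u v = cf f u * cf g v := by
  rw [cf2_eq, TensorProduct.map_tmul]
  simp

theorem cf2_zero (u v : List α) : cf2 (0 : FA R α ⊗[R] FA R α) u v = 0 := by
  rw [cf2_eq]; simp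

theorem cf2_add (S T : FA R α ⊗[R] FA R α) (u v : List α) :
    cf2 (S + T) u v = cf2 S u v + cf2 T u v := by
  rw [cf2_eq, cf2_eq, cf2_eq, map_add, map_add]

theorem cf2_smul (r : R) (T : FA R α ⊗[R] FA R α) (u v : List α) :
    cf2 (r • T) u v = r * cf2 T u v := by
  rw [cf2_eq, cf2_eq, map_smul, map_smul, smul_eq_mul]

theorem cf2_sum {ι : Type} (s : Finset ι) (F : ι → FA R α ⊗[R] FA R α) (u v : List α) :
    cf2 (∑ i ∈ s, F i) u v = ∑ i ∈ s, cf2 (F i) u v := by
  simp only [cf2_eq]
  rw [map_sum, map_sum]

theorem cf_conR (T : FA R α ⊗[R] FA R α) (u v : List α) : cf (conR v T) u = cf2 T u v := by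
  induction T using TensorProduct.induction_on with
  | zero => rw [map_zero, cf2_zero, cf_zero]
  | add S T hS hT => rw [map_add, cf_add, hS, hT, cf2_add]
  | tmul f g => rw [conR_tmul, cf_smul, cf2_tmul, mul_comm]

theorem cf_conL (T : FA R α ⊗[R] FA R α) (u v : List α) : cf (conL u T) v = cf2 T u v := by
  induction T using TensorProduct.induction_on with
  | zero => rw [map_zero, cf2_zero, cf_zero]
  | add S T hS hT => rw [map_add, cf_add, hS, hT, cf2_add]
  | tmul f g => rw [conL_tmul, cf_smul, cf2_tmul]

/-- the basis of words -/
noncomputable def bas (R α : Type) [CommRing R] : Module.Basis (FreeMonoid α) R (FA R α) :=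
  Finsupp.basisSingleOne.map (MonoidAlgebra.coeffLinearEquiv R).symm

theorem bas_repr (f : FA R α) (w : FreeMonoid α) : (bas R α).repr f w = cf f w.toList := rfl

theorem ext2 (T : FA R α ⊗[R] FA R α) (h : ∀ u v, cf2 T u v = 0) : T = 0 := by
  have key : ∀ (T : FA R α ⊗[R] FA R α) (p : FreeMonoid α × FreeMonoid α),
      ((bas R α).tensorProduct (bas R α)).repr T p = cf2 T p.1.toList p.2.toList := by
    intro T p
    induction T using TensorProduct.induction_on with
    | zero => rw [map_zero, cf2_zero]; rfl
    | add S T hS hT => rw [map_add, Finsupp.add_apply, hS, hT, cf2_add]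
    | tmul f g =>
      rw [cf2_tmul]
      obtain ⟨p1, p2⟩ := p
      rw [Module.Basis.tensorProduct_repr_tmul_apply, bas_repr, bas_repr, smul_eq_mul, mul_comm]
  apply ((bas R α).tensorProduct (bas R α)).repr.injective
  ext p
  rw [key, h, map_zero]
  rfl

/-! ### quotients by a letter -/

/-- `F(b⁻¹ ·)` -/
def ql [DecidableEq α] (b : α) {M : Type} [Zero M] (F : List α → M) : List α → M
  | [] => 0
  | a :: l => if b = a then F l else 0

theorem cf_ow_mul [DecidableEq α] (b : α) (f : FA R α) (w : List α) :
    cf (ow R [b] * f) w = ql b (cf f) w := by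
  cases w with
  | nil => exact cf_ow_mul_nil b f
  | cons a w => exact cf_ow_mul_cons b a f w

theorem cf2_left [DecidableEq α] (b : α) (T : FA R α ⊗[R] FA R α) (u v : List α) :
    cf2 ((ow R [b] ⊗ₜ[R] 1) * T) u v = ql b (fun u' => cf2 T u' v) u := by
  induction T using TensorProduct.induction_on with
  | zero =>
    rw [mul_zero, cf2_zero]
    cases u with
    | nil => rfl
    | cons a u => simp [ql, cf2_zero]
  | add S T hS hT =>
    rw [mul_add, cf2_add, hS, hT]
    cases u with
    | nil => simp [ql]
    | cons a u =>
      simp only [ql, cf2_add]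
      split_ifs <;> simp
  | tmul f g =>
    rw [Algebra.TensorProduct.tmul_mul_tmul, one_mul, cf2_tmul, cf_ow_mul]
    cases u with
    | nil => simp [ql]
    | cons a u =>
      simp only [ql, cf2_tmul]
      split_ifs <;> simp

theorem cf2_right [DecidableEq α] (b : α) (T : FA R α ⊗[R] FA R α) (u v : List α) :
    cf2 ((1 ⊗ₜ[R] ow R [b]) * T) u v = ql b (fun v' => cf2 T u v') v := by
  induction T using TensorProduct.induction_on with
  | zero =>
    rw [mul_zero, cf2_zero]
    cases v with
    | nil => rfl
    | cons a v => simp [ql, cf2_zero]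
  | add S T hS hT =>
    rw [mul_add, cf2_add, hS, hT]
    cases v with
    | nil => simp [ql]
    | cons a v =>
      simp only [ql, cf2_add]
      split_ifs <;> simp
  | tmul f g =>
    rw [Algebra.TensorProduct.tmul_mul_tmul, one_mul, cf2_tmul, cf_ow_mul]
    cases v with
    | nil => simp [ql]
    | cons a v =>
      simp only [ql, cf2_tmul]
      split_ifs <;> simp

theorem shs_ite (c : Prop) [Decidable c] (F : List α → R) (u v : List α) :
    shs (fun l => if c then F l else 0) u v = if c then shs F u v else 0 := by
  by_cases h : c
  · simp [h]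
  · simp [h, shs_zero]

theorem sh (f : FA R α) (u v : List α) : cf2 (Dsh R α f) u v = shs (cf f) u v := by
  classical
  induction f using FA_ind generalizing u v with
  | h0 =>
    rw [map_zero, cf2_zero]
    exact (shs_zero u v).symm
  | hadd f g hf hg =>
    rw [map_add, cf2_add, hf, hg]
    exact (shs_add (cf f) (cf g) u v).symm
  | hs r w =>
    rw [map_smul, cf2_smul]
    have h1 : shs (cf (r • ow R w)) u v = r * shs (cf (ow R w)) u v := by
      have := shs_map (AddMonoidHom.mulLeft r) (cf (ow R w)) u v
      rw [AddMonoidHom.coe_mulLeft] at this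
      rw [this]
      rfl
    rw [h1]
    congr 1
    clear h1
    induction w generalizing u v with
    | nil =>
      rw [ow_nil, map_one, Algebra.TensorProduct.one_def, cf2_tmul]
      cases u with
      | nil => rw [shs_nil_left, cf_one_nil, one_mul]
      | cons a u =>
        rw [cf_one_ne (by simp), zero_mul]
        cases v with
        | nil => rw [shs_nil_right, cf_one_ne (by simp)]
        | cons b v =>
          rw [shs_cons_cons]
          have h2 : ∀ (c : α), (fun l => cf (1 : FA R α) (c :: l)) = fun _ => 0 := by
            intro c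
            funext l
            exact cf_one_ne (by simp)
          rw [h2, h2, shs_zero, shs_zero, add_zero]
    | cons c w ih =>
      rw [ow_cons, map_mul, Dsh_letter, add_mul, cf2_add, cf2_left, cf2_right]
      simp only [ih]
      cases u with
      | nil =>
        rw [shs_nil_left, cf_ow_mul]
        simp only [ql, zero_add]
        cases v with
        | nil => rfl
        | cons b v => simp [ql]
      | cons a u =>
        cases v with
        | nil =>
          rw [shs_nil_right, cf_ow_mul]
          simp [ql]
        | cons b v =>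
          rw [shs_cons_cons]
          simp only [cf_ow_mul, ql, shs_ite]

/-- quotient by `y_i`, `y_0 = 1` -/
def qy (i : ℕ) {M : Type} [Zero M] (F : List ℕ → M) (l : List ℕ) : M :=
  match i with
  | 0 => F l
  | i + 1 => ql i F l

theorem cf_yy_mul (i : ℕ) (f : FA R ℕ) (w : List ℕ) : cf (yy R i * f) w = qy i (cf f) w := by
  cases i with
  | zero => simp [yy, qy]
  | succ i => exact cf_ow_mul i f w

theorem qy_zero (i : ℕ) (l : List ℕ) : qy i (fun _ => (0 : R)) l = 0 := by
  cases i with
  | zero => rfl
  | succ i => cases l <;> simp [qy, ql]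

theorem qy_add (i : ℕ) (F G : List ℕ → R) (l : List ℕ) :
    qy i (fun l => F l + G l) l = qy i F l + qy i G l := by
  cases i with
  | zero => rfl
  | succ i =>
    cases l with
    | nil => simp [qy, ql]
    | cons a l =>
      simp only [qy, ql]
      split_ifs <;> simp

theorem qy_mulL (i : ℕ) (r : R) (F : List ℕ → R) (l : List ℕ) :
    qy i (fun l => r * F l) l = r * qy i F l := by
  cases i with
  | zero => rfl
  | succ i =>
    cases l with
    | nil => simp [qy, ql]
    | cons a l =>
      simp only [qy, ql]
      split_ifs <;> simp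

theorem qy_mulR (i : ℕ) (r : R) (F : List ℕ → R) (l : List ℕ) :
    qy i (fun l => F l * r) l = qy i F l * r := by
  have := qy_mulL i r F l
  simp only [mul_comm r] at this
  exact this

theorem cf2_yy (i j : ℕ) (T : FA R ℕ ⊗[R] FA R ℕ) (u v : List ℕ) :
    cf2 ((yy R i ⊗ₜ[R] yy R j) * T) u v = qy i (fun u' => qy j (fun v' => cf2 T u' v') v) u := by
  induction T using TensorProduct.induction_on with
  | zero =>
    rw [mul_zero, cf2_zero]
    simp only [cf2_zero, qy_zero]
  | add S T hS hT =>
    rw [mul_add, cf2_add, hS, hT]
    simp only [cf2_add, qy_add]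
  | tmul f g =>
    rw [Algebra.TensorProduct.tmul_mul_tmul, cf2_tmul, cf_yy_mul, cf_yy_mul]
    simp only [cf2_tmul, qy_mulL, qy_mulR]

theorem stf_zero (u v : List ℕ) : stf (fun _ => (0 : R)) u v = 0 := by
  have := stf_map (0 : R →+ R) (fun _ => (0 : R)) u v
  simpa using this.symm

theorem stf_ite (c : Prop) [Decidable c] (F : List ℕ → R) (u v : List ℕ) :
    stf (fun l => if c then F l else 0) u v = if c then stf F u v else 0 := by
  by_cases h : c
  · simp [h]
  · simp [h, stf_zero]

theorem st (f : FA R ℕ) (u v : List ℕ) : cf2 (Dst R f) u v = stf (cf f) u v := by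
  induction f using FA_ind generalizing u v with
  | h0 =>
    rw [map_zero, cf2_zero]
    exact (stf_zero u v).symm
  | hadd f g hf hg =>
    rw [map_add, cf2_add, hf, hg]
    exact (stf_add (cf f) (cf g) u v).symm
  | hs r w =>
    rw [map_smul, cf2_smul]
    have h1 : stf (cf (r • ow R w)) u v = r * stf (cf (ow R w)) u v := by
      have := stf_map (AddMonoidHom.mulLeft r) (cf (ow R w)) u v
      rw [AddMonoidHom.coe_mulLeft] at this
      rw [this]
      rfl
    rw [h1]
    congr 1
    clear h1
    induction w generalizing u v with
    | nil =>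
      rw [ow_nil, map_one, Algebra.TensorProduct.one_def, cf2_tmul]
      cases u with
      | nil => rw [stf_nil_left, cf_one_nil, one_mul]
      | cons a u =>
        rw [cf_one_ne (by simp), zero_mul]
        cases v with
        | nil => rw [stf_nil_right, cf_one_ne (by simp)]
        | cons b v =>
          rw [stf_cons_cons]
          have h2 : ∀ (c : ℕ), (fun l => cf (1 : FA R ℕ) (c :: l)) = fun _ => 0 := by
            intro c
            funext l
            exact cf_one_ne (by simp)
          rw [h2, h2, h2, stf_zero, stf_zero, stf_zero, add_zero, add_zero]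
    | cons n w ih =>
      rw [ow_cons, map_mul, Dst_letter, Finset.sum_mul, cf2_sum]
      simp only [cf2_yy, ih]
      rw [Finset.sum_range_succ, Finset.sum_range_succ', Nat.sub_self, Nat.sub_zero]
      cases u with
      | nil =>
        rw [stf_nil_left, cf_ow_mul]
        simp only [qy, ql, stf_nil_left, Finset.sum_const_zero, zero_add, add_zero]
      | cons a u =>
        cases v with
        | nil =>
          rw [stf_nil_right, cf_ow_mul]
          have h3 : ∀ i ∈ range n, qy (i + 1) (fun u' => qy (n + 1 - (i + 1))
              (fun v' => stf (cf (ow R w)) u' v') []) (a :: u) = 0 := by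
            intro i hi
            rw [Finset.mem_range] at hi
            rw [show n + 1 - (i + 1) = (n - i - 1) + 1 by omega]
            simp [qy, ql]
          rw [Finset.sum_congr rfl h3]
          simp [qy, ql]
        | cons b v =>
          rw [stf_cons_cons]
          have h3 : ∀ i ∈ range n, qy (i + 1) (fun u' => qy (n + 1 - (i + 1))
              (fun v' => stf (cf (ow R w)) u' v') (b :: v)) (a :: u) =
              if i = a then (if n = a + b + 1 then stf (cf (ow R w)) u v else 0) else 0 := by
            intro i hi
            rw [Finset.mem_range] at hi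
            rw [show n + 1 - (i + 1) = (n - i - 1) + 1 by omega]
            simp only [qy, ql]
            by_cases h4 : i = a
            · subst h4
              rw [if_pos rfl, if_pos rfl]
              by_cases h5 : n - i - 1 = b
              · rw [if_pos h5, if_pos (by omega)]
              · rw [if_neg h5, if_neg (by omega)]
            · rw [if_neg h4, if_neg h4]
          rw [Finset.sum_congr rfl h3, Finset.sum_ite_eq']
          simp only [cf_ow_mul, ql, stf_ite, qy]
          by_cases h6 : n = a + b + 1
          · rw [if_pos (Finset.mem_range.2 (by omega))]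
            simp only [if_pos h6]
            ring
          · simp only [if_neg h6, ite_self, add_zero, zero_add]
            ring

end

end Tens

theorem specTens : SpecTens where
  ext := fun _ _ _ T h => Tens.ext2 T h
  tmul := fun _ _ _ f g u v => Tens.cf2_tmul f g u v
  sh := fun _ _ _ f u v => Tens.sh f u v
  st := fun _ _ f u v => Tens.st f u v

theorem specCodc : SpecCodc := by
  intro R α _ s t h T u v
  have h1 : cf2 (cod s T) u v = cf (s (Tens.conR v T)) u + cf (s (Tens.conL u T)) v := by
    induction T using TensorProduct.induction_on with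
    | zero => simp [Tens.cf2_zero]
    | add S T hS hT =>
      rw [map_add, Tens.cf2_add, hS, hT]
      simp only [map_add, cf_add]
      ring
    | tmul f g =>
      rw [cod_tmul, Tens.cf2_add, Tens.cf2_tmul, Tens.cf2_tmul, Tens.conR_tmul, Tens.conL_tmul,
        map_smul, map_smul, cf_smul, cf_smul]
      ring
  rw [h1, h, h]
  congr 1
  · congr 1
    funext u'
    exact Tens.cf_conR T u' v
  · congr 1
    funext v'
    exact Tens.cf_conL T u v'

end MP154526.Low
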