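import Pool.Agent.Lib.MP_154526_nt.Low.Basic
import Pool.Agent.Lib.MP_154526_nt.Low.Spec

/-!
# TR: the operator `s_ψ` in coefficients
-/

set_option autoImplicit false

namespace MP154526.Low

open Finset MP154526.Bound MP154526.Top MP154526.Top.Pass2 MP154526.Lin
open scoped TensorProduct

namespace Tr

variable {K : Type} [CommRing K]

/-- the left quotient by a letter -/
noncomputable def lq (a : Bool) : FA K Bool →ₗ[K] FA K Bool :=
  lext fun w => match w with
    | [] => 0
    | b :: w => if b = a then ow K w else 0

theorem cf_lq (a : Bool) (f : FA K Bool) (w : List Bool) : cf (lq a f) w = cf f (a :: w) := by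
  induction f using FA_ind with
  | h0 => simp
  | hadd f g hf hg => rw [map_add, cf_add, hf, hg, cf_add]
  | hs r v =>
    rw [map_smul, cf_smul, cf_smul]
    congr 1
    unfold lq
    rw [lext_ow]
    cases v with
    | nil => rw [cf_zero, cf_ow_ne (by simp)]
    | cons b v =>
      by_cases h : b = a
      · subst h
        simp [cf_ow]
      · simp [h, cf_ow]

/-- the derivation `y ↦ [y, Ψ]` -/
noncomputable def dv (Ψ : FA K Bool) : FA K Bool →ₗ[K] FA K Bool :=
  der fun a => if a then ow K [true] * Ψ - Ψ * ow K [true] else 0

/-- recursion for the coefficients of `dv Ψ f` -/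
theorem cf_dv_cons (Ψ f : FA K Bool) (a : Bool) (w : List Bool) :
    cf (dv Ψ f) (a :: w) = cf (dv Ψ (lq a f)) w + (if a then cf (Ψ * lq true f) w else 0) -
      cf (Ψ * (ow K [true] * lq true f)) (a :: w) := by
  induction f using FA_ind with
  | h0 => simp
  | hadd f g hf hg =>
    simp only [map_add, mul_add, cf_add, hf, hg]
    split_ifs <;> ring
  | hs r v =>
    simp only [map_smul, mul_smul_comm, cf_smul]
    have key : cf (dv Ψ (ow K v)) (a :: w) = cf (dv Ψ (lq a (ow K v))) w +
        (if a then cf (Ψ * lq true (ow K v)) w else 0) -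
        cf (Ψ * (ow K [true] * lq true (ow K v))) (a :: w) := by
      cases v with
      | nil =>
        have h1 : ∀ a, lq a (ow K []) = 0 := by
          intro a
          unfold lq
          rw [lext_ow]
        rw [h1, h1, ow_nil]
        unfold dv
        rw [der_one]
        simp
      | cons b v =>
        have h1 : ∀ a, lq a (ow K (b :: v)) = if b = a then ow K v else 0 := by
          intro a
          unfold lq
          rw [lext_ow]
        rw [h1, h1]
        have h2 : dv Ψ (ow K (b :: v)) =
            (if b then ow K [true] * Ψ - Ψ * ow K [true] else 0) * ow K v +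
              ow K [b] * dv Ψ (ow K v) := by
          unfold dv
          rw [ow_cons b v, der_mul, der_letter]
        rw [h2, cf_add, cf_ow_mul_cons]
        cases b with
        | false =>
          cases a with
          | false => simp
          | true => simp
        | true =>
          cases a with
          | false => simp [sub_mul, mul_assoc, cf_ow_mul_cons]
          | true =>
            simp [sub_mul, mul_assoc, cf_ow_mul_cons]
            ring
    rw [key]
    split_ifs <;> ring

theorem cf_dv_nil {Ψ : FA K Bool} (h : cf Ψ [] = 0) (f : FA K Bool) : cf (dv Ψ f) [] = 0 := by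
  induction f using FA_ind with
  | h0 => simp
  | hadd f g hf hg => rw [map_add, cf_add, hf, hg, add_zero]
  | hs r v =>
    rw [map_smul, cf_smul]
    have key : cf (dv Ψ (ow K v)) [] = 0 := by
      cases v with
      | nil =>
        unfold dv
        rw [ow_nil, der_one, cf_zero]
      | cons b v =>
        unfold dv
        rw [ow_cons b v, der_mul, der_letter, cf_add, cf_ow_mul_nil, add_zero]
        split_ifs
        · rw [sub_mul, cf_sub, mul_assoc, cf_ow_mul_nil, mul_assoc, cf_mul]
          simp [h]
        · simp
    rw [key, mul_zero]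

variable {n : ℕ} {ψ : List Bool → K} {Ψ : FA K Bool}

/-- the coefficients of `Ψ f` -/
theorem cf_mulL (hΨ : ∀ w, cf Ψ w = if w.length = n then ψ w else 0) (f : FA K Bool)
    (w : List Bool) :
    cf (Ψ * f) w = if n ≤ w.length then ψ (w.take n) * cf f (w.drop n) else 0 := by
  rw [cf_mul]
  by_cases h : n ≤ w.length
  · rw [if_pos h, Finset.sum_eq_single n]
    · rw [hΨ, if_pos (by rw [List.length_take]; omega)]
    · intro i hi hne
      rw [Finset.mem_range] at hi
      rw [hΨ, if_neg (by rw [List.length_take]; omega), zero_mul]
    · intro h1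
      exact absurd (Finset.mem_range.2 (by omega)) h1
  · rw [if_neg h]
    refine Finset.sum_eq_zero fun i hi => ?_
    rw [Finset.mem_range] at hi
    rw [hΨ, if_neg (by rw [List.length_take]; omega), zero_mul]

theorem main (hn : 1 ≤ n) (hΨ : ∀ w, cf Ψ w = if w.length = n then ψ w else 0) (w : List Bool) :
    ∀ (c : Bool) (f : FA K Bool),
      TT n ψ c (cf f) w = cf (dv Ψ f) w + if c then cf (Ψ * f) w else 0 := by
  have h0 : cf Ψ [] = 0 := by
    rw [hΨ, if_neg]
    simp
    omega
  have hhd : ∀ (c : Bool) (f : FA K Bool) (w : List Bool), hd n ψ c (cf f) w =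
      (if c then cf (Ψ * f) w else 0) - cf (Ψ * (ow K [true] * lq true f)) w := by
    intro c f w
    unfold hd
    rw [cf_mulL hΨ, cf_mulL hΨ]
    by_cases h : n ≤ w.length
    · rw [if_pos h, if_pos h, if_pos h]
      have h1 : cf (ow K [true] * lq true f) (w.drop n) =
          if (w.drop n).head? = some true then cf f (w.drop n) else 0 := by
        rcases w.drop n with _ | ⟨b, v⟩
        · rw [cf_ow_mul_nil]
          simp
        · rw [cf_ow_mul_cons, cf_lq]
          cases b <;> simp
      rw [h1, smul_eq_mul]
      split_ifs <;> ring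
    · rw [if_neg h, if_neg h, if_neg h]
      simp
  induction w with
  | nil =>
    intro c f
    have h1 : ¬ n ≤ ([] : List Bool).length := by
      simp
      omega
    show hd n ψ c (cf f) [] = _
    rw [cf_dv_nil h0, cf_mulL hΨ, if_neg h1]
    unfold hd
    rw [if_neg h1]
    simp
  | cons a w ih =>
    intro c f
    have h1 : (fun v => cf f (a :: v)) = cf (lq a f) := by
      funext v
      rw [cf_lq]
    show hd n ψ c (cf f) (a :: w) + TT n ψ a (fun v => cf f (a :: v)) w = _
    rw [h1, ih, hhd, cf_dv_cons]
    cases a with
    | false => simp; ring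
    | true => simp; ring

end Tr

theorem specTr : SpecTr := by
  intro K _ n ψ Ψ hn hΨ f w
  have h := Tr.main hn hΨ w true f
  rw [if_pos rfl] at h
  unfold T
  rw [h, sop_apply, cf_add]
  unfold Tr.dv
  ring

end MP154526.Low
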