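import Pool.Agent.Lib.MP_154526_nt.Low.Ops
import Pool.Agent.Lib.MP_154526_nt.Low.Spec

section
/-!
# The operators `D_ψ` are good
-/
set_option autoImplicit false

namespace MP154526.Low.Ops

open Finset MP154526.Top MP154526.Top.F2 MP154526.Top.Pass2 MP154526.Lin MP154526.Low.FrontL
open MP154526.Low.Level MP154526.Low.Anti

section T

variable {K M N : Type} [CommRing K] [AddCommGroup M] [Module K M] [AddCommGroup N] [Module K N]

theorem hd_map (L : M →ₗ[K] N) (n : ℕ) (ψ : List Bool → K) (c : Bool) (φ : List Bool → M)
    (w : List Bool) : L (hd n ψ c φ w) = hd n ψ c (fun v => L (φ v)) w := by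
  unfold hd
  split_ifs <;> simp

theorem TT_map (L : M →ₗ[K] N) (n : ℕ) (ψ : List Bool → K) (c : Bool) (φ : List Bool → M)
    (w : List Bool) : L (TT n ψ c φ w) = TT n ψ c (fun v => L (φ v)) w := by
  induction w generalizing c φ with
  | nil => exact hd_map L n ψ c φ []
  | cons a w ih => rw [TT_cons, TT_cons, map_add, hd_map, ih]

theorem T_map (L : M →ₗ[K] N) (n : ℕ) (ψ : List Bool → K) (φ : List Bool → M)
    (w : List Bool) : L (T n ψ φ w) = T n ψ (fun v => L (φ v)) w := TT_map L n ψ true φ w

end T

/-- the operator `D_ψ` -/
noncomputable def DD (n : ℕ) (ψ : List Bool → ℤ) : Op :=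
  Finsupp.linearCombination ℤ fun w => T n ψ (fun v => (Finsupp.single v 1 : HZ)) w

theorem pull_DD {M : Type} [AddCommGroup M] (n : ℕ) (ψ : List Bool → ℤ) (φ : List Bool → M)
    (w : List Bool) : pull (DD n ψ) φ w = T n ψ φ w := by
  unfold pull DD
  rw [Finsupp.linearCombination_single, one_smul, T_map]
  congr 1
  funext v
  rw [Finsupp.linearCombination_single, one_smul]

theorem hd_cast (n : ℕ) (ψ : List Bool → ℤ) (c : Bool) (φ : List Bool → ZMod 2)
    (w : List Bool) : hd n ψ c φ w = hd n (rd ψ) c φ w := by
  unfold hd rd
  split_ifs <;> simp

theorem TT_cast (n : ℕ) (ψ : List Bool → ℤ) (c : Bool) (φ : List Bool → ZMod 2)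
    (w : List Bool) : TT n ψ c φ w = TT n (rd ψ) c φ w := by
  induction w generalizing c φ with
  | nil => exact hd_cast n ψ c φ []
  | cons a w ih => rw [TT_cons, TT_cons, hd_cast, ih]

/-- a functional killing products vanishes on `x^n` -/
theorem pow_zero' {n : ℕ} {ψ : List Bool → ℤ} (h : DW n ψ) (a : Bool) :
    ψ (List.replicate n a) = 0 := by
  have h3 := h.three
  have h1 := h.sh (List.replicate 1 a) (List.replicate (n - 1) a) (by simp) (by
    intro h0
    have := congrArg List.length h0
    simp at this
    omega) (by simp; omega)
  rw [shs_replicate, show 1 + (n - 1) = n by omega, Nat.choose_one_right, nsmul_eq_mul] at h1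
  rcases mul_eq_zero.1 h1 with h2 | h2
  · exfalso
    have : n = 0 := by exact_mod_cast h2
    omega
  · exact h2

theorem TT_z {n : ℕ} {ψ : List Bool → ℤ} (h : DW n ψ) (φ : List Bool → ℤ) (m : ℕ) :
    TT n ψ false φ (List.replicate m false ++ [true]) = 0 := by
  have h3 := h.three
  induction m generalizing φ with
  | zero =>
    show TT n ψ false φ (true :: []) = 0
    rw [TT_cons, TT_nil, hd_short _ _ _ _ _ (by simp; omega), hd_short _ _ _ _ _ (by simp; omega),
      add_zero]
  | succ m ih =>
    have e : List.replicate (m + 1) false ++ [true] =
        false :: (List.replicate m false ++ [true]) := by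
      rw [List.replicate_succ, List.cons_append]
    rw [e, TT_cons, ih, add_zero, ← e]
    refine (?_ : hd n ψ false φ (List.replicate (m + 1) false ++ [true]) = 0)
    by_cases hn : n ≤ m + 1
    · unfold hd
      rw [if_pos (by simp; omega)]
      have e2 : (List.replicate (m + 1) false ++ [true]).take n = List.replicate n false := by
        rw [List.take_append_of_le_length (by simpa using hn), List.take_replicate, min_eq_left hn]
      rw [e2, pow_zero' h]
      simp
    · by_cases hn2 : n = m + 2
      · refine hd_false_zero _ _ _ _ ?_
        rw [List.drop_eq_nil_of_le (by simp; omega)]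
        simp
      · refine hd_short _ _ _ _ _ (by simp; omega)

theorem good_DD (hS : SpecShW) (hR : SpecRacW) (r : ℕ) (ψ : List Bool → ℤ)
    (h : DW (2 * (r + 1) + 1) ψ) :
    Good (2 * (r + 1) + 1) 1 (qq (2 * (r + 1) + 1) (rd ψ)) (DD (2 * (r + 1) + 1) ψ) where
  pos := by omega
  sh := by
    intro M _ φ u v
    have e : pull (DD (2 * (r + 1) + 1) ψ) φ = T (2 * (r + 1) + 1) ψ φ := by
      funext w
      exact pull_DD _ _ _ _
    rw [e, pull_DD, pull_DD]
    exact hS ℤ M (2 * (r + 1) + 1) ψ (by omega) h.sh φ u v
  rr := by
    intro m φ hφ
    have e : pull (DD (2 * (r + 1) + 1) ψ) φ = T (2 * (r + 1) + 1) ψ φ := by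
      funext w
      exact pull_DD _ _ _ _
    rw [e]
    exact hR _ m ψ φ h hφ
  z := by
    intro φ m hm
    rw [pull_DD]
    show TT _ ψ true φ (List.replicate m false ++ [true]) = 0
    obtain ⟨m, rfl⟩ : ∃ k, m = k + 1 := ⟨m - 1, by omega⟩
    have e : List.replicate (m + 1) false ++ [true] =
        false :: (List.replicate m false ++ [true]) := by
      rw [List.replicate_succ, List.cons_append]
    rw [e, TT_cons, TT_z h, add_zero, ← e]
    unfold hd
    rw [if_pos (by simp; omega)]
    have e2 : (List.replicate (m + 1) false ++ [true]).take (2 * (r + 1) + 1) =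
        List.replicate (2 * (r + 1) + 1) false := by
      rw [List.take_append_of_le_length (by simpa using hm), List.take_replicate, min_eq_left hm]
    rw [e2, pow_zero' h]
    simp
  lev := by
    intro k φ hφ s hs
    rw [pull_DD]
    show TT _ ψ true φ (expand s) = _
    rw [TT_cast]
    exact level r (rd ψ) (hF h) s k φ hφ hs
  supp := by
    intro t ht
    unfold qq at ht
    split_ifs at ht with hc
    · exact hc
    · exact absurd rfl ht

/-! ### the functional of an operator -/

theorem rr_eps : RR 0 eps where
  reg := by
    intro j w hj _ hn
    omega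
  rds := by
    intro u v _ hn
    have hu : u = [] := by
      cases u with
      | nil => rfl
      | cons a u => simp only [wt_cons] at hn; omega
    have hv : v = [] := by
      cases v with
      | nil => rfl
      | cons a v => simp only [wt_cons] at hn; omega
    subst hu hv
    simp [bw]

theorem shs_eps (u v : List Bool) (h : u ≠ [] ∨ v ≠ []) : shs eps u v = 0 := by
  rcases u with _ | ⟨a, u⟩
  · rcases v with _ | ⟨b, v⟩
    · simp at h
    · simp [eps]
  · rcases v with _ | ⟨b, v⟩
    · simp [eps]
    · rw [shs_cons_cons]
      have e : ∀ (c : Bool), (fun l => eps (c :: l)) = fun _ => 0 := by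
        intro c
        funext l
        simp [eps]
      rw [e, e, shs_zero, shs_zero, add_zero]

variable {n l : ℕ} {q : List Bool → ZMod 2} {P : Op}

theorem dw_op (hP : Good n l q P) (h3 : 3 ≤ n) (hz : pull P eps (bw [n - 1]) = 0) :
    DW n (pull P eps) where
  three := h3
  even := fun _ => hz
  sh := by
    intro u v hu hv _
    rw [hP.sh]
    have e1 : pull P (fun s => shs eps s v) u = 0 := by
      rw [← pull_zero P u]
      exact pull_congr _ (fun s => shs_eps s v (Or.inr hv)) _
    have e2 : pull P (fun s => shs eps u s) v = 0 := by
      rw [← pull_zero P v]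
      exact pull_congr _ (fun s => shs_eps u s (Or.inl hu)) _
    rw [e1, e2, add_zero]
  st := by
    intro u v hu hv hA hn
    have h1 := hP.rr 0 eps rr_eps
    rw [add_zero] at h1
    rw [← h1.rds u v hA hn, hP.sh]
    have hne : ∀ l : List ℕ, l ≠ [] → bw l ≠ [] := by
      intro l hl h0
      have h2 := congrArg List.length h0
      rw [bw_length] at h2
      cases l with
      | nil => exact hl rfl
      | cons a l => simp only [wt_cons, List.length_nil] at h2; omega
    have e1 : pull P (fun s => shs eps s (bw v)) (bw u) = 0 := by
      rw [← pull_zero P (bw u)]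
      exact pull_congr _ (fun s => shs_eps s _ (Or.inr (hne v hv))) _
    have e2 : pull P (fun s => shs eps (bw u) s) (bw v) = 0 := by
      rw [← pull_zero P (bw v)]
      exact pull_congr _ (fun s => shs_eps _ s (Or.inl (hne u hu))) _
    rw [e1, e2, add_zero]

/-- the values modulo 2 of the functional of an operator -/
theorem op_val (hP : Good n l q P) (s : List Bool) (hs : s.count true ≤ l) :
    rd (pull P eps) (expand s) = if s.count true = l then q s else 0 := by
  have e : rd (pull P eps) (expand s) = pull P (rd eps) (expand s) :=
    pull_map (Int.castAddHom (ZMod 2)) P eps (expand s)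
  rw [e, hP.lev 0 (rd eps) (by intro s hs; omega) s (by omega), zero_add]
  by_cases hc : s.count true = l
  · rw [if_pos hc, if_pos hc]
    refine cv_unit q s _ ?_ ?_
    · simp [rd, eps, expand]
    · intro t ht
      have : expand t ≠ [] := by
        intro h0
        have := congrArg List.length h0
        rw [expand_length] at this
        simp only [List.length_nil] at this
        exact ht (List.length_eq_zero_iff.1 (by omega))
      simp [rd, eps, this]
  · rw [if_neg hc, if_neg hc]

end MP154526.Low.Ops
end

section
/-!
# An integral functional which is even on the words ending in `y` is even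
-/
set_option autoImplicit false

namespace MP154526.Low.Ops

open Finset MP154526.Top MP154526.Top.F2 MP154526.Top.Pass2 MP154526.Lin MP154526.Low.FrontL
open MP154526.Low.Level MP154526.Low.Anti

theorem shs_rep_cons {M : Type} [AddCommMonoid M] (a b : Bool) (m : ℕ) (w : List Bool)
    (G : List Bool → M) :
    shs G (List.replicate m a) (b :: w) =
      ∑ k ∈ range (m + 1), shs (fun t => G (List.replicate k a ++ b :: t))
        (List.replicate (m - k) a) w := by
  induction m generalizing G with
  | zero => simp
  | succ m ih =>
    rw [List.replicate_succ, shs_cons_cons, ih, Finset.sum_range_succ' _ (m + 1), add_comm]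
    simp only [List.replicate_succ, List.cons_append, Nat.succ_sub_succ_eq_sub, List.replicate_zero,
      List.nil_append, Nat.sub_zero]
    rw [add_comm]

theorem even_words {n : ℕ} {F : List Bool → ℤ} (h : DW n F)
    (hE : ∀ w, EndY w → w.length = n → rd F w = 0) (w : List Bool) (hw : w.length = n) :
    rd F w = 0 := by
  have hsh : ∀ u v : List Bool, u ≠ [] → v ≠ [] → u.length + v.length = n →
      shs (rd F) u v = 0 := by
    intro u v hu hv hn
    rw [shs_rd, h.sh u v hu hv hn, Int.cast_zero]
  have key : ∀ (k : ℕ) (v : List Bool), k + (v.length + 1) = n →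
      rd F (List.replicate k false ++ true :: v) = 0 := by
    intro k
    induction k using Nat.strong_induction_on with
    | _ k ih =>
      intro v hv
      rcases Nat.eq_zero_or_pos k with rfl | hk
      · rw [List.replicate_zero, List.nil_append, ← anti (rd F) n hsh _ (by
          simp only [List.length_cons]; omega)]
        refine hE _ ?_ (by simp only [List.length_reverse, List.length_cons]; omega)
        rw [List.reverse_cons]
        exact Or.inr ⟨_, rfl⟩
      · have h1 := hsh (List.replicate k false) (true :: v) (by
          intro h0
          have := congrArg List.length h0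
          simp at this
          omega) (by simp) (by simp only [List.length_replicate, List.length_cons]; omega)
        rw [shs_rep_cons, Finset.sum_range_succ, Finset.sum_eq_zero] at h1
        · simpa using h1
        · intro j hj
          rw [Finset.mem_range] at hj
          rw [← shs_zero (M := ZMod 2) (List.replicate (k - j) false) v]
          refine shs_congr_len _ _ fun t ht => ?_
          refine ih j hj t ?_
          simp only [List.length_replicate] at ht
          omega
  by_cases hx : ∃ k v, w = List.replicate k false ++ true :: v
  · obtain ⟨k, v, rfl⟩ := hx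
    refine key k v ?_
    simp only [List.length_append, List.length_replicate, List.length_cons] at hw
    exact hw
  · have hall : w = List.replicate w.length false := by
      clear hw
      induction w with
      | nil => rfl
      | cons a w ih =>
        cases a
        · rw [List.length_cons, List.replicate_succ, ← ih]
          rintro ⟨k, v, hkv⟩
          exact hx ⟨k + 1, v, by rw [hkv, List.replicate_succ, List.cons_append]⟩
        · exact absurd ⟨0, w, rfl⟩ hx
    rw [hall, hw]
    show ((F (List.replicate n false) : ℤ) : ZMod 2) = 0
    rw [pow_zero' h, Int.cast_zero]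

theorem dw_sub {n : ℕ} {F G : List Bool → ℤ} (h : DW n F) (h' : DW n G) :
    DW n (fun w => F w - G w) where
  three := h.three
  even := fun he => by rw [h.even he, h'.even he, sub_zero]
  sh := fun u v hu hv hn => by rw [shs_sub, h.sh u v hu hv hn, h'.sh u v hu hv hn, sub_zero]
  st := fun u v hu hv hA hn => by
    rw [stf_sub, h.st u v hu hv hA hn, h'.st u v hu hv hA hn, sub_zero]

theorem shs_mul_left (c : ℤ) (G : List Bool → ℤ) (u v : List Bool) :
    shs (fun l => c * G l) u v = c * shs G u v :=
  (shs_map (AddMonoidHom.mulLeft c) G u v).symm

theorem stf_mul_left (c : ℤ) (G : List ℕ → ℤ) (u v : List ℕ) :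
    stf (fun l => c * G l) u v = c * stf G u v :=
  (stf_map (AddMonoidHom.mulLeft c) G u v).symm

/-- division by 2 -/
theorem dw_half {n : ℕ} {F : List Bool → ℤ} (h : DW n F)
    (hE : ∀ w, EndY w → w.length = n → rd F w = 0) :
    ∃ F' : List Bool → ℤ, DW n F' ∧ ∀ w : List Bool, w.length = n → F w = 2 * F' w := by
  have h2 : ∀ w : List Bool, w.length = n → F w = 2 * (F w / 2) := by
    intro w hw
    have := (ZMod.intCast_zmod_eq_zero_iff_dvd _ 2).1 (even_words h hE w hw)
    exact (Int.mul_ediv_cancel' this).symm
  refine ⟨fun w => F w / 2, ?_, h2⟩
  have h3 := h.three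
  refine ⟨h3, ?_, ?_, ?_⟩
  · intro he
    show F (bw [n - 1]) / 2 = 0
    rw [h.even he]
    rfl
  · intro u v hu hv hn
    have e := h.sh u v hu hv hn
    have e2 : shs F u v = shs (fun l => 2 * (F l / 2)) u v :=
      shs_congr_len _ _ fun l hl => h2 l (by omega)
    rw [e2, shs_mul_left] at e
    omega
  · intro u v hu hv hA hn
    have e := h.st u v hu hv hA hn
    have e2 : stf (fun l => F (bw l)) u v = stf (fun l => 2 * (F (bw l) / 2)) u v :=
      stf_congr _ _ fun l hl => h2 _ (by rw [bw_length]; omega)
    rw [e2, stf_mul_left] at e
    omega

end MP154526.Low.Ops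
end

section
/-!
# For every Lyndon word there is an operator whose symbol has this word as leading word
-/
set_option autoImplicit false

namespace MP154526.Low.Ops

open Finset MP154526.Top MP154526.Top.F2 MP154526.Top.Pass2 MP154526.Lin MP154526.Low.FrontL
open MP154526.Low.Level MP154526.Low.Anti

/-! ### lexicographic order -/

theorem app_lt : ∀ (a u b v : List Bool), a.length = u.length →
    (a ++ b < u ++ v ↔ a < u ∨ (a = u ∧ b < v))
  | [], [], b, v, _ => by simp
  | [], _ :: _, _, _, h => by simp at h
  | _ :: _, [], _, _, h => by simp at h
  | x :: a, y :: u, b, v, h => by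
    rw [List.cons_append, List.cons_append, List.cons_lt_cons_iff, List.cons_lt_cons_iff,
      app_lt a u b v (by simpa using h)]
    constructor
    · rintro (h1 | ⟨rfl, h1 | ⟨rfl, h1⟩⟩)
      · exact Or.inl (Or.inl h1)
      · exact Or.inl (Or.inr ⟨rfl, h1⟩)
      · exact Or.inr ⟨rfl, h1⟩
    · rintro ((h1 | ⟨rfl, h1⟩) | ⟨h1, h2⟩)
      · exact Or.inl h1
      · exact Or.inr ⟨rfl, Or.inl h1⟩
      · rw [List.cons.injEq] at h1
        exact Or.inr ⟨h1.1, Or.inr ⟨h1.2, h2⟩⟩

theorem le_rep (r : ℕ) : ∀ w : List Bool, w.length = r + 1 → 1 ≤ w.count true →
    List.replicate r false ++ [true] ≤ w := by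
  induction r with
  | zero =>
    intro w hw hc
    match w, hw with
    | [true], _ => exact le_refl _
    | [false], _ => simp at hc
  | succ r ih =>
    intro w hw hc
    cases w with
    | nil => simp at hw
    | cons a w =>
      rw [List.replicate_succ, List.cons_append]
      cases a with
      | true => exact le_of_lt (List.cons_lt_cons_iff.2 (Or.inl (by decide)))
      | false =>
        have h1 := ih w (by simpa using hw) (by simpa using hc)
        rcases lt_or_eq_of_le h1 with h2 | h2
        · exact le_of_lt (List.cons_lt_cons_iff.2 (Or.inr ⟨rfl, h2⟩))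
        · rw [h2]

theorem lyn_one {w : List Bool} (hw : IsLyn w) (hc : w.count true = 1) :
    ∃ r, w = List.replicate r false ++ [true] := by
  rcases List.eq_nil_or_concat w with rfl | ⟨v, c, rfl⟩
  · simp at hc
  · rw [List.concat_eq_append] at *
    cases c with
    | true =>
      have h0 : v.count true = 0 := by
        rw [List.count_append] at hc
        simpa using hc
      exact ⟨v.length, by rw [← count_zero h0]⟩
    | false =>
      exfalso
      have hv : v ≠ [] := by
        rintro rfl
        simp at hc
      have h1 := hw.2 v [false] rfl hv (by simp)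
      cases v with
      | nil => exact hv rfl
      | cons a v =>
        rw [List.cons_append, List.cons_lt_cons_iff] at h1
        rcases h1 with h1 | ⟨_, h1⟩
        · cases a <;> exact absurd h1 (by decide)
        · exact absurd h1 (by simp)

/-- `w` is the smallest word of `q` -/
def Lead (w : List Bool) (q : List Bool → ZMod 2) : Prop :=
  q w = 1 ∧ ∀ w' : List Bool, w'.length = w.length → w' < w → q w' = 0

/-- integral elements of weight `2 r + 3` with top part of level one -/
def Sg (r : ℕ) (ψ : List Bool → ℤ) : Prop :=
  DW (2 * (r + 1) + 1) ψ ∧ rd ψ (expand (List.replicate r false ++ [true])) = 1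

theorem expand_rep_length (r : ℕ) :
    (expand (List.replicate r false ++ [true])).length = 2 * (r + 1) + 1 := by
  rw [expand_length]
  simp [List.count_replicate]

theorem count_rep (r : ℕ) : (List.replicate r false ++ [true]).count true = 1 := by
  simp [List.count_replicate]

theorem lead_qq {r : ℕ} {ψ : List Bool → ℤ} (h : Sg r ψ) :
    Lead (List.replicate r false ++ [true]) (qq (2 * (r + 1) + 1) (rd ψ)) := by
  refine ⟨?_, ?_⟩
  · unfold qq
    rw [if_pos ⟨count_rep r, expand_rep_length r⟩]
    exact h.2
  · intro w' hl hlt
    unfold qq
    rw [if_neg]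
    rintro ⟨hc, _⟩
    have h1 := le_rep r w' (by simpa using hl) (by omega)
    exact absurd hlt (not_lt.2 h1)

/-- the leading word of a commutator -/
theorem lead_comm {n l n' l' : ℕ} {u v : List Bool} {q q' : List Bool → ZMod 2} {P Q : Op}
    (hP : Good n l q P) (hQ : Good n' l' q' Q) (hu : Lead u q) (hv : Lead v q')
    (hnu : (expand u).length = n) (hlu : u.count true = l) (hnv : (expand v).length = n')
    (hlv : v.count true = l') (hlt : u ++ v < v) :
    Lead (u ++ v) (fun t => cv q q' t - cv q' q t) := by
  have len : ∀ {a u : List Bool}, (expand a).length = (expand u).length →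
      a.count true = u.count true → a.length = u.length := by
    intro a u h1 h2
    have h3 := expand_length a
    have h4 := expand_length u
    omega
  have hvu : u ++ v < v ++ u := by
    refine lt_of_lt_of_le hlt ?_
    have := (app_lt v v u [] rfl)
    by_contra hcon
    have h2 := not_le.1 hcon
    have h3 : v ++ u < v ++ [] := by simpa using h2
    rw [this] at h3
    rcases h3 with h4 | ⟨_, h4⟩
    · exact lt_irrefl _ h4
    · exact absurd h4 (by simp)
  -- products of words in the other order
  have second : ∀ w' : List Bool, w' ≤ u ++ v → cv q' q w' = 0 := by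
    intro w' hw'
    by_contra hne
    obtain ⟨a, b, rfl, ha, hb⟩ := cv_ne hne
    have ha1 := hQ.supp a ha
    have hb1 := hP.supp b hb
    have hla : a.length = v.length := len (by omega) (by omega)
    have hlb : b.length = u.length := len (by omega) (by omega)
    have hav : ¬ a < v := fun h => ha (hv.2 a hla h)
    have hbu : ¬ b < u := fun h => hb (hu.2 b hlb h)
    have h1 : ¬ a ++ b < v ++ u := by
      rw [app_lt a v b u hla]
      rintro (h | ⟨_, h⟩)
      · exact hav h
      · exact hbu h
    exact h1 (lt_of_le_of_lt hw' hvu)
  have first : ∀ w' : List Bool, w' ≤ u ++ v →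
      cv q q' w' = if w' = u ++ v then 1 else 0 := by
    intro w' hw'
    have hcase : ∀ a b : List Bool, w' = a ++ b → q a ≠ 0 → q' b ≠ 0 → a = u ∧ b = v := by
      rintro a b rfl ha hb
      have ha1 := hP.supp a ha
      have hb1 := hQ.supp b hb
      have hla : a.length = u.length := len (by omega) (by omega)
      have hlb : b.length = v.length := len (by omega) (by omega)
      have hau : ¬ a < u := fun h => ha (hu.2 a hla h)
      have hbv : ¬ b < v := fun h => hb (hv.2 b hlb h)
      have h1 : ¬ a ++ b < u ++ v := by
        rw [app_lt a u b v hla]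
        rintro (h | ⟨_, h⟩)
        · exact hau h
        · exact hbv h
      have h2 : a ++ b = u ++ v := le_antisymm hw' (not_lt.1 h1)
      exact List.append_inj h2 hla
    by_cases hw : w' = u ++ v
    · rw [if_pos hw]
      unfold cv
      rw [Finset.sum_eq_single u.length]
      · rw [hw, List.take_left' rfl, List.drop_left' rfl, hu.1, hv.1, one_mul]
      · intro i hi hne
        by_contra hmul
        have h1 := hcase (w'.take i) (w'.drop i) (List.take_append_drop i w').symm
          (left_ne_zero_of_mul hmul) (right_ne_zero_of_mul hmul)
        have h2 := congrArg List.length h1.1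
        rw [List.length_take] at h2
        have h3 := Finset.mem_range.1 hi
        omega
      · intro hni
        exfalso
        apply hni
        rw [Finset.mem_range, hw, List.length_append]
        omega
    · rw [if_neg hw]
      by_contra hne
      obtain ⟨a, b, hab, ha, hb⟩ := cv_ne hne
      obtain ⟨rfl, rfl⟩ := hcase a b hab ha hb
      exact hw hab
  refine ⟨?_, ?_⟩
  · show cv q q' (u ++ v) - cv q' q (u ++ v) = 1
    rw [first _ (le_refl _), second _ (le_refl _), if_pos rfl, sub_zero]
  · intro w' _ hlt'
    show cv q q' w' - cv q' q w' = 0
    rw [first _ (le_of_lt hlt'), second _ (le_of_lt hlt'), if_neg (ne_of_lt hlt'), sub_zero]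

/-- existence of the operators -/
theorem exists_op (hS : SpecShW) (hR : SpecRacW) (hL : SpecLynF) (N : ℕ)
    (hσ : ∀ r, 2 * (r + 1) + 1 < N → ∃ ψ, Sg r ψ) :
    ∀ k : ℕ, ∀ w : List Bool, w.length = k → IsLyn w → 1 ≤ w.count true →
      (expand w).length ≤ N → (2 ≤ w.count true ∨ (expand w).length < N) →
      ∃ (P : Op) (q : List Bool → ZMod 2), Good (expand w).length (w.count true) q P ∧ Lead w q ∧
        (2 ≤ w.count true → ∀ (φ : List Bool → ℤ) (m : ℕ), (expand w).length ≤ m + 1 →
          pull P φ (bw [m]) = 0) := by
  intro k
  induction k using Nat.strong_induction_on with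
  | _ k ih =>
    intro w hk hw hc hN hor
    by_cases h1 : w.count true = 1
    · obtain ⟨r, rfl⟩ := lyn_one hw h1
      rw [expand_rep_length, count_rep] at *
      obtain ⟨ψ, hψ⟩ := hσ r (by omega)
      exact ⟨_, _, good_DD hS hR r ψ hψ.1, lead_qq hψ, by omega⟩
    · have h2 : 2 ≤ w.count true := by omega
      obtain ⟨u, v, rfl, hu, hv, hcu, hcv⟩ := hL w hw h2
      have hlu : u.length < k := by
        rw [← hk, List.length_append]
        have := List.length_pos_iff.2 hv.1
        omega
      have hlv : v.length < k := by
        rw [← hk, List.length_append]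
        have := List.length_pos_iff.2 hu.1
        omega
      have hexp : (expand (u ++ v)).length = (expand u).length + (expand v).length := by
        rw [expand_append, List.length_append]
      have hpos : ∀ t : List Bool, 1 ≤ t.count true → 1 ≤ (expand t).length := by
        intro t ht
        have := expand_length t
        omega
      have h3 := hpos u hcu
      have h4 := hpos v hcv
      obtain ⟨P, q, hP, hPl, -⟩ := ih _ hlu u rfl hu hcu (by omega) (Or.inr (by omega))
      obtain ⟨Q, q', hQ, hQl, -⟩ := ih _ hlv v rfl hv hcv (by omega) (Or.inr (by omega))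
      have hlt : u ++ v < v := hw.2 u v rfl hu.1 hv.1
      refine ⟨P * Q - Q * P, _, ?_, lead_comm hP hQ hPl hQl rfl rfl rfl rfl hlt, ?_⟩
      · rw [hexp, List.count_append]
        exact good_comm hP hQ
      · intro _ φ m hm
        exact comm_z' hP hQ φ m (by omega)

end MP154526.Low.Ops
end

section
/-!
# DESCENT: integral elements with top part of level one
-/
set_option autoImplicit false

namespace MP154526.Low.Ops

open Finset MP154526.Top MP154526.Top.F2 MP154526.Top.Pass2 MP154526.Lin MP154526.Low.FrontL
open MP154526.Low.Level MP154526.Low.Anti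

/-- the order used in the descent -/
def key (w : List Bool) : ℕ ×ₗ List Bool := toLex (w.count true, w)

theorem key_lt {b c : List Bool} : key b < key c ↔
    b.count true < c.count true ∨ (b.count true = c.count true ∧ b < c) := by
  unfold key
  exact Prod.Lex.toLex_lt_toLex

theorem zmod2_cases (z : ZMod 2) (h : z ≠ 0) : z = 1 := by
  revert z
  decide

theorem rd_sub (F G : List Bool → ℤ) (w : List Bool) :
    rd (fun w => F w - G w) w = rd F w - rd G w := by
  unfold rd
  push_cast
  ring

/-- DESCENT -/
theorem desc (hS : SpecShW) (hR : SpecRacW) (hL : SpecLynF) (hE : SpecExW) (r : ℕ) :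
    ∃ ψ, Sg r ψ := by
  classical
  induction r using Nat.strong_induction_on with
  | _ r ih =>
    set n := 2 * (r + 1) + 1 with hn
    have hσ : ∀ r', 2 * (r' + 1) + 1 < n → ∃ ψ, Sg r' ψ := fun r' h => ih r' (by omega)
    by_contra hno
    -- an element with minimal depth one coefficient
    let p : ℕ → Prop := fun d => d ≠ 0 ∧ ∃ ψ : List Bool → ℤ, DW n ψ ∧ (ψ (bw [n - 1])).natAbs = d
    have hp : ∃ d, p d := by
      obtain ⟨ψ, h1, h2⟩ := hE r
      have e1 : 2 * r + 3 = n := by omega
      have e2 : 2 * r + 2 = n - 1 := by omega
      rw [e1] at h1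
      rw [e2] at h2
      exact ⟨_, by simpa using h2, ψ, h1, rfl⟩
    obtain ⟨hd0, ψ₀, hψ₀, hψd⟩ := Nat.find_spec hp
    set d := Nat.find hp with hd
    obtain ⟨W, hW, -⟩ := FinN.exists_words n
    let bad : (List Bool → ℤ) → Finset (List Bool) := fun F =>
      W.filter fun b => IsLyn b ∧ rd F (expand b) ≠ 0
    let U : (List Bool → ℤ) → Finset (List Bool) := fun F =>
      W.filter fun w => ∃ b ∈ bad F, key b ≤ key w
    have hbad : ∀ F b, b ∈ bad F ↔ (expand b).length = n ∧ IsLyn b ∧ rd F (expand b) ≠ 0 := by
      intro F b
      rw [Finset.mem_filter, hW]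
    have hU : ∀ F w, w ∈ U F ↔ (expand w).length = n ∧ ∃ b ∈ bad F, key b ≤ key w := by
      intro F w
      rw [Finset.mem_filter, hW]
    have main : ∀ k : ℕ, ∀ F : List Bool → ℤ, DW n F → F (bw [n - 1]) = ψ₀ (bw [n - 1]) →
        (U F).card ≤ k → ∃ F' : List Bool → ℤ, DW n F' ∧ F' (bw [n - 1]) = ψ₀ (bw [n - 1]) ∧
          ∀ l, EvL n l F' := by
      intro k
      induction k with
      | zero =>
        intro F hF hc hcard
        refine ⟨F, hF, hc, ?_⟩
        intro l w hw hwl _
        by_contra hne
        have hb : w ∈ bad F := (hbad F w).2 ⟨hwl, hw, fun h =>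
          hne ((ZMod.intCast_zmod_eq_zero_iff_dvd _ 2).1 h)⟩
        have h2 : w ∈ U F := (hU F w).2 ⟨hwl, w, hb, le_refl _⟩
        have h3 : U F = ∅ := Finset.card_eq_zero.1 (by omega)
        rw [h3] at h2
        exact absurd h2 (by simp)
      | succ k ihk =>
        intro F hF hc hcard
        by_cases hne : (bad F).Nonempty
        · obtain ⟨b, hb, hmin⟩ := Finset.exists_min_image (bad F) key hne
          obtain ⟨hbl, hbL, hb1⟩ := (hbad F b).1 hb
          have hlenb := expand_length b
          -- the level is at least two
          have h2 : 2 ≤ b.count true := by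
            by_contra hlt
            have hc1 : b.count true = 1 := by omega
            obtain ⟨r', rfl⟩ := lyn_one hbL hc1
            have hr' : r' = r := by
              rw [expand_rep_length] at hbl
              omega
            subst hr'
            exact hno ⟨F, hF, zmod2_cases _ hb1⟩
          obtain ⟨P, q, hP, hq, hz⟩ := exists_op hS hR hL n hσ b.length b rfl hbL (by omega)
            (by omega) (Or.inl h2)
          rw [hbl] at hP
          have hGz : pull P eps (bw [n - 1]) = 0 := hz h2 eps (n - 1) (by omega)
          have hG : DW n (pull P eps) := dw_op hP hF.three hGz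
          refine ihk (fun w => F w - pull P eps w) (dw_sub hF hG) ?_ ?_
          · show F _ - pull P eps _ = _
            rw [hGz, sub_zero, hc]
          · -- the bad words of the difference are larger
            have hgt : ∀ c ∈ bad (fun w => F w - pull P eps w), key b < key c := by
              intro c hc'
              obtain ⟨hcl, hcL, hc1⟩ := (hbad _ c).1 hc'
              rw [rd_sub] at hc1
              have hlenc := expand_length c
              by_contra hcon
              have hle := not_lt.1 hcon
              rcases lt_or_eq_of_le hle with hlt | heq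
              · have hG0 : rd (pull P eps) (expand c) = 0 := by
                  rcases key_lt.1 hlt with h4 | ⟨h4, h5⟩
                  · rw [op_val hP c (le_of_lt h4), if_neg (by omega)]
                  · rw [op_val hP c (le_of_eq h4), if_pos h4]
                    exact hq.2 c (by omega) h5
                rw [hG0, sub_zero] at hc1
                exact absurd (hmin c ((hbad F c).2 ⟨hcl, hcL, hc1⟩)) (not_le.2 hlt)
              · have hcb : c = b := by
                  have h4 : ¬ key c < key b := by rw [heq]; exact lt_irrefl _
                  have h5 : ¬ key b < key c := by rw [heq]; exact lt_irrefl _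
                  rw [key_lt] at h4 h5
                  have hcnt : c.count true = b.count true := by omega
                  rcases lt_trichotomy c b with h6 | h6 | h6
                  · exact absurd (Or.inr ⟨hcnt, h6⟩) h4
                  · exact h6
                  · exact absurd (Or.inr ⟨hcnt.symm, h6⟩) h5
                rw [hcb, op_val hP b (le_refl _), if_pos rfl, hq.1, zmod2_cases _ hb1, sub_self]
                  at hc1
                exact hc1 rfl
            have hsub : U (fun w => F w - pull P eps w) ⊆ (U F).erase b := by
              intro w hw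
              obtain ⟨hwl, c, hc', hcw⟩ := (hU _ w).1 hw
              have hbw := lt_of_lt_of_le (hgt c hc') hcw
              rw [Finset.mem_erase]
              refine ⟨?_, (hU F w).2 ⟨hwl, b, hb, le_of_lt hbw⟩⟩
              rintro rfl
              exact lt_irrefl _ hbw
            have hbU : b ∈ U F := (hU F b).2 ⟨hbl, b, hb, le_refl _⟩
            have h7 := Finset.card_le_card hsub
            rw [Finset.card_erase_of_mem hbU] at h7
            omega
        · refine ⟨F, hF, hc, ?_⟩
          intro l w hw hwl _
          by_contra hne'
          exact hne ⟨w, (hbad F w).2 ⟨hwl, hw, fun h =>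
            hne' ((ZMod.intCast_zmod_eq_zero_iff_dvd _ 2).1 h)⟩⟩
    obtain ⟨F, hF, hc, hev⟩ := main _ ψ₀ hψ₀ rfl (le_refl _)
    obtain ⟨F', hF', h2⟩ := dw_half hF (even_all (by omega) hF hev)
    have h3 := h2 (bw [n - 1]) (by
      rw [bw_length]
      simp only [wt_cons, wt_nil]
      omega)
    rw [hc] at h3
    have h4 : p (F' (bw [n - 1])).natAbs := by
      refine ⟨?_, F', hF', rfl⟩
      intro h0
      rw [Int.natAbs_eq_zero] at h0
      rw [h0, mul_zero] at h3
      rw [h3] at hψd
      exact hd0 (by rw [← hψd]; rfl)
    have h5 := Nat.find_min' hp h4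
    have h6 : (ψ₀ (bw [n - 1])).natAbs = 2 * (F' (bw [n - 1])).natAbs := by
      rw [h3, Int.natAbs_mul]
      rfl
    omega

end MP154526.Low.Ops
end

section
/-!
# IND: the words in `z_2`, `z_2 z_1` are independent modulo the relations
-/
set_option autoImplicit false

namespace MP154526.Low.Ops

open Finset MP154526.Top MP154526.Top.F2 MP154526.Top.Pass2 MP154526.Lin MP154526.Low.FrontL
open MP154526.Low.Level MP154526.Low.Anti

/-! ### the exact drop of the level -/

section exact

variable {K M : Type} [CommRing K] [AddCommGroup M] [Module K M]

/-- `φ` vanishes on the expanded words of length `|expand s| - n` and of level less than `s` -/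
def Hv (n : ℕ) (φ : List Bool → M) (s : List Bool) : Prop :=
  ∀ s' : List Bool, (expand s').length + n = (expand s).length → s'.count true < s.count true →
    φ (expand s') = 0

theorem drop_X {r : ℕ} {ψ : List Bool → K} {φ : List Bool → M} {s : List Bool}
    (h : Hv (2 * (r + 1) + 1) φ s) : hd (2 * (r + 1) + 1) ψ true φ (expand s) = 0 := by
  by_cases hlen : 2 * (r + 1) + 1 ≤ (expand s).length
  · rcases cut s _ hlen with ⟨t, β, hs, hl⟩ | ⟨t, c, β, hs, hl⟩ | ⟨t, β, hs, hl⟩
    · have e : expand s = expand t ++ expand β := by rw [hs, expand_append]
      rw [e, hd_true_eq _ _ _ _ _ hl (expand_head β)]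
      have hlt := expand_length t
      have h1 : s.count true = t.count true + β.count true := by rw [hs, List.count_append]
      rw [h β (by rw [e, List.length_append]; omega) (by omega), smul_zero]
    · refine hd_true_zero _ _ _ _ ?_
      obtain ⟨z, hz⟩ : ∃ z, expand (c :: β) = false :: true :: z := by
        cases c <;> exact ⟨_, rfl⟩
      have e : expand s = (expand t ++ [false]) ++ (true :: z) := by
        rw [hs, expand_append, hz]
        simp
      rw [e, List.drop_left' (by rw [List.length_append]; exact hl)]
      rfl
    · refine hd_true_zero _ _ _ _ ?_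
      have e : expand s = (expand t ++ [false, true]) ++ (true :: expand β) := by
        rw [hs, expand_append]
        simp [expand]
      rw [e, List.drop_left' (by rw [List.length_append]; exact hl)]
      rfl
  · exact hd_short _ _ _ _ _ (by omega)

theorem drop_Y {r : ℕ} {ψ : List Bool → K} {φ : List Bool → M} {s : List Bool}
    (h : Hv (2 * (r + 1) + 1) φ s) :
    hd (2 * (r + 1) + 1) ψ false (fun v => φ (false :: v)) (expand s).tail = 0 := by
  by_cases hlen : 2 * (r + 1) + 1 + 1 ≤ (expand s).length
  · rcases cut s _ hlen with ⟨t, β, hs, hl⟩ | ⟨t, c, β, hs, hl⟩ | ⟨t, β, hs, hl⟩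
    · refine hd_false_zero _ _ _ _ ?_
      rw [List.drop_tail]
      have e : expand s = expand t ++ expand β := by rw [hs, expand_append]
      rw [e, List.drop_left' hl]
      exact expand_head β
    · have ht : t ≠ [] := by
        rintro rfl
        simp [expand] at hl
      obtain ⟨v, hv⟩ : ∃ v, expand t = false :: v := by
        cases t with
        | nil => exact absurd rfl ht
        | cons a t => cases a <;> exact ⟨_, rfl⟩
      obtain ⟨z, hz⟩ : ∃ z, expand (c :: β) = false :: true :: z := by
        cases c <;> exact ⟨_, rfl⟩
      have e : (expand s).tail = (v ++ [false]) ++ (true :: z) := by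
        rw [hs, expand_append, hv, hz]
        simp
      have hvl : (v ++ [false]).length = 2 * (r + 1) + 1 := by
        rw [hv] at hl
        simpa using hl
      rw [e, hd_false_eq _ _ _ _ _ hvl]
      have h1 : s.count true = t.count true + (c :: β).count true := by
        rw [hs, List.count_append]
      have hlt := expand_length t
      have h2 : φ (expand (c :: β)) = 0 := by
        refine h _ ?_ (by omega)
        rw [hs, expand_append, List.length_append]
        omega
      rw [hz] at h2
      rw [h2, smul_zero, neg_zero]
    · have ht : t ≠ [] := by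
        rintro rfl
        simp [expand] at hl
      obtain ⟨v, hv⟩ : ∃ v, expand t = false :: v := by
        cases t with
        | nil => exact absurd rfl ht
        | cons a t => cases a <;> exact ⟨_, rfl⟩
      have e : (expand s).tail = (v ++ [false, true]) ++ (true :: expand β) := by
        rw [hs, expand_append, hv]
        simp [expand]
      have hvl : (v ++ [false, true]).length = 2 * (r + 1) + 1 := by
        rw [hv] at hl
        simp only [List.length_cons] at hl
        simp only [List.length_append, List.length_cons, List.length_nil]
        omega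
      rw [e, hd_false_eq _ _ _ _ _ hvl]
      have h1 : s.count true = t.count true + (β.count true + 1) := by
        rw [hs, List.count_append, List.count_cons]
        simp
      have h2 : φ (expand (false :: β)) = 0 := by
        refine h _ ?_ ?_
        · rw [hs, expand_append, List.length_append]
          simp only [expand, List.length_cons]
          omega
        · rw [List.count_cons]
          simp
          omega
      have h3 : φ (false :: true :: expand β) = 0 := h2
      rw [h3, smul_zero, neg_zero]
  · exact hd_short _ _ _ _ _ (by rw [List.length_tail]; omega)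

theorem drop_Z {r : ℕ} {ψ : List Bool → K} {φ : List Bool → M} {s : List Bool}
    (h : Hv (2 * (r + 1) + 1) φ (true :: s)) :
    hd (2 * (r + 1) + 1) ψ true (fun v => φ (false :: true :: v)) (true :: expand s) = 0 := by
  by_cases hlen : 2 * (r + 1) ≤ (expand s).length
  · rcases cut s _ hlen with ⟨t, β, hs, hl⟩ | ⟨t, c, β, hs, hl⟩ | ⟨t, β, hs, hl⟩
    · have e : true :: expand s = (true :: expand t) ++ expand β := by
        rw [hs, expand_append, List.cons_append]
      rw [e, hd_true_eq _ _ _ _ _ (by rw [List.length_cons, hl]) (expand_head β)]
      have h1 : s.count true = t.count true + β.count true := by rw [hs, List.count_append]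
      have h2 : φ (expand (false :: β)) = 0 := by
        refine h _ ?_ ?_
        · simp only [expand, List.length_cons]
          rw [hs, expand_append, List.length_append]
          omega
        · rw [List.count_cons, List.count_cons]
          simp
          omega
      have h3 : φ (false :: true :: expand β) = 0 := h2
      rw [h3, smul_zero]
    · refine hd_true_zero _ _ _ _ ?_
      obtain ⟨z, hz⟩ : ∃ z, expand (c :: β) = false :: true :: z := by
        cases c <;> exact ⟨_, rfl⟩
      have e : expand s = (expand t ++ [false]) ++ (true :: z) := by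
        rw [hs, expand_append, hz]
        simp
      rw [e, List.drop_succ_cons, List.drop_left' (by rw [List.length_append]; exact hl)]
      rfl
    · refine hd_true_zero _ _ _ _ ?_
      have e : expand s = (expand t ++ [false, true]) ++ (true :: expand β) := by
        rw [hs, expand_append]
        simp [expand]
      rw [e, List.drop_succ_cons, List.drop_left' (by rw [List.length_append]; exact hl)]
      rfl
  · exact hd_short _ _ _ _ _ (by rw [List.length_cons]; omega)

/-- the operators drop the level -/
theorem level0 (r : ℕ) (ψ : List Bool → K) (s : List Bool) : ∀ φ : List Bool → M,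
    Hv (2 * (r + 1) + 1) φ s → T (2 * (r + 1) + 1) ψ φ (expand s) = 0 := by
  induction s with
  | nil =>
    intro φ _
    exact hd_short (2 * (r + 1) + 1) ψ true φ [] (by show 0 < 2 * (r + 1) + 1; omega)
  | cons a s ih =>
    intro φ hφ
    cases a with
    | false =>
      have e : T (2 * (r + 1) + 1) ψ φ (expand (false :: s)) =
          hd (2 * (r + 1) + 1) ψ true φ (expand (false :: s)) +
          (hd (2 * (r + 1) + 1) ψ false (fun v => φ (false :: v)) (expand (false :: s)).tail +
          T (2 * (r + 1) + 1) ψ (fun v => φ (false :: true :: v)) (expand s)) := by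
        show TT _ ψ true φ (false :: true :: expand s) = _
        rw [TT_cons, TT_cons]
        rfl
      rw [e, drop_X hφ, drop_Y hφ, ih, add_zero, add_zero]
      intro s' h1 h2
      refine hφ (false :: s') ?_ (by simpa using h2)
      simp only [expand, List.length_cons]
      omega
    | true =>
      have e : T (2 * (r + 1) + 1) ψ φ (expand (true :: s)) =
          hd (2 * (r + 1) + 1) ψ true φ (expand (true :: s)) +
          (hd (2 * (r + 1) + 1) ψ false (fun v => φ (false :: v)) (expand (true :: s)).tail +
          (hd (2 * (r + 1) + 1) ψ true (fun v => φ (false :: true :: v)) (true :: expand s) +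
          T (2 * (r + 1) + 1) ψ (fun v => φ (false :: true :: true :: v)) (expand s))) := by
        show TT _ ψ true φ (false :: true :: true :: expand s) = _
        rw [TT_cons, TT_cons, TT_cons]
        rfl
      rw [e, drop_X hφ, drop_Y hφ, drop_Z hφ, ih, add_zero, add_zero, add_zero]
      intro s' h1 h2
      refine hφ (true :: s') ?_ (by simpa using h2)
      simp only [expand, List.length_cons]
      omega

end exact

theorem expand_inj : ∀ {s t : List Bool}, expand s = expand t → s = t
  | [], [], _ => rfl
  | [], a :: t, h => by cases a <;> simp [expand] at h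
  | a :: s, [], h => by cases a <;> simp [expand] at h
  | false :: s, false :: t, h => by
    simp only [expand, List.cons.injEq, true_and] at h
    rw [expand_inj h]
  | true :: s, true :: t, h => by
    simp only [expand, List.cons.injEq, true_and] at h
    rw [expand_inj h]
  | false :: s, true :: t, h => by
    simp only [expand, List.cons.injEq, true_and] at h
    exact absurd (by rw [h]; rfl) (expand_head s)
  | true :: s, false :: t, h => by
    simp only [expand, List.cons.injEq, true_and] at h
    exact absurd (by rw [← h]; rfl) (expand_head t)

/-- the coordinate functional of the word `expand α` -/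
def dl (α : List Bool) (w : List Bool) : ℤ := if w = expand α then 1 else 0

theorem pull_expand (r : ℕ) (ψ : List Bool → ℤ) (N : ℕ) (W : Finset (List Bool))
    (hW : ∀ w, w ∈ W ↔ (expand w).length = N) (s : List Bool)
    (hs : (expand s).length = N + (2 * (r + 1) + 1)) (φ : List Bool → ℤ) :
    pull (DD (2 * (r + 1) + 1) ψ) φ (expand s) =
      ∑ α ∈ W, pull (DD (2 * (r + 1) + 1) ψ) (dl α) (expand s) * φ (expand α) := by
  set n := 2 * (r + 1) + 1 with hn
  have e : pull (DD n ψ) (fun w => φ w - ∑ α ∈ W, φ (expand α) * dl α w) (expand s) = 0 := by
    rw [pull_DD]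
    refine level0 r ψ s _ ?_
    intro s' h1 _
    have hs' : s' ∈ W := (hW s').2 (by omega)
    have : ∑ α ∈ W, φ (expand α) * dl α (expand s') = φ (expand s') := by
      rw [Finset.sum_eq_single s']
      · simp [dl]
      · intro b _ hb
        have : expand s' ≠ expand b := fun h => hb (expand_inj h).symm
        simp [dl, this]
      · intro h
        exact absurd hs' h
    show φ (expand s') - ∑ α ∈ W, φ (expand α) * dl α (expand s') = 0
    rw [this, sub_self]
  have e2 : pull (DD n ψ) (fun w => φ w - ∑ α ∈ W, φ (expand α) * dl α w) (expand s) =
      pull (DD n ψ) φ (expand s) -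
        ∑ α ∈ W, φ (expand α) * pull (DD n ψ) (dl α) (expand s) := by
    unfold pull
    simp only [Finsupp.linearCombination_apply, Finsupp.sum, smul_eq_mul, mul_sub, Finset.mul_sum,
      Finset.sum_sub_distrib]
    congr 1
    rw [Finset.sum_comm]
    refine Finset.sum_congr rfl fun α _ => Finset.sum_congr rfl fun w _ => ?_
    ring
  rw [e2, sub_eq_zero] at e
  rw [e]
  refine Finset.sum_congr rfl fun α _ => ?_
  ring

/-- number of trailing letters `false` -/
def tr (s : List Bool) : ℕ := (s.reverse.takeWhile (fun a => !a)).length

theorem tr_eq (α : List Bool) (i : ℕ) : tr (α ++ true :: List.replicate i false) = i := by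
  unfold tr
  rw [List.reverse_append, List.reverse_cons, List.reverse_replicate, List.append_assoc]
  have : ∀ (i : ℕ) (l : List Bool), (List.replicate i false ++ ([true] ++ l)).takeWhile
      (fun a => !a) = List.replicate i false := by
    intro i l
    induction i with
    | zero => simp
    | succ i ih =>
      rw [List.replicate_succ, List.cons_append, List.takeWhile_cons_of_pos (by rfl), ih]
  rw [this, List.length_replicate]

theorem exists_tr (s : List Bool) (h : 1 ≤ s.count true) :
    ∃ α i, s = α ++ true :: List.replicate i false := by
  induction s with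
  | nil => simp at h
  | cons a s ih =>
    by_cases hs : 1 ≤ s.count true
    · obtain ⟨α, i, hα⟩ := ih hs
      exact ⟨a :: α, i, by rw [hα]; rfl⟩
    · have h0 := count_zero (t := s) (by omega)
      cases a with
      | true => exact ⟨[], s.length, by rw [← h0]; rfl⟩
      | false =>
        exfalso
        have : (false :: s).count true = s.count true := by simp
        omega

/-- the value of the symbol on `B A^j` -/
theorem qq_rev {r : ℕ} {ψ : List Bool → ℤ} (h : Sg r ψ) :
    qq (2 * (r + 1) + 1) (rd ψ) (true :: List.replicate r false) = 1 := by
  have hE : EvL (2 * (r + 1) + 1) 1 ψ := by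
    intro w _ hwl hwc
    have := expand_length w
    omega
  have hL := lieLike (by omega) h.1 hE (r + 1) (by omega) (by omega)
  have hc : (true :: List.replicate r false).count true = 1 := by
    rw [List.count_cons, List.count_replicate]
    simp
  have hl : (expand (true :: List.replicate r false)).length = 2 * (r + 1) + 1 := by
    rw [expand_length, hc]
    simp
  have e3 := anti _ (r + 1) (fun u v hu hv hn => hL.sh u v hu hv hn)
    (true :: List.replicate r false) (by simp)
  have hrev : (true :: List.replicate r false).reverse = List.replicate r false ++ [true] := by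
    rw [List.reverse_cons, List.reverse_replicate]
  rw [hrev] at e3
  have h1 : (List.replicate r false ++ [true]).length = r + 1 ∧
      (List.replicate r false ++ [true]).count true = 1 := ⟨by simp, count_rep r⟩
  have h2 : (true :: List.replicate r false).length = r + 1 ∧
      (true :: List.replicate r false).count true = 1 := ⟨by simp, hc⟩
  simp only [if_pos h1, if_pos h2] at e3
  unfold qq
  rw [if_pos ⟨hc, hl⟩, ← e3]
  exact h.2

theorem expand_zp (m : ℕ) : expand (List.replicate m false) = zp m := by
  induction m with
  | zero => rfl
  | succ m ih =>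
    rw [List.replicate_succ]
    simp only [expand, zp, ih]

theorem pull_DD' (n : ℕ) (ψ : List Bool → ℤ) (φ : List Bool → ℤ) :
    pull (DD n ψ) φ = T n ψ φ := by
  funext w
  exact pull_DD _ _ _ _

/-- IND for a class of functionals stable under the operators -/
theorem indP (hS : SpecShW) (hR : SpecRacW) (hL : SpecLynF) (hE : SpecExW)
    (Pr : ℕ → (List Bool → ℤ) → Prop)
    (hT : ∀ (n m : ℕ) (ψ φ : List Bool → ℤ), DW n ψ → Pr m φ → Pr (n + m) (T n ψ φ))
    (hP : ∀ m : ℕ, ∃ φ : List Bool → ℤ, Pr (2 * m) φ ∧ φ (zp m) ≠ 0) :
    ∀ (N : ℕ) (S : Finset (List Bool)) (c : List Bool → ℤ), (∀ s ∈ S, (expand s).length = N) →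
      (∀ φ : List Bool → ℤ, Pr N φ → ∑ s ∈ S, c s * φ (expand s) = 0) → ∀ s ∈ S, c s = 0 := by
  classical
  intro N
  induction N using Nat.strong_induction_on with
  | _ N ih =>
    intro S c hlen hφ
    by_contra hcon
    push Not at hcon
    obtain ⟨s₀, hs₀, hc₀⟩ := hcon
    -- the maximal level
    obtain ⟨s₁, hs₁, hmax⟩ := Finset.exists_max_image (S.filter fun s => c s ≠ 0)
      (fun s => s.count true) ⟨s₀, Finset.mem_filter.2 ⟨hs₀, hc₀⟩⟩
    set k := s₁.count true with hk
    obtain ⟨hs₁S, hc₁⟩ := Finset.mem_filter.1 hs₁
    have hle : ∀ s ∈ S, c s ≠ 0 → s.count true ≤ k := fun s hs hc =>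
      hmax s (Finset.mem_filter.2 ⟨hs, hc⟩)
    rcases Nat.eq_zero_or_pos k with hk0 | hkpos
    · -- level zero
      have h1 := count_zero (t := s₁) (by omega)
      have hN : N = 2 * s₁.length := by
        have := expand_length s₁
        have := hlen s₁ hs₁S
        omega
      obtain ⟨φ, hφR, hφ0⟩ := hP s₁.length
      have h2 := hφ φ (by rw [hN]; exact hφR)
      rw [Finset.sum_eq_single s₁] at h2
      · rw [h1, expand_zp] at h2
        rw [← h1] at h2
        rcases mul_eq_zero.1 h2 with h3 | h3
        · exact hc₁ h3
        · exact hφ0 h3
      · intro b hb hne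
        by_contra hne2
        have hcb : c b ≠ 0 := fun h => hne2 (by rw [h, zero_mul])
        have hb0 := hle b hb hcb
        have h3 := count_zero (t := b) (by omega)
        apply hne
        have hl1 := expand_length b
        have hl2 := hlen b hb
        rw [h3, h1]
        congr 1
        omega
      · intro h
        exact absurd hs₁S h
    · -- positive level
      set Sk := S.filter fun s => s.count true = k ∧ c s ≠ 0 with hSk
      have hs₁k : s₁ ∈ Sk := Finset.mem_filter.2 ⟨hs₁S, rfl, hc₁⟩
      have hex : ∃ v : ℕ, ∃ s ∈ Sk, ¬ (2 : ℤ) ^ (v + 1) ∣ c s := by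
        refine ⟨(c s₁).natAbs, s₁, hs₁k, ?_⟩
        intro hdvd
        have h1 := Int.natAbs_dvd_natAbs.2 hdvd
        rw [Int.natAbs_pow] at h1
        have h2 := Nat.le_of_dvd (Int.natAbs_pos.2 hc₁) h1
        have h3 : (c s₁).natAbs + 1 < 2 ^ ((c s₁).natAbs + 1) := Nat.lt_two_pow_self
        have h4 : ((2 : ℤ).natAbs) = 2 := rfl
        rw [h4] at h2
        omega
      set v₀ := Nat.find hex with hv₀
      have hdvd : ∀ s ∈ Sk, (2 : ℤ) ^ v₀ ∣ c s := by
        intro s hs
        rcases Nat.eq_zero_or_pos v₀ with h0 | hpos
        · rw [h0, pow_zero]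
          exact one_dvd _
        · have h1 := Nat.find_min hex (m := v₀ - 1) (by omega)
          push Not at h1
          have h2 := h1 s hs
          rwa [Nat.sub_add_cancel hpos] at h2
      obtain ⟨s₂, hs₂, hn₂⟩ := Nat.find_spec hex
      obtain ⟨t₀, ht₀, htmin⟩ := Finset.exists_min_image
        (Sk.filter fun s => ¬ (2 : ℤ) ^ (v₀ + 1) ∣ c s) tr
        ⟨s₂, Finset.mem_filter.2 ⟨hs₂, hn₂⟩⟩
      obtain ⟨ht₀k, hn₀⟩ := Finset.mem_filter.1 ht₀
      obtain ⟨ht₀S, ht₀c, ht₀ne⟩ := Finset.mem_filter.1 ht₀k
      obtain ⟨α, j, hα⟩ := exists_tr t₀ (by omega)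
      have htr : tr t₀ = j := by rw [hα, tr_eq]
      obtain ⟨ψ, hψ⟩ := desc hS hR hL hE j
      set n := 2 * (j + 1) + 1 with hn
      have hG := good_DD hS hR j ψ hψ.1
      have hexpt : (expand t₀).length = (expand α).length + n := by
        have h1 : (expand (true :: List.replicate j false)).length = n := by
          rw [expand_length, List.count_cons, List.count_replicate]
          simp
          omega
        rw [hα, expand_append, List.length_append, h1]
      have hNn : N = (expand α).length + n := by rw [← hexpt, hlen t₀ ht₀S]
      have hcα : α.count true + 1 = k := by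
        rw [← ht₀c, hα, List.count_append, List.count_cons, List.count_replicate]
        simp
      obtain ⟨W, hW, -⟩ := FinN.exists_words (expand α).length
      have hzero := ih (expand α).length (by omega) W
        (fun β => ∑ s ∈ S, c s * pull (DD n ψ) (dl β) (expand s))
        (fun w hw => (hW w).1 hw) (by
          intro φ' hφ'
          have h1 := hφ (pull (DD n ψ) φ') (by
            rw [hNn, add_comm, pull_DD']
            exact hT _ _ ψ φ' hψ.1 hφ')
          have h3 : ∀ s ∈ S, c s * pull (DD n ψ) φ' (expand s) =
              ∑ β ∈ W, c s * (pull (DD n ψ) (dl β) (expand s) * φ' (expand β)) := by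
            intro s hs
            rw [pull_expand j ψ _ W hW s (by rw [hlen s hs, hNn]) φ', Finset.mul_sum]
          rw [Finset.sum_congr rfl h3, Finset.sum_comm] at h1
          rw [← h1]
          refine Finset.sum_congr rfl fun β _ => ?_
          rw [Finset.sum_mul]
          refine Finset.sum_congr rfl fun s _ => ?_
          ring) α ((hW α).2 rfl)
      -- all terms but one are divisible by `2^{v₀+1}`
      have hodd : ∀ s, rd (dl α) (expand s) = if s = α then 1 else 0 := by
        intro s
        unfold rd dl
        by_cases h : s = α
        · simp [h]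
        · have : expand s ≠ expand α := fun h' => h (expand_inj h')
          simp [h, this]
      have hred : ∀ s : List Bool, s.count true ≤ α.count true + 1 →
          ((pull (DD n ψ) (dl α) (expand s) : ℤ) : ZMod 2) =
            if s.count true = α.count true + 1 then
              cv (fun t => rd (dl α) (expand t)) (qq n (rd ψ)) s else 0 := by
        intro s hs
        have e1 : ((pull (DD n ψ) (dl α) (expand s) : ℤ) : ZMod 2) =
            pull (DD n ψ) (rd (dl α)) (expand s) :=
          pull_map (Int.castAddHom (ZMod 2)) _ (dl α) (expand s)
        rw [e1]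
        refine hG.lev (α.count true) (rd (dl α)) ?_ s hs
        intro s' hs'
        rw [hodd, if_neg]
        rintro rfl
        omega
      have hterm : ∀ s ∈ S, s ≠ t₀ → (2 : ℤ) ^ (v₀ + 1) ∣
          c s * pull (DD n ψ) (dl α) (expand s) := by
        intro s hs hne
        by_cases hcs : c s = 0
        · rw [hcs, zero_mul]
          exact dvd_zero _
        have hsk := hle s hs hcs
        by_cases hslt : s.count true < k
        · have h0 : pull (DD n ψ) (dl α) (expand s) = 0 := by
            rw [pull_DD]
            refine level0 j ψ s _ ?_
            intro s' _ h2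
            unfold dl
            rw [if_neg]
            intro h3
            rw [expand_inj h3] at h2
            omega
          rw [h0, mul_zero]
          exact dvd_zero _
        have hseq : s.count true = k := by omega
        have hsSk : s ∈ Sk := Finset.mem_filter.2 ⟨hs, hseq, hcs⟩
        by_cases heven : ((pull (DD n ψ) (dl α) (expand s) : ℤ) : ZMod 2) = 0
        · have h1 : (2 : ℤ) ∣ pull (DD n ψ) (dl α) (expand s) :=
            (ZMod.intCast_zmod_eq_zero_iff_dvd _ 2).1 heven
          rw [pow_succ]
          exact mul_dvd_mul (hdvd s hsSk) h1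
        · rw [hred s (by omega), if_pos (by omega)] at heven
          obtain ⟨a, t, hat, ha, hq⟩ := cv_ne heven
          have haα : a = α := by
            by_contra h
            exact ha (by rw [hodd, if_neg h])
          subst haα
          -- `t = A^i B A^{i'}`
          have hqs := hG.supp t hq
          obtain ⟨γ, i, hγ⟩ := exists_tr t (by omega)
          have htrs : tr s = i := by
            rw [hat, hγ, ← List.append_assoc, tr_eq]
          have hcγ : γ.count true = 0 := by
            have h1 := hqs.1
            rw [hγ, List.count_append, List.count_cons, List.count_replicate] at h1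
            simp at h1
            exact h1
          have hlt : γ.length + i = j := by
            have h1 := hqs.2
            rw [expand_length, hqs.1, hγ, List.length_append, List.length_cons,
              List.length_replicate] at h1
            omega
          have hγne : γ ≠ [] := by
            rintro rfl
            apply hne
            rw [hat, hγ, hα]
            simp only [List.length_nil, zero_add] at hlt
            rw [hlt]
            rfl
          have hγpos := List.length_pos_iff.2 hγne
          by_contra hnd
          have h5 : s ∈ Sk.filter fun s => ¬ (2 : ℤ) ^ (v₀ + 1) ∣ c s :=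
            Finset.mem_filter.2 ⟨hsSk, fun h => hnd (Dvd.dvd.mul_right h _)⟩
          have h6 := htmin s h5
          rw [htr, htrs] at h6
          omega
      have hlast : ¬ (2 : ℤ) ^ (v₀ + 1) ∣ c t₀ * pull (DD n ψ) (dl α) (expand t₀) := by
        have h1 : ((pull (DD n ψ) (dl α) (expand t₀) : ℤ) : ZMod 2) = 1 := by
          rw [hred t₀ (by omega), if_pos (by omega)]
          unfold cv
          rw [Finset.sum_eq_single α.length]
          · rw [hα, List.take_left' rfl, List.drop_left' rfl]
            show rd (dl α) (expand α) * _ = 1
            rw [hodd, if_pos rfl, one_mul]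
            exact qq_rev hψ
          · intro i hi hne
            show rd (dl α) (expand (t₀.take i)) * _ = 0
            rw [hodd, if_neg, zero_mul]
            intro h
            have h2 := congrArg List.length h
            rw [List.length_take] at h2
            have h3 := Finset.mem_range.1 hi
            omega
          · intro h
            exfalso
            apply h
            rw [Finset.mem_range, hα, List.length_append]
            omega
        intro h2
        have hodd2 : ¬ (2 : ℤ) ∣ pull (DD n ψ) (dl α) (expand t₀) := by
          intro h3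
          rw [(ZMod.intCast_zmod_eq_zero_iff_dvd _ 2).2 h3] at h1
          exact absurd h1 (by decide)
        have hcop : IsCoprime ((2 : ℤ) ^ (v₀ + 1)) (pull (DD n ψ) (dl α) (expand t₀)) := by
          refine IsCoprime.pow_left ?_
          exact (Int.prime_two.coprime_iff_not_dvd).2 hodd2
        exact hn₀ (hcop.dvd_of_dvd_mul_right h2)
      apply hlast
      have h7 : ∑ s ∈ S, c s * pull (DD n ψ) (dl α) (expand s) = 0 := hzero
      rw [← Finset.add_sum_erase S _ ht₀S] at h7
      have h8 : (2 : ℤ) ^ (v₀ + 1) ∣
          ∑ s ∈ S.erase t₀, c s * pull (DD n ψ) (dl α) (expand s) :=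
        Finset.dvd_sum fun s hs => hterm s (Finset.mem_of_mem_erase hs) (Finset.ne_of_mem_erase hs)
      have h9 := (Int.dvd_add_left h8).1 (by rw [h7]; exact dvd_zero _)
      exact h9

/-- IND -/
theorem specIndW (hS : SpecShW) (hR : SpecRacW) (hL : SpecLynF) (hE : SpecExW)
    (hP : SpecPiW) : SpecIndW :=
  indP hS hR hL hE RR hR hP

end MP154526.Low.Ops
end
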