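import Pool.Agent.Lib.MP_154526_nt.Low.Lsh
import Pool.Agent.Lib.MP_154526_nt.Top.Alg

/-!
# Module ZSHUF: the shuffle product of convergent multiple zeta values
-/

set_option autoImplicit false

namespace MP154526.Low

open Finset MP154526.Bound MP154526.Top MP154526.Top.Pass2 MP154526.Lin
open Filter Topology

namespace Zshuf

open Bnd Lsh

theorem adm_cases {w : List Bool} (h : Adm w) :
    w = [] ∨ ∃ (a : ℕ) (l : List ℕ), 1 ≤ a ∧ w = bw (a :: l) := by
  rcases h with h | ⟨u, h⟩
  · exact Or.inl h
  · right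
    obtain ⟨l, hl, hne⟩ := exists_bw_of_true (false :: u)
    cases l with
    | nil => exact absurd rfl hne
    | cons a l =>
      refine ⟨a, l, ?_, h.trans hl⟩
      by_contra ha
      have : a = 0 := by omega
      subst this
      rw [bw] at hl
      simp at hl

theorem endY_of_adm {w : List Bool} (h : Adm w) : EndY w := by
  rcases adm_cases h with rfl | ⟨a, l, _, rfl⟩
  · exact Or.inl rfl
  · exact endY_bw _

theorem adm_cons {l : List Bool} (h : EndY l) (hl : l ≠ []) : Adm (false :: l) := by
  rcases h with h | ⟨u, rfl⟩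
  · exact absurd h hl
  · exact Or.inr ⟨u, rfl⟩

/-- a nonempty word of `ℌ⁰` is `x u` with `u` nonempty and ending in `y` -/
theorem adm_head {a : Bool} {u : List Bool} (h : Adm (a :: u)) : a = false ∧ EndY u ∧ u ≠ [] := by
  rcases h with h | ⟨v, h⟩
  · simp at h
  · rw [List.cons_append, List.cons.injEq] at h
    obtain ⟨rfl, rfl⟩ := h
    exact ⟨rfl, Or.inr ⟨v, rfl⟩, by simp⟩

theorem shs_congr_adm {f g : List Bool → ℝ} (h : ∀ w, Adm w → f w = g w) {u v : List Bool}
    (hu : Adm u) (hv : Adm v) : shs f u v = shs g u v := by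
  have hsub : shs f u v = shs (fun l => f l - g l) u v + shs g u v := by
    rw [← shs_add]
    congr 1
    funext l
    ring
  rw [hsub]
  cases u with
  | nil => rw [shs_nil_left, h v hv, sub_self, zero_add]
  | cons a u =>
    cases v with
    | nil => rw [shs_nil_right, h _ hu, sub_self, zero_add]
    | cons b v =>
      obtain ⟨rfl, hu1, hu2⟩ := adm_head hu
      obtain ⟨rfl, hv1, hv2⟩ := adm_head hv
      have hx : ∀ l : List Bool, EndY l → l ≠ [] → f (false :: l) - g (false :: l) = 0 := by
        intro l hl hne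
        rw [h _ (adm_cons hl hne), sub_self]
      rw [shs_cons_cons,
        Pass1.shs_zero_of_endY (fun l => f (false :: l) - g (false :: l)) u (false :: v) hu1
          (endY_of_adm hv), Pass1.shs_zero_of_endY (fun l => f (false :: l) - g (false :: l))
          (false :: u) v (endY_of_adm hu) hv1, zero_add, zero_add]
      · intro l hl hE
        refine hx l hE ?_
        rintro rfl
        simp only [List.length_nil, List.length_cons] at hl
        omega
      · intro l hl hE
        refine hx l hE ?_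
        rintro rfl
        simp only [List.length_nil, List.length_cons] at hl
        omega

theorem shs_tendsto {L : Filter ℝ} (f : ℝ → List Bool → ℝ) (g : List Bool → ℝ)
    (h : ∀ w, Tendsto (fun t => f t w) L (𝓝 (g w))) (u v : List Bool) :
    Tendsto (fun t => shs (f t) u v) L (𝓝 (shs g u v)) := by
  induction u, v using shs_induct generalizing f g with
  | h0 W => simpa using h W
  | h1 a σ => simpa using h (a :: σ)
  | h2 a σ c W ha hb =>
    simp only [shs_cons_cons]
    exact (ha (fun t l => f t (a :: l)) (fun l => g (a :: l)) fun w => h _).add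
      (hb (fun t l => f t (c :: l)) (fun l => g (c :: l)) fun w => h _)

theorem shs_tendsto_adm {L : Filter ℝ} (f : ℝ → List Bool → ℝ) (g : List Bool → ℝ)
    (h : ∀ w, Adm w → Tendsto (fun t => f t w) L (𝓝 (g w))) {u v : List Bool} (hu : Adm u)
    (hv : Adm v) : Tendsto (fun t => shs (f t) u v) L (𝓝 (shs g u v)) := by
  classical
  have h1 := shs_tendsto (L := L) (fun t w => if Adm w then f t w else g w) g (fun w => by
    by_cases hw : Adm w
    · simpa only [if_pos hw] using h w hw
    · simpa only [if_neg hw] using tendsto_const_nhds) u v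
  refine h1.congr fun t => ?_
  exact shs_congr_adm (fun w hw => by rw [if_pos hw]) hu hv

theorem ev_tendsto {w : List Bool} (hw : Adm w) :
    Tendsto (fun t => ev t (F w)) (𝓝[<] (1 : ℝ)) (𝓝 (Zw w)) := by
  have hev : ∀ᶠ t in 𝓝[<] (1 : ℝ), t ∈ Set.Ioo (0 : ℝ) 1 :=
    Ioo_mem_nhdsLT (by norm_num : (0 : ℝ) < 1)
  have hid : Tendsto (fun t : ℝ => t) (𝓝[<] (1 : ℝ)) (𝓝 1) := tendsto_nhdsWithin_of_tendsto_nhds tendsto_id
  rcases adm_cases hw with rfl | ⟨a, l, ha, rfl⟩
  · have : ∀ᶠ t in 𝓝[<] (1 : ℝ), (Zw []) = ev t (F []) := by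
      filter_upwards [hev] with t ht
      rw [ev_F ht.1.le ht.2]
      rfl
    exact tendsto_const_nhds.congr' this
  · have h1 : Tendsto (fun t : ℝ => ∑' n : ℕ, wr l n / ((n : ℝ) + 1) ^ (a + 1) * t ^ (n + 1))
        (𝓝[<] (1 : ℝ)) (𝓝 (∑' n : ℕ, wr l n / ((n : ℝ) + 1) ^ (a + 1))) := by
      refine tendsto_tsum_of_dominated_convergence (term_summable a l ha) (fun n => ?_) ?_
      · have := (hid.pow (n + 1)).const_mul (wr l n / ((n : ℝ) + 1) ^ (a + 1))
        simpa using this
      · filter_upwards [hev] with t ht n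
        have h0 := term_nonneg a l n
        rw [Real.norm_of_nonneg (mul_nonneg h0 (pow_nonneg ht.1.le _))]
        exact mul_le_of_le_one_right h0 (pow_le_one₀ ht.1.le ht.2.le)
    have e : Zw (bw (a :: l)) = ∑' n : ℕ, wr l n / ((n : ℝ) + 1) ^ (a + 1) := by
      rw [Zw, toY_bw]
      exact zeta_cons a l
    rw [e]
    refine h1.congr' ?_
    filter_upwards [hev] with t ht
    rw [ev_F ht.1.le ht.2, toY_bw]
    rfl

theorem Zw_shs {u v : List Bool} (hu : Adm u) (hv : Adm v) : shs Zw u v = Zw u * Zw v := by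
  have hev : ∀ᶠ t in 𝓝[<] (1 : ℝ), t ∈ Set.Ioo (0 : ℝ) 1 :=
    Ioo_mem_nhdsLT (by norm_num : (0 : ℝ) < 1)
  have h1 : Tendsto (fun t => shs (fun w => ev t (F w)) u v) (𝓝[<] (1 : ℝ)) (𝓝 (shs Zw u v)) :=
    shs_tendsto_adm (fun t w => ev t (F w)) Zw (fun w hw => ev_tendsto hw) hu hv
  have h2 : Tendsto (fun t => ev t (F u) * ev t (F v)) (𝓝[<] (1 : ℝ)) (𝓝 (Zw u * Zw v)) :=
    (ev_tendsto hu).mul (ev_tendsto hv)
  refine tendsto_nhds_unique (h1.congr' ?_) h2
  filter_upwards [hev] with t ht
  rw [← (ev_shs t F (Cv_F ht.1.le ht.2) u v).2, F_shs u v (endY_of_adm hu) (endY_of_adm hv),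
    ev_mul ht.1.le ht.2]

/-- linear extension of a functional on words -/
theorem lc_sh (φ : List Bool → ℝ) (u v : List Bool) :
    Finsupp.linearCombination ℚ φ (sh u v) = shs φ u v := by
  induction u, v using shs_induct generalizing φ with
  | h0 W =>
    rw [shs_nil_left, Alg.sh_nil_left, wd, Finsupp.linearCombination_single, one_smul]
  | h1 a σ =>
    rw [shs_nil_right, Alg.sh_nil_right, wd, Finsupp.linearCombination_single, one_smul]
  | h2 a σ c W ha hb =>
    rw [shs_cons_cons, Alg.sh_cons, map_add]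
    congr 1
    · rw [← ha (fun l => φ (a :: l)), Alg.L_apply, lmul, Finsupp.linearCombination_mapDomain]
      rfl
    · rw [← hb (fun l => φ (c :: l)), Alg.L_apply, lmul, Finsupp.linearCombination_mapDomain]
      rfl

theorem Z_wd (w : List Bool) : Z (wd w) = Zw w := by
  rw [Z, wd, Finsupp.linearCombination_single, one_smul]

theorem specZshuf : SpecZshuf := by
  intro a ha b hb
  rw [H0all] at ha hb
  induction ha using Submodule.span_induction with
  | mem x hx =>
    obtain ⟨u, hu, rfl⟩ := hx
    induction hb using Submodule.span_induction with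
    | mem y hy =>
      obtain ⟨v, hv, rfl⟩ := hy
      rw [Alg.shuffle_wd, Z_wd, Z_wd, ← Zw_shs hu hv]
      exact lc_sh Zw u v
    | zero => rw [Alg.shuffle_zero_right, map_zero, mul_zero]
    | add x y _ _ hx hy => rw [Alg.shuffle_add_right, map_add, map_add, hx, hy, mul_add]
    | smul r x _ hx => rw [Alg.shuffle_smul_right, map_smul, map_smul, hx, mul_smul_comm]
  | zero => rw [Alg.shuffle_zero_left, map_zero, zero_mul]
  | add x y _ _ hx hy => rw [Alg.shuffle_add_left, map_add, map_add, hx, hy, add_mul]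
  | smul r x _ hx => rw [Alg.shuffle_smul_left, map_smul, map_smul, hx, smul_mul_assoc]

end Zshuf

theorem specZshuf : SpecZshuf := Zshuf.specZshuf

end MP154526.Low
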