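import Pool.Agent.Lib.MP_154526_nt.Low.Bnd

/-!
# Module ABEL: Abel summation
-/

set_option autoImplicit false

namespace MP154526.Low

open Finset MP154526.Bound MP154526.Top MP154526.Top.Pass2 MP154526.Lin

namespace Abel

open Bnd

theorem summable_pow (k : ℕ) {t : ℝ} (h0 : 0 ≤ t) (h1 : t < 1) :
    Summable fun n : ℕ => ((n : ℝ) + 1) ^ k * t ^ n := by
  have hn : ‖t‖ < 1 := by rwa [Real.norm_of_nonneg h0]
  have s1 := summable_pow_mul_geometric_of_norm_lt_one k hn
  have s2 := summable_geometric_of_lt_one h0 h1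
  have s3 : Summable fun n : ℕ => (2 : ℝ) ^ k * ((n : ℝ) ^ k * t ^ n + t ^ n) :=
    (s1.add s2).mul_left _
  refine Summable.of_nonneg_of_le (fun n => by positivity) (fun n => ?_) s3
  have h2 : ((n : ℝ) + 1) ^ k ≤ 2 ^ k * ((n : ℝ) ^ k + 1) := by
    rcases Nat.eq_zero_or_pos n with rfl | hpos
    · simp only [CharP.cast_eq_zero, zero_add, one_pow]
      have : (1 : ℝ) ≤ 2 ^ k := one_le_pow₀ (by norm_num)
      nlinarith [pow_nonneg (le_refl (0 : ℝ)) k]
    · have hn1 : (1 : ℝ) ≤ n := by exact_mod_cast hpos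
      calc ((n : ℝ) + 1) ^ k ≤ (2 * n) ^ k := pow_le_pow_left₀ (by positivity) (by linarith) k
        _ = 2 ^ k * (n : ℝ) ^ k := mul_pow _ _ _
        _ ≤ 2 ^ k * ((n : ℝ) ^ k + 1) := mul_le_mul_of_nonneg_left (by linarith) (by positivity)
  calc ((n : ℝ) + 1) ^ k * t ^ n ≤ (2 ^ k * ((n : ℝ) ^ k + 1)) * t ^ n :=
        mul_le_mul_of_nonneg_right h2 (by positivity)
    _ = 2 ^ k * ((n : ℝ) ^ k * t ^ n + t ^ n) := by ring

theorem summable_wr (l : List ℕ) {t : ℝ} (h0 : 0 ≤ t) (h1 : t < 1) :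
    Summable fun n : ℕ => wr l n * t ^ n :=
  Summable.of_nonneg_of_le (fun n => mul_nonneg (wr_nonneg l n) (by positivity))
    (fun n => mul_le_mul_of_nonneg_right (wr_le_pow l n) (by positivity))
    (summable_pow l.length h0 h1)

theorem specAbel : SpecAbel := by
  intro t h0 h1 l
  have hs := summable_wr l h0 h1
  show Lf l t = (1 - t) * ∑' N : ℕ, wr l N * t ^ N
  have e1 : ∑' N : ℕ, wr l N * t ^ N = wr l 0 + ∑' N : ℕ, wr l (N + 1) * t ^ (N + 1) := by
    rw [hs.tsum_eq_zero_add]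
    simp
  have hs1 : Summable fun N : ℕ => wr l (N + 1) * t ^ (N + 1) :=
    (summable_nat_add_iff 1).2 hs
  have hs2 : Summable fun N : ℕ => wr l N * t ^ (N + 1) := by
    refine (hs.mul_left t).congr fun n => ?_
    rw [pow_succ]; ring
  have e2 : (1 - t) * ∑' N : ℕ, wr l N * t ^ N =
      wr l 0 + ∑' N : ℕ, (wr l (N + 1) * t ^ (N + 1) - wr l N * t ^ (N + 1)) := by
    rw [hs1.tsum_sub hs2, sub_mul, one_mul, ← tsum_mul_left]
    have : ∑' N : ℕ, t * (wr l N * t ^ N) = ∑' N : ℕ, wr l N * t ^ (N + 1) :=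
      tsum_congr fun n => by rw [pow_succ]; ring
    rw [this]
    linarith [e1]
  rw [e2]
  cases l with
  | nil => simp [Lf]
  | cons a l =>
    rw [wr_cons_zero, zero_add, Lf]
    refine tsum_congr fun n => ?_
    rw [wr_cons_succ]
    show wr l n / ((n : ℝ) + 1) ^ (a + 1) * t ^ (n + 1) = _
    ring

end Abel

theorem specAbel : SpecAbel := Abel.specAbel

end MP154526.Low
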