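import Pool.Agent.Lib.MP_154526_nt.Low.Spec
import Pool.Agent.Lib.MP_154526_nt.Low.Basic
import Pool.Agent.Lib.MP_154526_nt.Top.Pass2Main
import Pool.Agent.Lib.MP_154526_nt.Top.Alg

/-!
# ZRDS: the real multiple zeta values satisfy the regularised double shuffle relations
-/

set_option autoImplicit false

namespace MP154526.Low.ZrdsM

open Finset MP154526.Bound MP154526.Top MP154526.Top.Pass2 MP154526.Lin Filter Topology

/-! ### elementary sums -/

/-- `x ^ (-s) ≤ δ ^ (s/2) + δ ^ (-3/4) x ^ (-3/2)` -/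
theorem pt_bound {x δ s : ℝ} (hx : 1 ≤ x) (hδ : 0 < δ) (hs : 0 < s) :
    x ^ (-s) ≤ δ ^ (s / 2) + δ ^ (-(3 / 4) : ℝ) * x ^ (-(3 / 2) : ℝ) := by
  have hx0 : (0 : ℝ) < x := by linarith
  rcases le_total (δ ^ (-(1 / 2) : ℝ)) x with h | h
  · have h1 : x ^ (-s) ≤ (δ ^ (-(1 / 2) : ℝ)) ^ (-s) :=
      Real.rpow_le_rpow_of_nonpos (by positivity) h (by linarith)
    have h2 : (δ ^ (-(1 / 2) : ℝ)) ^ (-s) = δ ^ (s / 2) := by
      rw [← Real.rpow_mul hδ.le]
      congr 1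
      ring
    have h3 : 0 ≤ δ ^ (-(3 / 4) : ℝ) * x ^ (-(3 / 2) : ℝ) := by positivity
    linarith [h1.trans_eq h2]
  · have h1 : x ^ (-s) ≤ 1 := Real.rpow_le_one_of_one_le_of_nonpos hx (by linarith)
    have h2 : (δ ^ (-(1 / 2) : ℝ)) ^ (-(3 / 2) : ℝ) ≤ x ^ (-(3 / 2) : ℝ) :=
      Real.rpow_le_rpow_of_nonpos hx0 h (by norm_num)
    have h3 : (δ ^ (-(1 / 2) : ℝ)) ^ (-(3 / 2) : ℝ) = δ ^ (3 / 4 : ℝ) := by
      rw [← Real.rpow_mul hδ.le]
      congr 1
      norm_num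
    have h4 : δ ^ (-(3 / 4) : ℝ) * δ ^ (3 / 4 : ℝ) = 1 := by
      rw [← Real.rpow_add hδ]
      norm_num
    have h5 : 1 ≤ δ ^ (-(3 / 4) : ℝ) * x ^ (-(3 / 2) : ℝ) := by
      rw [← h4]
      apply mul_le_mul_of_nonneg_left _ (by positivity)
      rw [← h3]
      exact h2
    have h6 : 0 ≤ δ ^ (s / 2) := by positivity
    linarith

theorem geom_one {t : ℝ} (h0 : 0 ≤ t) (h1 : t < 1) : (1 - t) * ∑' N : ℕ, t ^ N = 1 := by
  rw [tsum_geometric_of_lt_one h0 h1]
  exact mul_inv_cancel₀ (by linarith)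

theorem geom_sum {t : ℝ} (h0 : 0 ≤ t) (h1 : t < 1) : Summable fun N : ℕ => t ^ N :=
  summable_geometric_of_lt_one h0 h1

theorem lin_sum {t : ℝ} (h0 : 0 ≤ t) (h1 : t < 1) :
    Summable fun N : ℕ => ((N : ℝ) + 1) * t ^ N := by
  have a := summable_pow_mul_geometric_of_norm_lt_one 1 (r := t)
    (by rw [Real.norm_of_nonneg h0]; exact h1)
  simp only [pow_one] at a
  have b := a.add (geom_sum h0 h1)
  refine b.congr fun N => ?_
  ring

theorem lin_val {t : ℝ} (h0 : 0 ≤ t) (h1 : t < 1) :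
    (1 - t) ^ 2 * ∑' N : ℕ, ((N : ℝ) + 1) * t ^ N = 1 := by
  have a : ∑' N : ℕ, (N : ℝ) * t ^ N = t / (1 - t) ^ 2 :=
    tsum_coe_mul_geometric_of_norm_lt_one (by rw [Real.norm_of_nonneg h0]; exact h1)
  have a' := summable_pow_mul_geometric_of_norm_lt_one 1 (r := t)
    (by rw [Real.norm_of_nonneg h0]; exact h1)
  simp only [pow_one] at a'
  have b : ∑' N : ℕ, ((N : ℝ) + 1) * t ^ N = t / (1 - t) ^ 2 + (1 - t)⁻¹ := by
    rw [← a, ← tsum_geometric_of_lt_one h0 h1, ← a'.tsum_add (geom_sum h0 h1)]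
    congr 1
    ext N
    ring
  have c : (1 - t) ≠ 0 := by linarith
  rw [b]
  field_simp
  ring

/-- sequences growing at most like `(N+1)^ε` -/
theorem grow_sum {c : ℕ → ℝ} {C ε t : ℝ} (hε1 : ε ≤ 1) (h0 : 0 ≤ t) (h1 : t < 1)
    (hc : ∀ N : ℕ, |c N| ≤ C * ((N : ℝ) + 1) ^ ε) : Summable fun N : ℕ => c N * t ^ N := by
  have hC : 0 ≤ C := by
    have := (abs_nonneg _).trans (hc 0)
    simpa using this
  refine Summable.of_norm_bounded ((lin_sum h0 h1).mul_left C) fun N => ?_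
  rw [Real.norm_eq_abs, abs_mul, abs_of_nonneg (pow_nonneg h0 N), ← mul_assoc]
  apply mul_le_mul_of_nonneg_right _ (pow_nonneg h0 N)
  refine (hc N).trans (mul_le_mul_of_nonneg_left ?_ hC)
  have h2 : (1 : ℝ) ≤ (N : ℝ) + 1 := by
    have : (0 : ℝ) ≤ N := Nat.cast_nonneg N
    linarith
  calc ((N : ℝ) + 1) ^ ε ≤ ((N : ℝ) + 1) ^ (1 : ℝ) := Real.rpow_le_rpow_of_exponent_le h2 hε1
    _ = (N : ℝ) + 1 := Real.rpow_one _

theorem grow_bound {c : ℕ → ℝ} {C ε t : ℝ} (hε0 : 0 ≤ ε) (hε1 : ε ≤ 1) (h0 : 0 ≤ t) (h1 : t < 1)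
    (hc : ∀ N : ℕ, |c N| ≤ C * ((N : ℝ) + 1) ^ ε) :
    |(1 - t) * ∑' N : ℕ, c N * t ^ N| ≤ 2 * C * (1 - t) ^ (-ε) := by
  have hC : 0 ≤ C := by
    have := (abs_nonneg _).trans (hc 0)
    simpa using this
  have hd : 0 < 1 - t := by linarith
  have key : ∀ N : ℕ, ‖c N * t ^ N‖ ≤
      C * (1 - t) ^ (-ε) * (t ^ N + (1 - t) * (((N : ℝ) + 1) * t ^ N)) := by
    intro N
    rw [Real.norm_eq_abs, abs_mul, abs_of_nonneg (pow_nonneg h0 N)]
    have h2 : (0 : ℝ) ≤ (N : ℝ) + 1 := by positivity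
    have h3 : ((N : ℝ) + 1) ^ ε = (1 - t) ^ (-ε) * (((N : ℝ) + 1) * (1 - t)) ^ ε := by
      rw [Real.mul_rpow h2 hd.le, Real.rpow_neg hd.le]
      have : (1 - t) ^ ε ≠ 0 := by positivity
      field_simp
    have h4 : (((N : ℝ) + 1) * (1 - t)) ^ ε ≤ 1 + ((N : ℝ) + 1) * (1 - t) := by
      have h5 : 0 ≤ ((N : ℝ) + 1) * (1 - t) := by positivity
      calc (((N : ℝ) + 1) * (1 - t)) ^ ε ≤ (1 + ((N : ℝ) + 1) * (1 - t)) ^ ε :=
            Real.rpow_le_rpow h5 (by linarith) hε0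
        _ ≤ (1 + ((N : ℝ) + 1) * (1 - t)) ^ (1 : ℝ) :=
            Real.rpow_le_rpow_of_exponent_le (by linarith) hε1
        _ = _ := Real.rpow_one _
    calc |c N| * t ^ N ≤ (C * ((N : ℝ) + 1) ^ ε) * t ^ N :=
          mul_le_mul_of_nonneg_right (hc N) (pow_nonneg h0 N)
      _ ≤ (C * ((1 - t) ^ (-ε) * (1 + ((N : ℝ) + 1) * (1 - t)))) * t ^ N := by
          apply mul_le_mul_of_nonneg_right _ (pow_nonneg h0 N)
          apply mul_le_mul_of_nonneg_left _ hC
          rw [h3]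
          exact mul_le_mul_of_nonneg_left h4 (by positivity)
      _ = _ := by ring
  have hs : Summable fun N : ℕ =>
      C * (1 - t) ^ (-ε) * (t ^ N + (1 - t) * (((N : ℝ) + 1) * t ^ N)) :=
    ((geom_sum h0 h1).add ((lin_sum h0 h1).mul_left _)).mul_left _
  have h5 := tsum_of_norm_bounded hs.hasSum key
  rw [abs_mul, abs_of_pos hd]
  rw [Real.norm_eq_abs] at h5
  calc (1 - t) * |∑' N : ℕ, c N * t ^ N|
      ≤ (1 - t) * ∑' N : ℕ, C * (1 - t) ^ (-ε) * (t ^ N + (1 - t) * (((N : ℝ) + 1) * t ^ N)) :=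
        mul_le_mul_of_nonneg_left h5 hd.le
    _ = C * (1 - t) ^ (-ε) * ((1 - t) * ∑' N : ℕ, t ^ N +
          (1 - t) ^ 2 * ∑' N : ℕ, ((N : ℝ) + 1) * t ^ N) := by
        rw [tsum_mul_left, (geom_sum h0 h1).tsum_add ((lin_sum h0 h1).mul_left _), tsum_mul_left]
        ring
    _ = 2 * C * (1 - t) ^ (-ε) := by
        rw [geom_one h0 h1, lin_val h0 h1]
        ring

/-- the constant `∑ (N+1)^(-3/2)` -/
noncomputable def K0 : ℝ := ∑' N : ℕ, ((N : ℝ) + 1) ^ (-(3 / 2) : ℝ)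

theorem K0_sum : Summable fun N : ℕ => ((N : ℝ) + 1) ^ (-(3 / 2) : ℝ) := by
  have h := (Real.summable_nat_rpow (p := -(3 / 2))).2 (by norm_num)
  have h2 := (summable_nat_add_iff 1).2 h
  refine h2.congr fun N => ?_
  push_cast
  rfl

theorem K0_nonneg : 0 ≤ K0 := tsum_nonneg fun N => by positivity

/-- sequences decaying like `(N+1)^(-s)` -/
theorem decay_bound {c : ℕ → ℝ} {C s t : ℝ} (hs0 : 0 < s) (hs1 : s ≤ 1 / 2) (h0 : 0 ≤ t)
    (h1 : t < 1) (hc : ∀ N : ℕ, |c N| ≤ C * ((N : ℝ) + 1) ^ (-s)) :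
    |(1 - t) * ∑' N : ℕ, c N * t ^ N| ≤ C * (1 + K0) * (1 - t) ^ (s / 2) := by
  have hC : 0 ≤ C := by
    have := (abs_nonneg _).trans (hc 0)
    simpa using this
  have hd : 0 < 1 - t := by linarith
  have hd1 : 1 - t ≤ 1 := by linarith
  have key : ∀ N : ℕ, ‖c N * t ^ N‖ ≤
      C * ((1 - t) ^ (s / 2) * t ^ N + (1 - t) ^ (-(3 / 4) : ℝ) * ((N : ℝ) + 1) ^ (-(3 / 2) : ℝ)) := by
    intro N
    rw [Real.norm_eq_abs, abs_mul, abs_of_nonneg (pow_nonneg h0 N)]
    have h2 : (1 : ℝ) ≤ (N : ℝ) + 1 := by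
      have : (0 : ℝ) ≤ N := Nat.cast_nonneg N
      linarith
    have ht : t ^ N ≤ 1 := pow_le_one₀ h0 h1.le
    calc |c N| * t ^ N ≤ (C * ((N : ℝ) + 1) ^ (-s)) * t ^ N :=
          mul_le_mul_of_nonneg_right (hc N) (pow_nonneg h0 N)
      _ ≤ (C * ((1 - t) ^ (s / 2) + (1 - t) ^ (-(3 / 4) : ℝ) * ((N : ℝ) + 1) ^ (-(3 / 2) : ℝ))) *
            t ^ N := by
          apply mul_le_mul_of_nonneg_right _ (pow_nonneg h0 N)
          exact mul_le_mul_of_nonneg_left (pt_bound h2 hd hs0) hC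
      _ = C * ((1 - t) ^ (s / 2) * t ^ N + ((1 - t) ^ (-(3 / 4) : ℝ) *
            ((N : ℝ) + 1) ^ (-(3 / 2) : ℝ)) * t ^ N) := by ring
      _ ≤ _ := by
          apply mul_le_mul_of_nonneg_left _ hC
          have : ((1 - t) ^ (-(3 / 4) : ℝ) * ((N : ℝ) + 1) ^ (-(3 / 2) : ℝ)) * t ^ N ≤
              ((1 - t) ^ (-(3 / 4) : ℝ) * ((N : ℝ) + 1) ^ (-(3 / 2) : ℝ)) * 1 :=
            mul_le_mul_of_nonneg_left ht (by positivity)
          linarith
  have hs : Summable fun N : ℕ => C * ((1 - t) ^ (s / 2) * t ^ N + (1 - t) ^ (-(3 / 4) : ℝ) *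
      ((N : ℝ) + 1) ^ (-(3 / 2) : ℝ)) :=
    (((geom_sum h0 h1).mul_left _).add (K0_sum.mul_left _)).mul_left _
  have h5 := tsum_of_norm_bounded hs.hasSum key
  rw [abs_mul, abs_of_pos hd]
  rw [Real.norm_eq_abs] at h5
  have h6 : (1 - t) * (1 - t) ^ (-(3 / 4) : ℝ) ≤ (1 - t) ^ (s / 2) := by
    have : (1 - t) * (1 - t) ^ (-(3 / 4) : ℝ) = (1 - t) ^ (1 / 4 : ℝ) := by
      nth_rewrite 1 [← Real.rpow_one (1 - t)]
      rw [← Real.rpow_add hd]
      norm_num
    rw [this]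
    exact Real.rpow_le_rpow_of_exponent_ge hd hd1 (by linarith)
  calc (1 - t) * |∑' N : ℕ, c N * t ^ N|
      ≤ (1 - t) * ∑' N : ℕ, C * ((1 - t) ^ (s / 2) * t ^ N + (1 - t) ^ (-(3 / 4) : ℝ) *
          ((N : ℝ) + 1) ^ (-(3 / 2) : ℝ)) := mul_le_mul_of_nonneg_left h5 hd.le
    _ = C * ((1 - t) ^ (s / 2) * ((1 - t) * ∑' N : ℕ, t ^ N) +
          ((1 - t) * (1 - t) ^ (-(3 / 4) : ℝ)) * K0) := by
        rw [tsum_mul_left, ((geom_sum h0 h1).mul_left _).tsum_add (K0_sum.mul_left _),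
          tsum_mul_left, tsum_mul_left, K0]
        ring
    _ ≤ C * ((1 - t) ^ (s / 2) * 1 + (1 - t) ^ (s / 2) * K0) := by
        apply mul_le_mul_of_nonneg_left _ hC
        rw [geom_one h0 h1]
        have := mul_le_mul_of_nonneg_right h6 K0_nonneg
        linarith
    _ = _ := by ring

/-! ### the functional -/

/-- the value of the polylogarithm at a word -/
noncomputable def fw (t : ℝ) (w : List Bool) : ℝ := (toY 0 w).elim 0 fun l => Lf l t

/-- the linear extension -/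
noncomputable def LT (t : ℝ) : H →ₗ[ℚ] ℝ := Finsupp.linearCombination ℚ (fw t)

theorem LT_wd (t : ℝ) (w : List Bool) : LT t (wd w) = fw t w := by
  simp [LT, wd]

theorem LT_bw (t : ℝ) (l : List ℕ) : LT t (wd (bw l)) = Lf l t := by
  rw [LT_wd, fw, toY_bw]
  rfl

theorem Z_wd (w : List Bool) : Z (wd w) = Zw w := by
  simp [Z, wd]

theorem Z_bw (l : List ℕ) : Z (wd (bw l)) = zeta (l.map (· + 1)) := by
  rw [Z_wd, Zw, toY_bw]
  rfl

/-- the span of the words ending in `y` -/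
noncomputable def S1 : Submodule ℚ H := Submodule.span ℚ {h | ∃ l : List ℕ, h = wd (bw l)}

theorem bw_mem (l : List ℕ) : wd (bw l) ∈ S1 := Submodule.subset_span ⟨l, rfl⟩

theorem endY_mem {w : List Bool} (h : EndY w) : wd w ∈ S1 := by
  rcases h with rfl | ⟨u, rfl⟩
  · exact bw_mem []
  · obtain ⟨l, h, _⟩ := exists_bw_of_true u
    rw [h]
    exact bw_mem l

theorem adm_bw {w : List Bool} (h : Adm w) : w = [] ∨ ∃ a l, 1 ≤ a ∧ w = bw (a :: l) := by
  rcases h with rfl | ⟨u, rfl⟩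
  · exact Or.inl rfl
  · right
    obtain ⟨l, hl, hne⟩ := exists_bw_of_true (false :: u)
    rcases l with _ | ⟨a, l⟩
    · exact absurd rfl hne
    · refine ⟨a, l, ?_, hl⟩
      rcases a with _ | a
      · simp [bw] at hl
      · omega

theorem H0all_le : H0all ≤ S1 := by
  refine Submodule.span_le.2 ?_
  rintro _ ⟨w, hw, rfl⟩
  rcases adm_bw hw with rfl | ⟨a, l, _, rfl⟩
  · exact bw_mem []
  · exact bw_mem _

theorem shuffle_mem {p q : H} (hp : p ∈ S1) (hq : q ∈ S1) : shuffle p q ∈ S1 := by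
  have hA := specAlg
  have add' : ∀ a b c : H, shuffle a (b + c) = shuffle a b + shuffle a c := fun a b c => by
    rw [hA.comm, hA.add, hA.comm b, hA.comm c]
  have smul' : ∀ (r : ℚ) (a b : H), shuffle a (r • b) = r • shuffle a b := fun r a b => by
    rw [hA.comm, hA.smul, hA.comm b]
  have zero' : ∀ a : H, shuffle a 0 = 0 := fun a => by
    have := smul' 0 a 0
    rwa [zero_smul, zero_smul] at this
  have zero : ∀ a : H, shuffle 0 a = 0 := fun a => by rw [hA.comm, zero']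
  induction hp using Submodule.span_induction with
  | mem x hx =>
    obtain ⟨u, rfl⟩ := hx
    induction hq using Submodule.span_induction with
    | mem y hy =>
      obtain ⟨v, rfl⟩ := hy
      rw [shuffle_wd]
      exact sh_mem _ _ _ (endY_bw u) (endY_bw v) fun l hl _ => endY_mem hl
    | zero => rw [zero']; exact S1.zero_mem
    | add x y _ _ h1 h2 => rw [add']; exact S1.add_mem h1 h2
    | smul r x _ h => rw [smul']; exact S1.smul_mem r h
  | zero => rw [zero]; exact S1.zero_mem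
  | add x y _ _ h1 h2 => rw [hA.add]; exact S1.add_mem h1 h2
  | smul r x _ h => rw [hA.smul]; exact S1.smul_mem r h

theorem ypow_mem (j : ℕ) : ypow j ∈ S1 := by
  induction j with
  | zero => exact bw_mem []
  | succ j ih => exact shuffle_mem (bw_mem [0]) ih

/-- the functional is multiplicative for the shuffle product -/
theorem LT_shuffle (hL : SpecLsh) {t : ℝ} (h0 : 0 ≤ t) (h1 : t < 1) {p q : H} (hp : p ∈ S1)
    (hq : q ∈ S1) : LT t (shuffle p q) = LT t p * LT t q := by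
  have hA := specAlg
  have add' : ∀ a b c : H, shuffle a (b + c) = shuffle a b + shuffle a c := fun a b c => by
    rw [hA.comm, hA.add, hA.comm b, hA.comm c]
  have smul' : ∀ (r : ℚ) (a b : H), shuffle a (r • b) = r • shuffle a b := fun r a b => by
    rw [hA.comm, hA.smul, hA.comm b]
  have zero' : ∀ a : H, shuffle a 0 = 0 := fun a => by
    have := smul' 0 a 0
    rwa [zero_smul, zero_smul] at this
  have zero : ∀ a : H, shuffle 0 a = 0 := fun a => by rw [hA.comm, zero']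
  induction hp using Submodule.span_induction with
  | mem x hx =>
    obtain ⟨u, rfl⟩ := hx
    induction hq using Submodule.span_induction with
    | mem y hy =>
      obtain ⟨v, rfl⟩ := hy
      rw [shuffle_wd]
      have e := map_sh (LT t).toAddMonoidHom (bw u) (bw v)
      have e2 : (LT t).toAddMonoidHom (sh (bw u) (bw v)) = LT t (sh (bw u) (bw v)) := rfl
      rw [← e2, e]
      have e3 : (fun l => (LT t).toAddMonoidHom (wd l)) = fun w => (toY 0 w).elim 0 fun l => Lf l t := by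
        ext w
        exact LT_wd t w
      rw [e3, hL t h0 h1 u v, LT_bw, LT_bw]
    | zero => rw [zero', map_zero, mul_zero]
    | add x y _ _ h1 h2 => rw [add', map_add, map_add, h1, h2, mul_add]
    | smul r x _ h =>
      rw [smul', map_smul, map_smul, h, Rat.smul_def, Rat.smul_def]
      ring
  | zero => rw [zero, map_zero, zero_mul]
  | add x y _ _ h1 h2 => rw [hA.add, map_add, map_add, h1, h2, add_mul]
  | smul r x _ h =>
    rw [hA.smul, map_smul, map_smul, h, Rat.smul_def, Rat.smul_def]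
    ring

theorem LT_ypow (hL : SpecLsh) {t : ℝ} (h0 : 0 ≤ t) (h1 : t < 1) (j : ℕ) :
    LT t (ypow j) = Lf [0] t ^ j := by
  induction j with
  | zero =>
    have : LT t (ypow 0) = LT t (wd (bw [])) := rfl
    rw [this, LT_bw, pow_zero]
    rfl
  | succ j ih =>
    have : LT t (ypow (j + 1)) = LT t (shuffle (wd (bw [0])) (ypow j)) := rfl
    rw [this, LT_shuffle hL h0 h1 (bw_mem [0]) (ypow_mem j), ih, LT_bw, pow_succ]
    ring

/-! ### the stuffle product of series -/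

theorem stf_tsum (f : List ℕ → ℕ → ℝ) (hf : ∀ l, Summable (f l)) (u v : List ℕ) :
    Summable (fun N => stf (fun l => f l N) u v) ∧
      stf (fun l => ∑' N, f l N) u v = ∑' N, stf (fun l => f l N) u v := by
  induction u, v using stf_induct generalizing f with
  | h0 W =>
    simp only [stf_nil_left]
    exact ⟨hf W, trivial⟩
  | h1 a σ =>
    simp only [stf_nil_right]
    exact ⟨hf _, trivial⟩
  | h2 a σ c W ha hb hc =>
    simp only [stf_cons_cons]
    obtain ⟨s1, e1⟩ := ha (fun l => f (a :: l)) fun l => hf _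
    obtain ⟨s2, e2⟩ := hb (fun l => f (c :: l)) fun l => hf _
    obtain ⟨s3, e3⟩ := hc (fun l => f ((a + c + 1) :: l)) fun l => hf _
    refine ⟨(s1.add s2).add s3, ?_⟩
    rw [e1, e2, e3, (s1.add s2).tsum_add s3, s1.tsum_add s2]

theorem win_nonneg (l : List ℕ) (P : ℕ) : (0 : ℚ) ≤ win l 0 P := by
  induction l generalizing P with
  | nil => rw [win_nil]; norm_num
  | cons a l ihl =>
    induction P with
    | zero => exact le_of_eq (win_cons_zero a l 0).symm
    | succ P ih =>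
      rw [win_cons_succ, if_pos (Nat.zero_le _)]
      have := ihl P
      positivity

theorem win_grow (hB : SpecBnd) (l : List ℕ) : ∃ C : ℝ, ∀ N : ℕ,
    |(win l 0 N : ℝ)| ≤ C * ((N : ℝ) + 1) ^ (1 / 8 : ℝ) := by
  obtain ⟨C, hC⟩ := hB.1 (1 / 8) (by norm_num) l
  refine ⟨C, fun N => ?_⟩
  rw [abs_of_nonneg (by exact_mod_cast win_nonneg l N)]
  exact hC N

theorem win_summable (hB : SpecBnd) {t : ℝ} (h0 : 0 ≤ t) (h1 : t < 1) (l : List ℕ) :
    Summable fun N : ℕ => (win l 0 N : ℝ) * t ^ N := by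
  obtain ⟨C, hC⟩ := win_grow hB l
  exact grow_sum (by norm_num) h0 h1 hC

theorem stf_win (N : ℕ) (u v : List ℕ) (x : ℝ) :
    stf (fun l => (win l 0 N : ℝ) * x) u v = (win u 0 N : ℝ) * (win v 0 N : ℝ) * x := by
  have e := stf_map ((AddMonoidHom.mulRight x).comp ((Rat.castHom ℝ).toAddMonoidHom)) (fun l => win l 0 N) u v
  have e2 : (fun l => ((AddMonoidHom.mulRight x).comp ((Rat.castHom ℝ).toAddMonoidHom)) (win l 0 N)) =
      fun l => (win l 0 N : ℝ) * x := by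
    ext l
    rfl
  rw [e2] at e
  rw [← e, win_stf]
  show ((win u 0 N * win v 0 N : ℚ) : ℝ) * x = _
  push_cast
  ring

/-- the stuffle product of two polylogarithms -/
theorem LT_stuffle (hB : SpecBnd) (hAb : SpecAbel) {t : ℝ} (h0 : 0 ≤ t) (h1 : t < 1)
    (u v : List ℕ) : LT t (stuffle (u.map (· + 1)) (v.map (· + 1))) =
      (1 - t) * ∑' N : ℕ, (win u 0 N : ℝ) * (win v 0 N : ℝ) * t ^ N := by
  rw [stuffle_eq]
  have e := stf_map (LT t).toAddMonoidHom (fun l => wd (bw l)) u v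
  have e1 : (fun l => (LT t).toAddMonoidHom (wd (bw l))) =
      fun l => (1 - t) * ∑' N : ℕ, (win l 0 N : ℝ) * t ^ N := by
    ext l
    exact (LT_bw t l).trans (hAb t h0 h1 l)
  rw [e1] at e
  have e2 : (LT t).toAddMonoidHom (stf (fun l => wd (bw l)) u v) =
      LT t (stf (fun l => wd (bw l)) u v) := rfl
  rw [← e2, e]
  have e3 := stf_map (AddMonoidHom.mulLeft (1 - t)) (fun l => ∑' N : ℕ, (win l 0 N : ℝ) * t ^ N) u v
  have e4 : (fun l => (AddMonoidHom.mulLeft (1 - t)) (∑' N : ℕ, (win l 0 N : ℝ) * t ^ N)) =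
      fun l => (1 - t) * ∑' N : ℕ, (win l 0 N : ℝ) * t ^ N := rfl
  rw [e4] at e3
  rw [← e3, (stf_tsum (fun l N => (win l 0 N : ℝ) * t ^ N) (win_summable hB h0 h1) u v).2]
  show (1 - t) * _ = _
  congr 1
  refine tsum_congr fun N => ?_
  exact stf_win N u v _

/-! ### the two asymptotic formulas -/

theorem decay_of (hB : SpecBnd) {a : ℕ} (ha : 1 ≤ a) (l : List ℕ) : ∃ C : ℝ, 0 ≤ C ∧ ∀ N : ℕ,
    |zeta ((a :: l).map (· + 1)) - (win (a :: l) 0 N : ℝ)| ≤ C * ((N : ℝ) + 1) ^ (-(1 / 2) : ℝ) := by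
  obtain ⟨C, hC⟩ := hB.2 a l ha
  have h0 : 0 ≤ C := by
    have := (hC 0).1.trans (hC 0).2
    simpa using this
  refine ⟨C, h0, fun N => ?_⟩
  rw [abs_of_nonneg (hC N).1]
  exact (hC N).2

/-- `L_w(t) → Z(w)` for the words of `ℌ⁰` -/
theorem LT_adm (hB : SpecBnd) (hAb : SpecAbel) {w : List Bool} (hw : Adm w) :
    ∃ C : ℝ, ∀ t : ℝ, 0 ≤ t → t < 1 → |LT t (wd w) - Z (wd w)| ≤ C * (1 - t) ^ (1 / 4 : ℝ) := by
  rcases adm_bw hw with rfl | ⟨a, l, ha, rfl⟩
  · refine ⟨0, fun t _ _ => ?_⟩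
    have e1 : LT t (wd []) = 1 := (LT_bw t []).trans rfl
    have e2 : Z (wd []) = 1 := (Z_bw []).trans rfl
    rw [e1, e2]
    simp
  · obtain ⟨C, hC0, hC⟩ := decay_of hB ha l
    refine ⟨C * (1 + K0), fun t h0 h1 => ?_⟩
    have h2 := decay_bound (s := 1 / 2) (by norm_num) (by norm_num) h0 h1 hC
    rw [LT_bw, Z_bw, hAb t h0 h1]
    have e : (1 - t) * ∑' N : ℕ, (zeta ((a :: l).map (· + 1)) - (win (a :: l) 0 N : ℝ)) * t ^ N =
        zeta ((a :: l).map (· + 1)) - (1 - t) * ∑' N : ℕ, (win (a :: l) 0 N : ℝ) * t ^ N := by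
      have e1 : ∀ N : ℕ, (zeta ((a :: l).map (· + 1)) - (win (a :: l) 0 N : ℝ)) * t ^ N =
          zeta ((a :: l).map (· + 1)) * t ^ N - (win (a :: l) 0 N : ℝ) * t ^ N := fun N => by ring
      simp only [e1]
      rw [((geom_sum h0 h1).mul_left _).tsum_sub (win_summable hB h0 h1 _), tsum_mul_left, mul_sub]
      have := geom_one h0 h1
      linear_combination (zeta ((a :: l).map (· + 1))) * this
    rw [e] at h2
    rw [abs_sub_comm]
    refine h2.trans (le_of_eq ?_)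
    norm_num

/-- `L_c(t) → Z(c)` on `ℌ⁰` -/
theorem LT_H0 (hB : SpecBnd) (hAb : SpecAbel) {c : H} (hc : c ∈ H0all) :
    ∃ C : ℝ, ∀ t : ℝ, 0 ≤ t → t < 1 → |LT t c - Z c| ≤ C * (1 - t) ^ (1 / 4 : ℝ) := by
  induction hc using Submodule.span_induction with
  | mem x hx =>
    obtain ⟨w, hw, rfl⟩ := hx
    exact LT_adm hB hAb hw
  | zero => exact ⟨0, fun t _ _ => by simp⟩
  | add x y _ _ h1 h2 =>
    obtain ⟨C1, h1⟩ := h1
    obtain ⟨C2, h2⟩ := h2
    refine ⟨C1 + C2, fun t h0 h1' => ?_⟩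
    rw [map_add, map_add, add_mul]
    have e : LT t x + LT t y - (Z x + Z y) = (LT t x - Z x) + (LT t y - Z y) := by ring
    rw [e]
    exact (abs_add_le _ _).trans (add_le_add (h1 t h0 h1') (h2 t h0 h1'))
  | smul r x _ h =>
    obtain ⟨C, h⟩ := h
    refine ⟨|(r : ℝ)| * C, fun t h0 h1 => ?_⟩
    rw [map_smul, map_smul, Rat.smul_def, Rat.smul_def, ← mul_sub, abs_mul, mul_assoc]
    exact mul_le_mul_of_nonneg_left (h t h0 h1) (abs_nonneg _)

theorem idx_map {w : List ℕ} (h : Idx1 w) : ∃ u : List ℕ, w = u.map (· + 1) := by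
  refine ⟨w.map (· - 1), ?_⟩
  rw [List.map_map]
  symm
  conv_rhs => rw [← List.map_id w]
  apply List.map_congr_left
  intro k hk
  have := h k hk
  show k - 1 + 1 = k
  omega

/-- `L_h(t) → 0` for the difference of the two products -/
theorem LT_diff (hL : SpecLsh) (hB : SpecBnd) (hAb : SpecAbel) {w₁ w₀ : List ℕ} (h1 : Idx1 w₁)
    (h0 : Idx0 w₀) : ∃ C : ℝ, ∀ t : ℝ, 0 ≤ t → t < 1 →
      |LT t (shuffle (wd (word w₁)) (wd (word w₀)) - stuffle w₁ w₀)| ≤ C * (1 - t) ^ (1 / 16 : ℝ) := by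
  obtain ⟨u, rfl⟩ := idx_map h1
  obtain ⟨v, rfl⟩ := idx_map h0.1
  obtain ⟨C1, hC1⟩ := win_grow hB u
  have hC10 : 0 ≤ C1 := by
    have := (abs_nonneg _).trans (hC1 0)
    simpa using this
  rcases v with _ | ⟨a, v⟩
  · refine ⟨0, fun t ht0 ht1 => ?_⟩
    have e : shuffle (wd (word (u.map (· + 1)))) (wd (word ([].map (· + 1)))) -
        stuffle (u.map (· + 1)) ([].map (· + 1)) = 0 := by
      rw [stuffle_eq, word_map, word_map, stf_nil_right, specAlg.comm]
      have : shuffle (wd (bw [])) (wd (bw u)) = wd (bw u) := specAlg.one _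
      rw [this, sub_self]
    rw [e, map_zero]
    simp
  · have ha : 1 ≤ a := by
      have := h0.2 (a + 1) (by simp)
      omega
    obtain ⟨C2, hC20, hC2⟩ := decay_of hB ha v
    refine ⟨2 * C1 * (C2 * (1 + K0)) + C1 * C2 * (1 + K0), fun t ht0 ht1 => ?_⟩
    have hd : 0 < 1 - t := by linarith
    have hd1 : 1 - t ≤ 1 := by linarith
    set ζ : ℝ := zeta ((a :: v).map (· + 1)) with hζ
    have e1 : LT t (shuffle (wd (word (u.map (· + 1)))) (wd (word ((a :: v).map (· + 1))))) =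
        Lf u t * Lf (a :: v) t := by
      rw [word_map, word_map, LT_shuffle hL ht0 ht1 (bw_mem _) (bw_mem _), LT_bw, LT_bw]
    rw [map_sub, e1, LT_stuffle hB hAb ht0 ht1]
    -- the first difference
    have b1 : |Lf u t| ≤ 2 * C1 * (1 - t) ^ (-(1 / 8) : ℝ) := by
      rw [hAb t ht0 ht1]
      exact grow_bound (by norm_num) (by norm_num) ht0 ht1 hC1
    have b2 : |Lf (a :: v) t - ζ| ≤ C2 * (1 + K0) * (1 - t) ^ (1 / 4 : ℝ) := by
      have h2 := decay_bound (s := 1 / 2) (by norm_num) (by norm_num) ht0 ht1 hC2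
      have e : (1 - t) * ∑' N : ℕ, (ζ - (win (a :: v) 0 N : ℝ)) * t ^ N =
          ζ - (1 - t) * ∑' N : ℕ, (win (a :: v) 0 N : ℝ) * t ^ N := by
        have e1 : ∀ N : ℕ, (ζ - (win (a :: v) 0 N : ℝ)) * t ^ N =
            ζ * t ^ N - (win (a :: v) 0 N : ℝ) * t ^ N := fun N => by ring
        simp only [e1]
        rw [((geom_sum ht0 ht1).mul_left _).tsum_sub (win_summable hB ht0 ht1 _), tsum_mul_left,
          mul_sub]
        have := geom_one ht0 ht1
        linear_combination ζ * this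
      rw [e, ← hAb t ht0 ht1, abs_sub_comm] at h2
      refine h2.trans (le_of_eq ?_)
      norm_num
    -- the second difference
    have hc : ∀ N : ℕ, |(win u 0 N : ℝ) * (ζ - (win (a :: v) 0 N : ℝ))| ≤
        C1 * C2 * ((N : ℝ) + 1) ^ (-(3 / 8) : ℝ) := by
      intro N
      rw [abs_mul]
      have hN : (0 : ℝ) < (N : ℝ) + 1 := by positivity
      calc |(win u 0 N : ℝ)| * |ζ - (win (a :: v) 0 N : ℝ)|
          ≤ (C1 * ((N : ℝ) + 1) ^ (1 / 8 : ℝ)) * (C2 * ((N : ℝ) + 1) ^ (-(1 / 2) : ℝ)) :=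
            mul_le_mul (hC1 N) (hC2 N) (abs_nonneg _) (by positivity)
        _ = C1 * C2 * (((N : ℝ) + 1) ^ (1 / 8 : ℝ) * ((N : ℝ) + 1) ^ (-(1 / 2) : ℝ)) := by ring
        _ = _ := by
          rw [← Real.rpow_add hN]
          norm_num
    have b3 := decay_bound (s := 3 / 8) (by norm_num) (by norm_num) ht0 ht1 hc
    have s2 : Summable fun N : ℕ => (win u 0 N : ℝ) * (win (a :: v) 0 N : ℝ) * t ^ N := by
      have := (stf_tsum (fun l N => (win l 0 N : ℝ) * t ^ N) (win_summable hB ht0 ht1) u (a :: v)).1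
      refine this.congr fun N => ?_
      exact stf_win N u (a :: v) _
    have e3 : (1 - t) * ∑' N : ℕ, ((win u 0 N : ℝ) * (ζ - (win (a :: v) 0 N : ℝ))) * t ^ N =
        ζ * Lf u t - (1 - t) * ∑' N : ℕ, (win u 0 N : ℝ) * (win (a :: v) 0 N : ℝ) * t ^ N := by
      have e1 : ∀ N : ℕ, ((win u 0 N : ℝ) * (ζ - (win (a :: v) 0 N : ℝ))) * t ^ N =
          ζ * ((win u 0 N : ℝ) * t ^ N) - (win u 0 N : ℝ) * (win (a :: v) 0 N : ℝ) * t ^ N :=
        fun N => by ring
      simp only [e1]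
      rw [((win_summable hB ht0 ht1 u).mul_left ζ).tsum_sub s2, tsum_mul_left, hAb t ht0 ht1 u]
      ring
    rw [e3] at b3
    have e4 : Lf u t * Lf (a :: v) t -
        (1 - t) * ∑' N : ℕ, (win u 0 N : ℝ) * (win (a :: v) 0 N : ℝ) * t ^ N =
        Lf u t * (Lf (a :: v) t - ζ) + (ζ * Lf u t -
          (1 - t) * ∑' N : ℕ, (win u 0 N : ℝ) * (win (a :: v) 0 N : ℝ) * t ^ N) := by ring
    rw [e4]
    refine (abs_add_le _ _).trans ?_
    rw [abs_mul, add_mul]
    refine add_le_add ?_ ?_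
    · calc |Lf u t| * |Lf (a :: v) t - ζ|
          ≤ (2 * C1 * (1 - t) ^ (-(1 / 8) : ℝ)) * (C2 * (1 + K0) * (1 - t) ^ (1 / 4 : ℝ)) :=
            mul_le_mul b1 b2 (abs_nonneg _) (by positivity)
        _ = 2 * C1 * (C2 * (1 + K0)) * ((1 - t) ^ (-(1 / 8) : ℝ) * (1 - t) ^ (1 / 4 : ℝ)) := by ring
        _ ≤ 2 * C1 * (C2 * (1 + K0)) * (1 - t) ^ (1 / 16 : ℝ) := by
            have hK := K0_nonneg
            apply mul_le_mul_of_nonneg_left _ (by positivity)
            rw [← Real.rpow_add hd]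
            exact Real.rpow_le_rpow_of_exponent_ge hd hd1 (by norm_num)
    · refine b3.trans ?_
      have hK := K0_nonneg
      apply mul_le_mul_of_nonneg_left _ (by positivity)
      exact Real.rpow_le_rpow_of_exponent_ge hd hd1 (by norm_num)

/-! ### the points `1 - e^{-n}` -/

/-- `t_n = 1 - e^{-n}` -/
noncomputable def tt (n : ℕ) : ℝ := 1 - Real.exp (-n)

theorem tt_nonneg (n : ℕ) : 0 ≤ tt n := by
  have : Real.exp (-(n : ℝ)) ≤ 1 := Real.exp_le_one_iff.2 (by simp)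
  unfold tt
  linarith

theorem tt_lt (n : ℕ) : tt n < 1 := by
  have := Real.exp_pos (-(n : ℝ))
  unfold tt
  linarith

theorem T_val (n : ℕ) : Lf [0] (tt n) = n := by
  have h0 := tt_nonneg n
  have h1 := tt_lt n
  have hs := Real.hasSum_pow_div_log_of_abs_lt_one (x := tt n) (by rw [abs_of_nonneg h0]; exact h1)
  have e : Real.log (1 - tt n) = -n := by
    unfold tt
    rw [sub_sub_cancel, Real.log_exp]
  rw [e, neg_neg] at hs
  have : Lf [0] (tt n) = ∑' m : ℕ, tt n ^ (m + 1) / ((m : ℝ) + 1) := by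
    unfold Lf
    refine tsum_congr fun m => ?_
    rw [win_nil]
    push_cast
    ring
  rw [this, hs.tsum_eq]

theorem pow_exp_tendsto (j : ℕ) {c : ℝ} (hc : 0 < c) (C : ℝ) :
    Tendsto (fun n : ℕ => C * (1 - tt n) ^ c * (n : ℝ) ^ j) atTop (𝓝 0) := by
  have h1 : Tendsto (fun x : ℝ => x ^ j * Real.exp (-c * x)) atTop (𝓝 0) := by
    have := tendsto_rpow_mul_exp_neg_mul_atTop_nhds_zero j c hc
    refine this.congr fun x => ?_
    rw [Real.rpow_natCast]
  have h2 := (h1.comp tendsto_natCast_atTop_atTop).const_mul C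
  rw [mul_zero] at h2
  refine h2.congr fun n => ?_
  have : (1 - tt n) ^ c = Real.exp (-c * n) := by
    unfold tt
    rw [sub_sub_cancel, ← Real.exp_mul]
    congr 1
    ring
  rw [this]
  simp only [Function.comp_apply]
  ring

/-- a polynomial which tends to zero along the natural numbers vanishes -/
theorem poly_zero {p : Polynomial ℝ} (h : Tendsto (fun n : ℕ => p.eval (n : ℝ)) atTop (𝓝 0)) :
    p = 0 := by
  by_contra hp
  rcases lt_or_ge 0 p.degree with hd | hd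
  · have h1 := (Polynomial.abs_tendsto_atTop p hd).comp (tendsto_natCast_atTop_atTop (R := ℝ))
    have h2 := h.abs
    rw [abs_zero] at h2
    exact not_tendsto_nhds_of_tendsto_atTop h1 0 h2
  · have e := Polynomial.eq_C_of_degree_le_zero hd
    have h3 : Tendsto (fun _ : ℕ => p.coeff 0) atTop (𝓝 0) := by
      refine h.congr fun n => ?_
      conv_lhs => rw [e]
      rw [Polynomial.eval_C]
    have h4 := tendsto_nhds_unique h3 tendsto_const_nhds
    apply hp
    rw [e, ← h4, Polynomial.C_0]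

end MP154526.Low.ZrdsM

namespace MP154526.Low

open Finset MP154526.Bound MP154526.Top MP154526.Top.Pass2 MP154526.Lin Filter Topology
open ZrdsM

/-- ZRDS -/
theorem specZrds (hL : SpecLsh) (hAb : SpecAbel) (hB : SpecBnd) : SpecZrds := by
  intro w₁ w₀ h1 h0 r hr
  obtain ⟨N, c, hc, hh, rfl⟩ := hr
  obtain ⟨C, hC⟩ := LT_diff hL hB hAb h1 h0
  rw [hh] at hC
  choose K hK using fun j => LT_H0 hB hAb (hc j)
  set p : Polynomial ℝ := ∑ j ∈ range (N + 1), Polynomial.C (Z (c j)) * Polynomial.X ^ j with hp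
  have hev : ∀ x : ℝ, p.eval x = ∑ j ∈ range (N + 1), Z (c j) * x ^ j := by
    intro x
    rw [hp, Polynomial.eval_finsetSum]
    refine Finset.sum_congr rfl fun j _ => ?_
    simp
  have hsum : ∀ n : ℕ, LT (tt n) (∑ j ∈ range (N + 1), shuffle (c j) (ypow j)) =
      ∑ j ∈ range (N + 1), LT (tt n) (c j) * (n : ℝ) ^ j := by
    intro n
    rw [map_sum]
    refine Finset.sum_congr rfl fun j _ => ?_
    rw [LT_shuffle hL (tt_nonneg n) (tt_lt n) (H0all_le (hc j)) (ypow_mem j),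
      LT_ypow hL (tt_nonneg n) (tt_lt n), T_val]
  have hlim : Tendsto (fun n : ℕ => p.eval (n : ℝ)) atTop (𝓝 0) := by
    refine squeeze_zero_norm (a := fun n : ℕ => C * (1 - tt n) ^ (1 / 16 : ℝ) * (n : ℝ) ^ 0 +
      ∑ j ∈ range (N + 1), K j * (1 - tt n) ^ (1 / 4 : ℝ) * (n : ℝ) ^ j) (fun n => ?_) ?_
    · have e : p.eval (n : ℝ) = LT (tt n) (∑ j ∈ range (N + 1), shuffle (c j) (ypow j)) -
          ∑ j ∈ range (N + 1), (LT (tt n) (c j) - Z (c j)) * (n : ℝ) ^ j := by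
        rw [hsum, hev, ← Finset.sum_sub_distrib]
        refine Finset.sum_congr rfl fun j _ => ?_
        ring
      rw [e, Real.norm_eq_abs]
      refine (abs_sub _ _).trans (add_le_add ?_ ?_)
      · rw [pow_zero, mul_one]
        exact hC _ (tt_nonneg n) (tt_lt n)
      · refine (Finset.abs_sum_le_sum_abs _ _).trans (Finset.sum_le_sum fun j _ => ?_)
        rw [abs_mul, abs_of_nonneg (pow_nonneg (Nat.cast_nonneg n) j : (0 : ℝ) ≤ (n : ℝ) ^ j)]
        exact mul_le_mul_of_nonneg_right (hK j _ (tt_nonneg n) (tt_lt n))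
          (pow_nonneg (Nat.cast_nonneg n) j)
    · have h2 := (pow_exp_tendsto 0 (c := 1 / 16) (by norm_num) C).add
        (tendsto_finsetSum (range (N + 1)) fun j _ =>
          pow_exp_tendsto j (c := 1 / 4) (by norm_num) (K j))
      simpa using h2
  have hp0 := poly_zero hlim
  have h3 := hev 0
  rw [hp0, Polynomial.eval_zero, Finset.sum_range_succ'] at h3
  simpa using h3.symm

end MP154526.Low
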