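import Pool.Agent.Lib.MP_154526_nt.Low.Spec
import Pool.Agent.Lib.MP_154526_nt.Lin.SpanL
import Pool.Agent.Lib.MP_154526_nt.Low.Ind
import Pool.Agent.Lib.MP_154526_nt.Low.Zrds

section
/-!
# EXACT: the final statement from the two bounds
-/
set_option autoImplicit false

namespace MP154526.Low

open Finset MP154526.Bound MP154526.Top

namespace Ex

/-- `H0 p` is finite dimensional -/
theorem finite_H0 (p : ℕ) : Module.Finite ℚ (H0 p) := by
  have hf : Set.Finite {w : List Bool | w.length = p} := List.finite_length_eq Bool p
  have h : Set.Finite {h : H | ∃ w, Adm w ∧ w.length = p ∧ h = wd w} :=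
    (hf.image wd).subset (by
      rintro h ⟨w, _, hw, rfl⟩
      exact ⟨w, hw, rfl⟩)
  exact Module.Finite.iff_fg.mpr ⟨h.toFinset, by rw [Set.Finite.coe_toFinset]; rfl⟩

theorem zeta_one_pos (k : ℕ) (hk : 2 ≤ k) : 0 < zeta [k] := by
  have hs : Summable fun n : ℕ => zs [] n / ((n : ℝ) + 1) ^ k := by
    have h1 : Summable fun n : ℕ => 1 / (n : ℝ) ^ k := Real.summable_one_div_nat_pow.2 (by omega)
    have h2 := (summable_nat_add_iff 1).2 h1
    refine h2.congr fun n => ?_
    simp [zs]
  show 0 < ∑' n : ℕ, zs [] n / ((n : ℝ) + 1) ^ k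
  refine hs.tsum_pos (fun n => ?_) 0 ?_
  · simp only [zs]
    positivity
  · simp [zs]

/-- the word of `ζ(k)` -/
theorem Z_zk (k : ℕ) : Z (wd (List.replicate (k + 1) false ++ [true])) = zeta [k + 2] := by
  unfold Z wd
  rw [Finsupp.linearCombination_single, one_smul]
  unfold Zw
  have : toY 0 (List.replicate (k + 1) false ++ [true]) = some [k + 1] := by
    have key : ∀ (a c : ℕ), toY c (List.replicate a false ++ [true]) = some [c + a] := by
      intro a
      induction a with
      | zero => intro c; cases c <;> rfl
      | succ a ih =>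
        intro c
        have h1 : toY c (List.replicate (a + 1) false ++ [true]) =
            toY (c + 1) (List.replicate a false ++ [true]) := by cases c <;> rfl
        rw [h1, ih]
        congr 2
        omega
    rw [key]
    simp
  rw [this]
  rfl

theorem Z_one : Z (wd []) = 1 := by
  unfold Z wd
  rw [Finsupp.linearCombination_single, one_smul]
  rfl

end Ex

open Ex in
theorem specExact (hL : SpecLower) (hA : Lin.SpecAnswer) (hR : SpecZrds) : SpecExact := by
  have kill : ∀ p, ∀ r ∈ RDS p, Z r = 0 := by
    rintro p r ⟨_, w₁, w₀, h1, h0, _, hr⟩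
    exact hR w₁ w₀ h1 h0 r hr
  have codim : ∀ p, Module.finrank ℚ
      (H0 p ⧸ (Submodule.span ℚ (RDS p)).comap (H0 p).subtype) = D p :=
    fun p => le_antisymm (hA p) (hL p)
  -- the restriction of `Z`
  let f : ∀ p, H0 p →ₗ[ℚ] ℝ := fun p => Z.domRestrict (H0 p)
  have hker : ∀ p, (Submodule.span ℚ (RDS p)).comap (H0 p).subtype ≤ LinearMap.ker (f p) := by
    intro p x hx
    rw [Submodule.mem_comap] at hx
    rw [LinearMap.mem_ker]
    show Z x.1 = 0
    have h1 : Submodule.span ℚ (RDS p) ≤ LinearMap.ker Z := by
      rw [Submodule.span_le]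
      intro r hr
      exact kill p r hr
    exact h1 hx
  have hrange : ∀ p, LinearMap.range (f p) = Submodule.map Z (H0 p) := by
    intro p
    ext y
    simp only [LinearMap.mem_range, Submodule.mem_map, f]
    constructor
    · rintro ⟨x, rfl⟩
      exact ⟨x.1, x.2, rfl⟩
    · rintro ⟨x, hx, rfl⟩
      exact ⟨⟨x, hx⟩, rfl⟩
  have e1 : ∀ p, Module.finrank ℚ (Submodule.map Z (H0 p)) +
      Module.finrank ℚ (LinearMap.ker (f p)) = Module.finrank ℚ (H0 p) := by
    intro p
    have := finite_H0 p
    rw [← hrange]
    exact LinearMap.finrank_range_add_finrank_ker (f p)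
  have e2 : ∀ p, D p + Module.finrank ℚ ((Submodule.span ℚ (RDS p)).comap (H0 p).subtype) =
      Module.finrank ℚ (H0 p) := by
    intro p
    have := finite_H0 p
    rw [← codim p]
    exact Submodule.finrank_quotient_add_finrank _
  have hiff : ∀ p, (∀ h ∈ H0 p, Z h = 0 → h ∈ Submodule.span ℚ (RDS p)) ↔
      Module.finrank ℚ (Submodule.map Z (H0 p)) = D p := by
    intro p
    have := finite_H0 p
    constructor
    · intro h
      have h1 : LinearMap.ker (f p) = (Submodule.span ℚ (RDS p)).comap (H0 p).subtype := by
        refine le_antisymm ?_ (hker p)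
        intro x hx
        exact h x.1 x.2 hx
      have a1 := e1 p
      have a2 := e2 p
      rw [h1] at a1
      omega
    · intro h
      have h1 : (Submodule.span ℚ (RDS p)).comap (H0 p).subtype = LinearMap.ker (f p) := by
        refine Submodule.eq_of_le_of_finrank_eq (hker p) ?_
        have a1 := e1 p
        have a2 := e2 p
        omega
      intro x hx hZ
      have : (⟨x, hx⟩ : H0 p) ∈ LinearMap.ker (f p) := hZ
      rw [← h1] at this
      exact this
  refine ⟨kill, codim, hiff, ?_⟩
  intro p hp
  rw [hiff p]
  have := finite_H0 p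
  have hle : Module.finrank ℚ (Submodule.map Z (H0 p)) ≤ D p := by
    have h3 := Submodule.finrank_mono (hker p)
    have a1 := e1 p
    have a2 := e2 p
    omega
  have hpos : ∀ h ∈ H0 p, Z h ≠ 0 → 1 ≤ Module.finrank ℚ (Submodule.map Z (H0 p)) := by
    intro h hh hZ
    have : Module.Finite ℚ (Submodule.map Z (H0 p)) := by
      rw [← hrange]
      infer_instance
    have : Nontrivial (Submodule.map Z (H0 p)) :=
      ⟨⟨⟨Z h, Submodule.mem_map_of_mem hh⟩, 0, fun h0 => hZ (congrArg Subtype.val h0)⟩⟩
    exact Module.finrank_pos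
  have hz : ∀ k, p = k + 2 → 1 ≤ Module.finrank ℚ (Submodule.map Z (H0 p)) := by
    rintro k rfl
    refine hpos (wd (List.replicate (k + 1) false ++ [true])) ?_ ?_
    · refine Submodule.subset_span ⟨_, Or.inr ⟨List.replicate k false, ?_⟩, by simp, rfl⟩
      rfl
    · rw [Z_zk]
      exact (zeta_one_pos _ (by omega)).ne'
  interval_cases p
  · refine le_antisymm hle ?_
    exact hpos (wd []) (Submodule.subset_span ⟨[], Or.inl rfl, rfl, rfl⟩) (by
      rw [Z_one]
      exact one_ne_zero)
  · exact le_antisymm hle (Nat.zero_le _)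
  · exact le_antisymm hle (hz 0 rfl)
  · exact le_antisymm hle (hz 1 rfl)
  · exact le_antisymm hle (hz 2 rfl)

end MP154526.Low
end

section
/-!
# The final statement in one weight, from the bounds
-/
set_option autoImplicit false

namespace MP154526.Low

open Finset MP154526.Bound MP154526.Top

/-- independence of the words in `xy`, `xyy` modulo the span of the relations -/
def SpecIndep : Prop :=
  ∀ (p : ℕ) (S : Finset (List Bool)) (c : List Bool → ℚ), (∀ s ∈ S, (expand s).length = p) →
    ∑ s ∈ S, c s • wd (expand s) ∈ Submodule.span ℚ (RDS p) → ∀ s ∈ S, c s = 0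

/-- all statements in weight `p` -/
structure Statement (p : ℕ) : Prop where
  /-- `Z` kills the regularised double shuffle elements -/
  kill : ∀ r ∈ RDS p, Z r = 0
  /-- the exact codimension -/
  codim : Module.rank ℚ (H0 p ⧸ (Submodule.span ℚ (RDS p)).comap (H0 p).subtype) = D p
  /-- the words in `xy` and `xyy` span `ℌ⁰_p` modulo the relations -/
  span : H0 p = Submodule.span ℚ (RDS p) ⊔
    Submodule.span ℚ {z | ∃ w, (expand w).length = p ∧ z = wd (expand w)}
  /-- and they are independent modulo the relations -/
  indep : LinearIndependent ℚ fun w : {w : List Bool // (expand w).length = p} =>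
    (Submodule.Quotient.mk (wd (expand w.1)) : H ⧸ Submodule.span ℚ (RDS p))
  /-- every linear map killing the relations: kernel and dimension of the image -/
  general : ∀ (M : Type) [AddCommGroup M] [Module ℚ M] (L : H →ₗ[ℚ] M), (∀ r ∈ RDS p, L r = 0) →
    ((∀ h ∈ H0 p, L h = 0 → h ∈ Submodule.span ℚ (RDS p)) ↔
      Module.rank ℚ (Submodule.map L (H0 p)) = D p)
  /-- the question in weight `p` is the dimension conjecture in weight `p` -/
  iff : (∀ h ∈ H0 p, Z h = 0 → h ∈ Submodule.span ℚ (RDS p)) ↔
    Module.rank ℚ (Submodule.map Z (H0 p)) = D p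
  /-- it is the linear independence of `D_p` explicit multiple zeta values -/
  iff' : (∀ h ∈ H0 p, Z h = 0 → h ∈ Submodule.span ℚ (RDS p)) ↔
    LinearIndependent ℚ fun w : {w : List Bool // (expand w).length = p} => Z (wd (expand w.1))
  /-- the question in weights at most 4 -/
  small : p ≤ 4 → ∀ h ∈ H0 p, Z h = 0 → h ∈ Submodule.span ℚ (RDS p)

namespace Ex

theorem expand_adm (u : List Bool) : Adm (expand u) := by
  have hend : ∀ u : List Bool, u ≠ [] → ∃ v, expand u = false :: v ++ [true] := by
    intro u
    induction u with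
    | nil => intro h; exact absurd rfl h
    | cons a u ih =>
      intro _
      by_cases hu : u = []
      · subst hu
        cases a
        · exact ⟨[], rfl⟩
        · exact ⟨[true], rfl⟩
      · obtain ⟨v, hv⟩ := ih hu
        cases a
        · exact ⟨true :: false :: v, by simp [expand, hv]⟩
        · exact ⟨true :: true :: false :: v, by simp [expand, hv]⟩
  by_cases h : u = []
  · subst h
    exact Or.inl rfl
  · obtain ⟨v, hv⟩ := hend u h
    exact Or.inr ⟨v, hv⟩

/-- kernel and image of a linear map killing the relations -/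
theorem general (p : ℕ)
    (codim : Module.finrank ℚ (H0 p ⧸ (Submodule.span ℚ (RDS p)).comap (H0 p).subtype) = D p)
    (M : Type) [AddCommGroup M] [Module ℚ M] (L : H →ₗ[ℚ] M) (kill : ∀ r ∈ RDS p, L r = 0) :
    (∀ h ∈ H0 p, L h = 0 → h ∈ Submodule.span ℚ (RDS p)) ↔
      Module.rank ℚ (Submodule.map L (H0 p)) = D p := by
  have := finite_H0 p
  let f : H0 p →ₗ[ℚ] M := L.domRestrict (H0 p)
  have hker : (Submodule.span ℚ (RDS p)).comap (H0 p).subtype ≤ LinearMap.ker f := by
    intro x hx
    rw [Submodule.mem_comap] at hx
    rw [LinearMap.mem_ker]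
    show L x.1 = 0
    have h1 : Submodule.span ℚ (RDS p) ≤ LinearMap.ker L := by
      rw [Submodule.span_le]
      intro r hr
      exact kill r hr
    exact h1 hx
  have hrange : LinearMap.range f = Submodule.map L (H0 p) := by
    ext y
    simp only [LinearMap.mem_range, Submodule.mem_map, f]
    constructor
    · rintro ⟨x, rfl⟩
      exact ⟨x.1, x.2, rfl⟩
    · rintro ⟨x, hx, rfl⟩
      exact ⟨⟨x, hx⟩, rfl⟩
  have hfin : Module.Finite ℚ (Submodule.map L (H0 p)) := by
    rw [← hrange]
    infer_instance
  have e1 : Module.finrank ℚ (Submodule.map L (H0 p)) +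
      Module.finrank ℚ (LinearMap.ker f) = Module.finrank ℚ (H0 p) := by
    rw [← hrange]
    exact LinearMap.finrank_range_add_finrank_ker f
  have e2 : D p + Module.finrank ℚ ((Submodule.span ℚ (RDS p)).comap (H0 p).subtype) =
      Module.finrank ℚ (H0 p) := by
    rw [← codim]
    exact Submodule.finrank_quotient_add_finrank _
  rw [← Module.finrank_eq_rank, Nat.cast_inj]
  constructor
  · intro h
    have h1 : LinearMap.ker f = (Submodule.span ℚ (RDS p)).comap (H0 p).subtype := by
      refine le_antisymm ?_ hker
      intro x hx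
      exact h x.1 x.2 hx
    rw [h1] at e1
    omega
  · intro h
    have h1 : (Submodule.span ℚ (RDS p)).comap (H0 p).subtype = LinearMap.ker f := by
      refine Submodule.eq_of_le_of_finrank_eq hker ?_
      omega
    intro x hx hZ
    have : (⟨x, hx⟩ : H0 p) ∈ LinearMap.ker f := hZ
    rw [← h1] at this
    exact this

end Ex

open Ex in
theorem statement (hL : SpecLower) (hA : Lin.SpecAnswer) (hR : SpecZrds) (hS : Lin.SpecSpan)
    (hI : SpecIndep) (p : ℕ) : Statement p := by
  have hE := specExact hL hA hR
  have hfin := finite_H0 p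
  have hle : Submodule.span ℚ {z : H | ∃ w, (expand w).length = p ∧ z = wd (expand w)} ≤ H0 p := by
    rw [Submodule.span_le]
    rintro _ ⟨w, hw, rfl⟩
    exact Submodule.subset_span ⟨_, expand_adm w, hw, rfl⟩
  have hRle : Submodule.span ℚ (RDS p) ≤ H0 p := by
    rw [Submodule.span_le]
    intro r hr
    exact hr.1
  have hspan : H0 p = Submodule.span ℚ (RDS p) ⊔
      Submodule.span ℚ {z | ∃ w, (expand w).length = p ∧ z = wd (expand w)} := by
    refine le_antisymm ?_ (sup_le hRle hle)
    rcases Nat.eq_zero_or_pos p with rfl | hp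
    · rw [H0, Submodule.span_le]
      rintro _ ⟨w, _, hw, rfl⟩
      have : w = [] := List.length_eq_zero_iff.1 hw
      subst this
      exact Submodule.mem_sup_right (Submodule.subset_span ⟨[], rfl, rfl⟩)
    · exact hS p
  have hgen := general p (hE.codim p)
  have hinj : Function.Injective expand := by
    intro u v h
    by_contra hne
    have h1 := hI (expand u).length {u, v} (fun s => if s = u then 1 else if s = v then -1 else 0)
      (by
        intro s hs
        rw [Finset.mem_insert, Finset.mem_singleton] at hs
        rcases hs with rfl | rfl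
        · rfl
        · rw [h])
      (by
        rw [Finset.sum_pair hne]
        simp only [if_true, if_neg (Ne.symm hne)]
        rw [h]
        simp)
      u (by simp)
    simp at h1
  have hind : ∀ (M : Type) [AddCommGroup M] [Module ℚ M] (L : H →ₗ[ℚ] M),
      (∀ r, r ∈ Submodule.span ℚ (RDS p) → L r = 0) →
      ((∀ h ∈ H0 p, L h = 0 → h ∈ Submodule.span ℚ (RDS p)) ↔
        LinearIndependent ℚ fun w : {w : List Bool // (expand w).length = p} =>
          L (wd (expand w.1))) := by
    intro M _ _ L hL0
    constructor
    · intro h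
      rw [linearIndependent_iff']
      intro s g hg i hi
      have h1 : ∑ x ∈ s.map (Function.Embedding.subtype _),
          (fun w => if h : (expand w).length = p then g ⟨w, h⟩ else 0) x • wd (expand x) ∈
            Submodule.span ℚ (RDS p) := by
        apply h
        · refine Submodule.sum_mem _ fun x hx => Submodule.smul_mem _ _ ?_
          rw [Finset.mem_map] at hx
          obtain ⟨y, _, rfl⟩ := hx
          exact hle (Submodule.subset_span ⟨y.1, y.2, rfl⟩)
        · rw [Finset.sum_map, map_sum]
          rw [← hg]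
          refine Finset.sum_congr rfl fun x _ => ?_
          rw [map_smul]
          simp [x.2]
      have h2 := hI p (s.map (Function.Embedding.subtype _))
        (fun w => if h : (expand w).length = p then g ⟨w, h⟩ else 0) (by
          intro x hx
          rw [Finset.mem_map] at hx
          obtain ⟨y, _, rfl⟩ := hx
          exact y.2) h1 i.1 (by
          rw [Finset.mem_map]
          exact ⟨i, hi, rfl⟩)
      simpa [i.2] using h2
    · intro h x hx hLx
      rw [hspan, Submodule.mem_sup] at hx
      obtain ⟨r, hr, z, hz, rfl⟩ := hx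
      have hz0 : L z = 0 := by
        rw [map_add, hL0 r hr, zero_add] at hLx
        exact hLx
      have hset : {z : H | ∃ w, (expand w).length = p ∧ z = wd (expand w)} =
          Set.range fun w : {w : List Bool // (expand w).length = p} => wd (expand w.1) := by
        ext z
        constructor
        · rintro ⟨w, hw, rfl⟩
          exact ⟨⟨w, hw⟩, rfl⟩
        · rintro ⟨w, rfl⟩
          exact ⟨w.1, w.2, rfl⟩
      rw [hset, Finsupp.mem_span_range_iff_exists_finsupp] at hz
      obtain ⟨c, rfl⟩ := hz
      have h3 : c = 0 := by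
        apply (linearIndependent_iff.1 h) c
        rw [Finsupp.linearCombination_apply]
        rw [Finsupp.sum, map_sum] at hz0
        rw [Finsupp.sum, ← hz0]
        exact Finset.sum_congr rfl fun w _ => by rw [map_smul]
      rw [h3]
      simpa using hr
  refine ⟨hE.kill p, ?_, hspan, ?_, hgen, hgen ℝ Z (hE.kill p), ?_, hE.small p⟩
  · rw [← Module.finrank_eq_rank]
    exact_mod_cast hE.codim p
  · have := (hind (H ⧸ Submodule.span ℚ (RDS p)) (Submodule.mkQ _) (fun r hr => by
      rw [Submodule.mkQ_apply, Submodule.Quotient.mk_eq_zero]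
      exact hr)).1 (fun h _ hh => by
      rw [Submodule.mkQ_apply, Submodule.Quotient.mk_eq_zero] at hh
      exact hh)
    exact this
  · refine hind ℝ Z fun r hr => ?_
    have h1 : Submodule.span ℚ (RDS p) ≤ LinearMap.ker Z := by
      rw [Submodule.span_le]
      intro r hr
      exact hE.kill p r hr
    exact h1 hr

end MP154526.Low
end

section
/-!
# LOWER: the words in `xy`, `xyy` are independent modulo the span of the relations
-/
set_option autoImplicit false

namespace MP154526.Low

open Finset MP154526.Bound MP154526.Top MP154526.Top.Pass2 MP154526.Lin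

namespace LowM

/-- the functionals of `RR` kill the regularised double shuffle elements -/
theorem kill {p : ℕ} {φ : List Bool → ℤ} (h : RR p φ) (r : H) (hr : r ∈ RDS p) : lin φ r = 0 := by
  classical
  have hA := specAlg
  set φ' : List Bool → ℤ := fun w => if w.length = p then φ w else 0 with hφ'
  have hsh : ∀ u v : List Bool, linL φ' (sh u v) =
      if u.length + v.length = p then ((shs φ u v : ℤ) : ℚ) else 0 := by
    intro u v
    have h1 := map_sh (linL φ').toAddMonoidHom u v
    simp only [LinearMap.toAddMonoidHom_coe, linL_wd] at h1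
    rw [h1]
    split_ifs with hl
    · have h2 := shs_map (Int.castAddHom ℚ) φ u v
      simp only [Int.coe_castAddHom] at h2
      rw [h2]
      refine shs_congr_len _ _ fun l hll => ?_
      rw [hφ']
      simp only
      rw [if_pos (by omega)]
    · rw [← shs_zero (M := ℚ) u v]
      refine shs_congr_len _ _ fun l hll => ?_
      rw [hφ']
      simp only
      rw [if_neg (by omega), Int.cast_zero]
  have add' : ∀ a b c : H, shuffle a (b + c) = shuffle a b + shuffle a c := fun a b c => by
    rw [hA.comm, hA.add, hA.comm b, hA.comm c]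
  have smul' : ∀ (r : ℚ) (a b : H), shuffle a (r • b) = r • shuffle a b := fun r a b => by
    rw [hA.comm, hA.smul, hA.comm b]
  have zero' : ∀ a : H, shuffle a 0 = 0 := fun a => by
    have := smul' 0 a 0
    rwa [zero_smul, zero_smul] at this
  have hY : ∀ g ∈ ZrdsM.S1, linL φ' (shuffle (wd [true]) g) = 0 := by
    intro g hg
    induction hg using Submodule.span_induction with
    | mem x hx =>
      obtain ⟨l, rfl⟩ := hx
      rw [shuffle_wd, hsh]
      split_ifs with hl
      · have h2 := h.reg 1 (bw l) (le_refl _) (endY_bw l) (by simpa using hl)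
        have e : List.replicate 1 true = [true] := rfl
        rw [e] at h2
        rw [h2, Int.cast_zero]
      · rfl
    | zero => rw [zero', map_zero]
    | add x y _ _ h1 h2 => rw [add', map_add, h1, h2, add_zero]
    | smul r x _ h => rw [smul', map_smul, h, smul_zero]
  obtain ⟨hr0, w₁, w₀, hi1, hi0, hw, N, c, hc, hsum, hrc⟩ := hr
  have e1 : linL φ' (∑ j ∈ range (N + 1), shuffle (c j) (ypow j)) = linL φ' r := by
    rw [Finset.sum_range_succ', map_add, map_sum, Finset.sum_eq_zero]
    · rw [zero_add, hrc]
      show linL φ' (shuffle (c 0) (wd [])) = _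
      rw [hA.comm, hA.one]
    · intro j _
      show linL φ' (shuffle (c (j + 1)) (shuffle (wd [true]) (ypow j))) = 0
      have e2 : shuffle (c (j + 1)) (shuffle (wd [true]) (ypow j)) =
          shuffle (wd [true]) (shuffle (c (j + 1)) (ypow j)) := by
        rw [← hA.assoc, hA.comm (c (j + 1)), hA.assoc]
      rw [e2]
      exact hY _ (ZrdsM.shuffle_mem (ZrdsM.H0all_le (hc _)) (ZrdsM.ypow_mem j))
  obtain ⟨u, rfl⟩ := ZrdsM.idx_map hi1
  obtain ⟨v, rfl⟩ := ZrdsM.idx_map hi0.1
  have hwt : ∀ l : List ℕ, (l.map (· + 1)).sum = wt l := by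
    intro l
    induction l with
    | nil => rfl
    | cons a l ih =>
      rw [List.map_cons, List.sum_cons, ih, wt_cons]
  rw [hwt, hwt] at hw
  have hAd : Ad v := by
    intro a ha
    have := hi0.2 (a + 1) (by
      cases v with
      | nil => simp at ha
      | cons b v =>
        simp only [List.head?_cons, Option.mem_def, Option.some.injEq] at ha
        subst ha
        simp)
    omega
  have e3 : linL φ' (shuffle (wd (word (u.map (· + 1)))) (wd (word (v.map (· + 1)))) -
      stuffle (u.map (· + 1)) (v.map (· + 1))) = 0 := by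
    rw [map_sub, word_map, word_map, shuffle_wd, hsh, if_pos (by rw [bw_length, bw_length, hw]),
      stuffle_eq, h.rds u v hAd hw, sub_eq_zero]
    have h1 := stf_map (Int.castAddHom ℚ) (fun l => φ (bw l)) u v
    have h2 := stf_map (linL φ').toAddMonoidHom (fun l => wd (bw l)) u v
    simp only [Int.coe_castAddHom] at h1
    simp only [LinearMap.toAddMonoidHom_coe, linL_wd] at h2
    rw [h1, h2]
    refine stf_congr _ _ fun l hl => ?_
    rw [hφ']
    simp only
    rw [if_pos (by rw [bw_length]; omega)]
  rw [hsum, e1] at e3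
  have e4 : linL φ r = linL φ' r := by
    clear e1 e3 hsum hrc
    rw [H0] at hr0
    induction hr0 using Submodule.span_induction with
    | mem x hx =>
      obtain ⟨w, _, hw, rfl⟩ := hx
      rw [linL_wd, linL_wd, hφ']
      simp only
      rw [if_pos hw]
    | zero => rw [map_zero, map_zero]
    | add x y _ _ h1 h2 => rw [map_add, map_add, h1, h2]
    | smul r x _ h => rw [map_smul, map_smul, h]
  rw [Pass2.lin_eq, e4, e3]

end LowM

open LowM in
theorem specIndep (hI : SpecIndW) : SpecIndep := by
  classical
  intro p S c hS hmem s hs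
  -- clear denominators
  set d : ℤ := ∏ s ∈ S, ((c s).den : ℤ) with hd
  have hd0 : d ≠ 0 := Finset.prod_ne_zero_iff.2 fun s _ => by exact_mod_cast (c s).den_nz
  set c' : List Bool → ℤ := fun s => (∏ t ∈ S.erase s, ((c t).den : ℤ)) * (c s).num with hc'
  have hcc : ∀ s ∈ S, (c' s : ℚ) = d * c s := by
    intro s hs
    rw [hc', hd, ← Finset.mul_prod_erase S _ hs]
    push_cast
    have h1 := Rat.mul_den_eq_num (c s)
    rw [← h1]
    ring
  have key := hI p S c' hS (by
    intro φ hφ
    have hkill : ∀ x ∈ Submodule.span ℚ (RDS p), linL φ x = 0 := by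
      intro x hx
      induction hx using Submodule.span_induction with
      | mem x hx => rw [← Pass2.lin_eq]; exact kill hφ x hx
      | zero => exact map_zero _
      | add x y _ _ h1 h2 => rw [map_add, h1, h2, add_zero]
      | smul r x _ h => rw [map_smul, h, smul_zero]
    have h1 := hkill _ hmem
    rw [map_sum] at h1
    simp only [map_smul, linL_wd, smul_eq_mul] at h1
    have h2 : ((∑ s ∈ S, c' s * φ (expand s) : ℤ) : ℚ) = d * ∑ s ∈ S, c s * (φ (expand s) : ℚ) := by
      push_cast
      rw [Finset.mul_sum]
      refine Finset.sum_congr rfl fun s hs => ?_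
      rw [hcc s hs]
      ring
    rw [h1, mul_zero] at h2
    exact_mod_cast h2) s hs
  have h3 := hcc s hs
  rw [key, Int.cast_zero] at h3
  rcases mul_eq_zero.1 h3.symm with h4 | h4
  · exact absurd (by exact_mod_cast h4) hd0
  · exact h4

theorem specLower (hI : SpecIndW) : SpecLower := by
  classical
  intro p
  obtain ⟨W, hW, hWc⟩ := FinN.exists_words p
  have hfin := Ex.finite_H0 p
  have hmem : ∀ w : W, wd (expand w.1) ∈ H0 p := fun w =>
    Submodule.subset_span ⟨expand w.1, Ex.expand_adm _, (hW w.1).1 w.2, rfl⟩
  let f : W → (H0 p ⧸ (Submodule.span ℚ (RDS p)).comap (H0 p).subtype) :=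
    fun w => Submodule.Quotient.mk ⟨wd (expand w.1), hmem w⟩
  have hli : LinearIndependent ℚ f := by
    rw [Fintype.linearIndependent_iff]
    intro g hg i
    have h1 : Submodule.Quotient.mk (∑ w : W, g w • (⟨wd (expand w.1), hmem w⟩ : H0 p)) =
        (0 : H0 p ⧸ (Submodule.span ℚ (RDS p)).comap (H0 p).subtype) := by
      rw [← hg]
      simp only [f]
      rw [← Submodule.mkQ_apply, map_sum]
      simp only [map_smul, Submodule.mkQ_apply]
    rw [Submodule.Quotient.mk_eq_zero, Submodule.mem_comap] at h1
    have h2 : (H0 p).subtype (∑ w : W, g w • (⟨wd (expand w.1), hmem w⟩ : H0 p)) =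
        ∑ s ∈ W, (if hs : s ∈ W then g ⟨s, hs⟩ else 0) • wd (expand s) := by
      rw [map_sum]
      rw [← Finset.sum_coe_sort W]
      refine Finset.sum_congr rfl fun w _ => ?_
      rw [dif_pos w.2]
      rfl
    rw [h2] at h1
    have h3 := specIndep hI p W _ (fun s hs => (hW s).1 hs) h1 i.1 i.2
    simpa using h3
  have h4 := hli.fintype_card_le_finrank
  rw [Fintype.card_coe, hWc] at h4
  exact h4

end MP154526.Low
end
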