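import Pool.Agent.Lib.MP_154526_nt.Low.Abel
import Pool.Agent.Lib.MP_154526_nt.Top.Span

/-!
# Module LSH: the shuffle product of multiple polylogarithms
-/

set_option autoImplicit false

namespace MP154526.Low

open Finset MP154526.Bound MP154526.Top MP154526.Top.Pass2 MP154526.Lin

namespace Lsh

open Bnd

/-- coefficients of the multiple polylogarithms -/
noncomputable def cw : List Bool → ℕ → ℝ
  | [], n => if n = 0 then 1 else 0
  | true :: w, n => (∑ m ∈ range n, cw w m) / n
  | false :: w, n => cw w n / n

theorem cw_nil (n : ℕ) : cw [] n = if n = 0 then 1 else 0 := rfl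

theorem cw_true (w : List Bool) (n : ℕ) : cw (true :: w) n = (∑ m ∈ range n, cw w m) / n := rfl

theorem cw_false (w : List Bool) (n : ℕ) : cw (false :: w) n = cw w n / n := rfl

theorem cw_cons_zero (a : Bool) (w : List Bool) : cw (a :: w) 0 = 0 := by
  cases a
  · rw [cw_false]; simp
  · rw [cw_true]; simp

theorem cw_zero_of_ne {w : List Bool} (h : w ≠ []) : cw w 0 = 0 := by
  cases w with
  | nil => exact absurd rfl h
  | cons a w => exact cw_cons_zero a w

theorem cw_nonneg (w : List Bool) (n : ℕ) : 0 ≤ cw w n := by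
  induction w generalizing n with
  | nil => rw [cw_nil]; split_ifs <;> norm_num
  | cons a w ih =>
    cases a
    · rw [cw_false]; exact div_nonneg (ih n) (Nat.cast_nonneg n)
    · rw [cw_true]; exact div_nonneg (sum_nonneg fun m _ => ih m) (Nat.cast_nonneg n)

theorem cw_le (w : List Bool) (n : ℕ) : cw w n ≤ ((n : ℝ) + 1) ^ w.length := by
  induction w generalizing n with
  | nil => rw [cw_nil]; split_ifs <;> simp
  | cons a w ih =>
    rcases Nat.eq_zero_or_pos n with rfl | hn
    · rw [cw_cons_zero]; positivity
    have hn1 : (1 : ℝ) ≤ n := by exact_mod_cast hn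
    have hpos : (0 : ℝ) < n := by linarith
    have hle : ((n : ℝ) + 1) ^ w.length ≤ ((n : ℝ) + 1) ^ (w.length + 1) :=
      pow_le_pow_right₀ (by linarith) (by omega)
    cases a
    · rw [cw_false, List.length_cons]
      refine (div_le_self (cw_nonneg w n) hn1).trans ((ih n).trans hle)
    · rw [cw_true, List.length_cons]
      have h1 : ∑ m ∈ range n, cw w m ≤ n * ((n : ℝ) + 1) ^ w.length := by
        have : ∀ m ∈ range n, cw w m ≤ ((n : ℝ) + 1) ^ w.length := by
          intro m hm
          have hm' : (m : ℝ) ≤ n := by exact_mod_cast (mem_range.1 hm).le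
          exact (ih m).trans (pow_le_pow_left₀ (by positivity) (by linarith) _)
        refine (sum_le_sum this).trans ?_
        rw [sum_const, card_range, nsmul_eq_mul]
      refine le_trans ?_ hle
      rw [div_le_iff₀ hpos, mul_comm]
      exact h1

theorem cw_rep (a : ℕ) (w : List Bool) (n : ℕ) :
    cw (List.replicate a false ++ true :: w) n = cw (true :: w) n / (n : ℝ) ^ a := by
  induction a with
  | zero => simp
  | succ a ih =>
    rw [List.replicate_succ, List.cons_append, cw_false, ih, pow_succ, div_div]

theorem cw_bw_cons (a : ℕ) (l : List ℕ) (n : ℕ) :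
    cw (bw (a :: l)) n = (∑ m ∈ range n, cw (bw l) m) / (n : ℝ) ^ (a + 1) := by
  rw [bw, cw_rep, cw_true, div_div, pow_succ, mul_comm]

theorem sum_cw (l : List ℕ) (n : ℕ) : ∑ m ∈ range (n + 1), cw (bw l) m = wr l n := by
  induction l generalizing n with
  | nil =>
    rw [wr_nil, bw]
    rw [sum_range_succ']
    simp [cw_nil]
  | cons a l ih =>
    induction n with
    | zero => rw [sum_range_one, wr_cons_zero, cw_bw_cons]; simp
    | succ n ihn =>
      rw [sum_range_succ, ihn, cw_bw_cons, ih, wr_cons_succ]
      push_cast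
      rfl

theorem cw_bw_succ (a : ℕ) (l : List ℕ) (n : ℕ) :
    cw (bw (a :: l)) (n + 1) = wr l n / ((n : ℝ) + 1) ^ (a + 1) := by
  rw [cw_bw_cons, sum_cw]
  push_cast
  rfl

theorem cw_snoc_false (w : List Bool) (n : ℕ) : cw (w ++ [false]) n = 0 := by
  induction w generalizing n with
  | nil =>
    rw [List.nil_append, cw_false, cw_nil]
    rcases Nat.eq_zero_or_pos n with rfl | hn
    · simp
    · rw [if_neg (by omega), zero_div]
  | cons a w ih =>
    cases a
    · rw [List.cons_append, cw_false, ih, zero_div]
    · rw [List.cons_append, cw_true]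
      simp [ih]

/-! ### the power series -/

/-- the formal power series of the word `w` -/
noncomputable def F (w : List Bool) : PowerSeries ℝ := PowerSeries.mk (cw w)

theorem coeff_F (w : List Bool) (n : ℕ) : PowerSeries.coeff n (F w) = cw w n :=
  PowerSeries.coeff_mk _ _

theorem F_nil : F [] = 1 := by
  ext n
  rw [coeff_F, cw_nil, PowerSeries.coeff_one]

/-- `θ = t d/dt` -/
noncomputable def th (f : PowerSeries ℝ) : PowerSeries ℝ := PowerSeries.mk fun n => n * PowerSeries.coeff n f

theorem coeff_th (f : PowerSeries ℝ) (n : ℕ) :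
    PowerSeries.coeff n (th f) = n * PowerSeries.coeff n f := PowerSeries.coeff_mk _ _

theorem th_add (f g : PowerSeries ℝ) : th (f + g) = th f + th g := by
  ext n
  simp only [coeff_th, map_add]
  ring

theorem th_zero : th 0 = 0 := by
  ext n
  simp [coeff_th]

/-- `θ` as an additive map -/
noncomputable def thA : PowerSeries ℝ →+ PowerSeries ℝ where
  toFun := th
  map_zero' := th_zero
  map_add' := th_add

theorem th_mul (f g : PowerSeries ℝ) : th (f * g) = th f * g + f * th g := by
  ext n
  rw [coeff_th, map_add, PowerSeries.coeff_mul, PowerSeries.coeff_mul, PowerSeries.coeff_mul,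
    mul_sum, ← sum_add_distrib]
  refine sum_congr rfl fun p hp => ?_
  rw [coeff_th, coeff_th]
  have : (n : ℝ) = p.1 + p.2 := by
    rw [← (mem_antidiagonal.1 hp)]
    push_cast
    rfl
  rw [this]
  ring

theorem th_inj {f g : PowerSeries ℝ} (h : th f = th g)
    (h0 : PowerSeries.coeff 0 f = PowerSeries.coeff 0 g) : f = g := by
  ext n
  rcases Nat.eq_zero_or_pos n with rfl | hn
  · exact h0
  · have := congrArg (PowerSeries.coeff n) h
    rw [coeff_th, coeff_th] at this
    have hn' : (n : ℝ) ≠ 0 := by exact_mod_cast hn.ne'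
    exact mul_left_cancel₀ hn' this

/-- `t/(1-t)` -/
noncomputable def G : PowerSeries ℝ := PowerSeries.mk fun n => if n = 0 then 0 else 1

theorem coeff_G_mul (f : PowerSeries ℝ) (n : ℕ) :
    PowerSeries.coeff n (G * f) = ∑ m ∈ range n, PowerSeries.coeff m f := by
  rw [mul_comm, PowerSeries.coeff_mul,
    Finset.Nat.sum_antidiagonal_eq_sum_range_succ
      (fun i j => PowerSeries.coeff i f * PowerSeries.coeff j G) n, sum_range_succ]
  rw [G, PowerSeries.coeff_mk, if_pos (Nat.sub_self n), mul_zero, add_zero]
  refine sum_congr rfl fun m hm => ?_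
  rw [PowerSeries.coeff_mk, if_neg (by have := mem_range.1 hm; omega), mul_one]

/-- the differential form of the letter -/
noncomputable def om (a : Bool) : PowerSeries ℝ := if a then G else 1

theorem th_F (a : Bool) (w : List Bool) (h : a = true ∨ w ≠ []) : th (F (a :: w)) = om a * F w := by
  ext n
  rw [coeff_th, coeff_F]
  cases a
  · have hw : w ≠ [] := by simpa using h
    rw [om, if_neg (by simp), one_mul, coeff_F, cw_false]
    rcases Nat.eq_zero_or_pos n with rfl | hn
    · rw [cw_zero_of_ne hw]; simp
    · have hn' : (n : ℝ) ≠ 0 := by exact_mod_cast hn.ne'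
      field_simp
  · rw [om, if_pos rfl, coeff_G_mul, cw_true]
    simp only [coeff_F]
    rcases Nat.eq_zero_or_pos n with rfl | hn
    · simp
    · have hn' : (n : ℝ) ≠ 0 := by exact_mod_cast hn.ne'
      field_simp

theorem coeff_shs (f : List Bool → PowerSeries ℝ) (u v : List Bool) (n : ℕ) :
    PowerSeries.coeff n (shs f u v) = shs (fun w => PowerSeries.coeff n (f w)) u v :=
  shs_map (PowerSeries.coeff n).toAddMonoidHom f u v

theorem th_shs (a : Bool) (u v : List Bool) (h : u ≠ [] ∨ v ≠ []) :
    th (shs (fun l => F (a :: l)) u v) = om a * shs F u v := by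
  have h1 : th (shs (fun l => F (a :: l)) u v) = shs (fun l => th (F (a :: l))) u v :=
    shs_map thA _ u v
  rw [h1]
  have h2 : shs (fun l => th (F (a :: l))) u v = shs (fun l => om a * F l) u v := by
    refine shs_congr_len u v fun l hl => th_F a l (Or.inr ?_)
    rintro rfl
    rcases h with h | h
    · exact h (List.length_eq_zero_iff.1 (by simp at hl; omega))
    · exact h (List.length_eq_zero_iff.1 (by simp at hl; omega))
  rw [h2]
  exact (shs_map (AddMonoidHom.mulLeft (om a)) F u v).symm

theorem F_shs (u v : List Bool) (hu : EndY u) (hv : EndY v) : shs F u v = F u * F v := by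
  induction u, v using shs_induct with
  | h0 W => rw [shs_nil_left, F_nil, one_mul]
  | h1 a σ => rw [shs_nil_right, F_nil, mul_one]
  | h2 a σ c W ha hb =>
    have hσ := Pass1.endY_tail hu
    have hW := Pass1.endY_tail hv
    refine th_inj ?_ ?_
    · rw [shs_cons_cons, th_add, th_shs a _ _ (Or.inr (by simp)), th_shs c _ _ (Or.inl (by simp)),
        ha hσ hv, hb hu hW, th_mul]
      have e : ∀ (a : Bool) (σ : List Bool), EndY (a :: σ) → a = true ∨ σ ≠ [] := by
        intro a σ h
        cases a
        · right
          rintro rfl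
          rcases h with h | ⟨u, h⟩
          · simp at h
          · have := congrArg List.getLast? h
            simp at this
        · exact Or.inl rfl
      rw [th_F a σ (e a σ hu), th_F c W (e c W hv)]
      ring
    · rw [coeff_shs]
      have h1 : shs (fun w => PowerSeries.coeff 0 (F w)) (a :: σ) (c :: W) = 0 := by
        have : shs (fun w => PowerSeries.coeff 0 (F w)) (a :: σ) (c :: W) =
            shs (fun _ => (0 : ℝ)) (a :: σ) (c :: W) := by
          refine shs_congr_len _ _ fun l hl => ?_
          rw [coeff_F]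
          refine cw_zero_of_ne ?_
          rintro rfl
          simp at hl
        rw [this, shs_zero]
      rw [h1, PowerSeries.coeff_mul]
      symm
      refine sum_eq_zero fun p hp => ?_
      have hp1 : p.1 = 0 := by have := mem_antidiagonal.1 hp; omega
      rw [coeff_F, hp1, cw_cons_zero, zero_mul]

/-! ### evaluation -/

/-- evaluation at `t` -/
noncomputable def ev (t : ℝ) (f : PowerSeries ℝ) : ℝ := ∑' n : ℕ, PowerSeries.coeff n f * t ^ n

/-- convergence at `t` -/
def Cv (t : ℝ) (f : PowerSeries ℝ) : Prop := Summable fun n : ℕ => PowerSeries.coeff n f * t ^ n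

theorem Cv_F {t : ℝ} (h0 : 0 ≤ t) (h1 : t < 1) (w : List Bool) : Cv t (F w) := by
  refine Summable.of_nonneg_of_le (fun n => ?_) (fun n => ?_) (Abel.summable_pow w.length h0 h1)
  · rw [coeff_F]; exact mul_nonneg (cw_nonneg w n) (by positivity)
  · rw [coeff_F]; exact mul_le_mul_of_nonneg_right (cw_le w n) (by positivity)

theorem ev_shs (t : ℝ) (f : List Bool → PowerSeries ℝ) (hf : ∀ w, Cv t (f w)) (u v : List Bool) :
    Cv t (shs f u v) ∧ ev t (shs f u v) = shs (fun w => ev t (f w)) u v := by
  induction u, v using shs_induct generalizing f with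
  | h0 W => simpa using hf W
  | h1 a σ => simpa using hf (a :: σ)
  | h2 a σ c W ha hb =>
    obtain ⟨s1, e1⟩ := ha (fun l => f (a :: l)) fun w => hf _
    obtain ⟨s2, e2⟩ := hb (fun l => f (c :: l)) fun w => hf _
    rw [shs_cons_cons, shs_cons_cons, ← e1, ← e2]
    have hadd : ∀ n : ℕ, PowerSeries.coeff n
        (shs (fun l => f (a :: l)) σ (c :: W) + shs (fun l => f (c :: l)) (a :: σ) W) * t ^ n =
        PowerSeries.coeff n (shs (fun l => f (a :: l)) σ (c :: W)) * t ^ n +
          PowerSeries.coeff n (shs (fun l => f (c :: l)) (a :: σ) W) * t ^ n := by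
      intro n
      rw [map_add, add_mul]
    refine ⟨?_, ?_⟩
    · exact (s1.add s2).congr fun n => (hadd n).symm
    · rw [ev, tsum_congr hadd]
      exact s1.tsum_add s2

theorem ev_mul {t : ℝ} (h0 : 0 ≤ t) (h1 : t < 1) (u v : List Bool) :
    ev t (F u * F v) = ev t (F u) * ev t (F v) := by
  have su := (Cv_F h0 h1 u).norm
  have sv := (Cv_F h0 h1 v).norm
  rw [ev, ev, ev, tsum_mul_tsum_eq_tsum_sum_antidiagonal_of_summable_norm su sv]
  refine tsum_congr fun n => ?_
  rw [PowerSeries.coeff_mul, sum_mul]
  refine sum_congr rfl fun p hp => ?_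
  rw [← mem_antidiagonal.1 hp, pow_add]
  ring

theorem ev_F {t : ℝ} (h0 : 0 ≤ t) (h1 : t < 1) (w : List Bool) :
    ev t (F w) = (toY 0 w).elim 0 fun l => Lf l t := by
  rcases List.eq_nil_or_concat w with rfl | ⟨u, b, rfl⟩
  · rw [F_nil]
    have : toY 0 [] = some [] := rfl
    rw [this]
    simp only [Option.elim, Lf, ev]
    rw [tsum_eq_single 0]
    · simp
    · intro n hn
      rw [PowerSeries.coeff_one, if_neg hn, zero_mul]
  · rw [List.concat_eq_append]
    cases b
    · rw [toY_snoc_false]
      simp only [Option.elim, ev, coeff_F, cw_snoc_false, zero_mul, tsum_zero]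
    · obtain ⟨l, hl, hne⟩ := exists_bw_of_true u
      rw [hl, toY_bw]
      cases l with
      | nil => exact absurd rfl hne
      | cons a l =>
        simp only [Option.elim, Lf]
        have hs := Cv_F h0 h1 (bw (a :: l))
        rw [ev, hs.tsum_eq_zero_add, coeff_F, cw_bw_cons]
        simp only [range_zero, sum_empty, zero_div, zero_mul, zero_add]
        refine tsum_congr fun n => ?_
        rw [coeff_F, cw_bw_succ]
        rfl

theorem endY_bw (l : List ℕ) : EndY (bw l) := by
  induction l with
  | nil => exact Or.inl rfl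
  | cons a l ih =>
    rw [bw]
    right
    rcases ih with h | ⟨u, h⟩
    · rw [h]
      exact ⟨List.replicate a false, rfl⟩
    · rw [h]
      exact ⟨List.replicate a false ++ true :: u, by simp⟩

theorem specLsh : SpecLsh := by
  intro t h0 h1 u v
  have e : (fun w : List Bool => (toY 0 w).elim 0 fun l => Lf l t) = fun w => ev t (F w) := by
    funext w
    rw [ev_F h0 h1]
  rw [e, ← (ev_shs t F (Cv_F h0 h1) (bw u) (bw v)).2, F_shs _ _ (endY_bw u) (endY_bw v),
    ev_mul h0 h1, ev_F h0 h1, ev_F h0 h1, toY_bw, toY_bw]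
  rfl

end Lsh

theorem specLsh : SpecLsh := Lsh.specLsh

end MP154526.Low
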