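import Pool.Agent.Lib.MP_154526_nt.Low.Spec
import Pool.Agent.Lib.MP_154526_nt.Low.ExW
import Pool.Agent.Lib.MP_154526_nt.Lin.Basic

/-!
# PIW: `ζ(2,…,2) ≠ 0`, integral form
-/

set_option autoImplicit false

namespace MP154526.Low

open Finset MP154526.Bound MP154526.Top MP154526.Top.Front MP154526.Top.Pass2 MP154526.Lin

namespace PiW

/-! ### positivity -/

theorem zs_nonneg (l : List ℕ) (N : ℕ) : 0 ≤ zs l N := by
  induction l generalizing N with
  | nil => exact zero_le_one
  | cons k ks ih =>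
    show (0 : ℝ) ≤ ∑ n ∈ range N, zs ks n / ((n : ℝ) + 1) ^ k
    exact sum_nonneg fun n _ => div_nonneg (ih n) (by positivity)

theorem summ : Summable fun n : ℕ => 1 / ((n : ℝ) + 1) ^ 2 := by
  have h1 := (summable_nat_add_iff 1).2 (Real.summable_one_div_nat_pow.2 (by norm_num : 1 < 2))
  refine h1.congr fun n => ?_
  simp

theorem zs_bound (k : ℕ) : ∃ B : ℝ, ∀ N, zs (List.replicate k 2) N ≤ B := by
  induction k with
  | zero => exact ⟨1, fun N => le_rfl⟩
  | succ k ih =>
    obtain ⟨B, hB⟩ := ih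
    refine ⟨B * ∑' n : ℕ, 1 / ((n : ℝ) + 1) ^ 2, fun N => ?_⟩
    have hB0 : 0 ≤ B := (zs_nonneg _ 0).trans (hB 0)
    rw [List.replicate_succ]
    show ∑ n ∈ range N, zs (List.replicate k 2) n / ((n : ℝ) + 1) ^ 2 ≤ _
    calc ∑ n ∈ range N, zs (List.replicate k 2) n / ((n : ℝ) + 1) ^ 2
        ≤ ∑ n ∈ range N, B * (1 / ((n : ℝ) + 1) ^ 2) := by
          refine sum_le_sum fun n _ => ?_
          rw [mul_one_div]
          exact div_le_div_of_nonneg_right (hB n) (by positivity)
      _ = B * ∑ n ∈ range N, 1 / ((n : ℝ) + 1) ^ 2 := by rw [mul_sum]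
      _ ≤ B * ∑' n : ℕ, 1 / ((n : ℝ) + 1) ^ 2 :=
          mul_le_mul_of_nonneg_left
            (summ.sum_le_tsum _ fun n _ => by positivity) hB0

theorem zs_pos (k N : ℕ) (h : k ≤ N) : 0 < zs (List.replicate k 2) N := by
  induction k generalizing N with
  | zero => exact zero_lt_one
  | succ k ih =>
    rw [List.replicate_succ]
    show 0 < ∑ n ∈ range N, zs (List.replicate k 2) n / ((n : ℝ) + 1) ^ 2
    refine sum_pos' (fun n _ => div_nonneg (zs_nonneg _ _) (by positivity))
      ⟨k, mem_range.2 (by omega), div_pos (ih k le_rfl) (by positivity)⟩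

theorem zeta_pos (m : ℕ) : 0 < zeta (List.replicate m 2) := by
  rcases m with _ | m
  · exact zero_lt_one
  · rw [List.replicate_succ]
    obtain ⟨B, hB⟩ := zs_bound m
    have h0 : ∀ n : ℕ, 0 ≤ zs (List.replicate m 2) n / ((n : ℝ) + 1) ^ 2 := fun n =>
      div_nonneg (zs_nonneg _ _) (by positivity)
    have hs : Summable fun n : ℕ => zs (List.replicate m 2) n / ((n : ℝ) + 1) ^ 2 := by
      refine Summable.of_nonneg_of_le h0 (fun n => ?_) (summ.mul_left B)
      rw [mul_one_div]
      exact div_le_div_of_nonneg_right (hB n) (by positivity)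
    exact hs.tsum_pos h0 m (div_pos (zs_pos m m le_rfl) (by positivity))

/-! ### the word `(xy)^m` -/

theorem toY_zp (m : ℕ) : toY 0 (zp m) = some (List.replicate m 1) := by
  induction m with
  | zero => rfl
  | succ m ih =>
    show (toY 0 (zp m)).map (List.cons (0 + 1)) = _
    rw [ih]
    rfl

theorem zw_zp (m : ℕ) : Zw (zp m) = zeta (List.replicate m 2) := by
  unfold Zw
  rw [toY_zp]
  simp

theorem zp_snoc (m : ℕ) : zp (m + 1) = zp m ++ [false, true] := by
  induction m with
  | zero => rfl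
  | succ m ih =>
    show false :: true :: zp (m + 1) = (false :: true :: zp m) ++ [false, true]
    rw [ih]
    rfl

theorem adm_zp (m : ℕ) : Adm (zp m) := by
  rcases m with _ | _ | m
  · exact Or.inl rfl
  · exact Or.inr ⟨[], rfl⟩
  · refine Or.inr ⟨true :: (zp m ++ [false]), ?_⟩
    show false :: true :: zp (m + 1) = _
    rw [zp_snoc]
    simp

theorem len_zp (m : ℕ) : (zp m).length = 2 * m := by
  induction m with
  | zero => rfl
  | succ m ih =>
    show (zp m).length + 1 + 1 = _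
    omega

/-! ### points kill the relations -/

theorem pt_y {Φ : List Bool → ℝ} (h : Pt Φ) (j : ℕ) (hj : 1 ≤ j) :
    Φ (List.replicate j true) = 0 := by
  obtain ⟨j, rfl⟩ : ∃ i, j = i + 1 := ⟨j - 1, by omega⟩
  have h1 := shs_rep_rep true 1 j Φ
  rw [h.sh, List.replicate_one, h.zy, zero_mul, add_comm 1 j, Nat.choose_one_right,
    nsmul_eq_mul] at h1
  rcases mul_eq_zero.1 h1.symm with h2 | h2
  · exact absurd h2 (by positivity)
  · exact h2

theorem pt_rr {Φ : List Bool → ℝ} (h : Pt Φ) (n : ℕ) : RR n Φ where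
  reg j w hj _ _ := by rw [h.sh, pt_y h j hj, zero_mul]
  rds u v hv _ := by rw [h.sh, h.st u v hv]

end PiW

open PiW in
/-- module PIW -/
theorem specPiW (hP : SpecPtR) : SpecPiW := by
  intro m
  obtain ⟨Φ, hΦ, hZ⟩ := hP
  have h0 : Φ (zp m) ≠ 0 := by
    rw [hZ _ (adm_zp m), zw_zp]
    exact (zeta_pos m).ne'
  obtain ⟨μ, hμ⟩ : ∃ μ : Module.Dual ℚ ℝ, μ (Φ (zp m)) ≠ 0 := by
    by_contra hc
    push Not at hc
    exact h0 ((Module.forall_dual_apply_eq_zero_iff ℚ _).1 hc)
  have h1 := RR.map μ.toAddMonoidHom (pt_rr hΦ (2 * m))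
  obtain ⟨N, ψ, hN, h2⟩ := ExW.clear (2 * m) fun w => μ.toAddMonoidHom (Φ w)
  have h3 := RR.map (AddMonoidHom.mulLeft (N : ℚ)) h1
  refine ⟨ψ, ⟨fun j w hj hw hn => ?_, fun u v hv hn => ?_⟩, ?_⟩
  · have h4 := h3.reg j w hj hw hn
    rw [← shs_congr_len (F := fun w => (Int.castAddHom ℚ) (ψ w)) _ _
      (fun l hl => by
        rw [List.length_replicate, hn] at hl
        simpa using h2 l hl), ← shs_map, Int.coe_castAddHom] at h4
    exact Int.cast_injective (α := ℚ) (by simpa using h4)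
  · have h4 := h3.rds u v hv hn
    rw [← shs_congr_len (F := fun w => (Int.castAddHom ℚ) (ψ w)) _ _
      (fun l hl => by
        rw [ExW.len_bw, ExW.len_bw, hn] at hl
        simpa using h2 l hl), ← shs_map, Int.coe_castAddHom] at h4
    rw [← stf_congr (f := fun l => (Int.castAddHom ℚ) (ψ (bw l))) u v
      (fun l hl => by simpa using h2 (bw l) (by rw [ExW.len_bw]; omega)),
      ← stf_map (Int.castAddHom ℚ) (fun l => ψ (bw l)), Int.coe_castAddHom] at h4
    exact Int.cast_injective (α := ℚ) (by simpa using h4)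
  · have h9 := h2 (zp m) (len_zp m)
    intro h10
    rw [h10, Int.cast_zero] at h9
    rcases mul_eq_zero.1 h9.symm with h11 | h11
    · exact hN (by exact_mod_cast h11)
    · exact hμ h11

end MP154526.Low
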