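import Pool.Agent.Lib.MP_154526_nt.Low.Spec
import Pool.Agent.Lib.MP_154526_nt.Top.Alg
import Pool.Agent.Lib.MP_154526_nt.Top.Pass2Main

/-!
# PTR: the real solution of the regularised double shuffle equations

`Φ(w) = Z(E_y (E_x w))`, `E_x`, `E_y` the projections onto the kernels of the derivations
(remove a trailing `x`), (remove a leading `y`) along the ideals generated by `x`, `y`.
-/

set_option autoImplicit false

namespace MP154526.Low.PTR

open Finset MP154526.Bound MP154526.Top MP154526.Top.Pass2 MP154526.Lin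

/-! ### locally nilpotent derivations with a slice -/

section Slice

variable {A : Type} [CommRing A] [Algebra ℚ A]

/-- `D` is locally nilpotent and `D t = 1` -/
structure Slice (D : Derivation ℚ A A) (t : A) : Prop where
  one : D t = 1
  nil : ∀ a, ∃ n, ((D : A →ₗ[ℚ] A) ^ n) a = 0

variable {D : Derivation ℚ A A} {t : A}

theorem Slice.pw (h : Slice D t) (b : A) : ∀ k : ℕ, ((D : A →ₗ[ℚ] A) ^ (k + 1)) (t * b) =
    ((k : ℚ) + 1) • ((D : A →ₗ[ℚ] A) ^ k) b + t * ((D : A →ₗ[ℚ] A) ^ (k + 1)) b
  | 0 => by
    simp only [zero_add, pow_one, pow_zero, Module.End.one_apply, Derivation.coeFn_coe,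
      Derivation.leibniz, h.one, smul_eq_mul, mul_one, CharP.cast_eq_zero, one_smul]
    ring
  | k + 1 => by
    conv_lhs => rw [pow_succ', Module.End.mul_apply, h.pw b k, map_add, map_smul,
      Derivation.coeFn_coe, Derivation.leibniz, h.one, smul_eq_mul, smul_eq_mul, mul_one]
    have e1 : D (((D : A →ₗ[ℚ] A) ^ k) b) = ((D : A →ₗ[ℚ] A) ^ (k + 1)) b := by
      rw [pow_succ', Module.End.mul_apply, Derivation.coeFn_coe]
    have e2 : D (((D : A →ₗ[ℚ] A) ^ (k + 1)) b) = ((D : A →ₗ[ℚ] A) ^ (k + 1 + 1)) b := by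
      rw [pow_succ' _ (k + 1), Module.End.mul_apply, Derivation.coeFn_coe]
    rw [e1, e2]
    push_cast
    rw [add_smul ((k : ℚ) + 1) 1, one_smul]
    abel

theorem Slice.inj' (h : Slice D t) : ∀ (n : ℕ) (b : A), ((D : A →ₗ[ℚ] A) ^ n) b = 0 →
    D (t * b) = 0 → b = 0
  | 0, b, hb, _ => by simpa using hb
  | n + 1, b, hb, h0 => by
    have h1 : ((D : A →ₗ[ℚ] A) ^ (n + 1)) (t * b) = 0 := by
      rw [pow_succ, Module.End.mul_apply, Derivation.coeFn_coe, h0, map_zero]
    rw [h.pw b n, hb, mul_zero, add_zero] at h1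
    have hne : (n : ℚ) + 1 ≠ 0 := by positivity
    exact h.inj' n b ((smul_eq_zero.1 h1).resolve_left hne) h0

theorem Slice.inj (h : Slice D t) {b : A} (h0 : D (t * b) = 0) : b = 0 := by
  obtain ⟨n, hn⟩ := h.nil b
  exact h.inj' n b hn h0

theorem Slice.exp (h : Slice D t) (B : Subalgebra ℚ A) (ht : t ∈ B) (hB : ∀ b ∈ B, D b ∈ B) :
    ∀ (n : ℕ) (a : A), a ∈ B → ((D : A →ₗ[ℚ] A) ^ n) a = 0 →
      ∃ c : ℕ → A, (∀ j, c j ∈ B ∧ D (c j) = 0) ∧ a = ∑ j ∈ range n, c j * t ^ j
  | 0, a, _, h0 => ⟨fun _ => 0, fun _ => ⟨B.zero_mem, map_zero D⟩, by simpa using h0⟩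
  | n + 1, a, ha, h0 => by
    obtain ⟨c, hc, hs⟩ := h.exp B ht hB n (D a) (hB a ha) (by
      rw [pow_succ, Module.End.mul_apply, Derivation.coeFn_coe] at h0
      exact h0)
    refine ⟨fun j => Nat.casesOn j (a - ∑ j ∈ range n, (((j : ℚ) + 1)⁻¹) • (c j * t ^ (j + 1)))
      (fun j => (((j : ℚ) + 1)⁻¹) • c j), ?_, ?_⟩
    · intro j
      cases j with
      | zero =>
        refine ⟨B.sub_mem ha (B.sum_mem fun j _ => B.smul_mem (B.mul_mem (hc j).1
          (B.pow_mem ht _)) _), ?_⟩
        show D (a - _) = 0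
        rw [map_sub, map_sum, hs, sub_eq_zero]
        refine Finset.sum_congr rfl fun j _ => ?_
        have hne : (j : ℚ) + 1 ≠ 0 := by positivity
        rw [D.map_smul, Derivation.leibniz, (hc j).2, Derivation.leibniz_pow, h.one]
        simp only [Nat.add_sub_cancel, smul_eq_mul, mul_one, mul_zero, add_zero]
        rw [← Nat.cast_smul_eq_nsmul ℚ (j + 1) (t ^ j), mul_smul_comm, smul_smul]
        push_cast
        rw [inv_mul_cancel₀ hne, one_smul]
      | succ j =>
        refine ⟨B.smul_mem (hc j).1 _, ?_⟩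
        show D (_ • c j) = 0
        rw [D.map_smul, (hc j).2, smul_zero]
    · have : ∑ j ∈ range n, (((j : ℚ) + 1)⁻¹) • (c j * t ^ (j + 1)) =
          ∑ j ∈ range n, (((j : ℚ) + 1)⁻¹ • c j) * t ^ (j + 1) :=
        Finset.sum_congr rfl fun j _ => (smul_mul_assoc _ _ _).symm
      rw [Finset.sum_range_succ', this]
      show a = _ + (a - _) * t ^ 0
      rw [pow_zero, mul_one]
      exact (add_sub_cancel _ _).symm

theorem Slice.ex (h : Slice D t) (a : A) : ∃ k, D k = 0 ∧ ∃ b, a = k + t * b := by
  obtain ⟨n, hn⟩ := h.nil a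
  have hn' : ((D : A →ₗ[ℚ] A) ^ (n + 1)) a = 0 := by
    rw [pow_succ', Module.End.mul_apply, hn, map_zero]
  obtain ⟨c, hc, hs⟩ := h.exp ⊤ (Algebra.mem_top) (fun _ _ => Algebra.mem_top) (n + 1) a
    Algebra.mem_top hn'
  refine ⟨c 0, (hc 0).2, ∑ j ∈ range n, c (j + 1) * t ^ j, ?_⟩
  rw [hs, Finset.sum_range_succ', pow_zero, mul_one, add_comm, Finset.mul_sum]
  congr 1
  exact Finset.sum_congr rfl fun j _ => by ring

/-- the projection to the kernel of `D` along the ideal generated by `t` -/
noncomputable def Slice.pr (h : Slice D t) (a : A) : A := Classical.choose (h.ex a)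

theorem Slice.D_pr (h : Slice D t) (a : A) : D (h.pr a) = 0 := (Classical.choose_spec (h.ex a)).1

theorem Slice.pr_spec (h : Slice D t) (a : A) : ∃ b, a = h.pr a + t * b :=
  (Classical.choose_spec (h.ex a)).2

theorem Slice.pr_eq (h : Slice D t) {a k b : A} (hk : D k = 0) (ha : a = k + t * b) :
    h.pr a = k := by
  obtain ⟨b', hb'⟩ := h.pr_spec a
  have h1 : t * (b - b') = h.pr a - k := by
    have h3 := ha.symm.trans hb'
    rw [mul_sub, sub_eq_sub_iff_add_eq_add, add_comm, h3]
  have h2 : b - b' = 0 := h.inj (by rw [h1, map_sub, h.D_pr, hk, sub_zero])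
  rw [h2, mul_zero] at h1
  exact (sub_eq_zero.1 h1.symm)

theorem Slice.pr_self (h : Slice D t) {k : A} (hk : D k = 0) : h.pr k = k :=
  h.pr_eq (b := 0) hk (by rw [mul_zero, add_zero])

theorem Slice.pr_t (h : Slice D t) : h.pr t = 0 :=
  h.pr_eq (b := 1) (map_zero D) (by rw [mul_one, zero_add])

/-- the projection as a homomorphism of algebras -/
noncomputable def Slice.E (h : Slice D t) : A →ₐ[ℚ] A :=
  AlgHom.ofLinearMap
    { toFun := h.pr
      map_add' := fun a a' => by
        obtain ⟨b, hb⟩ := h.pr_spec a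
        obtain ⟨b', hb'⟩ := h.pr_spec a'
        refine h.pr_eq (b := b + b') (by rw [map_add, h.D_pr, h.D_pr, add_zero]) ?_
        conv_lhs => rw [hb, hb']
        ring
      map_smul' := fun r a => by
        obtain ⟨b, hb⟩ := h.pr_spec a
        refine h.pr_eq (b := r • b) (by
          rw [RingHom.id_apply, D.map_smul, h.D_pr, smul_zero]) ?_
        conv_lhs => rw [hb]
        rw [smul_add, mul_smul_comm]
        rfl }
    (h.pr_self (Derivation.map_one_eq_zero D))
    (fun a a' => by
      obtain ⟨b, hb⟩ := h.pr_spec a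
      obtain ⟨b', hb'⟩ := h.pr_spec a'
      refine h.pr_eq (b := h.pr a * b' + b * h.pr a' + t * b * b') (by
        show D (h.pr a * h.pr a') = 0
        rw [Derivation.leibniz, h.D_pr, h.D_pr, smul_zero, smul_zero, add_zero]) ?_
      show a * a' = h.pr a * h.pr a' + _
      conv_lhs => rw [hb, hb']
      ring)

theorem Slice.D_E (h : Slice D t) (a : A) : D (h.E a) = 0 := h.D_pr a

theorem Slice.E_self (h : Slice D t) {k : A} (hk : D k = 0) : h.E k = k := h.pr_self hk

theorem Slice.E_t (h : Slice D t) : h.E t = 0 := h.pr_t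

/-- the expansion in powers of `t` -/
theorem Slice.expand (h : Slice D t) (B : Subalgebra ℚ A) (ht : t ∈ B) (hB : ∀ b ∈ B, D b ∈ B)
    (a : A) (ha : a ∈ B) : ∃ (N : ℕ) (c : ℕ → A), (∀ j, c j ∈ B ∧ D (c j) = 0) ∧
      a = ∑ j ∈ range (N + 1), c j * t ^ j ∧ h.E a = c 0 := by
  obtain ⟨n, hn⟩ := h.nil a
  have hn' : ((D : A →ₗ[ℚ] A) ^ (n + 1)) a = 0 := by
    rw [pow_succ', Module.End.mul_apply, hn, map_zero]
  obtain ⟨c, hc, hs⟩ := h.exp B ht hB (n + 1) a ha hn'
  refine ⟨n, c, hc, hs, h.pr_eq (b := ∑ j ∈ range n, c (j + 1) * t ^ j) (hc 0).2 ?_⟩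
  rw [hs, Finset.sum_range_succ', pow_zero, mul_one, add_comm, Finset.mul_sum]
  congr 1
  exact Finset.sum_congr rfl fun j _ => by ring

theorem Slice.E_mem (h : Slice D t) (B : Subalgebra ℚ A) (ht : t ∈ B) (hB : ∀ b ∈ B, D b ∈ B)
    (a : A) (ha : a ∈ B) : h.E a ∈ B := by
  obtain ⟨N, c, hc, _, he⟩ := h.expand B ht hB a ha
  rw [he]
  exact (hc 0).1

end Slice

/-! ### the shuffle algebra -/

/-- the shuffle algebra -/
def Sh : Type := H

noncomputable instance : AddCommGroup Sh := inferInstanceAs (AddCommGroup H)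

noncomputable instance : Module ℚ Sh := inferInstanceAs (Module ℚ H)

noncomputable instance : CommRing Sh :=
  { (inferInstance : AddCommGroup Sh) with
    mul := fun a b => shuffle a b
    one := wd []
    mul_assoc := Alg.shuffle_assoc
    one_mul := Alg.shuffle_one_left
    mul_one := Alg.shuffle_one_right
    mul_comm := Alg.shuffle_comm
    left_distrib := Alg.shuffle_add_right
    right_distrib := Alg.shuffle_add_left
    zero_mul := Alg.shuffle_zero_left
    mul_zero := Alg.shuffle_zero_right }

noncomputable instance : Algebra ℚ Sh :=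
  Algebra.ofModule Alg.shuffle_smul_left Alg.shuffle_smul_right

theorem mul_def (a b : Sh) : a * b = shuffle a b := rfl

/-- remove a trailing `x` -/
noncomputable def dx : H →ₗ[ℚ] H :=
  Finsupp.lcomapDomain (fun w : List Bool => w ++ [false]) fun _ _ h => List.append_cancel_right h

/-- remove a leading `y` -/
noncomputable def dy : H →ₗ[ℚ] H :=
  Finsupp.lcomapDomain (fun w : List Bool => true :: w) fun _ _ h => by simpa using h

theorem dx_apply (a : H) (w : List Bool) : dx a w = a (w ++ [false]) := rfl

theorem dy_apply (a : H) (w : List Bool) : dy a w = a (true :: w) := rfl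

theorem wd_apply (u w : List Bool) : wd u w = if u = w then 1 else 0 := Finsupp.single_apply

theorem dx_snoc (a : Bool) (u : List Bool) :
    dx (wd (u ++ [a])) = if a = false then wd u else 0 := by
  ext w
  rw [dx_apply, wd_apply]
  by_cases ha : a = false
  · subst ha
    simp [wd_apply]
  · rw [if_neg ha, if_neg]
    · rfl
    · intro h
      exact ha (by simpa using (List.append_inj' h rfl).2)

theorem dx_nil : dx (wd []) = 0 := by
  ext w
  rw [dx_apply, wd_apply, if_neg]
  · rfl
  · intro h
    simpa using congrArg List.length h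

theorem dy_cons (a : Bool) (u : List Bool) :
    dy (wd (a :: u)) = if a = true then wd u else 0 := by
  ext w
  rw [dy_apply, wd_apply]
  by_cases ha : a = true
  · subst ha
    simp [wd_apply]
  · rw [if_neg ha, if_neg]
    · rfl
    · intro h
      exact ha (by simpa using (List.cons.inj h).1)

theorem dy_nil : dy (wd []) = 0 := by
  ext w
  rw [dy_apply, wd_apply, if_neg]
  · rfl
  · simp

theorem shs_snoc {α M : Type} [AddCommMonoid M] (a c : α) (σ W : List α) (F : List α → M) :
    shs F (σ ++ [a]) (W ++ [c]) =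
      shs (fun l => F (l ++ [a])) σ (W ++ [c]) + shs (fun l => F (l ++ [c])) (σ ++ [a]) W := by
  induction σ generalizing W F with
  | nil =>
      induction W generalizing F with
      | nil =>
          simp only [List.nil_append, shs_cons_cons, shs_nil_left, shs_nil_right]
          simp [add_comm]
      | cons w W ihW =>
          simp only [List.nil_append, List.cons_append] at ihW ⊢
          rw [shs_cons_cons, ihW, shs_cons_cons]
          simp only [shs_nil_left, List.cons_append]
          abel
  | cons x σ ih =>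
      induction W generalizing F with
      | nil =>
          have h1 := ih [] (fun l => F (x :: l))
          simp only [List.nil_append, List.cons_append, shs_nil_right] at h1 ⊢
          rw [shs_cons_cons, h1, shs_cons_cons]
          simp only [shs_nil_right, List.cons_append]
          abel
      | cons w W ihW =>
          simp only [List.cons_append] at ihW ⊢
          have h1 := ih (w :: W) (fun l => F (x :: l))
          have h2 := ihW (fun l => F (w :: l))
          simp only [List.cons_append] at h1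
          rw [shs_cons_cons, h1, h2, shs_cons_cons (fun l => F (l ++ [a])),
            shs_cons_cons (fun l => F (l ++ [c]))]
          simp only [List.cons_append]
          abel

theorem shs_wd (u v : List Bool) : shs (fun l => wd l) u v = sh u v :=
  (map_sh (AddMonoidHom.id H) u v).symm

theorem shs_ite (p : Prop) [Decidable p] (u v : List Bool) :
    shs (fun l => if p then wd l else 0) u v = if p then sh u v else 0 := by
  split_ifs with h
  · exact shs_wd u v
  · exact shs_zero u v

theorem dx_sh (u v : List Bool) :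
    dx (sh u v) = shuffle (dx (wd u)) (wd v) + shuffle (wd u) (dx (wd v)) := by
  have h0 := map_sh (dx : H →+ H) u v
  have e : dx (sh u v) = shs (fun l => dx (wd l)) u v := h0
  rw [e]
  rcases List.eq_nil_or_concat u with rfl | ⟨u, a, rfl⟩
  · rw [dx_nil, Alg.shuffle_zero_left, zero_add, Alg.shuffle_one_left, shs_nil_left]
  rcases List.eq_nil_or_concat v with rfl | ⟨v, b, rfl⟩
  · rw [dx_nil, Alg.shuffle_zero_right, add_zero, Alg.shuffle_one_right, shs_nil_right]
  rw [List.concat_eq_append, List.concat_eq_append, shs_snoc]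
  simp only [dx_snoc]
  rw [shs_ite, shs_ite]
  congr 1
  · split_ifs
    · rw [Alg.shuffle_wd]
    · rw [Alg.shuffle_zero_left]
  · split_ifs
    · rw [Alg.shuffle_wd]
    · rw [Alg.shuffle_zero_right]

theorem dy_sh (u v : List Bool) :
    dy (sh u v) = shuffle (dy (wd u)) (wd v) + shuffle (wd u) (dy (wd v)) := by
  have h0 := map_sh (dy : H →+ H) u v
  have e : dy (sh u v) = shs (fun l => dy (wd l)) u v := h0
  rw [e]
  rcases u with _ | ⟨a, u⟩
  · rw [dy_nil, Alg.shuffle_zero_left, zero_add, Alg.shuffle_one_left, shs_nil_left]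
  rcases v with _ | ⟨b, v⟩
  · rw [dy_nil, Alg.shuffle_zero_right, add_zero, Alg.shuffle_one_right, shs_nil_right]
  rw [shs_cons_cons]
  simp only [dy_cons]
  rw [shs_ite, shs_ite]
  congr 1
  · split_ifs
    · rw [Alg.shuffle_wd]
    · rw [Alg.shuffle_zero_left]
  · split_ifs
    · rw [Alg.shuffle_wd]
    · rw [Alg.shuffle_zero_right]

/-- a linear map which is a derivation on words is a derivation -/
theorem leib (d : H →ₗ[ℚ] H) (hd : ∀ u v : List Bool,
    d (sh u v) = shuffle (d (wd u)) (wd v) + shuffle (wd u) (d (wd v))) (a b : H) :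
    d (shuffle a b) = shuffle (d a) b + shuffle a (d b) := by
  have key : Alg.S.compr₂ d = Alg.S.comp d + Alg.S.compl₂ d := by
    refine Alg.ext_wd fun u => Alg.ext_wd fun v => ?_
    simp only [LinearMap.compr₂_apply, LinearMap.add_apply, LinearMap.comp_apply,
      LinearMap.compl₂_apply, Alg.S_apply, Alg.shuffle_wd]
    exact hd u v
  have := congrArg (fun f => f a b) key
  simpa only [LinearMap.compr₂_apply, LinearMap.add_apply, LinearMap.comp_apply,
    LinearMap.compl₂_apply, Alg.S_apply] using this

/-- a derivation of the shuffle algebra -/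
noncomputable def mkD (d : H →ₗ[ℚ] H) (hd : ∀ u v : List Bool,
    d (sh u v) = shuffle (d (wd u)) (wd v) + shuffle (wd u) (d (wd v))) : Derivation ℚ Sh Sh :=
  Derivation.mk' (R := ℚ) (A := Sh) (M := Sh) d fun a b => by
    exact (leib d hd a b).trans ((add_comm _ _).trans
      (congrArg₂ (· + ·) rfl (Alg.shuffle_comm _ _)))

/-- the derivations -/
noncomputable def Dx : Derivation ℚ Sh Sh := mkD dx dx_sh

/-- the derivations -/
noncomputable def Dy : Derivation ℚ Sh Sh := mkD dy dy_sh

theorem Dx_apply (a : H) : Dx (a : Sh) = (dx a : H) := rfl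

theorem Dy_apply (a : H) : Dy (a : Sh) = (dy a : H) := rfl

/-- the coefficient -/
def coe (a : Sh) (w : List Bool) : ℚ := (show H from a) w

theorem powx (n : ℕ) : ∀ (a : Sh) (w : List Bool),
    coe (((Dx : Sh →ₗ[ℚ] Sh) ^ n) a) w = coe a (w ++ List.replicate n false) := by
  induction n with
  | zero =>
    intro a w
    rw [pow_zero, Module.End.one_apply, List.replicate_zero, List.append_nil]
  | succ n ih =>
    intro a w
    rw [pow_succ, Module.End.mul_apply, ih, List.replicate_succ', ← List.append_assoc]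
    rfl

theorem powy (n : ℕ) : ∀ (a : Sh) (w : List Bool),
    coe (((Dy : Sh →ₗ[ℚ] Sh) ^ n) a) w = coe a (List.replicate n true ++ w) := by
  induction n with
  | zero =>
    intro a w
    rw [pow_zero, Module.End.one_apply, List.replicate_zero, List.nil_append]
  | succ n ih =>
    intro a w
    rw [pow_succ, Module.End.mul_apply, ih, List.replicate_succ, List.cons_append]
    rfl

theorem bound (a : H) : ∃ n : ℕ, ∀ w : List Bool, n ≤ w.length → a w = 0 := by
  refine ⟨a.support.sup List.length + 1, fun w hw => ?_⟩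
  by_contra h
  have := Finset.le_sup (f := List.length) (Finsupp.mem_support_iff.2 h)
  omega

theorem slx : Slice Dx (wd [false] : H) where
  one := by
    show (dx (wd [false]) : H) = wd []
    have := dx_snoc false []
    simpa using this
  nil := fun a => by
    obtain ⟨n, hn⟩ := bound a
    exact ⟨n, Finsupp.ext fun w => (powx n a w).trans (hn _ (by simp))⟩

theorem sly : Slice Dy (wd [true] : H) where
  one := by
    show (dy (wd [true]) : H) = wd []
    have := dy_cons true []
    simpa using this
  nil := fun a => by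
    obtain ⟨n, hn⟩ := bound a
    exact ⟨n, Finsupp.ext fun w => (powy n a w).trans (hn _ (by simp))⟩

/-- the kernel of `Dx` -/
noncomputable def KX : Subalgebra ℚ Sh where
  carrier := {a | Dx a = 0}
  mul_mem' := fun {a b} ha hb => by
    show Dx (a * b) = 0
    rw [Derivation.leibniz, show Dx a = 0 from ha, show Dx b = 0 from hb, smul_zero, smul_zero,
      add_zero]
  add_mem' := fun {a b} ha hb => by
    show Dx (a + b) = 0
    rw [map_add, show Dx a = 0 from ha, show Dx b = 0 from hb, add_zero]
  algebraMap_mem' := fun r => Derivation.map_algebraMap Dx r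

theorem y_mem : (wd [true] : H) ∈ KX := by
  show (dx (wd [true]) : H) = 0
  have := dx_snoc true []
  simpa using this

theorem Dy_mem (b : Sh) (hb : b ∈ KX) : Dy b ∈ KX := by
  have h : (dx (show H from b) : H) = 0 := hb
  show (dx (dy (show H from b)) : H) = 0
  have e : dx (dy (show H from b)) = dy (dx (show H from b)) := Finsupp.ext fun w => rfl
  rw [e, h, map_zero]

/-- the kernels of the two derivations intersect in `ℌ⁰` -/
theorem mem_H0all (h : H) (hx : dx h = 0) (hy : dy h = 0) : h ∈ H0all := by
  have hA : ∀ w, h w ≠ 0 → Adm w := by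
    intro w hw
    rcases w with _ | ⟨a, w⟩
    · exact Or.inl rfl
    cases a with
    | true =>
      exfalso
      have := congrArg (fun f : H => f w) hy
      exact hw this
    | false =>
      rcases List.eq_nil_or_concat w with rfl | ⟨w, b, rfl⟩
      · exfalso
        have := congrArg (fun f : H => f []) hx
        exact hw this
      · rw [List.concat_eq_append] at *
        cases b with
        | true => exact Or.inr ⟨w, rfl⟩
        | false =>
          exfalso
          have := congrArg (fun f : H => f (false :: w)) hx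
          exact hw this
  rw [← Finsupp.sum_single h, Finsupp.sum]
  refine Submodule.sum_mem _ fun w hw => ?_
  have : Finsupp.single w (h w) = h w • wd w := by
    rw [wd, Finsupp.smul_single, smul_eq_mul, mul_one]
  rw [this]
  exact Submodule.smul_mem _ _ (Submodule.subset_span ⟨w, hA w (Finsupp.mem_support_iff.1 hw), rfl⟩)

theorem H0all_of {a : Sh} (hx : a ∈ KX) (hy : Dy a = 0) : (show H from a) ∈ H0all :=
  mem_H0all _ hx hy

/-- the regularisation `ℚ⟨x,y⟩ → ℌ⁰` -/
noncomputable def G : Sh →ₐ[ℚ] Sh := sly.E.comp slx.E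

theorem G_mem (a : Sh) : (show H from G a) ∈ H0all :=
  H0all_of (sly.E_mem KX y_mem Dy_mem _ (slx.D_E a)) (sly.D_E _)

theorem G_of {a : Sh} (hx : Dx a = 0) : G a = sly.E a := by
  show sly.E (slx.E a) = sly.E a
  rw [slx.E_self hx]

theorem G_mul (a b : Sh) : G (a * b) = G a * G b := map_mul G a b

/-- the functional -/
noncomputable def F : H →ₗ[ℚ] ℝ := Z ∘ₗ (G.toLinearMap : Sh →ₗ[ℚ] Sh)

theorem F_apply (a : H) : F a = Z (show H from G (a : Sh)) := rfl

theorem F_mul (hZ : SpecZshuf) (a b : H) : F (shuffle a b) = F a * F b := by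
  rw [F_apply, F_apply, F_apply, ← hZ _ (G_mem a) _ (G_mem b)]
  exact congrArg Z (G_mul a b)

theorem Z_wd (w : List Bool) : Z (wd w) = Zw w := by
  unfold Z wd
  rw [Finsupp.linearCombination_single, one_smul]

/-- the letter `y` -/
noncomputable def ty : Sh := (wd [true] : H)

theorem ypow_eq (j : ℕ) : ty ^ j = (ypow j : H) := by
  induction j with
  | zero => rfl
  | succ j ih =>
    rw [pow_succ', ih]
    rfl

theorem dx_endY {w : List Bool} (hw : EndY w) : dx (wd w) = 0 := by
  rcases hw with rfl | ⟨u, rfl⟩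
  · exact dx_nil
  · rw [dx_snoc]
    simp

theorem F_reg (hR : SpecZrds) (u v : List ℕ) (hv : Ad v) :
    F (sh (bw u) (bw v)) = F (stf (fun l => wd (bw l)) u v) := by
  have h1 := hR (u.map (· + 1)) (v.map (· + 1)) (by
      intro k hk
      obtain ⟨a, _, rfl⟩ := List.mem_map.1 hk
      exact Nat.le_add_left 1 a) ⟨by
      intro k hk
      obtain ⟨a, _, rfl⟩ := List.mem_map.1 hk
      exact Nat.le_add_left 1 a, by
      intro k hk
      rw [List.head?_map] at hk
      obtain ⟨a, ha, rfl⟩ := Option.mem_map.1 hk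
      have := hv a ha
      show 2 ≤ a + 1
      omega⟩
  rw [word_map, word_map, Alg.shuffle_wd, stuffle_eq] at h1
  set h : H := sh (bw u) (bw v) - stf (fun l => wd (bw l)) u v with hh
  have hx : (dx h : H) = 0 := by
    rw [hh, map_sub, dx_sh, dx_endY (endY_bw u), dx_endY (endY_bw v), Alg.shuffle_zero_left,
      Alg.shuffle_zero_right, add_zero, zero_sub, neg_eq_zero]
    have := stf_map (dx : H →+ H) (fun l => wd (bw l)) u v
    have e : dx (stf (fun l => wd (bw l)) u v) = stf (fun l => dx (wd (bw l))) u v := this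
    rw [e]
    exact stf_zero _ _ _ fun l _ => dx_endY (endY_bw l)
  obtain ⟨N, c, hc, hs, h0⟩ := sly.expand KX y_mem Dy_mem (h : Sh) hx
  have h2 : IsReg h (c 0) := by
    refine ⟨N, c, fun j => H0all_of (hc j).1 (hc j).2, ?_, rfl⟩
    exact hs.trans (Finset.sum_congr rfl fun j _ => congrArg (fun z => c j * z) (ypow_eq j))
  have h3 := h1 _ h2
  have h4 : F h = 0 := by
    rw [F_apply, G_of hx, h0]
    exact h3
  rw [hh, map_sub, sub_eq_zero] at h4
  exact h4

end MP154526.Low.PTR

namespace MP154526.Low

open Finset MP154526.Bound MP154526.Top MP154526.Top.Pass2 MP154526.Lin PTR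

/-- PTR -/
theorem specPtR (hZ : SpecZshuf) (hR : SpecZrds) : SpecPtR := by
  refine ⟨fun w => F (wd w), ⟨?_, ?_, ?_, ?_, ?_⟩, ?_⟩
  · show F (wd []) = 1
    have h : G (wd [] : H) = (wd [] : H) := map_one G
    rw [F_apply, h]
    show Z (wd []) = 1
    rw [Z_wd]
    simp [Zw, toY, zeta]
  · show F (wd [false]) = 0
    have h : G (wd [false] : H) = (0 : Sh) := by
      show sly.E (slx.E _) = 0
      rw [slx.E_t, map_zero]
    rw [F_apply, h]
    exact map_zero Z
  · show F (wd [true]) = 0
    have h : G (wd [true] : H) = (0 : Sh) := by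
      rw [G_of (show Dx _ = 0 from y_mem), sly.E_t]
    rw [F_apply, h]
    exact map_zero Z
  · intro u v
    have h := map_sh (F : H →+ ℝ) u v
    have e : F (sh u v) = shs (fun l => F (wd l)) u v := h
    rw [← e, ← Alg.shuffle_wd, F_mul hZ]
  · intro u v hv
    have h := stf_map (F : H →+ ℝ) (fun l => wd (bw l)) u v
    have e : F (stf (fun l => wd (bw l)) u v) = stf (fun l => F (wd (bw l))) u v := h
    show stf (fun l => F (wd (bw l))) u v = F (wd (bw u)) * F (wd (bw v))
    rw [← e, ← F_reg hR u v hv, ← Alg.shuffle_wd, F_mul hZ]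
  · intro w hw
    show F (wd w) = Zw w
    have hx : (dx (wd w) : H) = 0 := by
      rcases hw with rfl | ⟨u, rfl⟩
      · exact dx_nil
      · rw [dx_snoc]
        simp
    have hy : (dy (wd w) : H) = 0 := by
      rcases hw with rfl | ⟨u, rfl⟩
      · exact dy_nil
      · rw [List.cons_append, dy_cons]
        simp
    have h : G (wd w : H) = (wd w : H) := by
      rw [G_of (show Dx _ = 0 from hx), sly.E_self (show Dy _ = 0 from hy)]
    rw [F_apply, h]
    exact Z_wd w

end MP154526.Low
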