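import Pool.Agent.Lib.MP_154526_nt.Low.Spec
import Pool.Agent.Lib.MP_154526_nt.Lin.Asm
import Pool.Agent.Lib.MP_154526_nt.Low.Lower
import Pool.Agent.Lib.MP_154526_nt.Low.Tens
import Pool.Agent.Lib.MP_154526_nt.Low.STP
import Pool.Agent.Lib.MP_154526_nt.Low.BR
import Pool.Agent.Lib.MP_154526_nt.Low.RAC
import Pool.Agent.Lib.MP_154526_nt.Low.Tr
import Pool.Agent.Lib.MP_154526_nt.Low.SHW
import Pool.Agent.Lib.MP_154526_nt.Low.RacW
import Pool.Agent.Lib.MP_154526_nt.Low.Flow
import Pool.Agent.Lib.MP_154526_nt.Low.ExW
import Pool.Agent.Lib.MP_154526_nt.Low.Bnd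
import Pool.Agent.Lib.MP_154526_nt.Low.Abel
import Pool.Agent.Lib.MP_154526_nt.Low.Lsh
import Pool.Agent.Lib.MP_154526_nt.Low.Zshuf
import Pool.Agent.Lib.MP_154526_nt.Low.Zrds
import Pool.Agent.Lib.MP_154526_nt.Low.Ptr
import Pool.Agent.Lib.MP_154526_nt.Low.PiW
import Pool.Agent.Lib.MP_154526_nt.Low.Ind

section
/-!
# LYNF: factorisation of Lyndon words with at least two letters `true`
-/
set_option autoImplicit false

namespace MP154526.Low

open Finset MP154526.Bound MP154526.Top MP154526.Top.Pass2 MP154526.Lin

namespace LynF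

theorem lt_of_lt_append {q u : List Bool} (h : q < u) (hp : ¬ q <+: u) (s t : List Bool) :
    q ++ s < u ++ t := by
  induction q generalizing u with
  | nil => exact absurd (List.nil_prefix) hp
  | cons a q ih =>
    cases u with
    | nil => exact absurd h (by simp)
    | cons b u =>
      rw [List.cons_append, List.cons_append]
      rcases List.cons_lt_cons_iff.1 h with hab | ⟨rfl, h'⟩
      · exact List.cons_lt_cons_iff.2 (Or.inl hab)
      · refine List.cons_lt_cons_iff.2 (Or.inr ⟨rfl, ih h' fun hpre => hp ?_⟩)
        exact (List.prefix_cons_inj a).2 hpre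

/-- the words with a letter `true` increase if letters `false` are removed in front -/
theorem rep_append_lt (v : List Bool) (hv : true ∈ v) : false :: v < v := by
  induction v with
  | nil => simp at hv
  | cons b v ih =>
    cases b with
    | true => exact List.cons_lt_cons_iff.2 (Or.inl (by decide))
    | false =>
      have : true ∈ v := by simpa using hv
      exact List.cons_lt_cons_iff.2 (Or.inr ⟨rfl, ih this⟩)

theorem rep_lt (j : ℕ) (v : List Bool) (hv : true ∈ v) (hj : 1 ≤ j) :
    List.replicate j false ++ v < v := by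
  induction j, hj using Nat.le_induction with
  | base => simpa using rep_append_lt v hv
  | succ j _ ih =>
    rw [List.replicate_succ, List.cons_append]
    exact lt_trans (rep_append_lt _ (List.mem_append_right _ hv)) ih

theorem eq_rep (q : List Bool) (h : ¬ true ∈ q) : q = List.replicate q.length false := by
  refine List.eq_replicate_iff.2 ⟨rfl, fun b hb => ?_⟩
  cases b with
  | false => rfl
  | true => exact absurd hb h

theorem mem_of_count {w : List Bool} (h : 1 ≤ w.count true) : true ∈ w :=
  List.count_pos_iff.1 h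

end LynF

open LynF in
/-- LYNF -/
theorem specLynF : SpecLynF := by
  intro w hw hc
  classical
  -- the last letter is `true`
  have hlast : ∀ u v : List Bool, w = u ++ v → v ≠ [] → u ≠ [] → true ∈ v := by
    intro u v huv hv hu
    by_contra hnot
    have h1 := eq_rep v hnot
    have hv1 : 1 ≤ v.length := List.length_pos_iff.2 hv
    have h2 : w = (u ++ List.replicate (v.length - 1) false) ++ [false] := by
      rw [huv]
      conv_lhs => rw [h1]
      have : v.length = v.length - 1 + 1 := by omega
      rw [List.append_assoc, ← List.replicate_succ', ← this]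
    have h3 := hw.2 _ _ h2 (by simp [hu]) (by simp)
    have hne : w ≠ [] := hw.1
    cases w with
    | nil => exact hne rfl
    | cons b w' =>
      rcases List.cons_lt_cons_iff.1 h3 with hb | ⟨rfl, h4⟩
      · exact absurd hb (by cases b <;> decide)
      · exact absurd h4 (by simp)
  -- the first `true`
  let s : Finset ℕ := (range w.length).filter fun i => true ∈ w.take i
  have hs : s.Nonempty := by
    have hm : true ∈ w := mem_of_count (by omega)
    obtain ⟨p, q, hpq⟩ := List.append_of_mem hm
    by_cases hq : q = []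
    · subst hq
      have h1 : (p ++ [true]).count true = p.count true + 1 := by simp
      rw [← hpq] at h1
      have hp : true ∈ p := mem_of_count (by omega)
      refine ⟨p.length, ?_⟩
      rw [mem_filter, mem_range]
      refine ⟨by rw [hpq]; simp, ?_⟩
      rw [hpq, List.take_left]
      exact hp
    · refine ⟨p.length + 1, ?_⟩
      rw [mem_filter, mem_range]
      have hq1 : 1 ≤ q.length := List.length_pos_iff.2 hq
      refine ⟨by rw [hpq]; simp; omega, ?_⟩
      have h2 : w = (p ++ [true]) ++ q := by rw [hpq]; simp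
      have h3 : p.length + 1 = (p ++ [true]).length := by simp
      rw [h2, h3, List.take_left]
      simp
  obtain ⟨i, hi, hmin⟩ := Finset.exists_min_image s (fun i => w.drop i) hs
  have hi' := (mem_filter.1 hi)
  have hil : i < w.length := mem_range.1 hi'.1
  set u := w.take i with hu
  set v := w.drop i with hv
  have huv : w = u ++ v := (List.take_append_drop i w).symm
  have hul : u.length = i := by rw [hu, List.length_take]; omega
  have hutrue : true ∈ u := hi'.2
  have hune : u ≠ [] := List.ne_nil_of_mem hutrue
  have hvne : v ≠ [] := by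
    intro h0
    have : v.length = w.length - i := by rw [hv, List.length_drop]
    rw [h0] at this
    simp at this
    omega
  have hvtrue : true ∈ v := hlast u v huv hvne hune
  -- minimality
  have hmin' : ∀ p q : List Bool, w = p ++ q → true ∈ p → q ≠ [] → v ≤ q := by
    intro p q hpq hp hq
    have hq1 : 1 ≤ q.length := List.length_pos_iff.2 hq
    have h1 : p.length ∈ s := by
      rw [mem_filter, mem_range]
      refine ⟨by rw [hpq]; simp; omega, ?_⟩
      rw [hpq, List.take_left]
      exact hp
    have h2 := hmin _ h1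
    have h3 : w.drop p.length = q := by rw [hpq, List.drop_left]
    rw [h3] at h2
    exact h2
  refine ⟨u, v, huv, ⟨hune, fun p q hpq hp hq => ?_⟩, ⟨hvne, fun p q hpq hp hq => ?_⟩,
    List.count_pos_iff.2 hutrue, List.count_pos_iff.2 hvtrue⟩
  · -- `u` is Lyndon
    by_contra hnot
    have hle : q ≤ u := not_lt.1 hnot
    have hne : q ≠ u := by
      intro h0
      have h1 : u.length = p.length + q.length := by rw [hpq]; simp
      have hp1 : 1 ≤ p.length := List.length_pos_iff.2 hp
      rw [h0] at h1
      omega
    have hlt : q < u := lt_of_le_of_ne hle hne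
    have hwq : w = p ++ (q ++ v) := by rw [huv, hpq, List.append_assoc]
    have hwlt : w < q ++ v := hw.2 _ _ hwq hp (by simp [hq])
    by_cases hpre : q <+: u
    · obtain ⟨r, hr⟩ := hpre
      have hrne : r ≠ [] := by
        intro h0
        rw [h0, List.append_nil] at hr
        exact hne hr
      have h1 : q ++ (r ++ v) < q ++ v := by
        have : q ++ (r ++ v) = w := by rw [huv, ← hr, List.append_assoc]
        rw [this]
        exact hwlt
      have h2 : r ++ v < v := by
        clear hlt hwlt hwq hpq hle hnot hne hr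
        induction q with
        | nil => simpa using h1
        | cons a q ih =>
          by_cases hq0 : q = []
          · subst hq0
            rcases List.cons_lt_cons_iff.1 h1 with h | ⟨-, h⟩
            · exact absurd h (lt_irrefl _)
            · simpa using h
          · refine ih hq0 ?_
            rcases List.cons_lt_cons_iff.1 h1 with h | ⟨-, h⟩
            · exact absurd h (lt_irrefl _)
            · exact h
      by_cases hqt : true ∈ q
      · have h3 := hmin' q (r ++ v) (by rw [huv, ← hr, List.append_assoc]) hqt (by simp [hvne])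
        exact absurd h2 (not_lt.2 h3)
      · have h3 := eq_rep q hqt
        have hpt : true ∈ p := by
          rw [hpq] at hutrue
          rcases List.mem_append.1 hutrue with h | h
          · exact h
          · exact absurd h hqt
        have h4 := hmin' p (q ++ v) hwq hpt (by simp [hvne])
        have h5 : q ++ v < v := by
          rw [h3]
          exact rep_lt _ v hvtrue (List.length_pos_iff.2 hq)
        exact absurd h5 (not_lt.2 h4)
    · have h1 : q ++ v < u ++ v := lt_of_lt_append hlt hpre v v
      rw [← huv] at h1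
      exact lt_asymm h1 hwlt
  · -- `v` is Lyndon
    have h1 := hmin' (u ++ p) q (by rw [huv, hpq, List.append_assoc])
      (List.mem_append_left _ hutrue) hq
    refine lt_of_le_of_ne h1 fun h0 => ?_
    have h2 : v.length = p.length + q.length := by rw [hpq]; simp
    have hp1 : 1 ≤ p.length := List.length_pos_iff.2 hp
    rw [← h0] at h2
    omega

end MP154526.Low
end

section
/-!
# The lower bound and the exact codimension: assembly
-/
set_option autoImplicit false

namespace MP154526.Low

theorem asmRac : SpecRac := specRac specBr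

theorem asmStW : SpecStW :=
  specStW specTens specCodc specPis asmRac specTr (specStp specTens)

theorem asmRacW : SpecRacW := specRacW asmStW specShW

theorem asmFlow : SpecFlow := Flow.specFlow specShW asmStW

theorem asmZrds : SpecZrds := specZrds specLsh specAbel specBnd

theorem asmPtR : SpecPtR := specPtR specZshuf asmZrds

theorem asmExW : SpecExW := specExW asmPtR asmFlow specDiff

theorem asmPiW : SpecPiW := specPiW asmPtR

theorem asmIndW : SpecIndW := Ops.specIndW specShW asmRacW specLynF asmExW asmPiW

theorem asmIndep : SpecIndep := specIndep asmIndW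

theorem asmLower : SpecLower := specLower asmIndW

theorem asmExact : SpecExact := specExact asmLower Lin.asmAnswer asmZrds

theorem asmStatement (p : ℕ) : Statement p :=
  statement asmLower Lin.asmAnswer asmZrds Lin.asmSpan asmIndep p

end MP154526.Low
end

section
/-!
# The span of the regularised double shuffle elements is an ideal of `(ℌ⁰, ⧢)`
-/
set_option autoImplicit false

namespace MP154526.Low

open Finset MP154526.Bound MP154526.Top MP154526.Top.Pass2 MP154526.Lin

namespace IdealM

/-! ### functionals killing the relations -/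

theorem rr_zero (m : ℕ) : RR m (fun _ : List Bool => (0 : ℤ)) where
  reg j w _ _ _ := shs_zero _ _
  rds u v _ _ := by
    rw [shs_zero]
    have h := stf_map (0 : ℤ →+ ℤ) (fun _ => (0 : ℤ)) u v
    simpa using h

theorem rr_add {m : ℕ} {F G : List Bool → ℤ} (h : RR m F) (h' : RR m G) :
    RR m (fun w => F w + G w) where
  reg j w hj hw hn := by rw [shs_add, h.reg j w hj hw hn, h'.reg j w hj hw hn, add_zero]
  rds u v hv hn := by rw [shs_add, stf_add, h.rds u v hv hn, h'.rds u v hv hn]

theorem rr_congr {m : ℕ} {F G : List Bool → ℤ} (h : RR m F)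
    (hc : ∀ w : List Bool, w.length = m → F w = G w) : RR m G where
  reg j w hj hw hn := by
    rw [← h.reg j w hj hw hn]
    refine shs_congr_len _ _ fun l hl => (hc l ?_).symm
    rw [List.length_replicate] at hl
    omega
  rds u v hv hn := by
    have h1 := h.rds u v hv hn
    rw [shs_congr_len (F := F) (G := G) _ _ fun l hl => hc l (by
      rw [ExW.len_bw, ExW.len_bw] at hl
      omega)] at h1
    rw [h1]
    exact stf_congr u v fun l hl => hc _ (by rw [ExW.len_bw]; omega)

theorem rr_of_cast {m : ℕ} {F : List Bool → ℤ} {G : List Bool → ℚ} (h : RR m G)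
    (hc : ∀ w : List Bool, w.length = m → (F w : ℚ) = G w) : RR m F where
  reg j w hj hw hn := by
    have h4 := h.reg j w hj hw hn
    rw [← shs_congr_len (F := fun w => (Int.castAddHom ℚ) (F w)) _ _
      (fun l hl => by
        rw [List.length_replicate, hn] at hl
        simpa using hc l hl), ← shs_map, Int.coe_castAddHom] at h4
    exact Int.cast_injective (α := ℚ) (by simpa using h4)
  rds u v hv hn := by
    have h4 := h.rds u v hv hn
    rw [← shs_congr_len (F := fun w => (Int.castAddHom ℚ) (F w)) _ _
      (fun l hl => by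
        rw [ExW.len_bw, ExW.len_bw, hn] at hl
        simpa using hc l hl), ← shs_map, Int.coe_castAddHom] at h4
    rw [← stf_congr (f := fun l => (Int.castAddHom ℚ) (F (bw l))) u v
      (fun l hl => by simpa using hc (bw l) (by rw [ExW.len_bw]; omega)),
      ← stf_map (Int.castAddHom ℚ) (fun l => F (bw l)), Int.coe_castAddHom] at h4
    exact Int.cast_injective (α := ℚ) (by simpa using h4)

/-- the submodule of the functionals killing the relations -/
def RRS (m : ℕ) : Submodule ℤ (List Bool → ℤ) where
  carrier := {F | RR m F}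
  zero_mem' := rr_zero m
  add_mem' := fun h h' => rr_add h h'
  smul_mem' := fun c _ h => RR.map (AddMonoidHom.mulLeft c) h

theorem T_mem {n : ℕ} (ψ : List Bool → ℤ) {m : ℕ} (Φ : List Bool → (List Bool → ℤ))
    (v : List Bool) (hv : EndY v) (hv' : v.head? ≠ some true)
    (h : ∀ s : List Bool, EndY s → s.head? ≠ some true → s.length + n = v.length →
      Φ s ∈ RRS m) : T n ψ Φ v ∈ RRS m := by
  have h1 := RacWM.T_congr_ad (M := (List Bool → ℤ) ⧸ RRS m) n ψ
    (fun s => (RRS m).mkQ (Φ s)) (fun _ => 0) v hv hv' (fun s h1 h2 h3 => by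
      rw [Submodule.mkQ_apply, Submodule.Quotient.mk_eq_zero]
      exact h s h1 h2 h3)
  rw [RacWM.T_zero, ← Ops.T_map (RRS m).mkQ, Submodule.mkQ_apply,
    Submodule.Quotient.mk_eq_zero] at h1
  exact h1

/-- functionals killing the ideal generated by the relations -/
def RJ (N : ℕ) (φ : List Bool → ℤ) : Prop :=
  ∀ v : List Bool, EndY v → v.head? ≠ some true → ∀ m, m + v.length = N →
    RR m (fun s => shs φ s v)

theorem RJ.rr {N : ℕ} {φ : List Bool → ℤ} (h : RJ N φ) : RR N φ := by
  have h1 := h [] (Or.inl rfl) (by simp) N (by simp)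
  have e : (fun s => shs φ s []) = φ := by
    funext s
    rw [shs_nil_right]
  rwa [e] at h1

/-- the operators preserve these functionals -/
theorem closure {n N : ℕ} {ψ φ : List Bool → ℤ} (hψ : DW n ψ) (hφ : RJ N φ) :
    RJ (n + N) (T n ψ φ) := by
  intro v hv hv' m hm
  have hn : 1 ≤ n := le_trans (by norm_num) hψ.three
  have hsh := specShW ℤ ℤ n ψ hn hψ.sh φ
  have e : (fun s => shs (T n ψ φ) s v) = fun s => T n ψ (fun s' => shs φ s' v) s +
      (T n ψ (fun s' => (fun s => shs φ s s' : List Bool → ℤ)) v) s := by
    funext s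
    rw [hsh]
    congr 1
    exact (Ops.T_map (LinearMap.proj (R := ℤ) (φ := fun _ : List Bool => ℤ) s) n ψ
      (fun s' => (fun s => shs φ s s' : List Bool → ℤ)) v).symm
  rw [e]
  refine rr_add ?_ ?_
  · by_cases hvN : v.length ≤ N
    · have h1 := asmRacW n (N - v.length) ψ _ hψ (hφ v hv hv' (N - v.length) (by omega))
      have e2 : n + (N - v.length) = m := by omega
      rw [e2] at h1
      exact h1
    · refine rr_congr (rr_zero m) fun w hw => ?_
      exact (Flow.T_zero_len n ψ _ w fun l hl => by omega).symm
  · exact T_mem ψ _ v hv hv' fun s h1 h2 h3 => hφ s h1 h2 m (by omega)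

/-- the functional `ζ(2,…,2)` -/
theorem base (m : ℕ) : ∃ φ : List Bool → ℤ, RJ (2 * m) φ ∧ φ (zp m) ≠ 0 := by
  obtain ⟨Φ, hΦ, hZ⟩ := asmPtR
  have h0 : Φ (zp m) ≠ 0 := by
    rw [hZ _ (PiW.adm_zp m), PiW.zw_zp]
    exact (PiW.zeta_pos m).ne'
  obtain ⟨μ, hμ⟩ : ∃ μ : Module.Dual ℚ ℝ, μ (Φ (zp m)) ≠ 0 := by
    by_contra hc
    push Not at hc
    exact h0 ((Module.forall_dual_apply_eq_zero_iff ℚ _).1 hc)
  obtain ⟨N, ψ, hN, h2⟩ := ExW.clear (2 * m) fun w => μ (Φ w)
  refine ⟨ψ, ?_, ?_⟩
  · intro v hv hv' k hk
    have hG : RR k (fun s => (N : ℚ) * μ (Φ s * Φ v)) :=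
      RR.map ((AddMonoidHom.mulLeft (N : ℚ)).comp
        (μ.toAddMonoidHom.comp (AddMonoidHom.mulRight (Φ v)))) (PiW.pt_rr hΦ k)
    refine rr_of_cast hG fun s hs => ?_
    rw [← hΦ.sh s v]
    have e1 := shs_map (Int.castAddHom ℚ) ψ s v
    have e2 := shs_map ((AddMonoidHom.mulLeft (N : ℚ)).comp μ.toAddMonoidHom) Φ s v
    simp only [Int.coe_castAddHom] at e1
    rw [e1]
    have e3 : (N : ℚ) * μ (shs Φ s v) =
        ((AddMonoidHom.mulLeft (N : ℚ)).comp μ.toAddMonoidHom) (shs Φ s v) := rfl
    rw [e3, e2]
    exact shs_congr_len _ _ fun l hl => h2 l (by omega)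
  · have h9 := h2 (zp m) (PiW.len_zp m)
    intro h10
    rw [h10, Int.cast_zero] at h9
    rcases mul_eq_zero.1 h9.symm with h11 | h11
    · exact hN (by exact_mod_cast h11)
    · exact hμ h11

/-- independence tested on these functionals, rational coefficients -/
theorem indQ (p : ℕ) (S : Finset (List Bool)) (c : List Bool → ℚ)
    (hS : ∀ s ∈ S, (expand s).length = p)
    (hz : ∀ φ : List Bool → ℤ, RJ p φ → ∑ s ∈ S, c s * (φ (expand s) : ℚ) = 0) :
    ∀ s ∈ S, c s = 0 := by
  classical
  intro s hs
  set d : ℤ := ∏ s ∈ S, ((c s).den : ℤ) with hd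
  have hd0 : d ≠ 0 := Finset.prod_ne_zero_iff.2 fun s _ => by exact_mod_cast (c s).den_nz
  set c' : List Bool → ℤ := fun s => (∏ t ∈ S.erase s, ((c t).den : ℤ)) * (c s).num with hc'
  have hcc : ∀ s ∈ S, (c' s : ℚ) = d * c s := by
    intro s hs
    rw [hc', hd, ← Finset.mul_prod_erase S _ hs]
    push_cast
    have h1 := Rat.mul_den_eq_num (c s)
    rw [← h1]
    ring
  have key := Ops.indP specShW asmRacW specLynF asmExW RJ
    (fun n m ψ φ hψ hφ => closure hψ hφ) base p S c' hS (by
    intro φ hφ
    have h1 := hz φ hφ
    have h2 : ((∑ s ∈ S, c' s * φ (expand s) : ℤ) : ℚ) = d * ∑ s ∈ S, c s * (φ (expand s) : ℚ) := by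
      push_cast
      rw [Finset.mul_sum]
      refine Finset.sum_congr rfl fun s hs => ?_
      rw [hcc s hs]
      ring
    rw [h1, mul_zero] at h2
    exact_mod_cast h2) s hs
  have h3 := hcc s hs
  rw [key, Int.cast_zero] at h3
  rcases mul_eq_zero.1 h3.symm with h4 | h4
  · exact absurd (by exact_mod_cast h4) hd0
  · exact h4

theorem adm_endY {w : List Bool} (h : Adm w) : EndY w ∧ w.head? ≠ some true := by
  rcases h with rfl | ⟨u, rfl⟩
  · exact ⟨Or.inl rfl, by simp⟩
  · exact ⟨Or.inr ⟨false :: u, rfl⟩, by simp⟩

theorem kill_span {p : ℕ} {φ : List Bool → ℤ} (h : RR p φ) (x : H)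
    (hx : x ∈ Submodule.span ℚ (RDS p)) : linL φ x = 0 := by
  induction hx using Submodule.span_induction with
  | mem x hx => rw [← Pass2.lin_eq]; exact LowM.kill h x hx
  | zero => exact map_zero _
  | add x y _ _ h1 h2 => rw [map_add, h1, h2, add_zero]
  | smul r x _ h => rw [map_smul, h, smul_zero]

theorem linL_shuffle (φ : List Bool → ℤ) (v : List Bool) (r : H) :
    linL φ (shuffle r (wd v)) = linL (fun s => shs φ s v) r := by
  have hA := specAlg
  induction r using Finsupp.induction_linear with
  | zero =>
    have h0 : shuffle 0 (wd v) = 0 := by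
      have := hA.smul 0 0 (wd v)
      rwa [zero_smul, zero_smul] at this
    rw [h0, map_zero, map_zero]
  | add f g hf hg => rw [hA.add, map_add, map_add, hf, hg]
  | single w a =>
    have e : (Finsupp.single w a : H) = a • wd w := by
      unfold wd
      rw [Finsupp.smul_single, smul_eq_mul, mul_one]
    rw [e, hA.smul, map_smul, map_smul, linL_wd, Pass2.shuffle_wd]
    have h1 := map_sh (linL φ).toAddMonoidHom w v
    simp only [LinearMap.toAddMonoidHom_coe, linL_wd] at h1
    rw [h1]
    have h2 := shs_map (Int.castAddHom ℚ) φ w v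
    simp only [Int.coe_castAddHom] at h2
    rw [h2]

theorem mem_of_kill (N : ℕ) (x : H) (hx : x ∈ H0 N)
    (hk : ∀ φ : List Bool → ℤ, RJ N φ → linL φ x = 0) : x ∈ Submodule.span ℚ (RDS N) := by
  classical
  rw [(asmStatement N).span, Submodule.mem_sup] at hx
  obtain ⟨r, hr, z, hz, rfl⟩ := hx
  have hset : {z : H | ∃ w, (expand w).length = N ∧ z = wd (expand w)} =
      Set.range fun w : {w : List Bool // (expand w).length = N} => wd (expand w.1) := by
    ext z
    constructor
    · rintro ⟨w, hw, rfl⟩
      exact ⟨⟨w, hw⟩, rfl⟩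
    · rintro ⟨w, rfl⟩
      exact ⟨w.1, w.2, rfl⟩
  rw [hset, Finsupp.mem_span_range_iff_exists_finsupp] at hz
  obtain ⟨c, rfl⟩ := hz
  have h0 : ∀ i ∈ c.support, c i = 0 := by
    intro i hi
    have h2 := indQ N (c.support.map (Function.Embedding.subtype _))
      (fun w => if h : (expand w).length = N then c ⟨w, h⟩ else 0) (by
        intro x hx
        rw [Finset.mem_map] at hx
        obtain ⟨y, _, rfl⟩ := hx
        exact y.2) (by
        intro φ hφ
        have h3 := hk φ hφ
        rw [map_add, kill_span hφ.rr r hr, zero_add, Finsupp.sum, map_sum] at h3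
        rw [Finset.sum_map, ← h3]
        refine Finset.sum_congr rfl fun x _ => ?_
        rw [map_smul, linL_wd, smul_eq_mul]
        simp [x.2]) i.1 (by
        rw [Finset.mem_map]
        exact ⟨i, hi, rfl⟩)
    simpa [i.2] using h2
  have hc : c.sum (fun i a => a • wd (expand i.1)) = 0 := by
    rw [Finsupp.sum]
    refine Finset.sum_eq_zero fun i hi => ?_
    rw [h0 i hi, zero_smul]
  rw [hc, add_zero]
  exact hr

end IdealM

open IdealM in
/-- The span of the regularised double shuffle elements is an ideal of `(ℌ⁰, ⧢)`. -/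
theorem ideal (q p : ℕ) (r h : H) (hr : r ∈ Submodule.span ℚ (RDS q)) (hh : h ∈ H0 p) :
    shuffle r h ∈ Submodule.span ℚ (RDS (q + p)) := by
  have hA := specAlg
  have hR0 : Submodule.span ℚ (RDS q) ≤ H0 q := Submodule.span_le.2 fun r hr => hr.1
  refine mem_of_kill _ _ (hA.h0 q p r (hR0 hr) h hh) fun φ hφ => ?_
  have add' : ∀ a b c : H, shuffle a (b + c) = shuffle a b + shuffle a c := fun a b c => by
    rw [hA.comm, hA.add, hA.comm b, hA.comm c]
  have smul' : ∀ (r : ℚ) (a b : H), shuffle a (r • b) = r • shuffle a b := fun r a b => by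
    rw [hA.comm, hA.smul, hA.comm b]
  rw [H0] at hh
  induction hh using Submodule.span_induction with
  | mem x hx =>
    obtain ⟨v, hv, hlen, rfl⟩ := hx
    rw [linL_shuffle]
    exact kill_span (hφ v (adm_endY hv).1 (adm_endY hv).2 q (by omega)) r hr
  | zero =>
    have := smul' 0 r 0
    rw [zero_smul, zero_smul] at this
    rw [this, map_zero]
  | add x y _ _ h1 h2 => rw [add', map_add, h1, h2, add_zero]
  | smul a x _ h => rw [smul', map_smul, h, smul_zero]

/-- The weight `p` part of the ideal generated by the regularised double shuffle elements is the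
linear span of the regularised double shuffle elements of weight `p`. -/
theorem ideal_eq_span (p : ℕ) : J p = Submodule.span ℚ (RDS p) := by
  refine le_antisymm ?_ ?_
  · rw [J, Submodule.span_le]
    rintro _ ⟨q, r, h, hq, hr, hh, rfl⟩
    have h1 := ideal q (p - q) r h (Submodule.subset_span hr) hh
    rwa [show q + (p - q) = p by omega] at h1
  · rw [Submodule.span_le]
    intro r hr
    refine Submodule.subset_span ⟨p, r, wd [], le_rfl, hr, ?_, ?_⟩
    · exact Submodule.subset_span ⟨[], Or.inl rfl, by simp, rfl⟩
    · have hA := specAlg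
      rw [hA.comm, hA.one]

end MP154526.Low
end
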