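import Pool.Agent.Lib.MP_154526_nt.Low.Level
import Pool.Agent.Lib.MP_154526_nt.Top.Asm
import Pool.Agent.Lib.MP_154526_nt.Lin.Basic

section
/-!
# The top part modulo 2 of an integral functional of odd weight
-/
set_option autoImplicit false

namespace MP154526.Low.FrontL

open Finset MP154526.Top MP154526.Top.F2 MP154526.Top.Pass2 MP154526.Lin

/-- reduction modulo 2 -/
def rd (F : List Bool → ℤ) (w : List Bool) : ZMod 2 := (F w : ZMod 2)

theorem shs_rd (F : List Bool → ℤ) (u v : List Bool) :
    shs (rd F) u v = ((shs F u v : ℤ) : ZMod 2) :=
  (shs_map (Int.castAddHom (ZMod 2)) F u v).symm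

theorem stf_rd (F : List Bool → ℤ) (u v : List ℕ) :
    stf (fun l => rd F (bw l)) u v = ((stf (fun l => F (bw l)) u v : ℤ) : ZMod 2) :=
  (stf_map (Int.castAddHom (ZMod 2)) (fun l => F (bw l)) u v).symm

theorem isSh {n : ℕ} {F : List Bool → ℤ} (h : DW n F) : IsSh n (rd F) := by
  intro u v hu hv _ _ hn
  rw [shs_rd, h.sh u v hu hv hn, Int.cast_zero]

theorem isHalf {n : ℕ} (F : List Bool → ZMod 2) (h : n % 2 = 1) : IsHalf n F := by
  intro a u _ hn
  omega

theorem isT {n : ℕ} {F : List Bool → ℤ} (h : DW n F) : IsT n (rd F) := by
  refine isT_of n (rd F) fun u hu a b hn => ?_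
  rw [stf_rd, h.st u ((a + 1) :: b) hu (by simp) (ad_cons a b) hn, Int.cast_zero]

/-- `F` is even on the Lyndon words of level less than `l` -/
def EvL (n l : ℕ) (F : List Bool → ℤ) : Prop :=
  ∀ w, IsLyn w → (expand w).length = n → w.count true < l → (2 : ℤ) ∣ F (expand w)

/-- the words in `z_1, z_2` with many letters `z_2` -/
theorem zero_above {n l : ℕ} {F : List Bool → ℤ} (hn : n % 2 = 1) (h : DW n F) (hE : EvL n l F) :
    ∀ k m, n < m + k → 1 ≤ m → n < 2 * m + l → ∀ v : List ℕ, v.length = m + 1 →
      v.sum + 2 * m = n → rd F (bw (zw v)) = 0 := by
  intro k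
  induction k with
  | zero =>
    intro m hm _ _ v _ hl
    omega
  | succ k ih =>
    intro m hmk hm hml v hl hw
    have h3n := h.three
    have hStar := specFront n m (n + 1) (rd F) (by omega) hm (by omega) (isSh h) (isHalf _ hn) (isT h)
      (by
        intro v hlen hlw
        exact ih (v.length - 1) (by omega) (by omega) (by omega) v (by omega) hlw)
    have hSupp : Supp (n + 1) (m + 1) (PR n m (rd F)) := by
      intro v hv
      simp only [PR] at hv
      split_ifs at hv with hc
      · refine ⟨hc.1, fun a ha => ?_⟩
        have := List.single_le_sum (by simp) a ha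
        omega
      · exact absurd rfl hv
    obtain ⟨h1, h2⟩ := specStar asmR (n + 1) m (n - 2 * m) (PR n m (rd F)) (by omega) hm hSupp (by
      intro v hv
      simp only [PR] at hv
      split_ifs at hv with hc
      · omega
      · exact absurd rfl hv) hStar
    have h3 := specLyn m _ hm h2 (by
      intro w hw hwm
      simp only [PR]
      split_ifs with hc
      · rw [bw_zw_expand]
        have hlen : (expand w).length = n := by
          rw [← bw_zw_expand, length_bw, weight_zw]
          simp only [List.length_cons, List.length_map] at hc ⊢
          omega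
        have hcount : w.count true < l := by
          have := Level.expand_length w
          omega
        exact (ZMod.intCast_zmod_eq_zero_iff_dvd _ 2).2 (hE w hw hlen hcount)
      · rfl)
    by_contra hne
    have hPR : PR n m (rd F) v = rd F (bw (zw v)) := by
      simp only [PR]
      rw [if_pos ⟨hl, hw⟩]
    obtain ⟨l', rfl, hl'⟩ := h1 v (by rw [hPR]; exact hne)
    obtain ⟨w, rfl⟩ := exists_map l' hl'
    have h4 := h3 w (by simpa using hl)
    exact hne (hPR ▸ h4)

/-- `F` is even on all words in `z_2, z_2 z_1` of level less than `l` -/
theorem even_below {n l : ℕ} {F : List Bool → ℤ} (hn : n % 2 = 1) (h : DW n F) (hE : EvL n l F)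
    (w : List Bool) (hw : (expand w).length = n) (hc : w.count true < l) :
    rd F (expand w) = 0 := by
  have hlen := Level.expand_length w
  have hm : 1 ≤ w.length := by
    by_contra h0
    have : w = [] := List.length_eq_zero_iff.1 (by omega)
    subst this
    simp [expand] at hw
    omega
  have := zero_above hn h hE (n + 1) w.length (by omega) hm (by omega)
    (0 :: w.map fun s => if s then 1 else 0) (by simp) (by
      have h1 := length_bw (zw (0 :: w.map fun s => if s then 1 else 0))
      rw [bw_zw_expand, weight_zw] at h1
      simp only [List.length_map] at h1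
      omega)
  rwa [bw_zw_expand] at this

/-- the part of level `l` is Lie-like -/
theorem lieLike {n l : ℕ} {F : List Bool → ℤ} (hn : n % 2 = 1) (h : DW n F) (hE : EvL n l F)
    (m : ℕ) (hm : 1 ≤ m) (hml : 2 * m + l = n) :
    LieLike m (fun w => if w.length = m ∧ w.count true = l then rd F (expand w) else 0) := by
  have h3n := h.three
  have hStar := specFront n m (n + 1) (rd F) (by omega) hm (by omega) (isSh h) (isHalf _ hn) (isT h)
    (by
      intro v hlen hlw
      exact zero_above hn h hE (n + 1) (v.length - 1) (by omega) (by omega) (by omega) v (by omega)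
        hlw)
  have hSupp : Supp (n + 1) (m + 1) (PR n m (rd F)) := by
    intro v hv
    simp only [PR] at hv
    split_ifs at hv with hc
    · refine ⟨hc.1, fun a ha => ?_⟩
      have := List.single_le_sum (by simp) a ha
      omega
    · exact absurd rfl hv
  obtain ⟨h1, h2⟩ := specStar asmR (n + 1) m (n - 2 * m) (PR n m (rd F)) (by omega) hm hSupp (by
    intro v hv
    simp only [PR] at hv
    split_ifs at hv with hc
    · omega
    · exact absurd rfl hv) hStar
  have e : (fun w : List Bool => PR n m (rd F) (0 :: w.map fun s => if s then 1 else 0)) =
      fun w => if w.length = m ∧ w.count true = l then rd F (expand w) else 0 := by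
    funext w
    simp only [PR]
    rw [bw_zw_expand]
    have hs : (w.map fun s : Bool => if s then 1 else 0).sum = w.count true := by
      induction w with
      | nil => rfl
      | cons a w ih => cases a <;> simp [ih, add_comm]
    have hiff : ((0 :: w.map fun s : Bool => if s then 1 else 0).length = m + 1 ∧
        (0 :: w.map fun s : Bool => if s then 1 else 0).sum + 2 * m = n) ↔
        (w.length = m ∧ w.count true = l) := by
      rw [List.sum_cons, hs, List.length_cons, List.length_map]
      omega
    by_cases hc : w.length = m ∧ w.count true = l
    · rw [if_pos hc, if_pos (hiff.2 hc)]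
    · rw [if_neg hc, if_neg (fun h' => hc (hiff.1 h'))]
  rw [← e]
  exact h2

/-- `F` even on all Lyndon words is even on all words ending in `y` -/
theorem even_all {n : ℕ} {F : List Bool → ℤ} (hn : n % 2 = 1) (h : DW n F)
    (hE : ∀ l, EvL n l F) (w : List Bool) (hw : EndY w) (hl : w.length = n) : rd F w = 0 :=
  asmF2 n (rd F) (by have := h.three; omega) (isSh h) (isHalf _ hn) (isT h)
    (fun w hw hl => (ZMod.intCast_zmod_eq_zero_iff_dvd _ 2).2
      (hE (w.count true + 1) w hw hl (by omega))) w hw hl

end MP154526.Low.FrontL
end

section
/-!
# The antipode modulo 2, and the conditions `HF` of LEVEL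
-/
set_option autoImplicit false

namespace MP154526.Low.Anti

open Finset MP154526.Top MP154526.Top.F2 MP154526.Top.Pass2 MP154526.Lin MP154526.Low.FrontL
open MP154526.Low.Level

/-- sum over the letters moved from `v` to `u` -/
def Sm (f : List Bool → ZMod 2) : List Bool → List Bool → ZMod 2
  | u, [] => f u
  | u, b :: v => shs f u (b :: v) + Sm f (b :: u) v

theorem two (z : ZMod 2) : z + z = 0 := by
  have h : (2 : ZMod 2) = 0 := by decide
  rw [← two_mul, h, zero_mul]

theorem Sm_cons (f : List Bool → ZMod 2) (a : Bool) (u v : List Bool) :
    Sm f (a :: u) v = shs (fun l => f (a :: l)) u v := by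
  induction v generalizing a u with
  | nil => simp [Sm]
  | cons b v ih =>
    rw [Sm, ih, shs_cons_cons, add_assoc, two, add_zero]

theorem Sm_eq (f : List Bool → ZMod 2) (n : ℕ)
    (hf : ∀ u v : List Bool, u ≠ [] → v ≠ [] → u.length + v.length = n → shs f u v = 0)
    (v : List Bool) : ∀ u : List Bool, u ≠ [] → u.length + v.length = n →
      Sm f u v = f (v.reverse ++ u) := by
  induction v with
  | nil => intro u _ _; rfl
  | cons b v ih =>
    intro u hu hn
    rw [Sm, hf u (b :: v) hu (by simp) hn, zero_add, ih (b :: u) (by simp) (by
      simp only [List.length_cons] at hn ⊢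
      omega)]
    simp

/-- a functional killing products is invariant under reversal modulo 2 -/
theorem anti (f : List Bool → ZMod 2) (n : ℕ)
    (hf : ∀ u v : List Bool, u ≠ [] → v ≠ [] → u.length + v.length = n → shs f u v = 0)
    (w : List Bool) (hw : w.length = n) : f w.reverse = f w := by
  cases w with
  | nil => rfl
  | cons b v =>
    have h1 := Sm_cons f b [] v
    rw [Sm_eq f n hf v [b] (by simp) (by
      simp only [List.length_cons, List.length_nil] at hw ⊢
      omega)] at h1
    rw [List.reverse_cons, h1]
    simp

theorem expand_reverse (t : List Bool) :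
    expand t.reverse ++ [false] = false :: (expand t).reverse := by
  induction t with
  | nil => rfl
  | cons a t ih =>
    have h : expand [a] ++ [false] = false :: (expand [a]).reverse := by cases a <;> rfl
    have h2 : expand (a :: t) = expand [a] ++ expand t := expand_append [a] t
    rw [List.reverse_cons, expand_append, List.append_assoc, h, h2, List.reverse_append]
    rw [← List.cons_append, ← ih]
    simp

theorem ins (f : List Bool → ZMod 2) (r : ℕ) :
    shs f [true] (expand (List.replicate r false)) =
      f (true :: expand (List.replicate r false)) := by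
  induction r generalizing f with
  | zero => simp [expand]
  | succ r ih =>
    rw [List.replicate_succ]
    simp only [expand]
    rw [shs_cons_cons, shs_cons_cons, ih]
    simp only [shs_nil_left]
    rw [two, add_zero]

/-- the conditions of LEVEL -/
theorem hF {r : ℕ} {F : List Bool → ℤ} (h : DW (2 * r + 1) F) : HF r (rd F) := by
  have hsh : ∀ u v : List Bool, u ≠ [] → v ≠ [] → u.length + v.length = 2 * r + 1 →
      shs (rd F) u v = 0 := by
    intro u v hu hv hn
    rw [shs_rd, h.sh u v hu hv hn, Int.cast_zero]
  have h3 := h.three
  refine ⟨?_, ?_⟩
  · rw [← ins (rd F) r]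
    refine hsh _ _ (by simp) ?_ ?_
    · intro h0
      have := congrArg List.length h0
      rw [expand_length] at this
      simp at this
      omega
    · have hc : (List.replicate r false).count true = 0 := by
        rw [List.count_replicate]
        rfl
      rw [expand_length, hc, List.length_replicate]
      simp
      omega
  · intro t ht hl
    -- reversal in `x, y`
    have htn : t ≠ [] := by
      rintro rfl
      simp at ht
    obtain ⟨w, hw⟩ : ∃ w, expand t = false :: w := by
      cases t with
      | nil => exact absurd rfl htn
      | cons a t => cases a <;> exact ⟨_, rfl⟩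
    have e1 := anti (rd F) _ hsh ((expand t).tail ++ [false]) (by
      rw [hw] at hl ⊢
      simpa using hl)
    have e2 : ((expand t).tail ++ [false]).reverse = expand t.reverse := by
      have := expand_reverse t
      rw [hw] at this
      rw [List.reverse_cons, ← List.cons_append] at this
      have h5 := List.append_cancel_right this
      rw [h5, hw]
      simp
    rw [← e1, e2]
    -- reversal in the letters `z_2, z_2 z_1`
    have hlen := expand_length t
    have hE : EvL (2 * r + 1) 1 F := by
      intro w _ hwl hwc
      have := expand_length w
      omega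
    have hL := lieLike (by omega) h hE r (by omega) (by omega)
    have e3 := anti _ r (fun u v hu hv hn => hL.sh u v hu hv hn) t (by omega)
    have hr1 : t.reverse.length = r ∧ t.reverse.count true = 1 := by
      rw [List.length_reverse, List.count_reverse]
      omega
    have hr2 : t.length = r ∧ t.count true = 1 := by omega
    simp only [if_pos hr1, if_pos hr2] at e3
    exact e3

end MP154526.Low.Anti
end
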