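import Pool.Agent.Lib.MP_154526_nt.Low.Spec
import Pool.Agent.Lib.MP_154526_nt.Low.Basic

/-!
# Module BND: bounds for the truncated sums
-/

set_option autoImplicit false

namespace MP154526.Low

open Finset MP154526.Bound MP154526.Top MP154526.Top.Pass2 MP154526.Lin

namespace Bnd

/-- the truncated sums as real numbers -/
noncomputable def wr (l : List ℕ) (N : ℕ) : ℝ := ((win l 0 N : ℚ) : ℝ)

@[simp] theorem wr_nil (N : ℕ) : wr [] N = 1 := by simp [wr]

@[simp] theorem wr_cons_zero (a : ℕ) (l : List ℕ) : wr (a :: l) 0 = 0 := by simp [wr]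

theorem wr_cons_succ (a : ℕ) (l : List ℕ) (N : ℕ) :
    wr (a :: l) (N + 1) = wr (a :: l) N + wr l N / ((N : ℝ) + 1) ^ (a + 1) := by
  simp only [wr, win_cons_succ, Nat.zero_le, if_true]
  push_cast
  ring

theorem wr_cons (a : ℕ) (l : List ℕ) (N : ℕ) :
    wr (a :: l) N = ∑ n ∈ range N, wr l n / ((n : ℝ) + 1) ^ (a + 1) := by
  induction N with
  | zero => simp
  | succ N ih => rw [wr_cons_succ, ih, sum_range_succ]

theorem wr_nonneg (l : List ℕ) (N : ℕ) : 0 ≤ wr l N := by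
  induction l generalizing N with
  | nil => simp
  | cons a l ih =>
    rw [wr_cons]
    exact sum_nonneg fun n _ => div_nonneg (ih n) (by positivity)

theorem wr_mono (l : List ℕ) {M N : ℕ} (h : M ≤ N) : wr l M ≤ wr l N := by
  cases l with
  | nil => simp
  | cons a l =>
    rw [wr_cons, wr_cons]
    exact sum_le_sum_of_subset_of_nonneg (range_mono h)
      fun n _ _ => div_nonneg (wr_nonneg l n) (by positivity)

/-- `zs` in terms of `win` -/
theorem zs_eq (l : List ℕ) (N : ℕ) : zs (l.map (· + 1)) N = wr l N := by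
  induction l generalizing N with
  | nil => simp [zs]
  | cons a l ih =>
    rw [List.map_cons, zs, wr_cons]
    exact sum_congr rfl fun n _ => by rw [ih]

theorem zeta_cons (a : ℕ) (l : List ℕ) :
    zeta ((a :: l).map (· + 1)) = ∑' n : ℕ, wr l n / ((n : ℝ) + 1) ^ (a + 1) := by
  rw [List.map_cons, zeta]
  exact tsum_congr fun n => by rw [zs_eq]

/-- polynomial bound -/
theorem wr_le_pow (l : List ℕ) (N : ℕ) : wr l N ≤ ((N : ℝ) + 1) ^ l.length := by
  induction l generalizing N with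
  | nil => simp
  | cons a l ih =>
    rw [wr_cons]
    have h1 : ∀ n ∈ range N, wr l n / ((n : ℝ) + 1) ^ (a + 1) ≤ ((N : ℝ) + 1) ^ l.length := by
      intro n hn
      have hn' : n < N := mem_range.1 hn
      have h2 : wr l n / ((n : ℝ) + 1) ^ (a + 1) ≤ wr l n := by
        refine div_le_self (wr_nonneg l n) ?_
        exact one_le_pow₀ (by have : (0 : ℝ) ≤ n := Nat.cast_nonneg n
                              linarith)
      refine h2.trans ((ih n).trans ?_)
      have : (n : ℝ) ≤ N := by exact_mod_cast hn'.le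
      exact pow_le_pow_left₀ (by positivity) (by linarith) _
    refine (sum_le_sum h1).trans ?_
    rw [sum_const, card_range, nsmul_eq_mul, List.length_cons, pow_succ, mul_comm]
    refine mul_le_mul_of_nonneg_left (by linarith) (by positivity)

/-- `∑_{n<N} 1/(n+1) ≤ 1 + log (N+1)` -/
theorem sum_inv_le (N : ℕ) : ∑ n ∈ range N, 1 / ((n : ℝ) + 1) ≤ 1 + Real.log ((N : ℝ) + 1) := by
  have h := harmonic_le_one_add_log N
  have h2 : ((harmonic N : ℚ) : ℝ) = ∑ n ∈ range N, 1 / ((n : ℝ) + 1) := by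
    rw [harmonic]
    push_cast
    exact sum_congr rfl fun n _ => by rw [one_div]
  rw [h2] at h
  refine h.trans ?_
  rcases Nat.eq_zero_or_pos N with rfl | hN
  · simp
  · have : Real.log (N : ℝ) ≤ Real.log ((N : ℝ) + 1) :=
      Real.log_le_log (by exact_mod_cast hN) (by linarith)
    linarith

theorem log_nonneg' (N : ℕ) : 0 ≤ Real.log ((N : ℝ) + 1) :=
  Real.log_nonneg (by have : (0 : ℝ) ≤ N := Nat.cast_nonneg N
                      linarith)

theorem wr_le_log (l : List ℕ) (N : ℕ) : wr l N ≤ (1 + Real.log ((N : ℝ) + 1)) ^ l.length := by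
  induction l generalizing N with
  | nil => simp
  | cons a l ih =>
    rw [wr_cons]
    set L : ℝ := 1 + Real.log ((N : ℝ) + 1) with hL
    have hL0 : 0 ≤ L := by have := log_nonneg' N; linarith
    have h1 : ∀ n ∈ range N, wr l n / ((n : ℝ) + 1) ^ (a + 1) ≤ L ^ l.length * (1 / ((n : ℝ) + 1)) := by
      intro n hn
      have hn' : n < N := mem_range.1 hn
      have hn1 : (1 : ℝ) ≤ (n : ℝ) + 1 := by
        have : (0 : ℝ) ≤ n := Nat.cast_nonneg n
        linarith
      have h2 : wr l n ≤ L ^ l.length := by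
        refine (wr_mono l hn'.le).trans (ih N)
      have h3 : (1 : ℝ) / ((n : ℝ) + 1) ^ (a + 1) ≤ 1 / ((n : ℝ) + 1) := by
        refine one_div_le_one_div_of_le (by linarith) ?_
        calc (n : ℝ) + 1 = ((n : ℝ) + 1) ^ 1 := (pow_one _).symm
          _ ≤ ((n : ℝ) + 1) ^ (a + 1) := pow_le_pow_right₀ hn1 (by omega)
      calc wr l n / ((n : ℝ) + 1) ^ (a + 1) = wr l n * (1 / ((n : ℝ) + 1) ^ (a + 1)) := by ring
        _ ≤ L ^ l.length * (1 / ((n : ℝ) + 1)) :=
          mul_le_mul h2 h3 (by positivity) (by positivity)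
    refine (sum_le_sum h1).trans ?_
    rw [← mul_sum, List.length_cons, pow_succ]
    exact mul_le_mul_of_nonneg_left (sum_inv_le N) (by positivity)

theorem bound_eps (ε : ℝ) (hε : 0 < ε) (l : List ℕ) :
    ∃ C : ℝ, 0 ≤ C ∧ ∀ N : ℕ, wr l N ≤ C * ((N : ℝ) + 1) ^ ε := by
  set k : ℕ := l.length with hk
  rcases Nat.eq_zero_or_pos k with h0 | hk0
  · have hl : l = [] := List.length_eq_zero_iff.1 h0
    subst hl
    refine ⟨1, zero_le_one, fun N => ?_⟩
    rw [wr_nil, one_mul]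
    exact Real.one_le_rpow (by have : (0 : ℝ) ≤ N := Nat.cast_nonneg N
                               linarith) hε.le
  · have hk' : (0 : ℝ) < k := by exact_mod_cast hk0
    set δ : ℝ := ε / k with hδ
    have hδ0 : 0 < δ := div_pos hε hk'
    refine ⟨(1 + 1 / δ) ^ k, by positivity, fun N => ?_⟩
    have hN : (0 : ℝ) ≤ N := Nat.cast_nonneg N
    have h1 : Real.log ((N : ℝ) + 1) ≤ ((N : ℝ) + 1) ^ δ / δ :=
      Real.log_le_rpow_div (by linarith) hδ0
    have h2 : (1 : ℝ) ≤ ((N : ℝ) + 1) ^ δ := Real.one_le_rpow (by linarith) hδ0.le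
    have h3 : 1 + Real.log ((N : ℝ) + 1) ≤ (1 + 1 / δ) * ((N : ℝ) + 1) ^ δ := by
      have : ((N : ℝ) + 1) ^ δ / δ = 1 / δ * ((N : ℝ) + 1) ^ δ := by ring
      rw [add_mul, one_mul]
      linarith
    refine (wr_le_log l N).trans ?_
    rw [← hk]
    refine (pow_le_pow_left₀ (by have := log_nonneg' N; linarith) h3 k).trans ?_
    rw [mul_pow, ← Real.rpow_natCast (((N : ℝ) + 1) ^ δ) k, ← Real.rpow_mul (by linarith)]
    have : δ * (k : ℝ) = ε := by rw [hδ]; field_simp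
    rw [this]

/-- `x^{-3/2} ≤ 4 (x^{-1/2} - (x+1)^{-1/2})` for `x ≥ 1` -/
theorem tele {x : ℝ} (hx : 1 ≤ x) :
    x ^ (-(3 / 2) : ℝ) ≤ 4 * (x ^ (-(1 / 2) : ℝ) - (x + 1) ^ (-(1 / 2) : ℝ)) := by
  have hx0 : 0 < x := by linarith
  set s : ℝ := Real.sqrt x with hs
  set r : ℝ := Real.sqrt (x + 1) with hr
  have hs2 : s ^ 2 = x := Real.sq_sqrt hx0.le
  have hr2 : r ^ 2 = x + 1 := Real.sq_sqrt (by linarith)
  have hs0 : 0 < s := Real.sqrt_pos.2 hx0
  have hr0 : 0 < r := Real.sqrt_pos.2 (by linarith)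
  have e1 : x ^ (-(1 / 2) : ℝ) = 1 / s := by
    rw [Real.rpow_neg hx0.le, ← Real.sqrt_eq_rpow, one_div]
  have e2 : (x + 1) ^ (-(1 / 2) : ℝ) = 1 / r := by
    rw [Real.rpow_neg (by linarith), ← Real.sqrt_eq_rpow, one_div]
  have e3 : x ^ (-(3 / 2) : ℝ) = 1 / s ^ 3 := by
    have : (-(3 / 2) : ℝ) = -(1 / 2) * 3 := by norm_num
    rw [this, Real.rpow_mul hx0.le, e1]
    norm_num
  rw [e1, e2, e3]
  have hrs : r ≤ 3 / 2 * s := by
    have : r ^ 2 ≤ (3 / 2 * s) ^ 2 := by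
      rw [mul_pow, hs2, hr2]
      nlinarith
    exact (pow_le_pow_iff_left₀ hr0.le (by positivity) (by norm_num)).1 this
  have hdiff : 1 / s - 1 / r = 1 / (s * r * (r + s)) := by
    have h1 : (r - s) * (r + s) = 1 := by ring_nf; rw [hs2, hr2]; ring
    have h2 : r - s = 1 / (r + s) := by field_simp; linarith
    have h3 : 1 / s - 1 / r = (r - s) / (s * r) := by field_simp
    rw [h3, h2]
    field_simp
  rw [hdiff]
  have hle : s * r * (r + s) ≤ 4 * s ^ 3 := by
    have h1 : s * r * (r + s) ≤ s * (3 / 2 * s) * (3 / 2 * s + s) := by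
      apply mul_le_mul
      · exact mul_le_mul_of_nonneg_left hrs hs0.le
      · linarith
      · positivity
      · positivity
    nlinarith [h1, pow_pos hs0 3]
  have h4 : 4 * (1 / (s * r * (r + s))) = 4 / (s * r * (r + s)) := by ring
  rw [h4, div_le_div_iff₀ (by positivity) (by positivity)]
  linarith

/-- the tail of the series -/
theorem tail_sum (C : ℝ) (hC : 0 ≤ C) (f : ℕ → ℝ)
    (h : ∀ n : ℕ, f n ≤ C * ((n : ℝ) + 1) ^ (-(3 / 2) : ℝ)) (N M : ℕ) :
    ∑ i ∈ range M, f (N + i) ≤ 4 * C * ((N : ℝ) + 1) ^ (-(1 / 2) : ℝ) := by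
  have key : ∑ i ∈ range M, f (N + i) ≤
      4 * C * (((N : ℝ) + 1) ^ (-(1 / 2) : ℝ) - ((N : ℝ) + M + 1) ^ (-(1 / 2) : ℝ)) := by
    induction M with
    | zero => simp
    | succ M ih =>
      rw [sum_range_succ]
      have h1 := h (N + M)
      have h2 := tele (x := (N : ℝ) + M + 1) (by
        have : (0 : ℝ) ≤ (N : ℝ) + M := by positivity
        linarith)
      push_cast at h1 ⊢
      have h3 : C * ((N : ℝ) + M + 1) ^ (-(3 / 2) : ℝ) ≤
          C * (4 * (((N : ℝ) + M + 1) ^ (-(1 / 2) : ℝ) - ((N : ℝ) + M + 1 + 1) ^ (-(1 / 2) : ℝ))) :=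
        mul_le_mul_of_nonneg_left h2 hC
      have h4 : (N : ℝ) + ((M : ℝ) + 1) + 1 = (N : ℝ) + M + 1 + 1 := by ring
      rw [h4]
      nlinarith [ih, h1, h3]
  refine key.trans ?_
  refine mul_le_mul_of_nonneg_left ?_ (by positivity)
  have : 0 ≤ ((N : ℝ) + M + 1) ^ (-(1 / 2) : ℝ) := by positivity
  linarith

/-- the terms of the multiple zeta series -/
theorem term_bound (a : ℕ) (l : List ℕ) (ha : 1 ≤ a) :
    ∃ C : ℝ, 0 ≤ C ∧ ∀ n : ℕ,
      wr l n / ((n : ℝ) + 1) ^ (a + 1) ≤ C * ((n : ℝ) + 1) ^ (-(3 / 2) : ℝ) := by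
  obtain ⟨C, hC, h⟩ := bound_eps (1 / 2) (by norm_num) l
  refine ⟨C, hC, fun n => ?_⟩
  have hn : (1 : ℝ) ≤ (n : ℝ) + 1 := by
    have : (0 : ℝ) ≤ n := Nat.cast_nonneg n
    linarith
  have hn0 : (0 : ℝ) < (n : ℝ) + 1 := by linarith
  have h1 : (1 : ℝ) / ((n : ℝ) + 1) ^ (a + 1) ≤ ((n : ℝ) + 1) ^ (-2 : ℝ) := by
    rw [Real.rpow_neg hn0.le, one_div]
    refine inv_anti₀ (by positivity) ?_
    calc ((n : ℝ) + 1) ^ (2 : ℝ) = ((n : ℝ) + 1) ^ 2 := by norm_cast
      _ ≤ ((n : ℝ) + 1) ^ (a + 1) := pow_le_pow_right₀ hn (by omega)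
  calc wr l n / ((n : ℝ) + 1) ^ (a + 1) = wr l n * (1 / ((n : ℝ) + 1) ^ (a + 1)) := by ring
    _ ≤ (C * ((n : ℝ) + 1) ^ (1 / 2 : ℝ)) * ((n : ℝ) + 1) ^ (-2 : ℝ) :=
      mul_le_mul (h n) h1 (by positivity) (by positivity)
    _ = C * ((n : ℝ) + 1) ^ (-(3 / 2) : ℝ) := by
      rw [mul_assoc, ← Real.rpow_add hn0]
      norm_num

theorem term_nonneg (a : ℕ) (l : List ℕ) (n : ℕ) : 0 ≤ wr l n / ((n : ℝ) + 1) ^ (a + 1) :=
  div_nonneg (wr_nonneg l n) (by positivity)

theorem term_summable (a : ℕ) (l : List ℕ) (ha : 1 ≤ a) :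
    Summable fun n : ℕ => wr l n / ((n : ℝ) + 1) ^ (a + 1) := by
  obtain ⟨C, hC, h⟩ := term_bound a l ha
  refine summable_of_sum_range_le (c := 4 * C * (((0 : ℕ) : ℝ) + 1) ^ (-(1 / 2) : ℝ))
    (term_nonneg a l) fun M => ?_
  have := tail_sum C hC _ h 0 M
  simpa using this

theorem specBnd : SpecBnd := by
  constructor
  · intro ε hε l
    obtain ⟨C, _, h⟩ := bound_eps ε hε l
    exact ⟨C, h⟩
  · intro a l ha
    obtain ⟨C, hC, h⟩ := term_bound a l ha
    have hs := term_summable a l ha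
    refine ⟨4 * C, fun N => ?_⟩
    have h1 : zeta ((a :: l).map (· + 1)) - ((win (a :: l) 0 N : ℚ) : ℝ) =
        ∑' i : ℕ, wr l (i + N) / (((i + N : ℕ) : ℝ) + 1) ^ (a + 1) := by
      rw [zeta_cons, ← hs.sum_add_tsum_nat_add N]
      have : ((win (a :: l) 0 N : ℚ) : ℝ) = ∑ n ∈ range N, wr l n / ((n : ℝ) + 1) ^ (a + 1) :=
        wr_cons a l N
      rw [this]
      ring
    rw [h1]
    constructor
    · exact tsum_nonneg fun i => term_nonneg a l (i + N)
    · refine Real.tsum_le_of_sum_range_le (fun i => term_nonneg a l (i + N)) fun M => ?_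
      have := tail_sum C hC _ h N M
      refine (sum_congr rfl fun i _ => ?_).trans_le this
      rw [add_comm i N]

end Bnd

theorem specBnd : SpecBnd := Bnd.specBnd

end MP154526.Low
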