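import Pool.Agent.Lib.MP_154526_nt.Top.Plan
import Pool.Agent.Lib.MP_154526_nt.Top.Stf
import Pool.Agent.Lib.MP_154526_nt.Top.FrontDefs
import Pool.Agent.Lib.MP_154526_nt.Lin.Harm1

/-!
# The lower bound: definitions

Words in `x, y` are lists of booleans, `false = x`, `true = y`.  Words in `y_1, y_2, …` are lists
of natural numbers, the letter `n` stands for `y_{n+1} = x^n y`.
-/

set_option autoImplicit false

namespace MP154526.Low

open Finset MP154526.Bound MP154526.Top MP154526.Top.Pass2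
open scoped TensorProduct

attribute [local instance 100] LieRing.ofAssociativeRing

/-! ### free associative algebras -/

section General

/-- The free associative algebra on the letters `α`. -/
abbrev FA (R α : Type) [CommRing R] : Type := MonoidAlgebra R (FreeMonoid α)

/-- The word `w` as an element of the free associative algebra. -/
noncomputable def ow (R : Type) [CommRing R] {α : Type} (w : List α) : FA R α :=
  MonoidAlgebra.single (FreeMonoid.ofList w) 1

variable {R α : Type} [CommRing R]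

/-- The coefficient of the word `w` in `f`. -/
def cf (f : FA R α) (w : List α) : R := f.coeff (FreeMonoid.ofList w)

/-- The linear map with prescribed values on words. -/
noncomputable def lext {M : Type} [AddCommGroup M] [Module R M] (φ : List α → M) :
    FA R α →ₗ[R] M :=
  (Finsupp.linearCombination R fun w : FreeMonoid α => φ w.toList) ∘ₗ
    (MonoidAlgebra.coeffLinearEquiv R).toLinearMap

/-- change of the coefficient ring -/
noncomputable def mp {S : Type} [CommRing S] (μ : R →+* S) : FA R α →+* FA S α :=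
  MonoidAlgebra.mapRingHom (FreeMonoid α) μ

/-- `d(a₁⋯a_n) = ∑ᵢ a₁⋯a_{i-1} d(aᵢ) a_{i+1}⋯a_n` -/
noncomputable def derW (d : α → FA R α) : List α → FA R α
  | [] => 0
  | a :: w => d a * ow R w + ow R [a] * derW d w

/-- The derivation of the free associative algebra sending the letter `a` to `d a`. -/
noncomputable def der (d : α → FA R α) : FA R α →ₗ[R] FA R α := lext (derW d)

/-- the shuffle coproduct: the letters are primitive -/
noncomputable def Dsh (R α : Type) [CommRing R] : FA R α →ₐ[R] FA R α ⊗[R] FA R α :=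
  MonoidAlgebra.lift R (FA R α ⊗[R] FA R α) (FreeMonoid α)
    (FreeMonoid.lift fun a => ow R [a] ⊗ₜ[R] 1 + 1 ⊗ₜ[R] ow R [a])

/-- the coefficient of `u ⊗ v` -/
noncomputable def cf2 (T : FA R α ⊗[R] FA R α) (u v : List α) : R :=
  TensorProduct.lid R R (TensorProduct.map (lext fun w => by classical exact if w = u then 1 else 0)
    (lext fun w => by classical exact if w = v then 1 else 0) T)

/-- `s ⊗ 1 + 1 ⊗ s` -/
noncomputable def cod (s : FA R α →ₗ[R] FA R α) :
    FA R α ⊗[R] FA R α →ₗ[R] FA R α ⊗[R] FA R α :=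
  TensorProduct.map s LinearMap.id + TensorProduct.map LinearMap.id s

/-- the Lie polynomials -/
noncomputable def LieF (R α : Type) [CommRing R] : LieSubalgebra R (FA R α) :=
  LieSubalgebra.lieSpan R (FA R α) (Set.range fun a : α => ow R [a])

end General

/-! ### the two sides -/

section XY

variable {R : Type} [CommRing R]

/-- the word `x^n y` -/
def xny (n : ℕ) : List Bool := List.replicate n false ++ [true]

/-- the operator `s_ψ(f) = ψ f + D_ψ(f)`, `D_ψ` = the derivation `x ↦ 0`, `y ↦ [y, ψ]` -/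
noncomputable def sop (ψ : FA R Bool) : FA R Bool →ₗ[R] FA R Bool :=
  LinearMap.mulLeft R ψ + der fun a => if a then ow R [true] * ψ - ψ * ow R [true] else 0

/-- the Ihara bracket -/
noncomputable def ihara (f g : FA R Bool) : FA R Bool := sop f g - sop g f

/-- `toY 0` rewrites a word `x^{a₁} y ⋯ x^{a_t} y` as the list of the `aᵢ`; words ending in `x` give
`none`. -/
def toY : ℕ → List Bool → Option (List ℕ)
  | 0, [] => some []
  | _ + 1, [] => none
  | k, false :: w => toY (k + 1) w
  | k, true :: w => (toY 0 w).map (List.cons k)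

/-- the projection to the words of `ℌ¹`, written in the letters `y_k` -/
noncomputable def piY : FA R Bool →ₗ[R] FA R ℕ := lext fun w => (toY 0 w).elim 0 (ow R)

/-- `y_n`, with `y_0 = 1` -/
noncomputable def yy (R : Type) [CommRing R] : ℕ → FA R ℕ
  | 0 => 1
  | n + 1 => ow R [n]

/-- The stuffle coproduct `Δ(y_n) = ∑_{i+j=n} y_i ⊗ y_j`. -/
noncomputable def Dst (R : Type) [CommRing R] : FA R ℕ →ₐ[R] FA R ℕ ⊗[R] FA R ℕ :=
  MonoidAlgebra.lift R (FA R ℕ ⊗[R] FA R ℕ) (FreeMonoid ℕ)
    (FreeMonoid.lift fun n => ∑ i ∈ range (n + 2), yy R i ⊗ₜ[R] yy R (n + 1 - i))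

/-- the derivation `y_n ↦ [ψ, x^{n-1}] y` of the algebra of the `y_n` -/
noncomputable def dY (ψ : FA R Bool) : FA R ℕ →ₗ[R] FA R ℕ :=
  der fun n => piY ((ψ * ow R (List.replicate n false) - ow R (List.replicate n false) * ψ) *
    ow R [true])

variable [Algebra ℚ R]

/-- `((-1)^{n-1}/n) (ψ | x^{n-1}y) y_1^n` -/
noncomputable def corr (n : ℕ) (ψ : FA R Bool) : FA R ℕ :=
  (algebraMap ℚ R ((-1) ^ (n - 1) / n) * cf ψ (xny (n - 1))) • ow R (List.replicate n 0)

/-- `ψ_* = π_Y(ψ) + ((-1)^{n-1}/n) (ψ | x^{n-1}y) y_1^n` -/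
noncomputable def star (n : ℕ) (ψ : FA R Bool) : FA R ℕ := piY ψ + corr n ψ

/-- `ψ` is an element of weight `n` of the double shuffle Lie algebra -/
structure DM (n : ℕ) (ψ : FA R Bool) : Prop where
  three : 3 ≤ n
  hom : ∀ w, cf ψ w ≠ 0 → w.length = n
  even : Even n → cf ψ (xny (n - 1)) = 0
  sh : Dsh R Bool ψ = ψ ⊗ₜ[R] 1 + 1 ⊗ₜ[R] ψ
  st : Dst R (star n ψ) = star n ψ ⊗ₜ[R] 1 + 1 ⊗ₜ[R] star n ψ

/-- the operator `v ↦ corr v + D v + v π_Y(ψ)` -/
noncomputable def sst (n : ℕ) (ψ : FA R Bool) : FA R ℕ →ₗ[R] FA R ℕ :=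
  LinearMap.mulLeft R (corr n ψ) + dY ψ + LinearMap.mulRight R (piY ψ)

/-- number of leading letters `y_1` -/
def lead : List ℕ → ℕ
  | 0 :: w => lead w + 1
  | _ => 0

/-- the coefficient of `w` in `(∑ B_i y_1^i) π_Y(Φ)` -/
def tw (B : ℕ → R) (Φ : FA R Bool) (w : List ℕ) : R :=
  ∑ i ∈ range (lead w + 1), B i * cf Φ (bw (w.drop i))

/-- `Φ` is a solution of the regularised double shuffle equations up to weight `N` -/
structure DG (N : ℕ) (Φ : FA R Bool) (B : ℕ → R) : Prop where
  one : cf Φ [] = 1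
  zx : cf Φ [false] = 0
  zy : cf Φ [true] = 0
  sh : ∀ u v : List Bool, u.length + v.length ≤ N → shs (cf Φ) u v = cf Φ u * cf Φ v
  b0 : B 0 = 1
  bs : ∀ n, n < N → ((n : R) + 1) * B (n + 1) =
    ∑ k ∈ range (n + 1), (-1) ^ k * cf Φ (xny k) * B (n - k)
  st : ∀ u v : List ℕ, wt u + wt v ≤ N → stf (tw B Φ) u v = tw B Φ u * tw B Φ v

/-- the linear extension of `Φ`, evaluated on an element of `ℚ⟨x,y⟩` -/
noncomputable def evH (Φ : FA R Bool) (h : H) : R := h.sum fun w a => algebraMap ℚ R a * cf Φ w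

end XY

/-! ### modulo 2 -/

section Mod2

/-- words without `xx` -/
def nx : List Bool → Bool
  | false :: false :: _ => false
  | _ :: w => nx w
  | [] => true

/-- all coefficients at the words without `xx` and with at least `m` letters `x` vanish -/
def U (m : ℕ) : Submodule (ZMod 2) (FA (ZMod 2) Bool) where
  carrier := {f | ∀ w, nx w = true → m ≤ w.count false → cf f w = 0}
  zero_mem' := by
    intro w _ _
    rfl
  add_mem' := by
    intro f g hf hg w h1 h2
    have : cf (f + g) w = cf f w + cf g w := rfl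
    rw [this, hf w h1 h2, hg w h1 h2, add_zero]
  smul_mem' := by
    intro c f hf w h1 h2
    have : cf (c • f) w = c * cf f w := rfl
    rw [this, hf w h1 h2, mul_zero]

/-- `a ↦ [x, y]`, `b ↦ [[x, y], y]` (`a = false`, `b = true`) -/
noncomputable def evab (R : Type) [CommRing R] : FA R Bool →ₐ[R] FA R Bool :=
  MonoidAlgebra.lift R (FA R Bool) (FreeMonoid Bool) (FreeMonoid.lift fun s =>
    let a := ow R [false, true] - ow R [true, false]
    if s then a * ow R [true] - ow R [true] * a else a)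

/-- `c_k = ad(a)^k (b)` -/
noncomputable def cc (R : Type) [CommRing R] : ℕ → FA R Bool
  | 0 => ow R [true]
  | k + 1 => ow R [false] * cc R k - cc R k * ow R [false]

/-- Lie polynomials in `a, b` over `F_2` with `m` letters, `l` of them equal to `b` -/
def HL (m l : ℕ) (L : FA (ZMod 2) Bool) : Prop :=
  L ∈ LieF (ZMod 2) Bool ∧ ∀ w, cf L w ≠ 0 → w.length = m ∧ w.count true = l

/-- reduction modulo 2 -/
noncomputable def red : FA ℤ Bool →+* FA (ZMod 2) Bool := mp (Int.castRingHom (ZMod 2))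

/-- the rational element -/
noncomputable def rat : FA ℤ Bool →+* FA ℚ Bool := mp (Int.castRingHom ℚ)

/-- integral elements `σ_{2k+3}` with top part `c_k` -/
structure Sig (σ : ℕ → FA ℤ Bool) : Prop where
  dm : ∀ k, DM (2 * k + 3) (rat (σ k))
  top : ∀ k, red (σ k) - evab (ZMod 2) (cc (ZMod 2) k) ∈ U (k + 1)

/-- `s_{σ_{l₁}} ⋯ s_{σ_{l_r}} Φ` -/
noncomputable def sw {R : Type} [CommRing R] (σ : ℕ → FA R Bool) (l : List ℕ) (Φ : FA R Bool) :
    FA R Bool := l.foldr (fun k f => sop (σ k) f) Φ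

/-- `∑ (2 l_i + 3)` -/
def w35 (l : List ℕ) : ℕ := (l.map fun k => 2 * k + 3).sum

end Mod2

/-! ### real multiple zeta values -/

section Real

/-- the truncated sums `∑_{N ≥ n₁ > ⋯ > n_t ≥ 1} ∏ 1/n_i^{k_i}` -/
noncomputable def zs : List ℕ → ℕ → ℝ
  | [], _ => 1
  | k :: ks, N => ∑ n ∈ range N, zs ks n / ((n : ℝ) + 1) ^ k

/-- the multiple zeta value `ζ(k₁, …, k_t) = ∑_{n₁ > ⋯ > n_t ≥ 1} ∏ 1/n_i^{k_i}` -/
noncomputable def zeta : List ℕ → ℝ
  | [] => 1
  | k :: ks => ∑' n : ℕ, zs ks n / ((n : ℝ) + 1) ^ k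

/-- the value at a word of `ℌ⁰` -/
noncomputable def Zw (w : List Bool) : ℝ := (toY 0 w).elim 0 fun l => zeta (l.map (· + 1))

/-- the `ℚ`-linear map `Z : ℌ⁰ → ℝ` -/
noncomputable def Z : H →ₗ[ℚ] ℝ := Finsupp.linearCombination ℚ Zw

end Real

end MP154526.Low
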