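import Pool.Agent.Lib.MP_154526_nt.Low.Defs
import Pool.Agent.Lib.MP_154526_nt.Lin.Plan

/-!
# The lower bound: the operators on words (dual form), definitions and hypotheses of LEVEL, DESCENT, IND

`T n ψ φ w = ∑_{w = a u b, |u| = n} ([a = 1 or a ends in y] - [b starts with y]) ψ(u) φ(ab)`,
the transpose of `s_ψ(φ) = ψ φ + d_ψ(φ)`, `d_ψ(x) = 0`, `d_ψ(y) = [y, ψ]`.
-/

set_option autoImplicit false

namespace MP154526.Low

open Finset MP154526.Top MP154526.Top.Front MP154526.Top.Pass2 MP154526.Lin

section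

variable {K M : Type} [CommRing K] [AddCommGroup M] [Module K M]

/-- the term of the factorisation `w = u b`, `|u| = n`; `c` says whether the letter before is `y`
(or there is none) -/
def hd (n : ℕ) (ψ : List Bool → K) (c : Bool) (φ : List Bool → M) (w : List Bool) : M :=
  if n ≤ w.length then
    (((if c then 1 else 0) - (if (w.drop n).head? = some true then 1 else 0) : K) *
      ψ (w.take n)) • φ (w.drop n)
  else 0

/-- sum over all factorisations `w = a u b`, `|u| = n` -/
def TT (n : ℕ) (ψ : List Bool → K) : Bool → (List Bool → M) → List Bool → M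
  | c, φ, [] => hd n ψ c φ []
  | c, φ, a :: w => hd n ψ c φ (a :: w) + TT n ψ a (fun v => φ (a :: v)) w

/-- the operator `φ ↦ s_ψ(φ)`, `ψ` of weight `n`, functionals on words -/
def T (n : ℕ) (ψ : List Bool → K) (φ : List Bool → M) (w : List Bool) : M := TT n ψ true φ w

/-- `ψ` of weight `n` kills the products of nonempty words and the regularised double shuffle
relations (only the values on words of length `n` matter) -/
structure DW (n : ℕ) (ψ : List Bool → K) : Prop where
  three : 3 ≤ n
  even : Even n → ψ (bw [n - 1]) = 0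
  sh : ∀ u v : List Bool, u ≠ [] → v ≠ [] → u.length + v.length = n → shs ψ u v = 0
  st : ∀ u v : List ℕ, u ≠ [] → v ≠ [] → Ad v → wt u + wt v = n →
    stf (fun l => ψ (bw l)) u v = 0

end

/-- SHW: `T ψ` is a derivation for the shuffle product -/
def SpecShW : Prop :=
  ∀ (K M : Type) [CommRing K] [AddCommGroup M] [Module K M] (n : ℕ) (ψ : List Bool → K),
    1 ≤ n → (∀ u v : List Bool, u ≠ [] → v ≠ [] → u.length + v.length = n → shs ψ u v = 0) →
    ∀ (φ : List Bool → M) (u v : List Bool),
      shs (T n ψ φ) u v = T n ψ (fun s => shs φ s v) u + T n ψ (fun s => shs φ u s) v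

/-- RACW (from RAC, PIS, SHW): `T ψ` preserves the functionals killing the regularised double
shuffle relations -/
def SpecRacW : Prop :=
  ∀ (n m : ℕ) (ψ φ : List Bool → ℤ), DW n ψ → RR m φ → RR (n + m) (T n ψ φ)

/-- EXW (from EXIST): integral elements with non-zero depth one coefficient -/
def SpecExW : Prop := ∀ k : ℕ, ∃ ψ : List Bool → ℤ, DW (2 * k + 3) ψ ∧ ψ (bw [2 * k + 2]) ≠ 0

/-- PIW (from REAL): `ζ(2,…,2) ≠ 0` -/
def SpecPiW : Prop := ∀ m : ℕ, ∃ φ : List Bool → ℤ, RR (2 * m) φ ∧ φ (zp m) ≠ 0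

/-- INDW (from SHW, RACW, EXW, PIW; helper19): the words in `z_2`, `z_2 z_1` are independent -/
def SpecIndW : Prop :=
  ∀ (N : ℕ) (S : Finset (List Bool)) (c : List Bool → ℤ), (∀ s ∈ S, (expand s).length = N) →
    (∀ φ : List Bool → ℤ, RR N φ → ∑ s ∈ S, c s * φ (expand s) = 0) → ∀ s ∈ S, c s = 0

end MP154526.Low
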