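import Pool.Agent.Lib.MP_154526_nt.Low.DualDefs
import Pool.Agent.Lib.MP_154526_nt.Top.Fin

/-!
# LEVEL: modulo 2 the operators drop the level (number of `z_2 z_1`) by at least one, and the part
dropping it by exactly one is the removal of suffixes
-/

set_option autoImplicit false

namespace MP154526.Low.Level

open Finset MP154526.Top MP154526.Lin

/-! ### generalities on `TT` -/

section

variable {K M : Type} [CommRing K] [AddCommGroup M] [Module K M]

theorem TT_nil (n : ℕ) (ψ : List Bool → K) (c : Bool) (φ : List Bool → M) :
    TT n ψ c φ [] = hd n ψ c φ [] := rfl

theorem TT_cons (n : ℕ) (ψ : List Bool → K) (c : Bool) (φ : List Bool → M) (a : Bool)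
    (w : List Bool) :
    TT n ψ c φ (a :: w) = hd n ψ c φ (a :: w) + TT n ψ a (fun v => φ (a :: v)) w := rfl

theorem hd_short (n : ℕ) (ψ : List Bool → K) (c : Bool) (φ : List Bool → M) (w : List Bool)
    (h : w.length < n) : hd n ψ c φ w = 0 := by
  unfold hd
  rw [if_neg (by omega)]

theorem hd_true_zero (n : ℕ) (ψ : List Bool → K) (φ : List Bool → M) (w : List Bool)
    (h : (w.drop n).head? = some true) : hd n ψ true φ w = 0 := by
  unfold hd
  rw [if_pos h]
  simp

theorem hd_false_zero (n : ℕ) (ψ : List Bool → K) (φ : List Bool → M) (w : List Bool)
    (h : (w.drop n).head? ≠ some true) : hd n ψ false φ w = 0 := by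
  unfold hd
  rw [if_neg h]
  simp

theorem hd_true_eq (n : ℕ) (ψ : List Bool → K) (φ : List Bool → M) (u b : List Bool)
    (hu : u.length = n) (h : b.head? ≠ some true) : hd n ψ true φ (u ++ b) = ψ u • φ b := by
  unfold hd
  rw [if_pos (by rw [List.length_append]; omega), List.drop_left' hu, List.take_left' hu, if_neg h]
  simp

theorem hd_false_eq (n : ℕ) (ψ : List Bool → K) (φ : List Bool → M) (u b : List Bool)
    (hu : u.length = n) : hd n ψ false φ (u ++ true :: b) = -(ψ u • φ (true :: b)) := by
  unfold hd
  rw [if_pos (by rw [List.length_append]; omega), List.drop_left' hu, List.take_left' hu]
  simp

end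

/-! ### expanded words -/

theorem expand_length (s : List Bool) : (expand s).length = 2 * s.length + s.count true := by
  induction s with
  | nil => rfl
  | cons a s ih =>
    cases a
    · simp only [expand, List.length_cons, ih, List.count_cons]
      simp
      omega
    · simp only [expand, List.length_cons, ih, List.count_cons]
      simp
      omega

theorem expand_append (u v : List Bool) : expand (u ++ v) = expand u ++ expand v :=
  FinN.expand_append u v

theorem expand_head (s : List Bool) : (expand s).head? ≠ some true := by
  cases s with
  | nil => simp [expand]
  | cons a s => cases a <;> simp [expand]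

/-- the position `n` in an expanded word -/
theorem cut (s : List Bool) : ∀ n, n ≤ (expand s).length →
    (∃ t β, s = t ++ β ∧ (expand t).length = n) ∨
    (∃ t c β, s = t ++ c :: β ∧ (expand t).length + 1 = n) ∨
    (∃ t β, s = t ++ true :: β ∧ (expand t).length + 2 = n) := by
  induction s with
  | nil =>
    intro n hn
    have : n = 0 := by simpa [expand] using hn
    exact Or.inl ⟨[], [], rfl, by simp [expand, this]⟩
  | cons a s ih =>
    intro n hn
    rcases n with _ | n
    · exact Or.inl ⟨[], a :: s, rfl, rfl⟩
    rcases n with _ | n
    · exact Or.inr (Or.inl ⟨[], a, s, rfl, rfl⟩)
    cases a with
    | false =>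
      have hn' : n ≤ (expand s).length := by
        simp only [expand, List.length_cons] at hn
        omega
      rcases ih n hn' with ⟨t, β, h, hl⟩ | ⟨t, c, β, h, hl⟩ | ⟨t, β, h, hl⟩
      · exact Or.inl ⟨false :: t, β, by rw [h]; rfl, by simp [expand, hl]⟩
      · exact Or.inr (Or.inl ⟨false :: t, c, β, by rw [h]; rfl, by
          simp only [expand, List.length_cons]; omega⟩)
      · exact Or.inr (Or.inr ⟨false :: t, β, by rw [h]; rfl, by
          simp only [expand, List.length_cons]; omega⟩)
    | true =>
      rcases n with _ | n
      · exact Or.inr (Or.inr ⟨[], s, rfl, rfl⟩)
      have hn' : n ≤ (expand s).length := by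
        simp only [expand, List.length_cons] at hn
        omega
      rcases ih n hn' with ⟨t, β, h, hl⟩ | ⟨t, c, β, h, hl⟩ | ⟨t, β, h, hl⟩
      · exact Or.inl ⟨true :: t, β, by rw [h]; rfl, by simp [expand, hl]⟩
      · exact Or.inr (Or.inl ⟨true :: t, c, β, by rw [h]; rfl, by
          simp only [expand, List.length_cons]; omega⟩)
      · exact Or.inr (Or.inr ⟨true :: t, β, by rw [h]; rfl, by
          simp only [expand, List.length_cons]; omega⟩)

/-- convolution -/
def cv (F q : List Bool → ZMod 2) (s : List Bool) : ZMod 2 :=
  ∑ i ∈ range (s.length + 1), F (s.take i) * q (s.drop i)

theorem cv_nil (F q : List Bool → ZMod 2) : cv F q [] = F [] * q [] := by simp [cv]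

theorem cv_cons (F q : List Bool → ZMod 2) (a : Bool) (s : List Bool) :
    cv F q (a :: s) = F [] * q (a :: s) + cv (fun t => F (a :: t)) q s := by
  unfold cv
  rw [List.length_cons, Finset.sum_range_succ', add_comm]
  simp

/-- the functional `q` of a functional `f` of weight `n`: the part of level `1` -/
def qq (n : ℕ) (f : List Bool → ZMod 2) (t : List Bool) : ZMod 2 :=
  if t.count true = 1 ∧ (expand t).length = n then f (expand t) else 0

/-- the conditions on `f` -/
structure HF (r : ℕ) (f : List Bool → ZMod 2) : Prop where
  one : f (true :: expand (List.replicate r false)) = 0
  rot : ∀ t : List Bool, t.count true = 1 → (expand t).length = 2 * r + 1 →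
    f ((expand t).tail ++ [false]) = f (expand t)

theorem count_zero {t : List Bool} (h : t.count true = 0) : t = List.replicate t.length false := by
  induction t with
  | nil => rfl
  | cons a t ih =>
    cases a
    · rw [List.length_cons, List.replicate_succ, ← ih (by simpa using h)]
    · simp at h

theorem expand_rep_tail (r : ℕ) :
    (expand (List.replicate (r + 1) false)).tail ++ [false, true] =
      true :: expand (List.replicate (r + 1) false) := by
  have h : ∀ r : ℕ, expand (List.replicate r false) ++ [false, true] =
      false :: true :: expand (List.replicate r false) := by
    intro r
    induction r with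
    | zero => rfl
    | succ r ih =>
      rw [List.replicate_succ]
      simp only [expand, List.cons_append]
      rw [ih]
  rw [List.replicate_succ]
  simp only [expand, List.tail_cons, List.cons_append]
  rw [h]

/-- the terms with the prefix of length `n` and of length `n` after the first letter -/
theorem XY (r : ℕ) (f : List Bool → ZMod 2) (hf : HF (r + 1) f) (k : ℕ) (φ : List Bool → ZMod 2)
    (hφ : ∀ s : List Bool, s.count true < k → φ (expand s) = 0) (s : List Bool) (hs : s ≠ [])
    (hk : s.count true ≤ k + 1) :
    hd (2 * (r + 1) + 1) f true φ (expand s) +
      hd (2 * (r + 1) + 1) f false (fun v => φ (false :: v)) (expand s).tail =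
      if s.count true = k + 1 then φ [] * qq (2 * (r + 1) + 1) f s else 0 := by
  set n := 2 * (r + 1) + 1 with hn
  have hx : ∃ w, expand s = false :: w := by
    cases s with
    | nil => exact absurd rfl hs
    | cons a s => cases a <;> exact ⟨_, rfl⟩
  obtain ⟨w, hw⟩ := hx
  by_cases hlen : n ≤ (expand s).length
  · rcases cut s n hlen with ⟨t, β, h, hl⟩ | ⟨t, c, β, h, hl⟩ | ⟨t, β, h, hl⟩
    · -- block border
      have hpar : t.count true % 2 = 1 := by
        have := expand_length t
        omega
      have e1 : (expand s).take n = expand t := by
        rw [h, expand_append, ← hl, List.take_left']
        rfl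
      have e2 : (expand s).drop n = expand β := by
        rw [h, expand_append, ← hl, List.drop_left']
        rfl
      have hX : hd n f true φ (expand s) = f (expand t) * φ (expand β) := by
        unfold hd
        rw [if_pos hlen, e1, e2, if_neg (expand_head β)]
        simp
      have hcount : s.count true = t.count true + β.count true := by rw [h, List.count_append]
      rcases β with _ | ⟨c, β⟩
      · have hY : hd n f false (fun v => φ (false :: v)) (expand s).tail = 0 := by
          unfold hd
          rw [if_neg]
          rw [h, List.append_nil, List.length_tail, hl]
          omega
        rw [hX, hY, add_zero]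
        have hst : s = t := by rw [h, List.append_nil]
        by_cases hc : s.count true = k + 1
        · rw [if_pos hc]
          by_cases h1 : s.count true = 1
          · have : qq n f s = f (expand t) := by
              unfold qq
              rw [if_pos ⟨h1, by rw [hst, hl]⟩, hst]
            rw [this]
            show f (expand t) * φ [] = _
            ring
          · have : φ (expand []) = 0 := hφ [] (by simp only [List.count_nil]; omega)
            have h2 : φ [] = 0 := this
            rw [this, h2]
            ring
        · rw [if_neg hc]
          have : φ (expand []) = 0 := hφ [] (by
            rw [hst] at hc hk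
            simp only [List.count_nil]
            omega)
          rw [this]
          ring
      · have hY : hd n f false (fun v => φ (false :: v)) (expand s).tail =
            - (f ((expand t).tail ++ [false]) * φ (expand (c :: β))) := by
          have ht : t ≠ [] := by
            rintro rfl
            simp at hpar
          obtain ⟨v, hv⟩ : ∃ v, expand t = false :: v := by
            cases t with
            | nil => exact absurd rfl ht
            | cons a t => cases a <;> exact ⟨_, rfl⟩
          obtain ⟨z, hz⟩ : ∃ z, expand (c :: β) = false :: true :: z := by
            cases c <;> exact ⟨_, rfl⟩
          have e0 : (expand s).tail = (v ++ [false]) ++ (true :: z) := by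
            rw [h, expand_append, hv, hz]
            simp
          have hvl : (v ++ [false]).length = n := by
            rw [← hl, hv]
            simp
          unfold hd
          rw [if_pos (by rw [e0, List.length_append, hvl]; omega), e0]
          rw [← hvl, List.take_left', List.drop_left']
          · rw [hv, hz]
            simp
          · rfl
          · rfl
        rw [hX, hY]
        by_cases h1 : t.count true = 1
        · rw [hf.rot t h1 hl, add_neg_cancel]
          symm
          split_ifs with hc
          · have hq : qq n f s = 0 := by
              unfold qq
              rw [if_neg]
              rintro ⟨_, h3⟩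
              rw [h, expand_append, List.length_append, hl] at h3
              have : (expand (c :: β)).length = 0 := by omega
              cases c <;> simp [expand] at this
            rw [hq, mul_zero]
          · rfl
        · have h3 : φ (expand (c :: β)) = 0 := hφ _ (by omega)
          rw [h3]
          symm
          split_ifs with hc
          · have hq : qq n f s = 0 := by
              unfold qq
              rw [if_neg]
              rintro ⟨h4, _⟩
              omega
            rw [hq]
            ring
          · ring
    · -- after `x`
      have hpar : t.count true % 2 = 0 := by
        have := expand_length t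
        omega
      obtain ⟨z, hz⟩ : ∃ z, expand (c :: β) = false :: true :: z := by
        cases c <;> exact ⟨_, rfl⟩
      have hes : expand s = (expand t ++ [false]) ++ (true :: z) := by
        rw [h, expand_append, hz]
        simp
      have hvl : (expand t ++ [false]).length = n := by simp [hl]
      have hX : hd n f true φ (expand s) = 0 := by
        unfold hd
        rw [if_pos hlen, hes, ← hvl, List.drop_left' rfl]
        simp
      have hq : s.count true = k + 1 → φ [] * qq n f s = 0 := by
        intro hc
        have hq : qq n f s = 0 := by
          unfold qq
          rw [if_neg]
          rintro ⟨_, h3⟩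
          rw [hes, List.length_append, hvl, List.length_cons] at h3
          omega
        rw [hq, mul_zero]
      have hrhs : (if s.count true = k + 1 then φ [] * qq n f s else 0) = 0 := by
        split_ifs with hc
        · exact hq hc
        · rfl
      rw [hX, hrhs, zero_add]
      cases c with
      | false =>
        have hz' : z = expand β := by
          simp only [expand, List.cons.injEq] at hz
          exact hz.2.2.symm
        refine hd_false_zero _ _ _ _ ?_
        rw [hes, hz']
        have e3 : ((expand t ++ [false]) ++ (true :: expand β)).tail.drop n = expand β := by
          rw [List.drop_tail]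
          have : ((expand t ++ [false]) ++ (true :: expand β)) =
            ((expand t ++ [false, true]) ++ expand β) := by simp
          rw [this, List.drop_left']
          simp only [List.length_append, List.length_cons, List.length_nil]
          omega
        rw [e3]
        exact expand_head β
      | true =>
        have hz' : z = true :: expand β := by
          simp only [expand, List.cons.injEq] at hz
          exact hz.2.2.symm
        have hcount : s.count true = t.count true + (1 + β.count true) := by
          rw [h, List.count_append, List.count_cons]
          simp
          omega
        have ht : t ≠ [] := by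
          rintro rfl
          simp [expand] at hl
          omega
        obtain ⟨v, hv⟩ : ∃ v, expand t = false :: v := by
          cases t with
          | nil => exact absurd rfl ht
          | cons a t => cases a <;> exact ⟨_, rfl⟩
        have e0 : (expand s).tail = (v ++ [false, true]) ++ (true :: expand β) := by
          rw [hes, hz', hv]
          simp
        have hvl2 : (v ++ [false, true]).length = n := by
          rw [hv] at hl
          simp only [List.length_cons] at hl
          simp only [List.length_append, List.length_cons, List.length_nil]
          omega
        have hY : hd n f false (fun v => φ (false :: v)) (expand s).tail =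
            - (f (v ++ [false, true]) * φ (expand (false :: β))) := by
          unfold hd
          rw [if_pos (by rw [e0, List.length_append, hvl2]; omega), e0]
          rw [← hvl2, List.take_left' rfl, List.drop_left' rfl]
          simp [expand]
        rw [hY]
        by_cases h0 : t.count true = 0
        · have h6 := count_zero h0
          have hlt : t.length = r + 1 := by
            have := expand_length t
            omega
          rw [hlt] at h6
          have h7 := expand_rep_tail r
          rw [← h6, hv, List.tail_cons] at h7
          rw [h7, ← hv, h6, hf.one]
          simp
        · have h8 : φ (expand (false :: β)) = 0 := hφ _ (by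
            rw [List.count_cons]
            simp
            omega)
          rw [h8]
          simp
    · -- after `xy` in `xyy`
      have hes : expand s = (expand t ++ [false, true]) ++ (true :: expand β) := by
        rw [h, expand_append]
        simp [expand]
      have hvl : (expand t ++ [false, true]).length = n := by simp [hl]
      have hX : hd n f true φ (expand s) = 0 := by
        unfold hd
        rw [if_pos hlen, hes, ← hvl, List.drop_left' rfl]
        simp
      have hrhs : (if s.count true = k + 1 then φ [] * qq n f s else 0) = 0 := by
        split_ifs with hc
        · have hq : qq n f s = 0 := by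
            unfold qq
            rw [if_neg]
            rintro ⟨_, h3⟩
            rw [hes, List.length_append, hvl, List.length_cons] at h3
            omega
          rw [hq, mul_zero]
        · rfl
      rw [hX, hrhs, zero_add]
      refine hd_false_zero _ _ _ _ ?_
      rw [hes]
      have e3 : ((expand t ++ [false, true]) ++ (true :: expand β)).tail.drop n = expand β := by
        rw [List.drop_tail]
        have : ((expand t ++ [false, true]) ++ (true :: expand β)) =
          ((expand t ++ [false, true, true]) ++ expand β) := by simp
        rw [this, List.drop_left']
        simp only [List.length_append, List.length_cons, List.length_nil]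
        omega
      rw [e3]
      exact expand_head β
  · have hX : hd n f true φ (expand s) = 0 := by
      unfold hd
      rw [if_neg hlen]
    have hY : hd n f false (fun v => φ (false :: v)) (expand s).tail = 0 := by
      unfold hd
      rw [if_neg]
      rw [List.length_tail]
      omega
    rw [hX, hY, add_zero]
    symm
    split_ifs with hc
    · have hq : qq n f s = 0 := by
        unfold qq
        rw [if_neg]
        rintro ⟨_, h3⟩
        omega
      rw [hq, mul_zero]
    · rfl

/-- the term inside `xyy` -/
theorem Zt (r : ℕ) (f : List Bool → ZMod 2) (hf : HF (r + 1) f) (k : ℕ) (φ : List Bool → ZMod 2)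
    (hφ : ∀ s : List Bool, s.count true < k → φ (expand s) = 0) (s : List Bool)
    (hk : s.count true ≤ k) :
    hd (2 * (r + 1) + 1) f true (fun v => φ (false :: true :: v)) (true :: expand s) = 0 := by
  set n := 2 * (r + 1) + 1 with hn
  by_cases hlen : n ≤ (expand s).length + 1
  · rcases cut s (2 * (r + 1)) (by omega) with ⟨t, β, h, hl⟩ | ⟨t, c, β, h, hl⟩ | ⟨t, β, h, hl⟩
    · have e1 : true :: expand s = (true :: expand t) ++ expand β := by
        rw [h, expand_append, List.cons_append]
      rw [e1, hd_true_eq n f _ _ _ (by rw [List.length_cons, hl]) (expand_head β)]
      have hpar : t.count true % 2 = 0 := by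
        have := expand_length t
        omega
      by_cases h0 : t.count true = 0
      · have h6 := count_zero h0
        have hlt : t.length = r + 1 := by
          have := expand_length t
          omega
        rw [hlt] at h6
        rw [h6, hf.one]
        simp
      · have hcount : s.count true = t.count true + β.count true := by rw [h, List.count_append]
        have h8 : φ (expand (false :: β)) = 0 := hφ _ (by
          rw [List.count_cons]
          simp
          omega)
        have h9 : φ (false :: true :: expand β) = 0 := h8
        simp [h9]
    · refine hd_true_zero _ _ _ _ ?_
      obtain ⟨z, hz⟩ : ∃ z, expand (c :: β) = false :: true :: z := by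
        cases c <;> exact ⟨_, rfl⟩
      rw [h, expand_append, hn, List.drop_succ_cons, hz]
      have : expand t ++ false :: true :: z = (expand t ++ [false]) ++ (true :: z) := by simp
      rw [this, List.drop_left' (by simp [hl])]
      rfl
    · refine hd_true_zero _ _ _ _ ?_
      rw [h, expand_append, hn, List.drop_succ_cons]
      have : expand t ++ expand (true :: β) = (expand t ++ [false, true]) ++ (true :: expand β) := by
        simp [expand]
      rw [this, List.drop_left' (by simp [hl])]
      rfl
  · exact hd_short _ _ _ _ _ (by rw [List.length_cons]; omega)

/-- LEVEL -/
theorem level (r : ℕ) (f : List Bool → ZMod 2) (hf : HF (r + 1) f) (s : List Bool) :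
    ∀ (k : ℕ) (φ : List Bool → ZMod 2), (∀ s : List Bool, s.count true < k → φ (expand s) = 0) →
      s.count true ≤ k + 1 → T (2 * (r + 1) + 1) f φ (expand s) =
        if s.count true = k + 1 then cv (fun t => φ (expand t)) (qq (2 * (r + 1) + 1) f) s
        else 0 := by
  set n := 2 * (r + 1) + 1 with hn
  induction s with
  | nil =>
    intro k φ hφ hk
    rw [if_neg (by simp)]
    exact hd_short n f true φ [] (by show 0 < n; omega)
  | cons a s ih =>
    intro k φ hφ hk
    cases a with
    | false =>
      have hXY := XY r f hf k φ hφ (false :: s) (by simp) hk
      have e : T n f φ (expand (false :: s)) = (hd n f true φ (expand (false :: s)) +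
          hd n f false (fun v => φ (false :: v)) (expand (false :: s)).tail) +
          T n f (fun v => φ (false :: true :: v)) (expand s) := by
        show TT n f true φ (false :: true :: expand s) = _
        rw [TT_cons, TT_cons]
        rw [add_assoc]
        rfl
      have hc : (false :: s).count true = s.count true := by simp
      rw [e, hXY, ih k (fun v => φ (false :: true :: v)) (fun s' hs' => hφ (false :: s')
        (by simpa using hs')) (by rw [← hc]; exact hk), hc]
      split_ifs with h1
      · rw [cv_cons]
        rfl
      · rw [add_zero]
    | true =>
      have hXY := XY r f hf k φ hφ (true :: s) (by simp) hk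
      have hc : (true :: s).count true = s.count true + 1 := by simp
      have hZ := Zt r f hf k φ hφ s (by omega)
      have e : T n f φ (expand (true :: s)) = (hd n f true φ (expand (true :: s)) +
          hd n f false (fun v => φ (false :: v)) (expand (true :: s)).tail) +
          (hd n f true (fun v => φ (false :: true :: v)) (true :: expand s) +
          T n f (fun v => φ (false :: true :: true :: v)) (expand s)) := by
        show TT n f true φ (false :: true :: true :: expand s) = _
        rw [TT_cons, TT_cons, TT_cons]
        rw [add_assoc]
        rfl
      rw [e, hXY, hZ, zero_add, hc]
      have hs : s.count true ≤ (k - 1) + 1 := by omega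
      rw [ih (k - 1) (fun v => φ (false :: true :: true :: v)) (fun s' hs' => hφ (true :: s')
        (by rw [List.count_cons]; simp; omega)) hs]
      by_cases h1 : s.count true + 1 = k + 1
      · rw [if_pos h1, if_pos h1, cv_cons]
        congr 1
        by_cases h2 : k = 0
        · subst h2
          have h0 : s.count true = 0 := by omega
          rw [if_neg (by omega)]
          symm
          unfold cv
          refine Finset.sum_eq_zero fun i _ => ?_
          have : qq n f (s.drop i) = 0 := by
            unfold qq
            rw [if_neg]
            rintro ⟨h3, _⟩
            have := (List.drop_sublist i s).count_le true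
            omega
          rw [this, mul_zero]
        · rw [if_pos (by omega)]
          rfl
      · rw [if_neg h1, if_neg h1, if_neg (by omega), add_zero]

end MP154526.Low.Level
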