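import Pool.Agent.Lib.MP_154526_nt.Low.Anti

/-!
# Operators on words: the class generated by the `D_ψ` and commutators
-/

set_option autoImplicit false

namespace MP154526.Low.Ops

open Finset MP154526.Top MP154526.Top.F2 MP154526.Top.Pass2 MP154526.Lin MP154526.Low.FrontL
open MP154526.Low.Level MP154526.Low.Anti

/-- combinations of words -/
abbrev HZ : Type := List Bool →₀ ℤ

/-- operators -/
abbrev Op : Type := HZ →ₗ[ℤ] HZ

section pull

variable {M : Type} [AddCommGroup M]

theorem shs_sub {α : Type} (F G : List α → M) (u v : List α) :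
    shs (fun w => F w - G w) u v = shs F u v - shs G u v := by
  have h := shs_map (-AddMonoidHom.id M) G u v
  have e : (fun w => F w - G w) = fun w => F w + (-AddMonoidHom.id M) (G w) := by
    funext w
    rw [sub_eq_add_neg]
    rfl
  rw [e, shs_add, ← h, sub_eq_add_neg]
  rfl

theorem stf_sub (F G : List ℕ → M) (u v : List ℕ) :
    stf (fun w => F w - G w) u v = stf F u v - stf G u v := by
  have h := stf_map (-AddMonoidHom.id M) G u v
  have e : (fun w => F w - G w) = fun w => F w + (-AddMonoidHom.id M) (G w) := by
    funext w
    rw [sub_eq_add_neg]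
    rfl
  rw [e, stf_add, ← h, sub_eq_add_neg]
  rfl

theorem rr_sub {n : ℕ} {φ χ : List Bool → M} (h : RR n φ) (h' : RR n χ) :
    RR n (fun w => φ w - χ w) where
  reg j w hj hw hn := by rw [shs_sub, h.reg j w hj hw hn, h'.reg j w hj hw hn, sub_zero]
  rds u v hv hn := by rw [shs_sub, stf_sub, h.rds u v hv hn, h'.rds u v hv hn]

/-- the transposed operator on functionals -/
noncomputable def pull (P : Op) (φ : List Bool → M) (w : List Bool) : M :=
  Finsupp.linearCombination ℤ φ (P (Finsupp.single w 1))

theorem lc_pull (P : Op) (φ : List Bool → M) (h : HZ) :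
    Finsupp.linearCombination ℤ (pull P φ) h = Finsupp.linearCombination ℤ φ (P h) := by
  induction h using Finsupp.induction_linear with
  | zero => simp
  | add f g hf hg => rw [map_add, map_add, map_add, hf, hg]
  | single w c =>
    rw [Finsupp.linearCombination_single]
    unfold pull
    rw [← map_smul, ← map_smul, Finsupp.smul_single, smul_eq_mul, mul_one]

theorem pull_mul (P Q : Op) (φ : List Bool → M) (w : List Bool) :
    pull (P * Q) φ w = pull Q (pull P φ) w := by
  show Finsupp.linearCombination ℤ φ ((P * Q) (Finsupp.single w 1)) = _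
  rw [Module.End.mul_apply, ← lc_pull]
  rfl

theorem pull_sub (P Q : Op) (φ : List Bool → M) (w : List Bool) :
    pull (P - Q) φ w = pull P φ w - pull Q φ w := by
  unfold pull
  rw [LinearMap.sub_apply, map_sub]

theorem pull_congr (P : Op) {φ χ : List Bool → M} (h : ∀ w, φ w = χ w) (w : List Bool) :
    pull P φ w = pull P χ w := by
  have : φ = χ := funext h
  rw [this]

theorem pull_add (P : Op) (φ χ : List Bool → M) (w : List Bool) :
    pull P (fun v => φ v + χ v) w = pull P φ w + pull P χ w := by
  unfold pull
  rw [Finsupp.linearCombination_apply, Finsupp.linearCombination_apply,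
    Finsupp.linearCombination_apply, ← Finsupp.sum_add]
  simp only [smul_add]

theorem pull_map {N : Type} [AddCommGroup N] (L : M →+ N) (P : Op) (φ : List Bool → M)
    (w : List Bool) : L (pull P φ w) = pull P (fun v => L (φ v)) w := by
  unfold pull
  rw [Finsupp.linearCombination_apply, Finsupp.linearCombination_apply, map_finsuppSum]
  simp only [map_zsmul]

theorem pull_zero (P : Op) (w : List Bool) : pull P (fun _ => (0 : M)) w = 0 := by
  unfold pull
  rw [Finsupp.linearCombination_apply]
  simp

/-- operators acting on different variables commute -/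
theorem pull_comm (P Q : Op) (Φ : List Bool → List Bool → M) (u v : List Bool) :
    pull P (fun s => pull Q (fun t => Φ s t) v) u = pull Q (fun t => pull P (fun s => Φ s t) u) v := by
  unfold pull
  simp only [Finsupp.linearCombination_apply, Finsupp.sum, Finset.smul_sum]
  rw [Finset.sum_comm]
  refine Finset.sum_congr rfl fun t _ => Finset.sum_congr rfl fun s _ => ?_
  rw [smul_comm]

end pull

/-- the unit functional -/
def eps (w : List Bool) : ℤ := if w = [] then 1 else 0

/-- the properties of the operators -/
structure Good (n l : ℕ) (q : List Bool → ZMod 2) (P : Op) : Prop where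
  pos : 1 ≤ n
  sh : ∀ (M : Type) [AddCommGroup M] (φ : List Bool → M) (u v : List Bool),
    shs (pull P φ) u v = pull P (fun s => shs φ s v) u + pull P (fun s => shs φ u s) v
  rr : ∀ (m : ℕ) (φ : List Bool → ℤ), RR m φ → RR (n + m) (pull P φ)
  z : ∀ (φ : List Bool → ℤ) (m : ℕ), n ≤ m → pull P φ (bw [m]) = 0
  lev : ∀ (k : ℕ) (φ : List Bool → ZMod 2),
    (∀ s : List Bool, s.count true < k → φ (expand s) = 0) →
    ∀ s : List Bool, s.count true ≤ k + l → pull P φ (expand s) =
      if s.count true = k + l then cv (fun t => φ (expand t)) q s else 0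
  supp : ∀ t, q t ≠ 0 → t.count true = l ∧ (expand t).length = n

/-! ### convolution -/

theorem cv_assoc (F q q' : List Bool → ZMod 2) (s : List Bool) :
    cv (cv F q) q' s = cv F (cv q q') s := by
  induction s generalizing F q with
  | nil => simp only [cv_nil]; ring
  | cons a s ih =>
    have e1 : (fun t => cv F q (a :: t)) =
        fun t => F [] * q (a :: t) + cv (fun t => F (a :: t)) q t := by
      funext t
      rw [cv_cons]
    have e2 : cv (fun t => F [] * q (a :: t) + cv (fun t => F (a :: t)) q t) q' s =
        F [] * cv (fun t => q (a :: t)) q' s + cv (cv (fun t => F (a :: t)) q) q' s := by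
      simp only [cv, Finset.mul_sum]
      rw [← Finset.sum_add_distrib]
      refine Finset.sum_congr rfl fun i _ => ?_
      ring
    rw [cv_cons, e1, e2, ih, cv_cons F, cv_cons q, cv_nil]
    ring

theorem cv_sub_right (F q q' : List Bool → ZMod 2) (s : List Bool) :
    cv F (fun t => q t - q' t) s = cv F q s - cv F q' s := by
  simp only [cv, ← Finset.sum_sub_distrib]
  refine Finset.sum_congr rfl fun i _ => ?_
  ring

theorem cv_congr_left {F F' q : List Bool → ZMod 2} {s : List Bool}
    (h : ∀ a t, s = a ++ t → q t ≠ 0 → F a = F' a) : cv F q s = cv F' q s := by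
  unfold cv
  refine Finset.sum_congr rfl fun i _ => ?_
  by_cases hq : q (s.drop i) = 0
  · rw [hq, mul_zero, mul_zero]
  · rw [h _ _ (List.take_append_drop i s).symm hq]

theorem cv_ne {F q : List Bool → ZMod 2} {s : List Bool} (h : cv F q s ≠ 0) :
    ∃ a t, s = a ++ t ∧ F a ≠ 0 ∧ q t ≠ 0 := by
  obtain ⟨i, _, hi⟩ := Finset.exists_ne_zero_of_sum_ne_zero h
  exact ⟨s.take i, s.drop i, (List.take_append_drop i s).symm, left_ne_zero_of_mul hi,
    right_ne_zero_of_mul hi⟩

theorem cv_unit (q : List Bool → ZMod 2) (s : List Bool) (c : List Bool → ZMod 2)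
    (h1 : c [] = 1) (h0 : ∀ t, t ≠ [] → c t = 0) : cv c q s = q s := by
  cases s with
  | nil => rw [cv_nil, h1, one_mul]
  | cons a s =>
    rw [cv_cons, h1, one_mul]
    have : cv (fun t => c (a :: t)) q s = 0 := by
      unfold cv
      refine Finset.sum_eq_zero fun i _ => ?_
      show c (a :: s.take i) * _ = 0
      rw [h0 _ (by simp), zero_mul]
    rw [this, add_zero]

/-! ### commutators -/

section comm

variable {n l n' l' : ℕ} {q q' : List Bool → ZMod 2} {P Q : Op}

theorem mul_lev (hP : Good n l q P) (hQ : Good n' l' q' Q) (k : ℕ) (φ : List Bool → ZMod 2)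
    (hφ : ∀ s : List Bool, s.count true < k → φ (expand s) = 0) (s : List Bool)
    (hs : s.count true ≤ k + (l + l')) :
    pull (P * Q) φ (expand s) =
      if s.count true = k + (l + l') then cv (fun t => φ (expand t)) (cv q q') s else 0 := by
  have h1 : ∀ s : List Bool, s.count true < k + l → pull P φ (expand s) = 0 := by
    intro s hs
    rw [hP.lev k φ hφ s (by omega), if_neg (by omega)]
  rw [pull_mul, hQ.lev (k + l) (pull P φ) h1 s (by omega)]
  by_cases hc : s.count true = k + (l + l')
  · rw [if_pos (by omega), if_pos hc, ← cv_assoc]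
    refine cv_congr_left fun a t hat hq => ?_
    have h2 := (hQ.supp t hq).1
    have h3 : s.count true = a.count true + t.count true := by rw [hat, List.count_append]
    rw [hP.lev k φ hφ a (by omega), if_pos (by omega)]
  · rw [if_neg (by omega), if_neg hc]

theorem mul_supp (hP : Good n l q P) (hQ : Good n' l' q' Q) (t : List Bool) (h : cv q q' t ≠ 0) :
    t.count true = l + l' ∧ (expand t).length = n + n' := by
  obtain ⟨a, b, rfl, ha, hb⟩ := cv_ne h
  have h1 := hP.supp a ha
  have h2 := hQ.supp b hb
  rw [List.count_append, expand_append, List.length_append]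
  omega

theorem comm_z' (hP : Good n l q P) (hQ : Good n' l' q' Q) (φ : List Bool → ℤ) (m : ℕ)
    (h : n + n' ≤ m + 1) : pull (P * Q - Q * P) φ (bw [m]) = 0 := by
  have h1 := hP.pos
  have h2 := hQ.pos
  rw [pull_sub, pull_mul, pull_mul, hQ.z _ m (by omega), hP.z _ m (by omega), sub_zero]

theorem good_comm (hP : Good n l q P) (hQ : Good n' l' q' Q) :
    Good (n + n') (l + l') (fun t => cv q q' t - cv q' q t) (P * Q - Q * P) where
  pos := by
    have := hP.pos
    omega
  sh := by
    intro M _ φ u v
    have key : ∀ (P Q : Op), (∀ (M : Type) [AddCommGroup M] (φ : List Bool → M) (u v : List Bool),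
        shs (pull P φ) u v = pull P (fun s => shs φ s v) u + pull P (fun s => shs φ u s) v) →
        (∀ (M : Type) [AddCommGroup M] (φ : List Bool → M) (u v : List Bool),
        shs (pull Q φ) u v = pull Q (fun s => shs φ s v) u + pull Q (fun s => shs φ u s) v) →
        shs (pull (P * Q) φ) u v = pull (P * Q) (fun s => shs φ s v) u +
          pull (P * Q) (fun s => shs φ u s) v +
          (pull Q (fun s => pull P (fun t => shs φ s t) v) u +
            pull P (fun s => pull Q (fun t => shs φ s t) v) u) := by
      intro P Q hP hQ
      have e0 : shs (pull (P * Q) φ) u v = shs (pull Q (pull P φ)) u v := by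
        congr 1
        funext w
        exact pull_mul P Q φ w
      rw [e0, hQ]
      have e1 : pull Q (fun s => shs (pull P φ) s v) u =
          pull (P * Q) (fun s => shs φ s v) u +
            pull Q (fun s => pull P (fun t => shs φ s t) v) u := by
        rw [pull_mul, ← pull_add]
        exact pull_congr _ (fun s => hP M φ s v) _
      have e2 : pull Q (fun s => shs (pull P φ) u s) v =
          pull P (fun s => pull Q (fun t => shs φ s t) v) u +
            pull (P * Q) (fun s => shs φ u s) v := by
        rw [pull_mul, pull_comm, ← pull_add]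
        exact pull_congr _ (fun s => hP M φ u s) _
      rw [e1, e2]
      abel
    have e3 : shs (pull (P * Q - Q * P) φ) u v =
        shs (pull (P * Q) φ) u v - shs (pull (Q * P) φ) u v := by
      rw [← shs_sub]
      congr 1
      funext w
      exact pull_sub _ _ _ _
    rw [e3, key P Q hP.sh hQ.sh, key Q P hQ.sh hP.sh]
    simp only [pull_sub]
    abel
  rr := by
    intro m φ hφ
    have h1 := hQ.rr _ _ (hP.rr m φ hφ)
    have h2 := hP.rr _ _ (hQ.rr m φ hφ)
    have e1 : n' + (n + m) = n + n' + m := by omega
    have e2 : n + (n' + m) = n + n' + m := by omega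
    rw [e1] at h1
    rw [e2] at h2
    have e4 : (pull (P * Q - Q * P) φ) =
        fun w => pull Q (pull P φ) w - pull P (pull Q φ) w := by
      funext w
      rw [pull_sub, pull_mul, pull_mul]
    rw [e4]
    exact rr_sub h1 h2
  z := by
    intro φ m hm
    exact comm_z' hP hQ φ m (by omega)
  lev := by
    intro k φ hφ s hs
    rw [pull_sub, mul_lev hP hQ k φ hφ s hs, mul_lev hQ hP k φ hφ s (by omega)]
    by_cases hc : s.count true = k + (l + l')
    · rw [if_pos hc, if_pos (by omega), if_pos hc, cv_sub_right]
    · rw [if_neg hc, if_neg (by omega), if_neg hc, sub_zero]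
  supp := by
    intro t ht
    by_cases h : cv q q' t = 0
    · have h2 : cv q' q t ≠ 0 := by
        intro h2
        rw [h, h2, sub_zero] at ht
        exact ht rfl
      have := mul_supp hQ hP t h2
      omega
    · exact mul_supp hP hQ t h

end comm

end MP154526.Low.Ops
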